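import Pool.Agent.H75.MX.Pair
import Pool.Agent.H75.MT.Construct

set_option autoImplicit false
set_option linter.unusedSectionVars false

/-! The preimage under the Bernoulli kernel and its integral norms. -/

open Finset ComplexConjugate MeasureTheory UnitAddTorus

open scoped ENNReal

namespace Pool.Agent.H75.MX

open Pool.Agent.H75.MT (ee sg ext cr)
open Pool.Agent.H75.UB (ex TT co tp)

noncomputable section

local instance : MeasureSpace UnitAddCircle := ⟨AddCircle.haarAddCircle⟩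

local instance : Measure.IsAddHaarMeasure (volume : Measure UnitAddCircle) :=
  inferInstanceAs (Measure.IsAddHaarMeasure AddCircle.haarAddCircle)

local instance : IsProbabilityMeasure (volume : Measure UnitAddCircle) :=
  inferInstanceAs (IsProbabilityMeasure AddCircle.haarAddCircle)

variable {d : ℕ}

lemma h40_mem_Rm {s : Fin d → ℕ} {k : Fr d} :
    k ∈ Rm s ↔ ∀ j, 2 * (8 : ℤ) ^ s j ≤ k j ∧ k j < 4 * 8 ^ s j := by
  unfold Rm
  rw [Fintype.mem_piFinset]
  simp only [Finset.mem_Ico]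

lemma h40_Rm_pos {s : Fin d → ℕ} {k : Fr d} (hk : k ∈ Rm s) (j : Fin d) : 0 < k j := by
  have h := (h40_mem_Rm.1 hk j).1
  have h1 : (0 : ℤ) < 8 ^ s j := by positivity
  linarith

lemma mu_norm (r : ℝ) (hr : 0 < r) (M : ℕ) (s : Fin d → ℕ) (hs : ∑ j, s j = M) (k : Fr d)
    (hk : k ∈ Rm s) : ‖mu r M k‖ ≤ (4 ^ d) ^ r := by
  unfold mu
  rw [norm_mul, Complex.norm_exp_ofReal_mul_I, mul_one, Complex.norm_real, Real.norm_eq_abs]
  have h0 : ∀ j, (0 : ℝ) < k j := fun j => by exact_mod_cast h40_Rm_pos hk j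
  have h6 : (0 : ℝ) ≤ (∏ j, (k j : ℝ)) / 8 ^ M :=
    div_nonneg (Finset.prod_nonneg (fun j _ => (h0 j).le)) (by positivity)
  rw [abs_of_nonneg (Real.rpow_nonneg h6 _)]
  refine Real.rpow_le_rpow h6 ?_ hr.le
  rw [div_le_iff₀ (by positivity)]
  have h1 : ∏ j, (k j : ℝ) ≤ ∏ j, (4 * (8 : ℝ) ^ s j) := by
    refine Finset.prod_le_prod (fun j _ => (h0 j).le) (fun j _ => ?_)
    exact_mod_cast (h40_mem_Rm.1 hk j).2.le
  refine h1.trans (le_of_eq ?_)
  rw [Finset.prod_mul_distrib, Finset.prod_const, Finset.card_univ, Fintype.card_fin,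
    Finset.prod_pow_eq_pow_sum, hs]

lemma cr_mu (r : ℝ) (M : ℕ) (k : Fr d) (h0 : ∀ j, 0 < k j) :
    (∏ i, cr r (k i)) * mu r M k = (((8 ^ M : ℝ) ^ (-r) : ℝ) : ℂ) := by
  have a0 : ∀ j, (0 : ℝ) < k j := fun j => by exact_mod_cast h0 j
  have hN : (0 : ℝ) < 8 ^ M := by positivity
  have h1 : ∀ i, cr r (k i) = (((k i : ℝ) ^ (-r) : ℝ) : ℂ)
      * Complex.exp ((-(Real.pi * r / 2) : ℝ) * Complex.I) := by
    intro i
    unfold MT.cr
    rw [if_neg (h0 i).ne', abs_of_pos (a0 i), sign_pos (a0 i), SignType.coe_one, mul_one]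
  have hP : (0 : ℝ) < ∏ j, (k j : ℝ) := Finset.prod_pos (fun j _ => a0 j)
  have h2 : ∏ i, cr r (k i) = ((((∏ j, (k j : ℝ)) ^ (-r) : ℝ)) : ℂ)
      * Complex.exp ((-(Real.pi * r * d / 2) : ℝ) * Complex.I) := by
    rw [Finset.prod_congr rfl (fun i _ => h1 i), Finset.prod_mul_distrib, ← Complex.ofReal_prod,
      Real.finsetProd_rpow _ _ (fun j _ => (a0 j).le), Finset.prod_const, Finset.card_univ,
      Fintype.card_fin, ← Complex.exp_nat_mul]
    congr 2
    push_cast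
    ring
  rw [h2]
  unfold mu
  have e2 : Complex.exp ((-(Real.pi * r * d / 2) : ℝ) * Complex.I)
      * Complex.exp ((Real.pi * r * d / 2 : ℝ) * Complex.I) = 1 := by
    rw [← Complex.exp_add]
    have : ((-(Real.pi * r * d / 2) : ℝ) : ℂ) * Complex.I
        + ((Real.pi * r * d / 2 : ℝ) : ℂ) * Complex.I = 0 := by
      push_cast
      ring
    rw [this, Complex.exp_zero]
  have e3 : (∏ j, (k j : ℝ)) ^ (-r) * ((∏ j, (k j : ℝ)) / 8 ^ M) ^ r = (8 ^ M : ℝ) ^ (-r) := by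
    rw [Real.div_rpow hP.le hN.le, Real.rpow_neg hP.le, Real.rpow_neg hN.le]
    have b0 : (∏ j, (k j : ℝ)) ^ r ≠ 0 := (Real.rpow_pos_of_pos hP r).ne'
    have b2 : (8 ^ M : ℝ) ^ r ≠ 0 := (Real.rpow_pos_of_pos hN r).ne'
    field_simp
  rw [← e3, Complex.ofReal_mul]
  linear_combination ((((∏ j, (k j : ℝ)) ^ (-r) : ℝ) : ℂ)
    * ((((∏ j, (k j : ℝ)) / 8 ^ M) ^ r : ℝ) : ℂ)) * e2

/-- the two coefficient sequences are related by the kernel -/
lemma member (hd : 1 ≤ d) {Y : Type*} [Fintype Y] [DecidableEq Y] (S : ℕ → Fin d → ℕ)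
    (e : ∀ i, Y ≃ Gd (S i)) (r : ℝ) (L M : ℕ) (hS : ∀ i < L, ∑ j, S i j = M)
    (ε : ℕ → Finset Y) (l : Fr d) :
    ((((8 ^ M : ℝ) ^ (-r) : ℝ)) : ℂ) * co (Tp S L (aa S e ε)) l
      = (∏ i, cr r (l i)) * co (Tp S L (pa S e r M ε)) l := by
  rw [co_Tp, co_Tp, Finset.mul_sum, Finset.mul_sum]
  refine Finset.sum_congr rfl (fun b _ => ?_)
  have h1 : ((((8 ^ M : ℝ) ^ (-r) : ℝ)) : ℂ) * (if l ∈ Rm (S b) then aa S e ε b l else 0)
      = (∏ i, cr r (l i)) * (if l ∈ Rm (S b) then pa S e r M ε b l else 0) := by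
    split_ifs with h
    · rw [← cr_mu r M l (h40_Rm_pos h)]
      unfold pa
      ring
    · rw [mul_zero, mul_zero]
  have h2 : ((((8 ^ M : ℝ) ^ (-r) : ℝ)) : ℂ)
        * (if -l ∈ Rm (S b) then conj (aa S e ε b (-l)) else 0)
      = (∏ i, cr r (l i)) * (if -l ∈ Rm (S b) then conj (pa S e r M ε b (-l)) else 0) := by
    split_ifs with h
    · have h3 := congrArg conj (cr_mu r M (-l) (h40_Rm_pos h))
      rw [map_mul, map_prod, Complex.conj_ofReal] at h3
      have h4 : ∀ i, conj (cr r ((-l) i)) = cr r (l i) := by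
        intro i
        rw [Pi.neg_apply, MT.cr_neg, Complex.conj_conj]
      rw [Finset.prod_congr rfl (fun i _ => h4 i)] at h3
      rw [← h3]
      unfold pa
      rw [map_mul]
      ring
    · rw [mul_zero, mul_zero]
  linear_combination (1 / 2) * h1 + (1 / 2) * h2

/-- pointwise bound by the essential supremum -/
lemma le_essSup (h : TT d → ℂ) (hc : Continuous h) (hfin : eLpNorm h ⊤ volume ≠ ⊤) (x : TT d) :
    ‖h x‖ ≤ (eLpNorm h ⊤ volume).toReal := by
  set C := (eLpNorm h ⊤ volume).toReal with hC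
  by_contra hcon
  push Not at hcon
  have hopen : IsOpen {x : TT d | C < ‖h x‖} := isOpen_lt continuous_const hc.norm
  have hae : ∀ᵐ y : TT d, ‖h y‖ ≤ C := by
    have h1 : ∀ᵐ y : TT d, ‖h y‖ₑ ≤ eLpNorm h ⊤ volume := by
      rw [eLpNorm_exponent_top]
      exact ae_le_eLpNormEssSup
    filter_upwards [h1] with y hy
    have h2 := ENNReal.toReal_mono hfin hy
    rw [toReal_enorm] at h2
    exact h2
  have hzero : volume {x : TT d | C < ‖h x‖} = 0 := by
    have h3 := ae_iff.1 hae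
    have h4 : {y : TT d | ¬ ‖h y‖ ≤ C} = {x : TT d | C < ‖h x‖} := by
      ext y
      simp only [not_le]
    rwa [h4] at h3
  have hemp := (hopen.measure_eq_zero_iff volume).1 hzero
  have : x ∈ {x : TT d | C < ‖h x‖} := hcon
  rw [hemp] at this
  exact this

section Moments

variable {Y : Type*} [Fintype Y] [DecidableEq Y]

/-- the kernel of the Rademacher sum -/
def kf (S : ℕ → Fin d → ℕ) (e : ∀ i, Y ≃ Gd (S i)) (r : ℝ) (M : ℕ) (x : TT d) (i : ℕ) (y : Y) :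
    ℝ :=
  (∑ k ∈ Rm (S i), ((1 / (Fintype.card Y : ℝ) : ℝ) : ℂ) *
      (mu r M k * mFourier k x * conj (chi (S i) (e i) k y))).re

lemma phi_rad (S : ℕ → Fin d → ℕ) (e : ∀ i, Y ≃ Gd (S i)) (r : ℝ) (M L : ℕ) (x : TT d)
    (ε : Fin L → Finset Y) :
    (Tp S L (pa S e r M (ext ε)) x).re
      = MT.rad (fun (b : Fin L) y => kf S e r M x b y) ε := by
  unfold Tp MT.rad
  rw [ContinuousMap.coe_sum, Finset.sum_apply, Complex.re_sum, Finset.sum_range]
  refine Finset.sum_congr rfl (fun b _ => ?_)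
  rw [rp_apply, Complex.ofReal_re, ← Complex.re_sum]
  have hext : ext ε (b : ℕ) = ε b := by
    unfold MT.ext
    rw [dif_pos b.2]
  have h1 : ∑ k ∈ Rm (S b), pa S e r M (ext ε) b k * mFourier k x
      = ∑ y, (sg (ε b) y : ℂ) * ∑ k ∈ Rm (S b),
        ((1 / (Fintype.card Y : ℝ) : ℝ) : ℂ) *
        (mu r M k * mFourier k x * conj (chi (S b) (e b) k y)) := by
    have h2 : ∀ k, pa S e r M (ext ε) b k * mFourier k x
        = ∑ y, (sg (ε b) y : ℂ) * (((1 / (Fintype.card Y : ℝ) : ℝ) : ℂ) *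
        (mu r M k * mFourier k x * conj (chi (S b) (e b) k y))) := by
      intro k
      unfold pa aa
      rw [hext]
      unfold hat
      rw [Finset.mul_sum, Finset.mul_sum, Finset.sum_mul]
      refine Finset.sum_congr rfl (fun y _ => ?_)
      ring
    rw [Finset.sum_congr rfl (fun k _ => h2 k), Finset.sum_comm]
    refine Finset.sum_congr rfl (fun y _ => ?_)
    rw [Finset.mul_sum]
  rw [h1, Complex.re_sum]
  refine Finset.sum_congr rfl (fun y _ => ?_)
  rw [Complex.re_ofReal_mul]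
  rfl

lemma h40_dual_norm (s : Fin d → ℕ) (e : Y ≃ Gd s) (v : Y → ℝ) :
    ∑ k ∈ Rm s, ‖∑ y, (v y : ℂ) * chi s e k y‖ ^ 2
      = (Fintype.card Y : ℝ) * ∑ y, v y ^ 2 := by
  have h1 : ∀ k, ((‖∑ y, (v y : ℂ) * chi s e k y‖ ^ 2 : ℝ) : ℂ)
      = ∑ y, ∑ y', (v y : ℂ) * (v y' : ℂ) * (chi s e k y * conj (chi s e k y')) := by
    intro k
    rw [← Complex.normSq_eq_norm_sq, Complex.normSq_eq_conj_mul_self, map_sum, Finset.sum_mul_sum,
      Finset.sum_comm]
    refine Finset.sum_congr rfl (fun y _ => Finset.sum_congr rfl (fun y' _ => ?_))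
    rw [map_mul, Complex.conj_ofReal]
    ring
  have h2 : ((∑ k ∈ Rm s, ‖∑ y, (v y : ℂ) * chi s e k y‖ ^ 2 : ℝ) : ℂ)
      = (((Fintype.card Y : ℝ) * ∑ y, v y ^ 2 : ℝ) : ℂ) := by
    rw [Complex.ofReal_sum, Finset.sum_congr rfl (fun k _ => h1 k), Finset.sum_comm]
    have h3 : ∀ y, ∑ k ∈ Rm s, ∑ y', (v y : ℂ) * (v y' : ℂ) * (chi s e k y * conj (chi s e k y'))
        = (Fintype.card Y : ℂ) * (v y : ℂ) ^ 2 := by
      intro y
      rw [Finset.sum_comm]
      have h4 : ∀ y', ∑ k ∈ Rm s, (v y : ℂ) * (v y' : ℂ) * (chi s e k y * conj (chi s e k y'))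
          = if y = y' then (Fintype.card Y : ℂ) * (v y : ℂ) ^ 2 else 0 := by
        intro y'
        rw [← Finset.mul_sum, chi_dual s e y y']
        split_ifs with h
        · rw [h]
          ring
        · rw [mul_zero]
      rw [Finset.sum_congr rfl (fun y' _ => h4 y'), Finset.sum_ite_eq, if_pos (Finset.mem_univ y)]
    rw [Finset.sum_congr rfl (fun y _ => h3 y), ← Finset.mul_sum]
    push_cast
    rfl
  exact_mod_cast h2

lemma kf_sq (S : ℕ → Fin d → ℕ) (e : ∀ i, Y ≃ Gd (S i)) (r : ℝ) (hr : 0 < r) (M : ℕ) (x : TT d)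
    (i : ℕ) (hi : ∑ j, S i j = M) :
    ∑ y, (kf S e r M x i y) ^ 2 ≤ ((4 ^ d) ^ r) ^ 2 := by
  set v : Y → ℝ := fun y => kf S e r M x i y with hv
  set N : ℝ := (Fintype.card Y : ℝ) with hNdef
  have hcY : Fintype.card Y = 2 ^ d * 8 ^ (∑ j, S i j) := card_Y (S i) (e i)
  have hN : 0 < N := by
    rw [hNdef, hcY]
    positivity
  set W : ℝ := (4 ^ d) ^ r with hW
  have hW0 : 0 ≤ W := by positivity
  set w : Fr d → ℂ := fun k => mu r M k * mFourier k x with hw
  have hwn : ∀ k ∈ Rm (S i), ‖w k‖ ≤ W := by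
    intro k hk
    rw [hw]
    simp only
    rw [norm_mul, UB.mF_norm, mul_one]
    exact mu_norm r hr M (S i) hi k hk
  set u : Fr d → ℂ := fun k => ∑ y, (v y : ℂ) * chi (S i) (e i) k y with hu
  have hdual : ∑ k ∈ Rm (S i), ‖u k‖ ^ 2 = N * ∑ y, v y ^ 2 := h40_dual_norm (S i) (e i) v
  have h1 : ∑ y, v y ^ 2 = (1 / N) * (∑ k ∈ Rm (S i), w k * conj (u k)).re := by
    have h2 : ∀ y, v y ^ 2 = (1 / N) * (∑ k ∈ Rm (S i), w k * ((v y : ℂ)
        * conj (chi (S i) (e i) k y))).re := by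
      intro y
      have h3 : v y = (1 / N) * (∑ k ∈ Rm (S i), w k * conj (chi (S i) (e i) k y)).re := by
        rw [hv]
        simp only
        unfold kf
        rw [← Finset.mul_sum, Complex.re_ofReal_mul]
      have h4 : ∑ k ∈ Rm (S i), w k * ((v y : ℂ) * conj (chi (S i) (e i) k y))
          = (v y : ℂ) * ∑ k ∈ Rm (S i), w k * conj (chi (S i) (e i) k y) := by
        rw [Finset.mul_sum]
        refine Finset.sum_congr rfl (fun k _ => ?_)
        ring
      rw [h4, Complex.re_ofReal_mul, pow_two]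
      nth_rewrite 2 [h3]
      ring
    rw [Finset.sum_congr rfl (fun y _ => h2 y), ← Finset.mul_sum, ← Complex.re_sum,
      Finset.sum_comm]
    congr 2
    refine Finset.sum_congr rfl (fun k _ => ?_)
    rw [hu]
    simp only
    rw [map_sum, Finset.mul_sum]
    refine Finset.sum_congr rfl (fun y _ => ?_)
    rw [map_mul, Complex.conj_ofReal]
  have h5 : (∑ k ∈ Rm (S i), w k * conj (u k)).re
      ≤ ∑ k ∈ Rm (S i), ‖w k‖ * ‖u k‖ := by
    refine (Complex.re_le_norm _).trans ((norm_sum_le _ _).trans (le_of_eq ?_))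
    refine Finset.sum_congr rfl (fun k _ => ?_)
    rw [norm_mul, RCLike.norm_conj]
  have h6 : (∑ k ∈ Rm (S i), ‖w k‖ * ‖u k‖) ^ 2
      ≤ (∑ k ∈ Rm (S i), ‖w k‖ ^ 2) * ∑ k ∈ Rm (S i), ‖u k‖ ^ 2 :=
    Finset.sum_mul_sq_le_sq_mul_sq _ _ _
  have h7 : ∑ k ∈ Rm (S i), ‖w k‖ ^ 2 ≤ N * W ^ 2 := by
    refine (Finset.sum_le_sum (fun k hk => pow_le_pow_left₀ (norm_nonneg _) (hwn k hk) 2)).trans
      (le_of_eq ?_)
    rw [Finset.sum_const, nsmul_eq_mul, hNdef, hcY, card_Rm]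
  set Q : ℝ := ∑ y, v y ^ 2 with hQ
  have hQ0 : 0 ≤ Q := Finset.sum_nonneg (fun y _ => sq_nonneg _)
  have h8 : (∑ k ∈ Rm (S i), ‖w k‖ * ‖u k‖) ^ 2 ≤ (N * W ^ 2) * (N * Q) := by
    rw [hdual] at h6
    exact h6.trans (mul_le_mul_of_nonneg_right h7 (by positivity))
  set A : ℝ := ∑ k ∈ Rm (S i), ‖w k‖ * ‖u k‖ with hA
  have hA0 : 0 ≤ A := Finset.sum_nonneg (fun k _ => by positivity)
  have h9 : Q * N ≤ A := by
    rw [h1]
    have h10 : 1 / N * (∑ k ∈ Rm (S i), w k * conj (u k)).re * N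
        = (∑ k ∈ Rm (S i), w k * conj (u k)).re := by
      field_simp
    rw [h10]
    exact h5
  have h10 : (Q * N) ^ 2 ≤ (N * W ^ 2) * (N * Q) :=
    (pow_le_pow_left₀ (by positivity) h9 2).trans h8
  rcases hQ0.eq_or_lt with h0 | h0
  · rw [← h0]
    positivity
  · have h11 : N ^ 2 * Q * Q ≤ N ^ 2 * Q * W ^ 2 := by nlinarith
    exact le_of_mul_le_mul_left h11 (by positivity)

/-- moment of the preimage at a point -/
lemma phi_moment (S : ℕ → Fin d → ℕ) (e : ∀ i, Y ≃ Gd (S i)) (r : ℝ) (hr : 0 < r) (L M : ℕ)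
    (hL : 1 ≤ L) (hS : ∀ i < L, ∑ j, S i j = M) (x : TT d) (m : ℕ) :
    ∑ ε : Fin L → Finset Y, |(Tp S L (pa S e r M (ext ε)) x).re| ^ m
      ≤ (2 ^ Fintype.card Y) ^ L
        * (4 * m.factorial * (Real.sqrt (L * ((4 ^ d) ^ r) ^ 2)) ^ m) := by
  have hn' : (0 : ℝ) < L := by exact_mod_cast hL
  have h1 := MT.moment (fun (b : Fin L) y => kf S e r M x b y) (L * ((4 ^ d) ^ r) ^ 2)
    (by positivity) ?_ m
  · simp only [phi_rad]
    exact h1
  · have h2 : ∀ b : Fin L, ∑ y, (kf S e r M x b y) ^ 2 ≤ ((4 ^ d) ^ r) ^ 2 :=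
      fun b => kf_sq S e r hr M x b (hS b b.2)
    refine (Finset.sum_le_sum (fun b _ => h2 b)).trans (le_of_eq ?_)
    rw [Finset.sum_const, Finset.card_univ, Fintype.card_fin, nsmul_eq_mul]

lemma DD_pos (d : ℕ) (r : ℝ) (m L : ℕ) (hL : 1 ≤ L) : 0 < DD d r m L := by
  unfold DD
  have : (0 : ℝ) < Real.sqrt L := Real.sqrt_pos.2 (by exact_mod_cast hL)
  positivity

lemma norm_le_one (r : ℝ) (S : ℕ → Fin d → ℕ) (L m : ℕ) (hL : 1 ≤ L) (hm : 1 ≤ m)
    (a : ℕ → Fr d → ℂ)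
    (h : ∫ x : TT d, |(Tp S L a x).re| ^ m
      ≤ 2 * (4 * m.factorial * (Real.sqrt ((L : ℝ) * ((4 ^ d) ^ r) ^ 2)) ^ m)) :
    eLpNorm (fun x : TT d => (Tp S L a x).re / DD d r m L) (m : ℝ≥0∞) volume ≤ 1 := by
  have hD := DD_pos d r m L hL
  have hcont : Continuous (fun x : TT d => (Tp S L a x).re / DD d r m L) := by fun_prop
  have hmem : MemLp (fun x : TT d => (Tp S L a x).re / DD d r m L) (m : ℝ≥0∞) volume :=
    hcont.memLp_of_hasCompactSupport (HasCompactSupport.of_compactSpace _)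
  have hm0 : (m : ℝ≥0∞) ≠ 0 := by
    simp only [ne_eq, Nat.cast_eq_zero]
    omega
  rw [hmem.eLpNorm_eq_integral_rpow_norm hm0 (ENNReal.natCast_ne_top m)]
  rw [ENNReal.toReal_natCast]
  have h1 : ∫ x : TT d, ‖(Tp S L a x).re / DD d r m L‖ ^ (m : ℝ) ≤ 1 := by
    have h2 : ∀ x : TT d, ‖(Tp S L a x).re / DD d r m L‖ ^ (m : ℝ)
        = (1 / DD d r m L ^ m) * |(Tp S L a x).re| ^ m := by
      intro x
      rw [Real.rpow_natCast, Real.norm_eq_abs, abs_div, abs_of_pos hD, div_pow]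
      ring
    simp only [h2]
    rw [integral_const_mul]
    have hs : Real.sqrt ((L : ℝ) * ((4 ^ d) ^ r) ^ 2) = Real.sqrt L * (4 ^ d) ^ r := by
      rw [Real.sqrt_mul (Nat.cast_nonneg L), Real.sqrt_sq (by positivity)]
    rw [hs] at h
    have hsp : 0 < Real.sqrt L * ((4 : ℝ) ^ d) ^ r := by
      have : (0 : ℝ) < Real.sqrt L := Real.sqrt_pos.2 (by exact_mod_cast hL)
      positivity
    have h3 : (1 / DD d r m L ^ m) * ∫ x : TT d, |(Tp S L a x).re| ^ m
        ≤ (1 / DD d r m L ^ m) * (2 * (4 * m.factorial * (Real.sqrt L * (4 ^ d) ^ r) ^ m)) :=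
      mul_le_mul_of_nonneg_left h (by positivity)
    refine h3.trans ?_
    have h4 : DD d r m L ^ m = (8 * m.factorial : ℝ) ^ m * (Real.sqrt L * (4 ^ d) ^ r) ^ m := by
      unfold DD
      rw [mul_pow]
    rw [h4]
    have hf : (1 : ℝ) ≤ 8 * m.factorial := by
      have : (1 : ℝ) ≤ m.factorial := by exact_mod_cast Nat.factorial_pos m
      linarith
    have h5 : (8 * m.factorial : ℝ) ≤ (8 * m.factorial : ℝ) ^ m := by
      have := pow_le_pow_right₀ hf hm
      rwa [pow_one] at this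
    rw [div_mul_eq_mul_div, one_mul, div_le_one (by positivity)]
    have h6 : 0 < (Real.sqrt L * ((4 : ℝ) ^ d) ^ r) ^ m := by positivity
    nlinarith
  have h7 : (∫ x : TT d, ‖(Tp S L a x).re / DD d r m L‖ ^ (m : ℝ)) ^ ((m : ℝ))⁻¹ ≤ 1 := by
    refine Real.rpow_le_one (integral_nonneg (fun x => by positivity)) h1 (by positivity)
  exact ENNReal.ofReal_le_one.2 h7

end Moments

open Classical in
/-- a sign sequence outside a small set with a good preimage -/
theorem exists_good (hd : 1 ≤ d) {Y : Type*} [Fintype Y] [DecidableEq Y] (S : ℕ → Fin d → ℕ)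
    (e : ∀ i, Y ≃ Gd (S i)) (r : ℝ) (hr : 0 < r) (L M : ℕ) (hL : 1 ≤ L)
    (hS : ∀ i < L, ∑ j, S i j = M) (m : ℕ) (hm : 1 ≤ m) (Bad : Finset (Fin L → Finset Y))
    (hBad : 4 * #Bad ≤ (2 ^ Fintype.card Y) ^ L) :
    ∃ ε : Fin L → Finset Y, ε ∉ Bad ∧
      eLpNorm (fun x : TT d => (Tp S L (pa S e r M (ext ε)) x).re / DD d r m L)
        (m : ℝ≥0∞) volume ≤ 1 := by
  set C : ℝ := 4 * m.factorial * (Real.sqrt ((L : ℝ) * ((4 ^ d) ^ r) ^ 2)) ^ m with hC
  have hn0 : (0 : ℝ) < L := by exact_mod_cast hL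
  have hCpos : 0 < C := by
    rw [hC]
    have : (0 : ℝ) < Real.sqrt ((L : ℝ) * ((4 ^ d) ^ r) ^ 2) := Real.sqrt_pos.2 (by positivity)
    positivity
  have hint : ∀ ε : Fin L → Finset Y,
      Integrable (fun x : TT d => |(Tp S L (pa S e r M (ext ε)) x).re| ^ m) := by
    intro ε
    exact UB.rint _ (by fun_prop)
  have hsum : ∑ ε : Fin L → Finset Y, ∫ x : TT d, |(Tp S L (pa S e r M (ext ε)) x).re| ^ m
      ≤ (2 ^ Fintype.card Y) ^ L * C := by
    rw [← integral_finsetSum _ (fun ε _ => hint ε)]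
    have h1 : ∫ x : TT d, ∑ ε : Fin L → Finset Y, |(Tp S L (pa S e r M (ext ε)) x).re| ^ m
        ≤ ∫ _x : TT d, (2 ^ Fintype.card Y) ^ L * C := by
      refine integral_mono (integrable_finsetSum _ (fun ε _ => hint ε)) (integrable_const _)
        (fun x => ?_)
      exact phi_moment S e r hr L M hL hS x m
    refine h1.trans (le_of_eq ?_)
    simp
  by_contra hcon
  push Not at hcon
  have hcon' : ∀ ε : Fin L → Finset Y, ε ∉ Bad →
      2 * C < ∫ x : TT d, |(Tp S L (pa S e r M (ext ε)) x).re| ^ m := by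
    intro ε hε
    by_contra hle
    push Not at hle
    have h1 := norm_le_one r S L m hL hm (pa S e r M (ext ε)) hle
    exact absurd h1 (not_le.2 (hcon ε hε))
  have h2 : ∀ ε ∈ (univ : Finset (Fin L → Finset Y)) \ Bad,
      2 * C ≤ ∫ x : TT d, |(Tp S L (pa S e r M (ext ε)) x).re| ^ m := by
    intro ε hε
    rw [mem_sdiff] at hε
    exact (hcon' ε hε.2).le
  have h3 := Finset.sum_le_sum h2
  rw [Finset.sum_const, nsmul_eq_mul] at h3
  have h4 : ∑ ε ∈ (univ : Finset (Fin L → Finset Y)) \ Bad,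
      ∫ x : TT d, |(Tp S L (pa S e r M (ext ε)) x).re| ^ m
      ≤ ∑ ε : Fin L → Finset Y, ∫ x : TT d, |(Tp S L (pa S e r M (ext ε)) x).re| ^ m :=
    Finset.sum_le_sum_of_subset_of_nonneg (Finset.subset_univ _)
      (fun ε _ _ => integral_nonneg (fun x => by positivity))
  have h5 := h3.trans (h4.trans hsum)
  have hTot : #(univ : Finset (Fin L → Finset Y)) = (2 ^ Fintype.card Y) ^ L := by
    rw [Finset.card_univ, Fintype.card_fun, Fintype.card_finset, Fintype.card_fin (n := L)]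
  have h6 : #((univ : Finset (Fin L → Finset Y)) \ Bad)
      = (2 ^ Fintype.card Y) ^ L - #Bad := by
    rw [Finset.card_sdiff_of_subset (Finset.subset_univ _), hTot]
  set T := (2 ^ Fintype.card Y) ^ L with hT
  have hTpos : 0 < T := by positivity
  have h8 : (#((univ : Finset (Fin L → Finset Y)) \ Bad) : ℝ)
      = (T : ℝ) - #Bad := by
    rw [h6, Nat.cast_sub (by omega)]
  rw [h8] at h5
  have h9 : (4 : ℝ) * #Bad ≤ T := by exact_mod_cast hBad
  have h10 : (0 : ℝ) < T := by exact_mod_cast hTpos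
  have h11 : ((2 ^ Fintype.card Y : ℝ)) ^ L = (T : ℝ) := by
    rw [hT]
    push_cast
    rfl
  rw [h11] at h5
  nlinarith [mul_pos h10 hCpos]

end

end Pool.Agent.H75.MX
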