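import Pool.Agent.H75.MX.Lower
import Pool.Agent.H75.MX.Phi

set_option autoImplicit false
set_option linter.unusedSectionVars false

/-! The extremal function and the translation of the parameters. -/

open Finset ComplexConjugate MeasureTheory UnitAddTorus

open scoped ENNReal

namespace Pool.Agent.H75.MX

open Pool.Agent.H75.MT (ee sg ext cr)
open Pool.Agent.H75.UB (ex TT co tp tp_apply co_smul)

noncomputable section

local instance : MeasureSpace UnitAddCircle := ⟨AddCircle.haarAddCircle⟩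

local instance : Measure.IsAddHaarMeasure (volume : Measure UnitAddCircle) :=
  inferInstanceAs (Measure.IsAddHaarMeasure AddCircle.haarAddCircle)

local instance : IsProbabilityMeasure (volume : Measure UnitAddCircle) :=
  inferInstanceAs (IsProbabilityMeasure AddCircle.haarAddCircle)

/-- an enumeration of the blocks -/
lemma exists_enum (d M : ℕ) (hd : 1 ≤ d) : ∃ S : ℕ → Fin d → ℕ, (∀ i, ∑ j, S i j = M) ∧
    (∀ i < LL d M, ∀ j < LL d M, S i = S j → i = j) ∧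
    Nonempty (∀ i, Fin (2 ^ d * 8 ^ M) ≃ Gd (S i)) := by
  classical
  let u : {x // x ∈ blk d M} ≃ Fin (LL d M) := (blk d M).equivFin
  let S : ℕ → Fin d → ℕ := fun i =>
    if h : i < LL d M then (u.symm ⟨i, h⟩ : Fin d → ℕ) else Pi.single ⟨0, hd⟩ M
  have hsum : ∀ i, ∑ j, S i j = M := by
    intro i
    by_cases h : i < LL d M
    · have h1 : S i = (u.symm ⟨i, h⟩ : Fin d → ℕ) := dif_pos h
      rw [h1]
      exact mem_blk.1 (u.symm ⟨i, h⟩).2
    · have h1 : S i = Pi.single ⟨0, hd⟩ M := dif_neg h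
      rw [h1]
      simp
  refine ⟨S, hsum, ?_, ?_⟩
  · intro i hi j hj hij
    have h1 : S i = (u.symm ⟨i, hi⟩ : Fin d → ℕ) := dif_pos hi
    have h2 : S j = (u.symm ⟨j, hj⟩ : Fin d → ℕ) := dif_pos hj
    rw [h1, h2] at hij
    have h3 := u.symm.injective (Subtype.ext hij)
    simpa using h3
  · refine ⟨fun i => Fintype.equivOfCardEq ?_⟩
    rw [Fintype.card_fin, Fintype.card_pi]
    simp only [Fintype.card_fin]
    rw [Finset.prod_mul_distrib, Finset.prod_const, Finset.card_univ, Fintype.card_fin,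
      Finset.prod_pow_eq_pow_sum, hsum i]

/-- the extremal function for given parameters -/
theorem construct (d : ℕ) (hd : 3 ≤ d) : ∃ (c : ℝ) (q0 : ℕ), 0 < c ∧ 1 ≤ q0 ∧
    ∀ (r : ℝ), 0 < r → ∀ (mp : ℕ), 1 ≤ mp → ∀ (q : ℕ), q0 ≤ q → ∀ (M : ℕ), M = 4 * d * q →
    ∃ F P : C(TT d, ℂ), (∀ x, (F x).im = 0) ∧ (∀ x, (P x).im = 0) ∧
      (∀ k, mFourierCoeff F k = (∏ i, cr r (k i)) * mFourierCoeff P k) ∧
      eLpNorm (fun x : TT d => (P x).re) (mp : ℝ≥0∞) volume ≤ 1 ∧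
      ∀ (Lam : Finset (Fr d)), #Lam * (32768 * (d + 3)) ≤ LL d M * (2 ^ d * 8 ^ M) →
        ∀ (b : Fr d → ℂ) (U : ℝ), (∀ x, ‖F x - ∑ k ∈ Lam, b k * mFourier k x‖ ≤ U) →
        (8 ^ M : ℝ) ^ (-r) / DD d r mp (LL d M) * (c * Real.sqrt ((M : ℝ) ^ d)) ≤ U := by
  obtain ⟨c, q0, hc, hq01, hlow⟩ := sup_lower d hd
  refine ⟨c, q0, hc, hq01, ?_⟩
  intro r hr mp hmp q hq M hM
  obtain ⟨S, hS, hinj, ⟨e⟩⟩ := exists_enum d M (by omega)
  obtain ⟨Bad, hBad, hgood⟩ := hlow q hq M hM (Fin (2 ^ d * 8 ^ M)) S e hS hinj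
  have hL1 : 1 ≤ LL d M := by
    have h1 := LL_ge d q (by omega)
    rw [← hM] at h1
    exact le_trans (Nat.one_le_pow _ _ (by omega)) h1
  obtain ⟨ε, hε, hnorm⟩ := exists_good (by omega) S e r hr (LL d M) M hL1 (fun i _ => hS i) mp
    hmp Bad hBad
  set D : ℝ := DD d r mp (LL d M) with hD
  have hDpos : 0 < D := by
    rw [hD]
    unfold DD
    have h1 : (0 : ℝ) < Real.sqrt (LL d M) := Real.sqrt_pos.2 (by exact_mod_cast hL1)
    have h2 : (0 : ℝ) < mp.factorial := by exact_mod_cast Nat.factorial_pos mp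
    positivity
  set α : ℝ := (8 ^ M : ℝ) ^ (-r) / D with hα
  have hαpos : 0 < α := by
    rw [hα]
    have : (0 : ℝ) < (8 ^ M : ℝ) ^ (-r) := Real.rpow_pos_of_pos (by positivity) _
    positivity
  refine ⟨(α : ℂ) • Tp S (LL d M) (aa S e (ext ε)),
    ((1 / D : ℝ) : ℂ) • Tp S (LL d M) (pa S e r M (ext ε)), ?_, ?_, ?_, ?_, ?_⟩
  · intro x
    rw [ContinuousMap.smul_apply, smul_eq_mul, Complex.mul_im, Complex.ofReal_im, zero_mul,
      add_zero, Tp_real, mul_zero]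
  · intro x
    rw [ContinuousMap.smul_apply, smul_eq_mul, Complex.mul_im, Complex.ofReal_im, zero_mul,
      add_zero, Tp_real, mul_zero]
  · intro k
    show co ((α : ℂ) • Tp S (LL d M) (aa S e (ext ε))) k
      = (∏ i, cr r (k i)) * co (((1 / D : ℝ) : ℂ) • Tp S (LL d M) (pa S e r M (ext ε))) k
    rw [co_smul, co_smul]
    have h1 := member (by omega) S e r (LL d M) M (fun i _ => hS i) (ext ε) k
    have h2 : (α : ℂ) = ((1 / D : ℝ) : ℂ) * ((((8 ^ M : ℝ) ^ (-r) : ℝ)) : ℂ) := by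
      rw [← Complex.ofReal_mul]
      congr 1
      rw [hα]
      ring
    rw [h2, mul_assoc, h1]
    ring
  · have h1 : (fun x : TT d => ((((1 / D : ℝ) : ℂ) • Tp S (LL d M) (pa S e r M (ext ε))) x).re)
        = fun x : TT d => (Tp S (LL d M) (pa S e r M (ext ε)) x).re / D := by
      funext x
      rw [ContinuousMap.smul_apply, smul_eq_mul, Complex.re_ofReal_mul]
      ring
    rw [h1]
    exact hnorm
  · intro Lam hLam b U hU
    have h1 : ∀ x, ‖(Tp S (LL d M) (aa S e (ext ε)) - tp Lam (fun k => (α : ℂ)⁻¹ * b k)) x‖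
        ≤ U / α := by
      intro x
      rw [le_div_iff₀ hαpos]
      have h2 := hU x
      have h3 : ((α : ℂ) • Tp S (LL d M) (aa S e (ext ε))) x - ∑ k ∈ Lam, b k * mFourier k x
          = (α : ℂ)
            * (Tp S (LL d M) (aa S e (ext ε)) - tp Lam (fun k => (α : ℂ)⁻¹ * b k)) x := by
        have hα' : (α : ℂ) ≠ 0 := by exact_mod_cast hαpos.ne'
        rw [ContinuousMap.smul_apply, smul_eq_mul, ContinuousMap.sub_apply, tp_apply, mul_sub,
          Finset.mul_sum]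
        congr 1
        refine Finset.sum_congr rfl (fun k _ => ?_)
        field_simp
      rw [h3, norm_mul, Complex.norm_real, Real.norm_eq_abs, abs_of_pos hαpos] at h2
      rw [mul_comm]
      exact h2
    have h4 := hgood ε hε Lam hLam (fun k => (α : ℂ)⁻¹ * b k) (U / α) h1
    rw [le_div_iff₀ hαpos] at h4
    linarith

/-- the number of frequencies at level `q` -/
def fq (d q : ℕ) : ℕ := LL d (4 * d * q) * (2 ^ d * 8 ^ (4 * d * q))

lemma fq_ge (d q : ℕ) (hd : 1 ≤ d) : q ≤ fq d q := by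
  unfold fq
  have h1 := LL_ge d q hd
  have h2 : 1 ≤ LL d (4 * d * q) := le_trans (Nat.one_le_pow _ _ (by omega)) h1
  have h3 : q < 8 ^ q := Nat.lt_pow_self (by norm_num)
  have h4 : 8 ^ q ≤ 8 ^ (4 * d * q) :=
    Nat.pow_le_pow_right (by norm_num) (Nat.le_mul_of_pos_left q (by omega))
  have h5 : 1 * (1 * 8 ^ q) ≤ LL d (4 * d * q) * (2 ^ d * 8 ^ (4 * d * q)) :=
    Nat.mul_le_mul h2 (Nat.mul_le_mul (Nat.one_le_pow _ _ (by norm_num)) h4)
  omega

/-- choice of the level -/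
lemma params (d : ℕ) (hd : 1 ≤ d) (q0 m : ℕ) (hq0 : 1 ≤ q0)
    (hm : (Finset.range (q0 + 1)).sup (fq d) < m) :
    ∃ q : ℕ, q0 < q ∧ m * (32768 * (d + 3)) ≤ fq d q ∧ fq d (q - 1) ≤ m * (32768 * (d + 3)) := by
  classical
  have hex : ∃ q : ℕ, m * (32768 * (d + 3)) ≤ fq d q := ⟨_, fq_ge d _ hd⟩
  obtain ⟨q, hq, hmin⟩ : ∃ q, m * (32768 * (d + 3)) ≤ fq d q
      ∧ ∀ k < q, ¬ m * (32768 * (d + 3)) ≤ fq d k :=
    ⟨Nat.find hex, Nat.find_spec hex, fun k hk => Nat.find_min hex hk⟩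
  have hqq : q0 < q := by
    by_contra hcon
    push Not at hcon
    have h1 : fq d q ≤ (Finset.range (q0 + 1)).sup (fq d) :=
      Finset.le_sup (f := fq d) (mem_range.2 (by omega))
    have h2 : m * 1 ≤ m * (32768 * (d + 3)) := Nat.mul_le_mul_left _ (by omega)
    omega
  refine ⟨q, hqq, hq, ?_⟩
  have := hmin (q - 1) (by omega)
  omega

/-- comparison of the two sides -/
lemma compare (d : ℕ) (hd : 3 ≤ d) (r : ℝ) (hr : 0 < r) (mp : ℕ) (hmp : 1 ≤ mp) (c : ℝ)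
    (hc : 0 < c) : ∃ c' : ℝ, 0 < c' ∧ ∀ q m M : ℕ, 1 ≤ q → 2 ≤ m → M = 4 * d * q →
    m * (32768 * (d + 3)) ≤ fq d q → fq d (q - 1) ≤ m * (32768 * (d + 3)) →
    c' * (m : ℝ) ^ (-r) * (Real.log m) ^ (r * ((d : ℝ) - 1) + 1 / 2)
      ≤ (8 ^ M : ℝ) ^ (-r) / DD d r mp (LL d M) * (c * Real.sqrt ((M : ℝ) ^ d)) := by
  have hd0 : (0 : ℝ) < d := by
    have : 0 < d := by omega
    exact_mod_cast this
  have hd3 : (3 : ℝ) ≤ d := by exact_mod_cast hd
  have hfac : (0 : ℝ) < mp.factorial := by exact_mod_cast Nat.factorial_pos mp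
  set κ : ℝ := 32768 * (d + 3) with hκ
  have hκ0 : 0 < κ := by rw [hκ]; positivity
  set s : ℝ := r * ((d : ℝ) - 1) + 1 / 2 with hs
  have hs0 : 0 < s := by
    rw [hs]
    have : 0 ≤ r * ((d : ℝ) - 1) := mul_nonneg hr.le (by linarith)
    linarith
  set A : ℝ := (8 ^ (4 * d) * κ) ^ r * (4 * d * (2 * d + 2)) ^ s with hA
  have hA0 : 0 < A := by rw [hA]; positivity
  set Dc : ℝ := 8 * mp.factorial * (4 ^ d) ^ r with hDc
  have hDc0 : 0 < Dc := by rw [hDc]; positivity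
  refine ⟨c / (Dc * Real.sqrt (2 ^ (d - 1)) * A), by positivity, ?_⟩
  intro q m M hq hm hM h1 h2
  have hq0 : (0 : ℝ) < q := by exact_mod_cast hq
  have hq1 : (1 : ℝ) ≤ q := by exact_mod_cast hq
  have hm0 : (0 : ℝ) < m := by
    have : 0 < m := by omega
    exact_mod_cast this
  have hMr : (M : ℝ) = 4 * d * q := by rw [hM]; push_cast; ring
  have hM0 : (0 : ℝ) < M := by rw [hMr]; positivity
  have hM1 : (1 : ℝ) ≤ M := by
    rw [hMr]
    nlinarith [mul_pos hd0 hq0]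
  have hP : (0 : ℝ) < 8 ^ M := by positivity
  -- lower bound for m
  have hmlow : (q : ℝ) ^ ((d : ℝ) - 1) * 8 ^ M / (8 ^ (4 * d) * κ) ≤ m := by
    have e1 : (4 * (q - 1) + 1) ^ (d - 1) * (1 * 8 ^ (4 * d * (q - 1)))
        ≤ m * (32768 * (d + 3)) := by
      refine le_trans ?_ h2
      unfold fq
      exact Nat.mul_le_mul (LL_ge d (q - 1) (by omega))
        (Nat.mul_le_mul_right _ (Nat.one_le_pow _ _ (by norm_num)))
    have e2 : q ^ (d - 1) * 8 ^ (4 * d * (q - 1)) ≤ m * (32768 * (d + 3)) := by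
      refine le_trans ?_ e1
      rw [one_mul]
      exact Nat.mul_le_mul_right _ (Nat.pow_le_pow_left (by omega) _)
    have e3 : 8 ^ M = 8 ^ (4 * d * (q - 1)) * 8 ^ (4 * d) := by
      rw [← pow_add, hM]
      congr 1
      have : 4 * d * (q - 1) + 4 * d = 4 * d * (q - 1 + 1) := by ring
      rw [this]
      congr 1
      omega
    have e4 : (q : ℝ) ^ (d - 1) * 8 ^ (4 * d * (q - 1)) ≤ m * κ := by
      rw [hκ]
      exact_mod_cast e2
    have e5 : (8 : ℝ) ^ M = 8 ^ (4 * d * (q - 1)) * 8 ^ (4 * d) := by exact_mod_cast e3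
    have e6 : (q : ℝ) ^ ((d : ℝ) - 1) = (q : ℝ) ^ (d - 1) := by
      rw [← Real.rpow_natCast]
      congr 1
      rw [Nat.cast_sub (by omega)]
      simp
    rw [e6, div_le_iff₀ (by positivity), e5]
    have h8 : (0 : ℝ) < 8 ^ (4 * d) := by positivity
    calc (q : ℝ) ^ (d - 1) * (8 ^ (4 * d * (q - 1)) * 8 ^ (4 * d))
        = ((q : ℝ) ^ (d - 1) * 8 ^ (4 * d * (q - 1))) * 8 ^ (4 * d) := by ring
      _ ≤ (m * κ) * 8 ^ (4 * d) := mul_le_mul_of_nonneg_right e4 h8.le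
      _ = m * (8 ^ (4 * d) * κ) := by ring
  -- upper bound for log m
  have hlog : Real.log m ≤ 4 * d * (2 * d + 2) * q := by
    have e1 : m ≤ (M + 1) ^ (d - 1) * (2 ^ d * 8 ^ M) := by
      have e2 : m * 1 ≤ m * (32768 * (d + 3)) := Nat.mul_le_mul_left _ (by omega)
      have e3 : fq d q ≤ (M + 1) ^ (d - 1) * (2 ^ d * 8 ^ M) := by
        unfold fq
        rw [← hM]
        exact Nat.mul_le_mul_right _ (LL_le d M)
      omega
    have e2 : (m : ℝ) ≤ ((M : ℝ) + 1) ^ (d - 1) * (2 ^ d * 8 ^ M) := by exact_mod_cast e1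
    have e3 := Real.log_le_log hm0 e2
    rw [Real.log_mul (by positivity) (by positivity), Real.log_mul (by positivity) (by positivity),
      Real.log_pow, Real.log_pow, Real.log_pow] at e3
    have e4 : Real.log ((M : ℝ) + 1) ≤ M := by
      have := Real.log_le_sub_one_of_pos (show 0 < (M : ℝ) + 1 by linarith)
      linarith
    have e5 : Real.log 2 ≤ 1 := by
      have := Real.log_two_lt_d9
      linarith
    have e6 : Real.log 8 ≤ 3 := by
      rw [show (8 : ℝ) = 2 ^ 3 by norm_num, Real.log_pow]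
      push_cast
      linarith
    have e7 : (((d - 1 : ℕ)) : ℝ) ≤ d - 1 := by
      rw [Nat.cast_sub (by omega)]
      simp
    have e8 : 0 ≤ Real.log ((M : ℝ) + 1) := Real.log_nonneg (by linarith)
    have e9 : (((d - 1 : ℕ)) : ℝ) * Real.log ((M : ℝ) + 1) ≤ (d - 1) * M :=
      mul_le_mul e7 e4 e8 (by linarith)
    have e10 : (d : ℝ) * Real.log 2 ≤ d * M := by
      have : (d : ℝ) * Real.log 2 ≤ d * 1 := mul_le_mul_of_nonneg_left e5 hd0.le
      nlinarith
    have e11 : (M : ℝ) * Real.log 8 ≤ M * 3 := mul_le_mul_of_nonneg_left e6 hM0.le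
    have e12 : 4 * d * (2 * d + 2) * q = (2 * (d : ℝ) + 2) * M := by rw [hMr]; ring
    rw [e12]
    linarith
  have hlog0 : 0 ≤ Real.log m := Real.log_nonneg (by
    have : 1 ≤ m := by omega
    exact_mod_cast this)
  -- the left side
  have hmr : (m : ℝ) ^ (-r) ≤ (8 ^ (4 * d) * κ) ^ r * (q : ℝ) ^ (-(r * ((d : ℝ) - 1)))
      * (8 ^ M : ℝ) ^ (-r) := by
    have e1 := Real.rpow_le_rpow_of_nonpos (z := -r)
      (show 0 < (q : ℝ) ^ ((d : ℝ) - 1) * 8 ^ M / (8 ^ (4 * d) * κ) by positivity) hmlow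
      (by linarith)
    refine e1.trans (le_of_eq ?_)
    rw [Real.div_rpow (by positivity) (by positivity), Real.mul_rpow (by positivity) hP.le,
      ← Real.rpow_mul hq0.le, Real.rpow_neg (show (0 : ℝ) ≤ 8 ^ (4 * d) * κ by positivity),
      div_inv_eq_mul]
    have : ((d : ℝ) - 1) * -r = -(r * ((d : ℝ) - 1)) := by ring
    rw [this]
    ring
  have hls : (Real.log m) ^ s ≤ (4 * d * (2 * d + 2)) ^ s * ((q : ℝ) ^ (r * ((d : ℝ) - 1))
      * Real.sqrt q) := by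
    refine (Real.rpow_le_rpow hlog0 hlog hs0.le).trans (le_of_eq ?_)
    rw [Real.mul_rpow (by positivity) hq0.le, hs, Real.rpow_add hq0, ← Real.sqrt_eq_rpow]
  have hleft : (m : ℝ) ^ (-r) * (Real.log m) ^ s ≤ A * ((8 ^ M : ℝ) ^ (-r) * Real.sqrt q) := by
    refine (mul_le_mul hmr hls (Real.rpow_nonneg hlog0 _) (by positivity)).trans (le_of_eq ?_)
    have e1 : (q : ℝ) ^ (-(r * ((d : ℝ) - 1))) * (q : ℝ) ^ (r * ((d : ℝ) - 1)) = 1 := by
      rw [← Real.rpow_add hq0]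
      simp
    rw [hA]
    linear_combination ((8 ^ (4 * d) * κ) ^ r * (8 ^ M : ℝ) ^ (-r)
      * (4 * d * (2 * d + 2)) ^ s * Real.sqrt q) * e1
  -- the right side
  have hL1 : 1 ≤ LL d M := by
    have e1 := LL_ge d q (by omega)
    rw [← hM] at e1
    exact le_trans (Nat.one_le_pow _ _ (by omega)) e1
  have hL0 : (0 : ℝ) < LL d M := by exact_mod_cast hL1
  have hsL : 0 < Real.sqrt (LL d M) := Real.sqrt_pos.2 hL0
  have hkey : Real.sqrt q * Real.sqrt (LL d M)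
      ≤ Real.sqrt (2 ^ (d - 1)) * Real.sqrt ((M : ℝ) ^ d) := by
    rw [← Real.sqrt_mul hq0.le, ← Real.sqrt_mul (by positivity)]
    refine Real.sqrt_le_sqrt ?_
    have e1 : (LL d M : ℝ) ≤ ((M : ℝ) + 1) ^ (d - 1) := by exact_mod_cast LL_le d M
    have e2 : ((M : ℝ) + 1) ^ (d - 1) ≤ (2 * M) ^ (d - 1) :=
      pow_le_pow_left₀ (by positivity) (by linarith) _
    have e3 : (q : ℝ) ≤ M := by
      rw [hMr]
      nlinarith [mul_pos hd0 hq0]
    calc (q : ℝ) * (LL d M) ≤ M * (2 * M) ^ (d - 1) :=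
          mul_le_mul e3 (e1.trans e2) hL0.le hM0.le
      _ = 2 ^ (d - 1) * M ^ d := by
          rw [mul_pow]
          have : (M : ℝ) ^ d = M * M ^ (d - 1) := by
            rw [← pow_succ']
            congr 1
            omega
          rw [this]
          ring
  have hDD : DD d r mp (LL d M) = Dc * Real.sqrt (LL d M) := by
    unfold DD
    rw [hDc]
    ring
  have hs2 : 0 < Real.sqrt ((2 : ℝ) ^ (d - 1)) := Real.sqrt_pos.2 (by positivity)
  have h8r : 0 < (8 ^ M : ℝ) ^ (-r) := Real.rpow_pos_of_pos hP _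
  rw [hDD, mul_assoc]
  have e1 : c / (Dc * Real.sqrt (2 ^ (d - 1)) * A) * ((m : ℝ) ^ (-r) * (Real.log m) ^ s)
      ≤ c / (Dc * Real.sqrt (2 ^ (d - 1)) * A) * (A * ((8 ^ M : ℝ) ^ (-r) * Real.sqrt q)) :=
    mul_le_mul_of_nonneg_left hleft (by positivity)
  refine e1.trans ?_
  have e2 : c / (Dc * Real.sqrt (2 ^ (d - 1)) * A) * (A * ((8 ^ M : ℝ) ^ (-r) * Real.sqrt q))
      = (8 ^ M : ℝ) ^ (-r) * c / Dc * (Real.sqrt q / Real.sqrt (2 ^ (d - 1))) := by
    field_simp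
  have e3 : (8 ^ M : ℝ) ^ (-r) / (Dc * Real.sqrt (LL d M)) * (c * Real.sqrt ((M : ℝ) ^ d))
      = (8 ^ M : ℝ) ^ (-r) * c / Dc * (Real.sqrt ((M : ℝ) ^ d) / Real.sqrt (LL d M)) := by
    field_simp
  rw [e2, e3]
  refine mul_le_mul_of_nonneg_left ?_ (by positivity)
  rw [div_le_div_iff₀ hs2 hsL, mul_comm (Real.sqrt ((M : ℝ) ^ d))]
  exact hkey

end

end Pool.Agent.H75.MX
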