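import Pool.Agent.H75.MX.Defs

set_option autoImplicit false
set_option linter.unusedSectionVars false

/-! Counting blocks, and the growth bound. -/

open Finset

namespace Pool.Agent.H75.MX

lemma mem_blk {d M : ℕ} {s : Fin d → ℕ} : s ∈ blk d M ↔ ∑ j, s j = M := by
  simp [blk, Finset.mem_piAntidiag]

lemma LL_le (d M : ℕ) : LL d M ≤ (M + 1) ^ (d - 1) := by
  unfold LL
  rcases d with _ | n
  · have : #(blk 0 M) ≤ #(univ : Finset (Fin 0 → ℕ)) := Finset.card_le_card (subset_univ _)
    simpa using this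
  · have hc : #(Fintype.piFinset (fun _ : Fin n => Finset.range (M + 1))) = (M + 1) ^ n := by
      simp [Fintype.card_piFinset]
    have : #(blk (n + 1) M) ≤ #(Fintype.piFinset (fun _ : Fin n => Finset.range (M + 1))) := by
      apply Finset.card_le_card_of_injOn (fun s => fun j : Fin n => s j.succ)
      · intro s hs
        rw [Finset.mem_coe, mem_blk] at hs
        simp only [Finset.mem_coe, Fintype.mem_piFinset, Finset.mem_range]
        intro j
        have : s j.succ ≤ ∑ i, s i := Finset.single_le_sum (fun _ _ => Nat.zero_le _) (mem_univ _)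
        omega
      · intro s hs t ht h
        rw [Finset.mem_coe, mem_blk] at hs ht
        rw [Fin.sum_univ_succ] at hs ht
        have h' : ∀ j : Fin n, s j.succ = t j.succ := fun j => congrFun h j
        have hsum : ∑ j : Fin n, s j.succ = ∑ j : Fin n, t j.succ :=
          Finset.sum_congr rfl (fun j _ => h' j)
        funext j
        refine Fin.cases ?_ ?_ j
        · omega
        · exact h'
    rw [hc] at this
    simpa using this

lemma LL_ge (d q : ℕ) (hd : 1 ≤ d) : (4 * q + 1) ^ (d - 1) ≤ LL d (4 * d * q) := by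
  unfold LL
  rcases d with _ | n
  · omega
  · have hc : #(Fintype.piFinset (fun _ : Fin n => Finset.range (4 * q + 1)))
        = (4 * q + 1) ^ n := by
      simp [Fintype.card_piFinset]
    have : #(Fintype.piFinset (fun _ : Fin n => Finset.range (4 * q + 1)))
        ≤ #(blk (n + 1) (4 * (n + 1) * q)) := by
      apply Finset.card_le_card_of_injOn
        (fun t => (Fin.cons (4 * (n + 1) * q - ∑ j, t j) t : Fin (n + 1) → ℕ))
      · intro t ht
        simp only [Finset.mem_coe, Fintype.mem_piFinset, Finset.mem_range] at ht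
        rw [Finset.mem_coe, mem_blk, Fin.sum_univ_succ]
        simp only [Fin.cons_zero, Fin.cons_succ]
        have h1 : ∑ j, t j ≤ ∑ _j : Fin n, 4 * q :=
          Finset.sum_le_sum (fun j _ => by have := ht j; omega)
        have h2 : ∑ _j : Fin n, 4 * q = n * (4 * q) := by simp
        have h3 : 4 * (n + 1) * q = n * (4 * q) + 4 * q := by ring
        omega
      · intro t _ t' _ h
        have h1 := congrArg (fun f : Fin (n + 1) → ℕ => fun j : Fin n => f j.succ) h
        simpa using h1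
    rw [hc] at this
    simpa using this

open Classical in
lemma nu_le (d M : ℕ) (W : Fin d → ℕ) (hW : M ≤ ∑ j, W j) :
    #((blk d M).filter (fun s => s ≤ W)) ≤ (∑ j, W j - M + 1) ^ (d - 1) := by
  refine le_trans ?_ (LL_le d (∑ j, W j - M))
  unfold LL
  apply Finset.card_le_card_of_injOn (fun s => fun j => W j - s j)
  · intro s hs
    simp only [Finset.coe_filter, Set.mem_setOf_eq, mem_blk] at hs
    rw [Finset.mem_coe, mem_blk]
    have h1 : ∑ j, (W j - s j) + ∑ j, s j = ∑ j, W j := by
      rw [← Finset.sum_add_distrib]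
      exact Finset.sum_congr rfl (fun j _ => Nat.sub_add_cancel (hs.2 j))
    show ∑ j, (W j - s j) = ∑ j, W j - M
    omega
  · intro s hs t ht h
    simp only [Finset.coe_filter, Set.mem_setOf_eq] at hs ht
    funext j
    have h1 : W j - s j = W j - t j := congrFun h j
    have h2 : s j ≤ W j := hs.2 j
    have h3 : t j ≤ W j := ht.2 j
    omega

open Classical in
lemma nu_zero (d M : ℕ) (W : Fin d → ℕ) (hW : ∑ j, W j < M) :
    #((blk d M).filter (fun s => s ≤ W)) = 0 := by
  rw [Finset.card_eq_zero, Finset.filter_eq_empty_iff]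
  intro s hs hle
  rw [mem_blk] at hs
  have : ∑ j, s j ≤ ∑ j, W j := Finset.sum_le_sum (fun j _ => hle j)
  omega

lemma growth (d : ℕ) (hd : 2 ≤ d) : ∃ γ Γ : ℝ, 0 < γ ∧ 0 < Γ ∧ ∀ (β : ℝ) (u n : ℕ), 0 ≤ β →
    β * ((u : ℝ) + 1) ^ (d - 2) ≤ γ → n ≤ (u + 1) ^ (d - 1) →
    (1 + β) ^ n - 1 ≤ β * Γ * gg d ^ u := by
  have hd0 : (0 : ℝ) < d := by
    have : 0 < d := by omega
    exact_mod_cast this
  have ht1 : 1 < tt d := by
    unfold tt
    have : (0 : ℝ) < 1 / (60 * (d : ℝ) ^ 2) := by positivity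
    linarith
  have ht0 : 0 < tt d := by linarith
  have hlim := tendsto_pow_const_div_const_pow_of_one_lt (d - 1) ht1
  obtain ⟨C, hC⟩ := hlim.bddAbove_range
  have hC' : ∀ n : ℕ, (n : ℝ) ^ (d - 1) / tt d ^ n ≤ max C 1 := by
    intro n
    exact le_trans (hC ⟨n, rfl⟩) (le_max_left _ _)
  have hm : 0 < max C 1 := lt_of_lt_of_le one_pos (le_max_right _ _)
  refine ⟨Real.log (tt d), max C 1 * tt d ^ 2, Real.log_pos ht1, by positivity, ?_⟩
  intro β u n hβ hβu hn
  have hu0 : (0 : ℝ) < (u : ℝ) + 1 := by positivity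
  -- the real version of the bound on n
  have hnR : (n : ℝ) ≤ ((u : ℝ) + 1) ^ (d - 1) := by exact_mod_cast hn
  have hsplit : ((u : ℝ) + 1) ^ (d - 1) = ((u : ℝ) + 1) ^ (d - 2) * ((u : ℝ) + 1) := by
    rw [← pow_succ]
    congr 1
    omega
  have hnb : n * β ≤ Real.log (tt d) * ((u : ℝ) + 1) := by
    calc n * β ≤ ((u : ℝ) + 1) ^ (d - 1) * β := mul_le_mul_of_nonneg_right hnR hβ
      _ = (β * ((u : ℝ) + 1) ^ (d - 2)) * ((u : ℝ) + 1) := by rw [hsplit]; ring
      _ ≤ Real.log (tt d) * ((u : ℝ) + 1) := mul_le_mul_of_nonneg_right hβu hu0.le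
  have hexp : Real.exp (n * β) ≤ tt d ^ (u + 1) := by
    calc Real.exp (n * β) ≤ Real.exp (Real.log (tt d) * ((u : ℝ) + 1)) := Real.exp_le_exp.2 hnb
      _ = tt d ^ (u + 1) := by
        have : Real.log (tt d) * ((u : ℝ) + 1) = ((u + 1 : ℕ) : ℝ) * Real.log (tt d) := by
          push_cast; ring
        rw [this, Real.exp_nat_mul, Real.exp_log ht0]
  have hpoly : (n : ℝ) ≤ max C 1 * tt d ^ (u + 1) := by
    have h1 := hC' (u + 1)
    rw [div_le_iff₀ (by positivity)] at h1
    push_cast at h1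
    exact le_trans hnR h1
  have hpow : (1 + β) ^ n ≤ Real.exp (n * β) := by
    rw [Real.exp_nat_mul]
    exact pow_le_pow_left₀ (by positivity) (by linarith [Real.add_one_le_exp β]) n
  have hexp1 : Real.exp (n * β) - 1 ≤ (n * β) * Real.exp (n * β) := by
    have h1 := Real.add_one_le_exp (-(n * β : ℝ))
    have h2 : Real.exp (-(n * β : ℝ)) * Real.exp (n * β) = 1 := by
      rw [← Real.exp_add]; simp
    have h3 : 0 < Real.exp (n * β : ℝ) := Real.exp_pos _
    nlinarith
  have hnβ0 : 0 ≤ (n : ℝ) * β := by positivity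
  calc (1 + β) ^ n - 1 ≤ (n * β) * Real.exp (n * β) := by linarith
    _ ≤ (n * β) * tt d ^ (u + 1) := mul_le_mul_of_nonneg_left hexp hnβ0
    _ = (n : ℝ) * (β * tt d ^ (u + 1)) := by ring
    _ ≤ (max C 1 * tt d ^ (u + 1)) * (β * tt d ^ (u + 1)) :=
        mul_le_mul_of_nonneg_right hpoly (by positivity)
    _ = β * (max C 1 * tt d ^ 2) * (tt d ^ (2 * u)) := by ring
    _ ≤ β * (max C 1 * tt d ^ 2) * gg d ^ u := by
        apply mul_le_mul_of_nonneg_left _ (by positivity)
        unfold gg
        rw [← pow_mul]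
        exact pow_le_pow_right₀ ht1.le (by omega)

end Pool.Agent.H75.MX
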