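import Pool.Agent.H75.MT.Count
import Pool.Agent.H75.MT.Khin
import Pool.Agent.H75.MT.Num
import Pool.Agent.H75.MT.Grid
import Pool.Agent.H75.UB.Tor

set_option autoImplicit false
set_option linter.unusedSectionVars false

/-! Definitions for the sharp lower bound in dimension at least three. -/

open Finset ComplexConjugate

namespace Pool.Agent.H75.MX

open Pool.Agent.H75.MT (ee kap sg bsum)
open Pool.Agent.H75.UB (ex)

noncomputable section

/-- frequencies -/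
abbrev Fr (d : ℕ) := Fin d → ℤ

variable {d : ℕ}

/-- the positive part of the spectrum of the block `s` -/
def Bp (s : Fin d → ℕ) : Finset (Fr d) :=
  Fintype.piFinset (fun j => Finset.Ico ((8 : ℤ) ^ s j) (5 * 8 ^ s j))

/-- the main part of the spectrum of the block `s` -/
def Rm (s : Fin d → ℕ) : Finset (Fr d) :=
  Fintype.piFinset (fun j => Finset.Ico (2 * (8 : ℤ) ^ s j) (4 * 8 ^ s j))

/-- the symmetric spectrum of the block `s` -/
def SB (s : Fin d → ℕ) : Finset (Fr d) :=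
  (Fintype.piFinset (fun j => Finset.Ioo (-(5 * (8 : ℤ) ^ s j)) (5 * 8 ^ s j))).filter
    (fun k => ∀ j, (8 : ℤ) ^ s j ≤ |k j|)

/-- the large box -/
def KB (d R : ℕ) : Finset (Fr d) :=
  Fintype.piFinset (fun _ => Finset.Icc (-(8 : ℤ) ^ R) (8 ^ R))

/-- the grid of the block `s` -/
abbrev Gd (s : Fin d → ℕ) := ∀ j, Fin (2 * 8 ^ s j)

section Grid

variable {Y : Type*} [Fintype Y] [DecidableEq Y] (s : Fin d → ℕ) (e : Y ≃ Gd s)

/-- the exponential on the grid -/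
def chi (k : Fr d) (y : Y) : ℂ :=
  ∏ j, ee (k j * ((e y j : ℕ) : ℝ) / ((2 * 8 ^ s j : ℕ) : ℝ))

/-- the kernel coefficients -/
def KK (k : Fr d) : ℝ := ∏ j, kap (8 ^ s j) (k j)

/-- grid Fourier coefficients -/
def hat (h : Y → ℝ) (k : Fr d) : ℂ :=
  ((1 / (Fintype.card Y : ℝ) : ℝ) : ℂ) * ∑ y, (h y : ℂ) * conj (chi s e k y)

/-- the normalising constant -/
def kc (d : ℕ) : ℝ := 1 / 2 * (2 / 5) ^ d

/-- coefficients on the positive part -/
def CC (h : Y → ℝ) (k : Fr d) : ℂ := ((kc d * KK s k : ℝ) : ℂ) * hat s e h k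

/-- the coefficients of the factor -/
def cf (h : Y → ℝ) (k : Fr d) : ℂ :=
  if k ∈ Bp s then CC s e h k
  else if -k ∈ Bp s then conj (CC s e h (-k)) else 0

/-- the functionals giving the convolution with the factor -/
def om (f : Fr d → ℂ) (k : Fr d) (y : Y) : ℂ :=
  ((kc d / (Fintype.card Y : ℝ) : ℝ) : ℂ) * ∑ l ∈ Bp s, (KK s l : ℂ)
    * (f (k - l) * conj (chi s e l y) + f (k + l) * chi s e l y)

end Grid

/-- one dimensional weight -/
def om1 (v : ℕ) (x : ℤ) : ℝ := 1 / (1 + ((x : ℝ) / 8 ^ v) ^ 2)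

/-- product weight -/
def wt (V : Fin d → ℕ) (k : Fr d) : ℝ := ∏ j, om1 (V j) (k j)

/-- weighted energy -/
def En (R : ℕ) (V : Fin d → ℕ) (lam : Fr d) (f : Fr d → ℂ) : ℝ :=
  ∑ k ∈ KB d R, wt V (k - lam) * ‖f k‖ ^ 2

/-- the scale of an integer -/
def kp (x : ℤ) : ℕ := Nat.clog 8 x.natAbs

/-- the basic ratio -/
def tt (d : ℕ) : ℝ := 1 + 1 / (60 * d ^ 2)

/-- the growth ratio -/
def gg (d : ℕ) : ℝ := tt d ^ 3

/-- the weight of the quartic form -/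
def Gw (s : Fin d → ℕ) (k : Fr d) : ℝ := ∏ j, gg d ^ Nat.dist (kp (k j)) (s j)

/-- the one dimensional centres -/
def Cen1 (q R : ℕ) : Finset ℤ :=
  (Finset.range (R + 1) ×ˢ Finset.Icc (-(8 : ℤ) ^ q) (8 ^ q)).image (fun p => 8 ^ p.1 * p.2)

/-- the centres -/
def Cen (d q R : ℕ) : Finset (Fr d) := Fintype.piFinset (fun _ => Cen1 q R)

/-- the blocks -/
def blk (d M : ℕ) : Finset (Fin d → ℕ) := Finset.piAntidiag univ M

/-- the number of blocks -/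
def LL (d M : ℕ) : ℕ := #(blk d M)

/-- removal of the constant term -/
def Dm (f : Fr d → ℂ) (k : Fr d) : ℂ := f k - (if k = 0 then 1 else 0)

/-- convolution with a factor -/
def cv (s : Fin d → ℕ) (c f : Fr d → ℂ) (k : Fr d) : ℂ := ∑ l ∈ SB s, f (k - l) * c l

/-- the conditions on one factor -/
structure Valid {Y : Type*} [Fintype Y] [DecidableEq Y] (s : Fin d → ℕ) (e : Y ≃ Gd s) (R : ℕ)
    {ι : Type*} (w : ι → Fr d → ℝ) (G : Fr d → ℝ) (c1 : ℝ) (f : Fr d → ℂ) (lam : Finset (Fr d))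
    (ε : Finset Y) (c : Fr d → ℂ) : Prop where
  v1 : ∀ x : Fin d → ℝ, (∑ k ∈ SB s, ex k x * c k).im = 0 ∧
    |(∑ k ∈ SB s, ex k x * c k).re| ≤ 1
  v2 : ∀ k, k ∉ SB s → c k = 0
  v3 : ∀ k ∈ lam, c k = 0
  v4 : c1 ≤ (∑ k ∈ Rm s, hat s e (sg ε) k * conj (c k)).re
  v5 : cv s c f 0 = 0
  v6 : ∀ j, (∑ k ∈ KB d R, (w j k : ℂ) * (conj (Dm f k) * cv s c f k)).re = 0
  v7 : ∀ j, ∑ k ∈ KB d R, w j k * ‖cv s c f k‖ ^ 2
    ≤ 2 / (Fintype.card Y : ℝ) * ∑ k ∈ KB d R, w j k * ∑ l ∈ SB s, ‖f (k - l)‖ ^ 2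
  v8 : ∑ k ∈ KB d R, G k * ‖cv s c (Dm f) k‖ ^ 4
    ≤ 12 / (Fintype.card Y : ℝ) ^ 2
      * ∑ k ∈ KB d R, G k * (∑ l ∈ SB s, ‖Dm f (k - l)‖ ^ 2) ^ 2

end

end Pool.Agent.H75.MX
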