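import Pool.Agent.H75.MX.Defs
import Pool.Agent.H75.MT.Step

set_option autoImplicit false
set_option linter.unusedSectionVars false

/-! The grid of a block. -/

open Finset ComplexConjugate

namespace Pool.Agent.H75.MX

open Pool.Agent.H75.MT (ee kap sg bsum)
open Pool.Agent.H75.UB (ex)

variable {d : ℕ} {Y : Type*} [Fintype Y] [DecidableEq Y] (s : Fin d → ℕ) (e : Y ≃ Gd s)

lemma prod_two_mul_pow (a : ℕ) : ∏ j, (a * 8 ^ s j) = a ^ d * 8 ^ (∑ j, s j) := by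
  rw [Finset.prod_mul_distrib, Finset.prod_const, Finset.card_univ, Fintype.card_fin,
    Finset.prod_pow_eq_pow_sum]

include e in
lemma card_Y : Fintype.card Y = 2 ^ d * 8 ^ (∑ j, s j) := by
  rw [Fintype.card_congr e, Fintype.card_pi]
  simp only [Fintype.card_fin]
  exact prod_two_mul_pow s 2

lemma card_Rm : #(Rm s) = 2 ^ d * 8 ^ (∑ j, s j) := by
  unfold Rm
  rw [Fintype.card_piFinset, ← prod_two_mul_pow s 2]
  refine Finset.prod_congr rfl (fun j _ => ?_)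
  rw [Int.card_Ico]
  have h : (4 * (8 : ℤ) ^ s j - 2 * 8 ^ s j) = ((2 * 8 ^ s j : ℕ) : ℤ) := by
    push_cast
    ring
  rw [h, Int.toNat_natCast]

lemma card_SB : #(SB s) ≤ 10 ^ d * 8 ^ (∑ j, s j) := by
  unfold SB
  refine (Finset.card_filter_le _ _).trans ?_
  rw [Fintype.card_piFinset, ← prod_two_mul_pow s 10]
  refine Finset.prod_le_prod (fun _ _ => Nat.zero_le _) (fun j _ => ?_)
  rw [Int.card_Ioo]
  have h : (5 * (8 : ℤ) ^ s j - -(5 * 8 ^ s j)) = ((10 * 8 ^ s j : ℕ) : ℤ) := by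
    push_cast
    ring
  rw [h]
  omega

lemma mem_SB {s : Fin d → ℕ} {k : Fr d} :
    k ∈ SB s ↔ ∀ j, (8 : ℤ) ^ s j ≤ |k j| ∧ |k j| < 5 * 8 ^ s j := by
  unfold SB
  rw [mem_filter, Fintype.mem_piFinset]
  constructor
  · rintro ⟨h1, h2⟩ j
    refine ⟨h2 j, ?_⟩
    have := h1 j
    rw [mem_Ioo] at this
    rw [abs_lt]
    exact this
  · intro h
    refine ⟨fun j => ?_, fun j => (h j).1⟩
    rw [mem_Ioo]
    exact abs_lt.1 (h j).2

lemma neg_mem_SB {s : Fin d → ℕ} {k : Fr d} (h : k ∈ SB s) : -k ∈ SB s := by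
  rw [mem_SB] at h ⊢
  intro j
  rw [Pi.neg_apply, abs_neg]
  exact h j

lemma Bp_sub : Bp s ⊆ SB s := by
  intro k hk
  unfold Bp at hk
  rw [Fintype.mem_piFinset] at hk
  rw [mem_SB]
  intro j
  have h1 := hk j
  rw [mem_Ico] at h1
  have h2 : (0 : ℤ) < 8 ^ s j := by positivity
  rw [abs_of_nonneg (by linarith [h1.1])]
  exact h1

lemma Rm_sub : Rm s ⊆ Bp s := by
  intro k hk
  unfold Rm at hk
  unfold Bp
  rw [Fintype.mem_piFinset] at hk ⊢
  intro j
  have h1 := hk j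
  rw [mem_Ico] at h1 ⊢
  have h2 : (0 : ℤ) < 8 ^ s j := by positivity
  constructor <;> linarith [h1.1, h1.2]

lemma Bp_neg (hd : 1 ≤ d) {s : Fin d → ℕ} {k : Fr d} (h : k ∈ Bp s) : -k ∉ Bp s := by
  unfold Bp at h ⊢
  intro h'
  rw [Fintype.mem_piFinset] at h h'
  have h1 := h ⟨0, hd⟩
  have h2 := h' ⟨0, hd⟩
  rw [mem_Ico] at h1 h2
  have h3 : (0 : ℤ) < 8 ^ s ⟨0, hd⟩ := by positivity
  have h4 := h1.1
  have h5 := h2.1
  rw [Pi.neg_apply] at h5
  linarith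

/-- different blocks have disjoint spectra -/
lemma SB_disjoint {s s' : Fin d → ℕ} (h : s ≠ s') : Disjoint (SB s) (SB s') := by
  rw [Finset.disjoint_left]
  intro k hk hk'
  rw [mem_SB] at hk hk'
  apply h
  funext j
  by_contra hne
  have key : ∀ a b : ℕ, a < b → (5 * (8 : ℤ) ^ a) < 8 ^ b := by
    intro a b hab
    have h1 : (8 : ℤ) ^ (a + 1) ≤ 8 ^ b := pow_le_pow_right₀ (by norm_num) hab
    have h2 : (0 : ℤ) < 8 ^ a := by positivity
    rw [pow_succ] at h1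
    linarith
  rcases lt_or_gt_of_ne hne with h1 | h1
  · have h2 := key _ _ h1
    linarith [(hk j).2, (hk' j).1]
  · have h2 := key _ _ h1
    linarith [(hk' j).2, (hk j).1]

lemma KK_nonneg (k : Fr d) : 0 ≤ KK s k :=
  Finset.prod_nonneg (fun _ _ => MT.kap_nonneg _ _)

lemma KK_le_one (k : Fr d) : KK s k ≤ 1 :=
  Finset.prod_le_one (fun _ _ => MT.kap_nonneg _ _) (fun _ _ => MT.kap_le_one _ _)

lemma KK_eq_one {k : Fr d} (hk : k ∈ Rm s) : KK s k = 1 := by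
  unfold Rm at hk
  rw [Fintype.mem_piFinset] at hk
  unfold KK
  refine Finset.prod_eq_one (fun j _ => ?_)
  have h1 := hk j
  rw [mem_Ico] at h1
  refine MT.kap_eq_one (8 ^ s j) (by positivity) _ ?_ ?_
  · push_cast
    exact h1.1
  · push_cast
    exact h1.2

lemma chi_neg (k : Fr d) (y : Y) : chi s e (-k) y = conj (chi s e k y) := by
  unfold chi
  rw [map_prod]
  refine Finset.prod_congr rfl (fun j _ => ?_)
  rw [MT.ee_conj]
  congr 1
  rw [Pi.neg_apply]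
  push_cast
  ring

lemma chi_norm (k : Fr d) (y : Y) : ‖chi s e k y‖ = 1 := by
  unfold chi
  rw [norm_prod]
  exact Finset.prod_eq_one (fun j _ => MT.ee_norm _)

lemma prod_sum_grid {R : Type*} [CommSemiring R] (F : ∀ j : Fin d, Fin (2 * 8 ^ s j) → R) :
    ∑ y, ∏ j, F j (e y j) = ∏ j, ∑ p, F j p := by
  rw [Equiv.sum_comp e (fun z : Gd s => ∏ j, F j (z j)), Finset.prod_univ_sum,
    Fintype.piFinset_univ]

/-- congruence of frequencies -/
def RR (k k' : Fr d) : Prop := ∀ j, ((2 * 8 ^ s j : ℕ) : ℤ) ∣ k j - k' j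

instance : DecidableRel (RR s) := fun k k' => by unfold RR; infer_instance

lemma RR_symm (k k' : Fr d) : RR s k k' ↔ RR s k' k := by
  unfold RR
  refine forall_congr' (fun j => ?_)
  rw [← dvd_neg, neg_sub]

lemma chi_orth (k k' : Fr d) :
    ∑ y, chi s e k y * conj (chi s e k' y)
      = if RR s k k' then (((Fintype.card Y : ℕ) : ℝ) : ℂ) else 0 := by
  have h1 : ∀ y, chi s e k y * conj (chi s e k' y)
      = ∏ j, ee ((k j - k' j : ℤ) * ((e y j : ℕ) : ℝ) / ((2 * 8 ^ s j : ℕ) : ℝ)) := by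
    intro y
    unfold chi
    rw [map_prod, ← Finset.prod_mul_distrib]
    refine Finset.prod_congr rfl (fun j _ => ?_)
    rw [MT.ee_conj, ← MT.ee_add]
    congr 1
    push_cast
    ring
  rw [Finset.sum_congr rfl (fun y _ => h1 y),
    prod_sum_grid s e (fun j p => ee ((k j - k' j : ℤ) * ((p : ℕ) : ℝ) / ((2 * 8 ^ s j : ℕ) : ℝ)))]
  have h2 : ∀ j, ∑ p : Fin (2 * 8 ^ s j),
      ee ((k j - k' j : ℤ) * ((p : ℕ) : ℝ) / ((2 * 8 ^ s j : ℕ) : ℝ))
      = if ((2 * 8 ^ s j : ℕ) : ℤ) ∣ k j - k' j then (((2 * 8 ^ s j : ℕ) : ℕ) : ℂ) else 0 :=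
    fun j => MT.sum_ee (2 * 8 ^ s j) (by positivity) (k j - k' j)
  rw [Finset.prod_congr rfl (fun j _ => h2 j)]
  split_ifs with h3
  · rw [Finset.prod_congr rfl (fun j _ => if_pos (h3 j)), card_Y s e, ← prod_two_mul_pow s 2]
    push_cast
    rfl
  · unfold RR at h3
    rw [not_forall] at h3
    obtain ⟨j, hj⟩ := h3
    exact Finset.prod_eq_zero (mem_univ j) (if_neg hj)

lemma mult_Bp (k : Fr d) : #((Bp s).filter (fun k' => RR s k k')) ≤ 2 ^ d := by
  have hsub : (Bp s).filter (fun k' => RR s k k')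
      ⊆ Fintype.piFinset (fun j => (Finset.Ico ((8 : ℤ) ^ s j) (5 * 8 ^ s j)).filter
          (fun x => ((2 * 8 ^ s j : ℕ) : ℤ) ∣ k j - x)) := by
    intro k' hk'
    unfold Bp at hk'
    rw [mem_filter, Fintype.mem_piFinset] at hk'
    rw [Fintype.mem_piFinset]
    intro j
    rw [mem_filter]
    exact ⟨hk'.1 j, hk'.2 j⟩
  refine (Finset.card_le_card hsub).trans ?_
  rw [Fintype.card_piFinset]
  refine (Finset.prod_le_prod (fun _ _ => Nat.zero_le _) (fun j _ =>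
    MT.mult_le (2 * 8 ^ s j) (by positivity) _ _ 2 (by push_cast; linarith) (k j))).trans ?_
  simp

lemma bessel_grid (u : Fr d → ℂ) :
    ∑ y, ‖∑ k ∈ Bp s, u k * chi s e k y‖ ^ 2
      ≤ (Fintype.card Y : ℝ) * 2 ^ d * ∑ k ∈ Bp s, ‖u k‖ ^ 2 := by
  have h := MT.bessel (chi s e) (Bp s) (RR s) (Fintype.card Y : ℝ) (by positivity) (2 ^ d)
    (fun k _ k' _ => chi_orth s e k k') (RR_symm s) (fun k _ => mult_Bp s k) u
  push_cast at h
  exact h

lemma ex_prod (k : Fr d) (x : Fin d → ℝ) : ex k x = ∏ j, ee (k j * x j) := by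
  unfold ex
  induction (univ : Finset (Fin d)) using Finset.induction_on with
  | empty => simp [MT.ee_zero]
  | insert a t ha ih => rw [Finset.sum_insert ha, Finset.prod_insert ha, MT.ee_add, ih]

lemma kernel_grid (x : Fin d → ℝ) :
    ∑ y, ‖∑ k ∈ Bp s, (KK s k : ℂ) * (ex k x * conj (chi s e k y))‖
      ≤ (5 / 2) ^ d * (Fintype.card Y : ℝ) := by
  have h1 : ∀ y, ‖∑ k ∈ Bp s, (KK s k : ℂ) * (ex k x * conj (chi s e k y))‖
      = ∏ j, ‖∑ i ∈ Finset.Ico (((8 ^ s j : ℕ) : ℤ)) (5 * ((8 ^ s j : ℕ) : ℤ)),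
          (kap (8 ^ s j) i : ℂ) * ee (i * (x j - ((e y j : ℕ) : ℝ) / ((2 * 8 ^ s j : ℕ) : ℝ)))‖ := by
    intro y
    rw [← norm_prod, Finset.prod_univ_sum]
    unfold Bp
    push_cast
    congr 1
    refine Finset.sum_congr rfl (fun k _ => ?_)
    rw [ex_prod]
    unfold KK chi
    rw [map_prod]
    push_cast
    rw [← Finset.prod_mul_distrib, ← Finset.prod_mul_distrib]
    refine Finset.prod_congr rfl (fun j _ => ?_)
    rw [MT.ee_conj, ← MT.ee_add]
    congr 2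
    ring
  rw [Finset.sum_congr rfl (fun y _ => h1 y),
    prod_sum_grid s e (fun j p => ‖∑ i ∈ Finset.Ico (((8 ^ s j : ℕ) : ℤ)) (5 * ((8 ^ s j : ℕ) : ℤ)),
          (kap (8 ^ s j) i : ℂ) * ee (i * (x j - ((p : ℕ) : ℝ) / ((2 * 8 ^ s j : ℕ) : ℝ)))‖)]
  refine (Finset.prod_le_prod (fun j _ => Finset.sum_nonneg (fun _ _ => norm_nonneg _))
    (fun j _ => MT.kernel_bound (8 ^ s j) (by positivity) (x j))).trans (le_of_eq ?_)
  rw [Finset.prod_mul_distrib, Finset.prod_const, Finset.card_univ, Fintype.card_fin, card_Y s e,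
    ← prod_two_mul_pow s 2]
  push_cast
  rfl

lemma chi_dual (y y' : Y) :
    ∑ k ∈ Rm s, chi s e k y * conj (chi s e k y')
      = if y = y' then (Fintype.card Y : ℂ) else 0 := by
  have h1 : ∑ k ∈ Rm s, chi s e k y * conj (chi s e k y')
      = ∏ j, ∑ i ∈ Finset.Ico (2 * (8 : ℤ) ^ s j) (4 * 8 ^ s j),
          ee (i * ((e y j : ℕ) : ℝ) / ((2 * 8 ^ s j : ℕ) : ℝ))
            * conj (ee (i * ((e y' j : ℕ) : ℝ) / ((2 * 8 ^ s j : ℕ) : ℝ))) := by
    rw [Finset.prod_univ_sum]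
    unfold Rm
    refine Finset.sum_congr rfl (fun k _ => ?_)
    unfold chi
    rw [map_prod, ← Finset.prod_mul_distrib]
  have h2 : ∀ j, ∑ i ∈ Finset.Ico (2 * (8 : ℤ) ^ s j) (4 * 8 ^ s j),
          ee (i * ((e y j : ℕ) : ℝ) / ((2 * 8 ^ s j : ℕ) : ℝ))
            * conj (ee (i * ((e y' j : ℕ) : ℝ) / ((2 * 8 ^ s j : ℕ) : ℝ)))
      = if e y j = e y' j then (((2 * 8 ^ s j : ℕ) : ℕ) : ℂ) else 0 := by
    intro j
    have e1 : (4 * (8 : ℤ) ^ s j) = 2 * 8 ^ s j + ((2 * 8 ^ s j : ℕ) : ℤ) := by push_cast; ring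
    rw [e1]
    exact MT.dual_one (2 * 8 ^ s j) (by positivity) (2 * 8 ^ s j) (e y j) (e y' j)
  rw [h1, Finset.prod_congr rfl (fun j _ => h2 j)]
  split_ifs with h3
  · subst h3
    rw [Finset.prod_congr rfl (fun j _ => if_pos rfl), card_Y s e, ← prod_two_mul_pow s 2]
    push_cast
    rfl
  · have h4 : ∃ j, e y j ≠ e y' j := by
      by_contra hcon
      push Not at hcon
      exact h3 (e.injective (funext hcon))
    obtain ⟨j, hj⟩ := h4
    exact Finset.prod_eq_zero (mem_univ j) (if_neg hj)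

end Pool.Agent.H75.MX
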