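import Pool.Agent.H75.MX.Defs

set_option autoImplicit false
set_option linter.unusedSectionVars false

/-! The recursion for the energies. -/

open Finset

namespace Pool.Agent.H75.MX

open Classical in
/-- the supersolution -/
theorem rec_bound {d : ℕ} (R L : ℕ) (S : ℕ → Fin d → ℕ) (hS : ∀ i < L, ∀ j, S i j ≤ R) (β : ℝ)
    (hβ : 0 ≤ β) (w : (Fin d → ℕ) → ℝ) (hw : ∀ V, 0 ≤ w V) (e : ℕ → (Fin d → ℕ) → ℝ)
    (h0 : ∀ V : Fin d → ℕ, (∀ j, V j ≤ R) → e 0 V ≤ 0)
    (hrec : ∀ i < L, ∀ V : Fin d → ℕ, (∀ j, V j ≤ R) → e (i + 1) V ≤ e i V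
      + β * ((8 : ℝ) ^ (∑ j, V j) / 8 ^ (∑ j, (V ⊔ S i) j)) * (w (V ⊔ S i) + e i (V ⊔ S i))) :
    ∀ i ≤ L, ∀ V : Fin d → ℕ, (∀ j, V j ≤ R) → e i V
      ≤ ∑ W ∈ Finset.Icc V (fun _ => R), (8 : ℝ) ^ (∑ j, V j) / 8 ^ (∑ j, W j) * w W
        * ((1 + β) ^ #((Finset.range i).filter (fun i' => S i' ≤ W)) - 1) := by
  intro i
  induction i with
  | zero =>
    intro _ V hV
    simpa using h0 V hV
  | succ i ih =>
    intro hi V hV
    have hiL : i < L := hi
    have hX : ∀ j, (V ⊔ S i) j ≤ R := fun j => sup_le (hV j) (hS i hiL j)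
    have h1 := hrec i hiL V hV
    have h2 := ih hiL.le V hV
    have h3 := ih hiL.le (V ⊔ S i) hX
    set X : Fin d → ℕ := V ⊔ S i with hXdef
    have hc : 0 ≤ β * ((8 : ℝ) ^ (∑ j, V j) / 8 ^ (∑ j, X j)) := by positivity
    have hXmem : X ∈ Finset.Icc X (fun _ => R) := Finset.mem_Icc.2 ⟨le_refl _, hX⟩
    -- the set of the new terms
    have hset : (Finset.Icc V (fun _ => R)).filter (fun W => S i ≤ W)
        = Finset.Icc X (fun _ => R) := by
      ext W
      simp only [Finset.mem_filter, Finset.mem_Icc, hXdef, sup_le_iff]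
      tauto
    -- the increment
    have hinc : ∑ W ∈ Finset.Icc V (fun _ => R), (8 : ℝ) ^ (∑ j, V j) / 8 ^ (∑ j, W j) * w W
        * ((1 + β) ^ #((Finset.range (i + 1)).filter (fun i' => S i' ≤ W)) - 1)
        = ∑ W ∈ Finset.Icc V (fun _ => R), (8 : ℝ) ^ (∑ j, V j) / 8 ^ (∑ j, W j) * w W
        * ((1 + β) ^ #((Finset.range i).filter (fun i' => S i' ≤ W)) - 1)
        + ∑ W ∈ Finset.Icc X (fun _ => R), (8 : ℝ) ^ (∑ j, V j) / 8 ^ (∑ j, W j) * w W
        * ((1 + β) ^ #((Finset.range i).filter (fun i' => S i' ≤ W)) * β) := by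
      rw [← hset, Finset.sum_filter, ← Finset.sum_add_distrib]
      apply Finset.sum_congr rfl
      intro W _
      rw [Finset.range_add_one, Finset.filter_insert]
      by_cases h : S i ≤ W
      · rw [if_pos h, if_pos h, Finset.card_insert_of_notMem (by simp), pow_succ]
        ring
      · rw [if_neg h, if_neg h, add_zero]
    have hsum : ((8 : ℝ) ^ (∑ j, V j) / 8 ^ (∑ j, X j)) * (∑ W ∈ Finset.Icc X (fun _ => R),
        (8 : ℝ) ^ (∑ j, X j) / 8 ^ (∑ j, W j) * w W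
        * ((1 + β) ^ #((Finset.range i).filter (fun i' => S i' ≤ W)) - 1))
        = ∑ W ∈ Finset.Icc X (fun _ => R), (8 : ℝ) ^ (∑ j, V j) / 8 ^ (∑ j, W j) * w W
        * ((1 + β) ^ #((Finset.range i).filter (fun i' => S i' ≤ W)) - 1) := by
      rw [Finset.mul_sum]
      apply Finset.sum_congr rfl
      intro W _
      have : (8 : ℝ) ^ (∑ j, X j) ≠ 0 := by positivity
      field_simp
    have hone : ((8 : ℝ) ^ (∑ j, V j) / 8 ^ (∑ j, X j)) * w X ≤ ∑ W ∈ Finset.Icc X (fun _ => R),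
        (8 : ℝ) ^ (∑ j, V j) / 8 ^ (∑ j, W j) * w W := by
      apply Finset.single_le_sum
        (f := fun W : Fin d → ℕ => (8 : ℝ) ^ (∑ j, V j) / 8 ^ (∑ j, W j) * w W) _ hXmem
      intro W _
      have := hw W
      positivity
    have hsplit : ∑ W ∈ Finset.Icc X (fun _ => R), (8 : ℝ) ^ (∑ j, V j) / 8 ^ (∑ j, W j) * w W
        * ((1 + β) ^ #((Finset.range i).filter (fun i' => S i' ≤ W)) * β)
        = β * (∑ W ∈ Finset.Icc X (fun _ => R), (8 : ℝ) ^ (∑ j, V j) / 8 ^ (∑ j, W j) * w W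
          + ∑ W ∈ Finset.Icc X (fun _ => R), (8 : ℝ) ^ (∑ j, V j) / 8 ^ (∑ j, W j) * w W
        * ((1 + β) ^ #((Finset.range i).filter (fun i' => S i' ≤ W)) - 1)) := by
      rw [← Finset.sum_add_distrib, Finset.mul_sum]
      apply Finset.sum_congr rfl
      intro W _
      ring
    rw [hinc]
    have h4 := mul_le_mul_of_nonneg_left h3 hc
    have h5 := mul_le_mul_of_nonneg_left hone hβ
    rw [hsplit, ← hsum]
    nlinarith [h1, h2, h4, h5]

end Pool.Agent.H75.MX
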