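import Pool.Agent.H75.MX.Wt
import Pool.Agent.H75.MX.Rec
import Pool.Agent.H75.MX.Cnt
import Pool.Agent.H75.MX.Grid

set_option autoImplicit false
set_option linter.unusedSectionVars false

/-! The energies of the coefficient sequences. -/

open Finset ComplexConjugate

namespace Pool.Agent.H75.MX

variable {d : ℕ}

/-- the conditions on the coefficient sequences -/
structure CSeq (d q M R L : ℕ) (S : ℕ → Fin d → ℕ) (ρ : ℝ) (c f : ℕ → Fr d → ℂ) : Prop where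
  hM : M = 4 * d * q
  hR : R = M + q
  hL5 : 5 * L ≤ 8 ^ q
  hS : ∀ i < L, ∑ j, S i j = M
  hinj : ∀ i < L, ∀ j < L, S i = S j → i = j
  hρ : 0 ≤ ρ
  f0 : ∀ k, f 0 k = if k = 0 then 1 else 0
  fs : ∀ i < L, ∀ k, f (i + 1) k = f i k + (ρ : ℂ) * cv (S i) (c i) (f i) k
  w2 : ∀ i < L, ∀ k, k ∉ SB (S i) → c i k = 0
  w6 : ∀ i < L, ∀ V : Fin d → ℕ, (∀ j, V j ≤ R) → ∀ lam ∈ Cen d q R,
    (∑ k ∈ KB d R, (wt V (k - lam) : ℂ)
      * (conj (Dm (f i) k) * cv (S i) (c i) (f i) k)).re = 0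
  w7 : ∀ i < L, ∀ V : Fin d → ℕ, (∀ j, V j ≤ R) → ∀ lam ∈ Cen d q R,
    ∑ k ∈ KB d R, wt V (k - lam) * ‖cv (S i) (c i) (f i) k‖ ^ 2
      ≤ 2 / (2 ^ d * 8 ^ M) * ∑ k ∈ KB d R, wt V (k - lam) * ∑ l ∈ SB (S i), ‖f i (k - l)‖ ^ 2
  w8 : ∀ i < L, ∑ k ∈ KB d R, Gw (S i) k * ‖cv (S i) (c i) (Dm (f i)) k‖ ^ 4
    ≤ 12 / (2 ^ d * 8 ^ M) ^ 2
      * ∑ k ∈ KB d R, Gw (S i) k * (∑ l ∈ SB (S i), ‖Dm (f i) (k - l)‖ ^ 2) ^ 2

lemma mem_KB {R : ℕ} {k : Fr d} : k ∈ KB d R ↔ ∀ j, |k j| ≤ 8 ^ R := by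
  unfold KB
  rw [Fintype.mem_piFinset]
  refine forall_congr' (fun j => ?_)
  rw [mem_Icc, abs_le]

lemma zero_mem_KB (R : ℕ) : (0 : Fr d) ∈ KB d R := by
  rw [mem_KB]
  intro j
  simp

lemma pow_le_M {M : ℕ} {s : Fin d → ℕ} (hs : ∑ j, s j = M) (j : Fin d) : (8 : ℤ) ^ s j ≤ 8 ^ M := by
  refine pow_le_pow_right₀ (by norm_num) ?_
  rw [← hs]
  exact Finset.single_le_sum (f := s) (fun _ _ => Nat.zero_le _) (mem_univ j)

variable {q M R L : ℕ} {S : ℕ → Fin d → ℕ} {ρ : ℝ} {c f : ℕ → Fr d → ℂ}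

lemma seq_supp (h : CSeq d q M R L S ρ c f) (i : ℕ) (hi : i ≤ L) (k : Fr d) (hk : f i k ≠ 0)
    (j : Fin d) : |k j| ≤ 5 * i * 8 ^ M := by
  induction i generalizing k with
  | zero =>
    rw [h.f0] at hk
    have : k = 0 := by
      by_contra hne
      exact hk (if_neg hne)
    rw [this]
    simp
  | succ i ih =>
    rw [h.fs i (by omega)] at hk
    have hP : (0 : ℤ) < 8 ^ M := by positivity
    by_cases h1 : f i k = 0
    · rw [h1, zero_add] at hk
      have h2 : cv (S i) (c i) (f i) k ≠ 0 := right_ne_zero_of_mul hk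
      unfold cv at h2
      obtain ⟨l, hl, hne⟩ := Finset.exists_ne_zero_of_sum_ne_zero h2
      have h3 : f i (k - l) ≠ 0 := left_ne_zero_of_mul hne
      have h4 := ih (by omega) (k - l) h3
      have h5 := (mem_SB.1 hl j).2
      have h6 := pow_le_M (h.hS i (by omega)) j
      rw [Pi.sub_apply] at h4
      have h7 : |k j| ≤ |k j - l j| + |l j| := by
        have := abs_sub_abs_le_abs_sub (k j) (l j)
        linarith
      push_cast
      nlinarith
    · have h4 := ih (by omega) k h1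
      push_cast
      nlinarith

lemma seq_KB (h : CSeq d q M R L S ρ c f) (i : ℕ) (hi : i ≤ L) (k : Fr d) (hk : k ∉ KB d R) :
    f i k = 0 := by
  by_contra hne
  apply hk
  rw [mem_KB]
  intro j
  refine (seq_supp h i hi k hne j).trans ?_
  rw [h.hR, pow_add, mul_comm]
  have h1 : (5 * i : ℤ) ≤ 8 ^ q := by
    have := h.hL5
    have h2 : 5 * i ≤ 8 ^ q := by omega
    exact_mod_cast h2
  exact mul_le_mul_of_nonneg_left h1 (by positivity)

lemma Dm_KB (h : CSeq d q M R L S ρ c f) (i : ℕ) (hi : i ≤ L) (k : Fr d) (hk : k ∉ KB d R) :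
    Dm (f i) k = 0 := by
  unfold Dm
  rw [seq_KB h i hi k hk, if_neg, sub_zero]
  rintro rfl
  exact hk (zero_mem_KB R)

lemma Dm_succ (h : CSeq d q M R L S ρ c f) (i : ℕ) (hi : i < L) (k : Fr d) :
    Dm (f (i + 1)) k = Dm (f i) k + (ρ : ℂ) * cv (S i) (c i) (f i) k := by
  unfold Dm
  rw [h.fs i hi]
  ring

/-- the convolution inequality -/
lemma conv_le {R : ℕ} (s V : Fin d → ℕ) (lam : Fr d) (g : Fr d → ℂ)
    (hg : ∀ k, k ∉ KB d R → g k = 0) :
    ∑ k ∈ KB d R, wt V (k - lam) * ∑ l ∈ SB s, ‖g (k - l)‖ ^ 2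
      ≤ 2000 ^ d * 8 ^ (∑ j, min (s j) (V j)) * En R (V ⊔ s) lam g := by
  have h1 : ∑ k ∈ KB d R, wt V (k - lam) * ∑ l ∈ SB s, ‖g (k - l)‖ ^ 2
      = ∑ l ∈ SB s, ∑ k ∈ KB d R, wt V (k - lam) * ‖g (k - l)‖ ^ 2 := by
    rw [Finset.sum_comm]
    refine Finset.sum_congr rfl (fun k _ => ?_)
    rw [Finset.mul_sum]
  have h2 : ∀ l ∈ SB s, ∑ k ∈ KB d R, wt V (k - lam) * ‖g (k - l)‖ ^ 2
      ≤ ∑ m ∈ KB d R, wt V (m - lam + l) * ‖g m‖ ^ 2 := by
    intro l _
    have h3 : ∑ k ∈ KB d R, wt V (k - lam) * ‖g (k - l)‖ ^ 2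
        = ∑ k ∈ (KB d R).filter (fun k => k - l ∈ KB d R),
          wt V (k - lam) * ‖g (k - l)‖ ^ 2 := by
      symm
      refine Finset.sum_filter_of_ne (fun k _ hne => ?_)
      by_contra hcon
      apply hne
      rw [hg _ hcon]
      simp
    have h4 : ∑ k ∈ (KB d R).filter (fun k => k - l ∈ KB d R), wt V (k - lam) * ‖g (k - l)‖ ^ 2
        = ∑ m ∈ ((KB d R).filter (fun k => k - l ∈ KB d R)).image (fun k => k - l),
          wt V (m - lam + l) * ‖g m‖ ^ 2 := by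
      rw [Finset.sum_image (fun a _ b _ hab => by simpa using hab)]
      refine Finset.sum_congr rfl (fun k _ => ?_)
      congr 2
      abel
    rw [h3, h4]
    refine Finset.sum_le_sum_of_subset_of_nonneg ?_ (fun m _ _ => ?_)
    · intro m hm
      rw [mem_image] at hm
      obtain ⟨k, hk, rfl⟩ := hm
      exact (mem_filter.1 hk).2
    · exact mul_nonneg (wt_pos V _).le (by positivity)
  rw [h1]
  refine (Finset.sum_le_sum h2).trans ?_
  rw [Finset.sum_comm]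
  unfold En
  rw [Finset.mul_sum]
  refine Finset.sum_le_sum (fun m _ => ?_)
  rw [← Finset.sum_mul]
  have h5 := mul_le_mul_of_nonneg_right (kerD s V (m - lam))
    (show 0 ≤ ‖g m‖ ^ 2 by positivity)
  refine h5.trans (le_of_eq ?_)
  ring

lemma En_f_le {R : ℕ} (V : Fin d → ℕ) (lam : Fr d) (g : Fr d → ℂ) :
    En R V lam g ≤ 2 * (wt V lam + En R V lam (Dm g)) := by
  unfold En
  have h1 : ∀ k ∈ KB d R, wt V (k - lam) * ‖g k‖ ^ 2
      ≤ 2 * (if k = 0 then wt V lam else 0) + 2 * (wt V (k - lam) * ‖Dm g k‖ ^ 2) := by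
    intro k _
    have h2 : g k = Dm g k + (if k = 0 then 1 else 0) := by
      unfold Dm
      ring
    have hw := (wt_pos V (k - lam)).le
    by_cases hk : k = 0
    · rw [if_pos hk] at h2 ⊢
      have h3 : wt V (k - lam) = wt V lam := by
        rw [hk, zero_sub, wt_neg]
      rw [h3] at hw ⊢
      have h4 : ‖g k‖ ^ 2 ≤ 2 * ‖Dm g k‖ ^ 2 + 2 := by
        rw [h2]
        have h5 := pow_le_pow_left₀ (norm_nonneg _) (norm_add_le (Dm g k) 1) 2
        rw [norm_one] at h5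
        nlinarith [sq_nonneg (‖Dm g k‖ - 1)]
      nlinarith
    · rw [if_neg hk, add_zero] at h2
      rw [if_neg hk, h2]
      have : 0 ≤ wt V (k - lam) * ‖Dm g k‖ ^ 2 := mul_nonneg hw (by positivity)
      linarith
  refine (Finset.sum_le_sum h1).trans (le_of_eq ?_)
  rw [Finset.sum_add_distrib, ← Finset.mul_sum, ← Finset.mul_sum, Finset.sum_ite_eq',
    if_pos (zero_mem_KB R)]
  ring

/-- one step of the energy recursion -/
lemma energy_step (h : CSeq d q M R L S ρ c f) (i : ℕ) (hi : i < L) (V : Fin d → ℕ)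
    (hV : ∀ j, V j ≤ R) (lam : Fr d) (hlam : lam ∈ Cen d q R) :
    En R V lam (Dm (f (i + 1))) ≤ En R V lam (Dm (f i))
      + 4 * 1000 ^ d * ρ ^ 2 * ((8 : ℝ) ^ (∑ j, V j) / 8 ^ (∑ j, (V ⊔ S i) j))
        * (wt (V ⊔ S i) lam + En R (V ⊔ S i) lam (Dm (f i))) := by
  have h1 : En R V lam (Dm (f (i + 1))) = En R V lam (Dm (f i))
      + 2 * ρ * (∑ k ∈ KB d R, (wt V (k - lam) : ℂ)
        * (conj (Dm (f i) k) * cv (S i) (c i) (f i) k)).re
      + ρ ^ 2 * ∑ k ∈ KB d R, wt V (k - lam) * ‖cv (S i) (c i) (f i) k‖ ^ 2 := by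
    unfold En
    rw [Complex.re_sum, Finset.mul_sum, Finset.mul_sum, ← Finset.sum_add_distrib,
      ← Finset.sum_add_distrib]
    refine Finset.sum_congr rfl (fun k _ => ?_)
    rw [Dm_succ h i hi, Complex.re_ofReal_mul]
    set x := cv (S i) (c i) (f i) k
    set D := Dm (f i) k
    have h2 : ‖D + (ρ : ℂ) * x‖ ^ 2 = ‖D‖ ^ 2 + 2 * ρ * (conj D * x).re + ρ ^ 2 * ‖x‖ ^ 2 := by
      rw [Complex.sq_norm, Complex.sq_norm, Complex.sq_norm, Complex.normSq_apply,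
        Complex.normSq_apply, Complex.normSq_apply]
      simp only [Complex.add_re, Complex.add_im, Complex.mul_re, Complex.mul_im,
        Complex.ofReal_re, Complex.ofReal_im, Complex.conj_re, Complex.conj_im]
      ring
    rw [h2]
    ring
  rw [h1, h.w6 i hi V hV lam hlam, mul_zero, add_zero]
  refine add_le_add le_rfl ?_
  have h3 := h.w7 i hi V hV lam hlam
  have h4 := conv_le (R := R) (S i) V lam (f i) (fun k hk => seq_KB h i hi.le k hk)
  have h5 := En_f_le (R := R) (V ⊔ S i) lam (f i)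
  set X := ∑ k ∈ KB d R, wt V (k - lam) * ‖cv (S i) (c i) (f i) k‖ ^ 2
  set Y := ∑ k ∈ KB d R, wt V (k - lam) * ∑ l ∈ SB (S i), ‖f i (k - l)‖ ^ 2
  set Z := En R (V ⊔ S i) lam (f i)
  set T := wt (V ⊔ S i) lam + En R (V ⊔ S i) lam (Dm (f i))
  have hP : (0 : ℝ) < 2 ^ d * 8 ^ M := by positivity
  have h6 : X ≤ 2 / (2 ^ d * 8 ^ M) * (2000 ^ d * 8 ^ (∑ j, min (S i j) (V j)) * (2 * T)) := by
    refine h3.trans ?_
    refine mul_le_mul_of_nonneg_left ?_ (by positivity)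
    exact h4.trans (mul_le_mul_of_nonneg_left h5 (by positivity))
  have h7 := mul_le_mul_of_nonneg_left h6 (sq_nonneg ρ)
  refine h7.trans (le_of_eq ?_)
  have h8 : (8 : ℝ) ^ (∑ j, min (S i j) (V j)) * 8 ^ (∑ j, (V ⊔ S i) j)
      = 8 ^ M * 8 ^ (∑ j, V j) := by
    rw [← pow_add, ← pow_add]
    congr 1
    rw [← h.hS i hi, ← Finset.sum_add_distrib, ← Finset.sum_add_distrib]
    refine Finset.sum_congr rfl (fun j _ => ?_)
    rw [Pi.sup_apply]
    have := min_add_max (S i j) (V j)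
    rw [sup_comm]
    exact this
  have h9 : (8 : ℝ) ^ (∑ j, min (S i j) (V j))
      = 8 ^ M * (8 ^ (∑ j, V j) / 8 ^ (∑ j, (V ⊔ S i) j)) := by
    rw [← mul_div_assoc, ← h8, mul_div_assoc, div_self (by positivity), mul_one]
  rw [h9]
  have h10 : (2000 : ℝ) ^ d = 2 ^ d * 1000 ^ d := by
    rw [← mul_pow]
    norm_num
  rw [h10]
  field_simp
  ring

open Classical in
/-- the energy bound -/
theorem energy (h : CSeq d q M R L S ρ c f) (i : ℕ) (hi : i ≤ L) (V : Fin d → ℕ)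
    (hV : ∀ j, V j ≤ R) (lam : Fr d) (hlam : lam ∈ Cen d q R) :
    En R V lam (Dm (f i)) ≤ ∑ W ∈ Finset.Icc V (fun _ => R),
      (8 : ℝ) ^ (∑ j, V j) / 8 ^ (∑ j, W j) * wt W lam
        * ((1 + 4 * 1000 ^ d * ρ ^ 2)
          ^ #((Finset.range i).filter (fun i' => S i' ≤ W)) - 1) := by
  refine rec_bound R L S ?_ (4 * 1000 ^ d * ρ ^ 2) (by positivity) (fun W => wt W lam)
    (fun W => (wt_pos W lam).le) (fun i V => En R V lam (Dm (f i))) ?_ ?_ i hi V hV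
  · intro i hi j
    have h1 := h.hS i hi
    have h2 := Finset.single_le_sum (f := S i) (fun _ _ => Nat.zero_le _) (mem_univ j)
    rw [h1] at h2
    rw [h.hR]
    omega
  · intro V _
    unfold En
    refine le_of_eq (Finset.sum_eq_zero (fun k _ => ?_))
    have : Dm (f 0) k = 0 := by
      unfold Dm
      rw [h.f0, sub_self]
    rw [this]
    simp
  · intro i hi V hV
    exact energy_step h i hi V hV lam hlam

open Classical in
/-- the energy bound in the form used for the quartic sum -/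
theorem energy' (hd : 2 ≤ d) (γ Γ : ℝ) (hΓ : 0 < Γ)
    (hg : ∀ (β : ℝ) (u n : ℕ), 0 ≤ β → β * ((u : ℝ) + 1) ^ (d - 2) ≤ γ →
      n ≤ (u + 1) ^ (d - 1) → (1 + β) ^ n - 1 ≤ β * Γ * gg d ^ u)
    (h : CSeq d q M R L S ρ c f)
    (hγ : 4 * 1000 ^ d * ρ ^ 2 * (((d * R : ℕ) : ℝ) + 1) ^ (d - 2) ≤ γ) (i : ℕ) (hi : i ≤ L)
    (V : Fin d → ℕ) (hV : ∀ j, V j ≤ R) (lam : Fr d) (hlam : lam ∈ Cen d q R) :
    En R V lam (Dm (f i)) ≤ (4 * 1000 ^ d * ρ ^ 2 * Γ)
      * ∑ W ∈ (Finset.Icc V (fun _ => R)).filter (fun W => M ≤ ∑ j, W j),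
        (8 : ℝ) ^ (∑ j, V j) / 8 ^ (∑ j, W j) * gg d ^ (∑ j, W j - M) * wt W lam := by
  refine (energy h i hi V hV lam hlam).trans ?_
  set β : ℝ := 4 * 1000 ^ d * ρ ^ 2 with hβ
  have hβ0 : 0 ≤ β := by positivity
  have hgg : 0 ≤ gg d := by
    unfold gg tt
    positivity
  have hcount : ∀ W : Fin d → ℕ, #((Finset.range i).filter (fun i' => S i' ≤ W))
      ≤ #((blk d M).filter (fun s => s ≤ W)) := by
    intro W
    refine Finset.card_le_card_of_injOn S ?_ ?_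
    · intro i' hi'
      simp only [coe_filter, mem_range, Set.mem_ofPred_eq] at hi' ⊢
      exact ⟨mem_blk.2 (h.hS i' (by omega)), hi'.2⟩
    · intro a ha b hb hab
      simp only [coe_filter, mem_range, Set.mem_ofPred_eq] at ha hb
      exact h.hinj a (by omega) b (by omega) hab
  rw [Finset.mul_sum, Finset.sum_filter]
  refine Finset.sum_le_sum (fun W hW => ?_)
  have hw := (wt_pos W lam).le
  by_cases hWM : M ≤ ∑ j, W j
  · rw [if_pos hWM]
    have h1 := (hcount W).trans (nu_le d M W hWM)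
    have hWR : ∑ j, W j ≤ d * R := by
      rw [mem_Icc] at hW
      have h2 : ∑ j, W j ≤ ∑ _j : Fin d, R := Finset.sum_le_sum (fun j _ => hW.2 j)
      rwa [Finset.sum_const, Finset.card_univ, Fintype.card_fin, smul_eq_mul] at h2
    have h3 : β * (((∑ j, W j - M : ℕ) : ℝ) + 1) ^ (d - 2) ≤ γ := by
      refine le_trans (mul_le_mul_of_nonneg_left ?_ hβ0) hγ
      refine pow_le_pow_left₀ (by positivity) ?_ _
      have : (((∑ j, W j - M : ℕ)) : ℝ) ≤ ((d * R : ℕ) : ℝ) := by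
        have h4 : ∑ j, W j - M ≤ d * R := by omega
        exact_mod_cast h4
      linarith
    have h5 := hg β _ _ hβ0 h3 h1
    have h6 : 0 ≤ (8 : ℝ) ^ (∑ j, V j) / 8 ^ (∑ j, W j) * wt W lam :=
      mul_nonneg (by positivity) hw
    have h7 := mul_le_mul_of_nonneg_left h5 h6
    refine h7.trans (le_of_eq ?_)
    ring
  · rw [if_neg hWM]
    have h1 := hcount W
    rw [nu_zero d M W (by omega)] at h1
    have h2 : #((Finset.range i).filter (fun i' => S i' ≤ W)) = 0 := by omega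
    rw [h2, pow_zero, sub_self, mul_zero]

end Pool.Agent.H75.MX
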