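import Pool.Agent.H75.MX.Mom

set_option autoImplicit false
set_option linter.unusedSectionVars false

/-! Spectral decomposition of a quadratic form and the exceptional sign vectors. -/

open Finset

namespace Pool.Agent.H75.MX

open Pool.Agent.H75.MT (sg)

/-- the Gram matrix of the form -/
noncomputable def gramM {I K : Type*} (S : Finset K) (W : K → ℝ) (φ : K → I → ℂ) :
    Matrix I I ℝ :=
  fun y z => ∑ k ∈ S, W k * ((φ k y).re * (φ k z).re + (φ k y).im * (φ k z).im)

lemma spec_form {I K : Type*} [Fintype I] (S : Finset K) (W : K → ℝ)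
    (φ : K → I → ℂ) (h : I → ℝ) :
    ∑ k ∈ S, W k * ‖∑ y, (h y : ℂ) * φ k y‖ ^ 2
      = ∑ y, ∑ z, h y * h z * gramM S W φ y z := by
  have hn : ∀ z : ℂ, ‖z‖ ^ 2 = z.re ^ 2 + z.im ^ 2 := by
    intro z
    rw [← Complex.normSq_eq_norm_sq, Complex.normSq_apply]; ring
  have h1 : ∀ k, W k * ‖∑ y, (h y : ℂ) * φ k y‖ ^ 2
      = ∑ y, ∑ z, h y * h z * (W k * ((φ k y).re * (φ k z).re + (φ k y).im * (φ k z).im)) := by
    intro k
    have hre : (∑ y, (h y : ℂ) * φ k y).re = ∑ y, h y * (φ k y).re := by
      rw [Complex.re_sum]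
      exact Finset.sum_congr rfl fun y _ => by simp
    have him : (∑ y, (h y : ℂ) * φ k y).im = ∑ y, h y * (φ k y).im := by
      rw [Complex.im_sum]
      exact Finset.sum_congr rfl fun y _ => by simp
    rw [hn, hre, him, sq, sq, Finset.sum_mul_sum, Finset.sum_mul_sum, ← Finset.sum_add_distrib,
      Finset.mul_sum]
    refine Finset.sum_congr rfl fun y _ => ?_
    rw [← Finset.sum_add_distrib, Finset.mul_sum]
    exact Finset.sum_congr rfl fun z _ => by ring
  rw [Finset.sum_congr rfl fun k _ => h1 k, Finset.sum_comm]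
  refine Finset.sum_congr rfl fun y _ => ?_
  rw [Finset.sum_comm]
  refine Finset.sum_congr rfl fun z _ => ?_
  unfold gramM
  rw [Finset.mul_sum]

lemma spec_basis {I K : Type*} [Fintype I] [DecidableEq I] (S : Finset K) (W : K → ℝ)
    (hW : ∀ k, 0 ≤ W k) (φ : K → I → ℂ) :
    ∃ (lam : I → ℝ) (b : I → I → ℝ), (∀ i, 0 ≤ lam i) ∧
      (∀ i j, ∑ y, b i y * b j y = if i = j then 1 else 0) ∧
      (∀ h : I → ℝ, ∑ k ∈ S, W k * ‖∑ y, (h y : ℂ) * φ k y‖ ^ 2
        = ∑ i, lam i * (∑ y, b i y * h y) ^ 2) ∧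
      ∑ i, lam i = ∑ k ∈ S, W k * ∑ y, ‖φ k y‖ ^ 2 := by
  have hn : ∀ z : ℂ, ‖z‖ ^ 2 = z.re ^ 2 + z.im ^ 2 := by
    intro z
    rw [← Complex.normSq_eq_norm_sq, Complex.normSq_apply]; ring
  set A : Matrix I I ℝ := gramM S W φ with hA
  have hH : A.IsHermitian := by
    ext y z
    simp only [Matrix.conjTranspose_apply, star_trivial, hA, gramM]
    exact Finset.sum_congr rfl fun k _ => by ring
  set U : Matrix I I ℝ := (hH.eigenvectorUnitary : Matrix I I ℝ) with hU
  set lam : I → ℝ := hH.eigenvalues with hlam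
  have hUU : star U * U = 1 := by
    rw [hU]; exact Unitary.coe_star_mul_self _
  have hsp : A = U * Matrix.diagonal lam * star U := by
    have := hH.spectral_theorem
    rw [Unitary.conjStarAlgAut_apply] at this
    simpa using this
  have hent : ∀ y z, A y z = ∑ i, lam i * (U y i * U z i) := by
    intro y z
    have h1 : A y z = (U * Matrix.diagonal lam * star U) y z := by rw [← hsp]
    rw [h1, Matrix.mul_apply]
    refine Finset.sum_congr rfl fun i _ => ?_
    rw [Matrix.mul_diagonal, Matrix.star_apply, star_trivial]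
    ring
  have horth : ∀ i j, ∑ y, U y i * U y j = if i = j then 1 else 0 := by
    intro i j
    have h1 : (star U * U) i j = (1 : Matrix I I ℝ) i j := by rw [hUU]
    rw [Matrix.mul_apply, Matrix.one_apply] at h1
    rw [← h1]
    exact Finset.sum_congr rfl fun y _ => by rw [Matrix.star_apply, star_trivial]
  have hform : ∀ h : I → ℝ, ∑ k ∈ S, W k * ‖∑ y, (h y : ℂ) * φ k y‖ ^ 2
        = ∑ i, lam i * (∑ y, U y i * h y) ^ 2 := by
    intro h
    rw [spec_form]
    have h1 : ∀ y z, h y * h z * gramM S W φ y z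
        = ∑ i, lam i * ((U y i * h y) * (U z i * h z)) := by
      intro y z
      have : gramM S W φ y z = A y z := rfl
      rw [this, hent, Finset.mul_sum]
      exact Finset.sum_congr rfl fun i _ => by ring
    have h2 : ∀ y, ∑ z, h y * h z * gramM S W φ y z
        = ∑ i, ∑ z, lam i * ((U y i * h y) * (U z i * h z)) := by
      intro y
      rw [Finset.sum_congr rfl fun z _ => h1 y z, Finset.sum_comm]
    rw [Finset.sum_congr rfl fun y _ => h2 y, Finset.sum_comm]
    refine Finset.sum_congr rfl fun i _ => ?_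
    rw [sq, Finset.sum_mul_sum, Finset.mul_sum]
    refine Finset.sum_congr rfl fun y _ => ?_
    rw [Finset.mul_sum]
  refine ⟨lam, fun i y => U y i, ?_, horth, hform, ?_⟩
  · intro i
    have h1 := hform (fun y => U y i)
    have h2 : ∑ j, lam j * (∑ y, U y j * U y i) ^ 2 = lam i := by
      rw [Finset.sum_eq_single i]
      · rw [horth, if_pos rfl]; ring
      · intro j _ hj
        rw [horth, if_neg hj]; ring
      · intro h; exact absurd (Finset.mem_univ i) h
    rw [h2] at h1
    rw [← h1]
    exact Finset.sum_nonneg fun k _ => mul_nonneg (hW k) (by positivity)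
  · have h1 : ∑ y, A y y = ∑ i, lam i := by
      rw [Finset.sum_congr rfl fun y _ => hent y y, Finset.sum_comm]
      refine Finset.sum_congr rfl fun i _ => ?_
      rw [← Finset.mul_sum, horth, if_pos rfl, mul_one]
    rw [← h1]
    have h2 : ∀ y, A y y = ∑ k ∈ S, W k * ‖φ k y‖ ^ 2 := by
      intro y
      show gramM S W φ y y = _
      unfold gramM
      exact Finset.sum_congr rfl fun k _ => by rw [hn]; ring
    rw [Finset.sum_congr rfl fun y _ => h2 y, Finset.sum_comm]
    exact Finset.sum_congr rfl fun k _ => by rw [Finset.mul_sum]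

open Classical in
theorem spec {I K : Type*} [Fintype I] [DecidableEq I] (S : Finset K) (W : K → ℝ)
    (hW : ∀ k, 0 ≤ W k) (φ : K → I → ℂ) (t : ℕ) (ht : 0 < t) :
    ∃ (lam : I → ℝ) (b : I → I → ℝ) (top : Finset I), (∀ i, 0 ≤ lam i) ∧ top.card ≤ t ∧
      (∀ h : I → ℝ, ∑ k ∈ S, W k * ‖∑ y, (h y : ℂ) * φ k y‖ ^ 2
        = ∑ i, lam i * (∑ y, b i y * h y) ^ 2) ∧
      t * #(univ.filter (fun s : Finset I => 2 * ∑ k ∈ S, W k * ∑ y, ‖φ k y‖ ^ 2
        < ∑ i ∈ topᶜ, lam i * (∑ y, b i y * sg s y) ^ 2)) ≤ 2 * 2 ^ Fintype.card I := by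
  obtain ⟨lam, b, hlam, horth, hform, htr⟩ := spec_basis S W hW φ
  set τ : ℝ := ∑ i, lam i with hτ
  have ht' : (0 : ℝ) < t := by exact_mod_cast ht
  have hτ0 : 0 ≤ τ := Finset.sum_nonneg fun i _ => hlam i
  rcases hτ0.eq_or_lt with hz | hpos
  · have hall : ∀ i, lam i = 0 := by
      intro i
      have := (Finset.sum_eq_zero_iff_of_nonneg (fun i _ => hlam i)).1 hz.symm
      exact this i (Finset.mem_univ i)
    refine ⟨lam, b, ∅, hlam, by simp, hform, ?_⟩
    have : (univ.filter (fun s : Finset I => 2 * ∑ k ∈ S, W k * ∑ y, ‖φ k y‖ ^ 2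
        < ∑ i ∈ (∅ : Finset I)ᶜ, lam i * (∑ y, b i y * sg s y) ^ 2)) = ∅ := by
      rw [Finset.filter_eq_empty_iff]
      intro s _
      rw [← htr, ← hz]
      simp [hall]
    rw [this]
    simp
  · refine ⟨lam, b, univ.filter (fun i => τ < t * lam i), hlam, ?_, hform, ?_⟩
    · have h1 : (#(univ.filter (fun i => τ < t * lam i)) : ℝ) * τ ≤ t * τ := by
        calc (#(univ.filter (fun i => τ < t * lam i)) : ℝ) * τ
            = ∑ i ∈ univ.filter (fun i => τ < t * lam i), τ := by
              rw [Finset.sum_const, nsmul_eq_mul]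
          _ ≤ ∑ i ∈ univ.filter (fun i => τ < t * lam i), t * lam i := by
              refine Finset.sum_le_sum fun i hi => ?_
              exact (Finset.mem_filter.1 hi).2.le
          _ ≤ ∑ i, t * lam i :=
              Finset.sum_le_sum_of_subset_of_nonneg (Finset.filter_subset _ _)
                fun i _ _ => mul_nonneg ht'.le (hlam i)
          _ = t * τ := by rw [← Finset.mul_sum]
      have h2 : (#(univ.filter (fun i => τ < t * lam i)) : ℝ) ≤ t :=
        le_of_mul_le_mul_right h1 hpos
      exact_mod_cast h2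
    · set L : Finset I := (univ.filter (fun i => τ < t * lam i))ᶜ with hL
      set n := Fintype.card I with hn
      have hLm : ∀ i ∈ L, t * lam i ≤ τ := by
        intro i hi
        rw [hL, Finset.mem_compl, Finset.mem_filter] at hi
        push Not at hi
        exact hi (Finset.mem_univ i)
      set X : I → Finset I → ℝ := fun i s => ∑ y, sg s y * b i y with hX
      have hXe : ∀ i s, ∑ y, b i y * sg s y = X i s := fun i s =>
        Finset.sum_congr rfl fun y _ => by ring
      simp only [hXe]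
      rw [← htr]
      set m : ℝ := ∑ i ∈ L, lam i with hm
      have hm1 : m ≤ τ := Finset.sum_le_sum_of_subset_of_nonneg (Finset.subset_univ _)
        fun i _ _ => hlam i
      have hm0 : 0 ≤ m := Finset.sum_nonneg fun i _ => hlam i
      have hb1 : ∀ i, ∑ y, b i y ^ 2 = 1 := by
        intro i
        have := horth i i
        rw [if_pos rfl] at this
        rw [← this]
        exact Finset.sum_congr rfl fun y _ => by ring
      have hE1 : ∑ s, (∑ i ∈ L, lam i * X i s ^ 2) = 2 ^ n * m := by
        rw [Finset.sum_comm]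
        have : ∀ i ∈ L, ∑ s, lam i * X i s ^ 2 = 2 ^ n * lam i := by
          intro i _
          rw [← Finset.mul_sum]
          have := mom_two (b i)
          rw [hb1, mul_one] at this
          show lam i * ∑ s, (∑ y, sg s y * b i y) ^ 2 = _
          rw [this]; ring
        rw [Finset.sum_congr rfl this, ← Finset.mul_sum]
      have hE2 : ∑ s, (∑ i ∈ L, lam i * X i s ^ 2) ^ 2
          ≤ 2 ^ n * (m ^ 2 + 2 * ∑ i ∈ L, lam i ^ 2) := by
        have h1 : ∀ s, (∑ i ∈ L, lam i * X i s ^ 2) ^ 2
            = ∑ i ∈ L, ∑ j ∈ L, lam i * lam j * (X i s ^ 2 * X j s ^ 2) := by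
          intro s
          rw [sq, Finset.sum_mul_sum]
          refine Finset.sum_congr rfl fun i _ => Finset.sum_congr rfl fun j _ => ?_
          ring
        rw [Finset.sum_congr rfl fun s _ => h1 s, Finset.sum_comm]
        have h2 : ∀ i ∈ L, ∑ s, ∑ j ∈ L, lam i * lam j * (X i s ^ 2 * X j s ^ 2)
            ≤ 2 ^ n * (lam i * m + 2 * lam i ^ 2) := by
          intro i hi
          rw [Finset.sum_comm]
          have h3 : ∀ j ∈ L, ∑ s, lam i * lam j * (X i s ^ 2 * X j s ^ 2)
              ≤ 2 ^ n * (lam i * lam j + (if j = i then 2 * lam i ^ 2 else 0)) := by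
            intro j _
            rw [← Finset.mul_sum]
            have h4 := mom_pair (b i) (b j)
            rw [hb1, hb1, horth] at h4
            have h5 : 0 ≤ lam i * lam j := mul_nonneg (hlam i) (hlam j)
            have h6 := mul_le_mul_of_nonneg_left h4 h5
            refine h6.trans (le_of_eq ?_)
            by_cases hij : i = j
            · subst hij
              rw [if_pos rfl, if_pos rfl]; ring
            · rw [if_neg hij, if_neg (Ne.symm hij)]; ring
          refine (Finset.sum_le_sum h3).trans (le_of_eq ?_)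
          rw [← Finset.mul_sum, Finset.sum_add_distrib, ← Finset.mul_sum,
            Finset.sum_ite_eq' L i, if_pos hi]
        refine (Finset.sum_le_sum h2).trans (le_of_eq ?_)
        rw [← Finset.mul_sum, Finset.sum_add_distrib, ← Finset.sum_mul, ← Finset.mul_sum, sq]
      have hsq : t * ∑ i ∈ L, lam i ^ 2 ≤ τ * τ := by
        calc t * ∑ i ∈ L, lam i ^ 2 = ∑ i ∈ L, (t * lam i) * lam i := by
              rw [Finset.mul_sum]; exact Finset.sum_congr rfl fun i _ => by ring
          _ ≤ ∑ i ∈ L, τ * lam i :=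
              Finset.sum_le_sum fun i hi => mul_le_mul_of_nonneg_right (hLm i hi) (hlam i)
          _ = τ * m := by rw [← Finset.mul_sum]
          _ ≤ τ * τ := mul_le_mul_of_nonneg_left hm1 hτ0
      have hvar : ∑ s, ((∑ i ∈ L, lam i * X i s ^ 2) - m) ^ 2
          ≤ 2 ^ n * (2 * ∑ i ∈ L, lam i ^ 2) := by
        have h1 : ∀ s, ((∑ i ∈ L, lam i * X i s ^ 2) - m) ^ 2
            = (∑ i ∈ L, lam i * X i s ^ 2) ^ 2 - 2 * m * (∑ i ∈ L, lam i * X i s ^ 2)
              + m ^ 2 := fun s => by ring
        rw [Finset.sum_congr rfl fun s _ => h1 s, Finset.sum_add_distrib,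
          Finset.sum_sub_distrib, ← Finset.mul_sum, hE1, Finset.sum_const]
        have hc : #(univ : Finset (Finset I)) = 2 ^ n := by
          rw [Finset.card_univ, Fintype.card_finset]
        rw [hc, nsmul_eq_mul]
        push_cast
        nlinarith [hE2]
      set Bad := univ.filter (fun s : Finset I => 2 * τ < ∑ i ∈ L, lam i * X i s ^ 2) with hBad
      have hcount : (#Bad : ℝ) * (τ * τ) ≤ 2 ^ n * (2 * ∑ i ∈ L, lam i ^ 2) := by
        refine le_trans ?_ hvar
        calc (#Bad : ℝ) * (τ * τ) = ∑ s ∈ Bad, τ * τ := by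
              rw [Finset.sum_const, nsmul_eq_mul]
          _ ≤ ∑ s ∈ Bad, ((∑ i ∈ L, lam i * X i s ^ 2) - m) ^ 2 := by
              refine Finset.sum_le_sum fun s hs => ?_
              have h1 := (Finset.mem_filter.1 hs).2
              have h2 : τ ≤ (∑ i ∈ L, lam i * X i s ^ 2) - m := by linarith
              rw [sq]
              exact mul_le_mul h2 h2 hτ0 (hτ0.trans h2)
          _ ≤ ∑ s, ((∑ i ∈ L, lam i * X i s ^ 2) - m) ^ 2 :=
              Finset.sum_le_sum_of_subset_of_nonneg (Finset.subset_univ _)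
                fun s _ _ => sq_nonneg _
      have hp : (0 : ℝ) < 2 ^ n := by positivity
      have hfin : (t : ℝ) * #Bad * (τ * τ) ≤ (2 * 2 ^ n) * (τ * τ) := by
        have h1 := mul_le_mul_of_nonneg_left hcount ht'.le
        have h2 := mul_le_mul_of_nonneg_left hsq (by positivity : (0 : ℝ) ≤ 2 * 2 ^ n)
        nlinarith [h1, h2]
      have hττ : 0 < τ * τ := mul_pos hpos hpos
      have hres : (t : ℝ) * #Bad ≤ 2 * 2 ^ n := le_of_mul_le_mul_right hfin hττ
      exact_mod_cast hres

end Pool.Agent.H75.MX
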