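import Pool.Agent.H75.MX.Vol
import Pool.Agent.H75.MX.Spec

set_option autoImplicit false
set_option linter.unusedSectionVars false

/-! Most sign vectors have a good bounded function. -/

open Finset

namespace Pool.Agent.H75.MX

open Pool.Agent.H75.MT (sg bsum)

/-- a good function for the sign vector `s` -/
def Wit {Y ι K A : Type*} [Fintype Y] [DecidableEq Y] (S : Finset K) (v : A → Y → ℝ)
    (W : ι → K → ℝ) (φ : K → Y → ℂ) (G : K → ℝ) (χ : K → Y → ℂ) (n : ℕ) (s : Finset Y) : Prop :=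
  ∃ h : Y → ℝ, (∀ y, |h y| ≤ 1) ∧ (∀ a, ∑ y, v a y * h y = 0) ∧
    (∀ j, ∑ k ∈ S, W j k * ‖∑ y, (h y : ℂ) * φ k y‖ ^ 2
      ≤ 2 * ∑ k ∈ S, W j k * ∑ y, ‖φ k y‖ ^ 2) ∧
    ∑ k ∈ S, G k * ‖∑ y, (h y : ℂ) * χ k y‖ ^ 4 ≤ 12 * ∑ k ∈ S, G k * (∑ y, ‖χ k y‖ ^ 2) ^ 2 ∧
    (n : ℝ) / 17 ≤ ∑ y, h y * sg s y

section Num

lemma exp_two_le : Real.exp 2 ≤ 8 := by
  have h1 : Real.exp 1 < 2.7182818286 := Real.exp_one_lt_d9
  have h2 : Real.exp 2 = Real.exp 1 * Real.exp 1 := by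
    rw [← Real.exp_add]
    norm_num
  rw [h2]
  have h3 : 0 < Real.exp 1 := Real.exp_pos 1
  nlinarith

lemma bsum_pow (n : ℕ) : (bsum n (n / 8)) ^ 16 ≤ 2 ^ (9 * n) := by
  have h1 := MT.bsum_le n (n / 8) (1 / 8) (by norm_num) (by norm_num)
  have h2 : ((bsum n (n / 8) : ℝ)) ^ 16 ≤ (Real.exp (n * (1 / 8)) * (1 / (1 / 8)) ^ (n / 8)) ^ 16 :=
    pow_le_pow_left₀ (by positivity) h1 16
  have h3 : (Real.exp (n * (1 / 8)) * (1 / (1 / 8) : ℝ) ^ (n / 8)) ^ 16
      ≤ 2 ^ (9 * n) := by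
    rw [mul_pow]
    have h4 : Real.exp (n * (1 / 8)) ^ 16 = Real.exp 2 ^ n := by
      rw [← Real.exp_nat_mul, ← Real.exp_nat_mul]
      congr 1
      push_cast
      ring
    have h5 : ((1 / (1 / 8) : ℝ) ^ (n / 8)) ^ 16 ≤ 8 ^ (2 * n) := by
      rw [one_div_one_div, ← pow_mul]
      exact pow_le_pow_right₀ (by norm_num) (by omega)
    rw [h4]
    have h6 : Real.exp 2 ^ n ≤ 8 ^ n :=
      pow_le_pow_left₀ (Real.exp_pos 2).le exp_two_le n
    have h7 : (2 : ℝ) ^ (9 * n) = 8 ^ n * 8 ^ (2 * n) := by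
      rw [show (8 : ℝ) = 2 ^ 3 by norm_num, ← pow_mul, ← pow_mul, ← pow_add]
      congr 1
      ring
    rw [h7]
    exact mul_le_mul h6 h5 (by positivity) (by positivity)
  have h8 := h2.trans h3
  exact_mod_cast h8

lemma ham_num (n E : ℕ) (h : 16 * E < n) (h8 : 8 < n) : 2 * (17 ^ E * bsum n (n / 8)) < 2 ^ n := by
  have h1 : (2 * (17 ^ E * bsum n (n / 8))) ^ 16 < (2 ^ n) ^ 16 := by
    have h2 : (2 * (17 ^ E * bsum n (n / 8))) ^ 16
        = 2 ^ 16 * (17 ^ (16 * E) * (bsum n (n / 8)) ^ 16) := by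
      rw [mul_pow, mul_pow, ← pow_mul, mul_comm E 16]
    have h3 : 17 ^ (16 * E) ≤ 2 ^ (5 * n) := by
      calc 17 ^ (16 * E) ≤ 17 ^ n := Nat.pow_le_pow_right (by norm_num) h.le
        _ ≤ 32 ^ n := Nat.pow_le_pow_left (by norm_num) n
        _ = 2 ^ (5 * n) := by rw [pow_mul]; norm_num
    rw [h2]
    calc 2 ^ 16 * (17 ^ (16 * E) * (bsum n (n / 8)) ^ 16)
        ≤ 2 ^ 16 * (2 ^ (5 * n) * 2 ^ (9 * n)) :=
          Nat.mul_le_mul_left _ (Nat.mul_le_mul h3 (bsum_pow n))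
      _ = 2 ^ (16 + 14 * n) := by
          rw [← pow_add, ← pow_add]
          congr 1
          ring
      _ < 2 ^ (n * 16) := Nat.pow_lt_pow_right (by norm_num) (by omega)
      _ = (2 ^ n) ^ 16 := by rw [pow_mul]
  exact lt_of_pow_lt_pow_left₀ 16 (by positivity) h1

end Num

section Conv

variable {I : Type*} [Fintype I]

lemma sq_conv (p q a b : ℝ) (ha : 0 ≤ a) (hb : 0 ≤ b) (hab : a + b = 1) :
    (a * p + b * q) ^ 2 ≤ a * p ^ 2 + b * q ^ 2 := by
  have h1 : a * p ^ 2 + b * q ^ 2 - (a * p + b * q) ^ 2 = a * b * (p - q) ^ 2 := by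
    have hb' : b = 1 - a := by linarith
    subst hb'
    ring
  have h2 : 0 ≤ a * b * (p - q) ^ 2 := by positivity
  linarith

lemma quad_conv (u : I → ℝ) (x y : I → ℝ) (a b : ℝ) (ha : 0 ≤ a) (hb : 0 ≤ b) (hab : a + b = 1) :
    (∑ i, u i * (a • x + b • y) i) ^ 2 ≤ a * (∑ i, u i * x i) ^ 2 + b * (∑ i, u i * y i) ^ 2 := by
  have h1 : ∑ i, u i * (a • x + b • y) i = a * (∑ i, u i * x i) + b * (∑ i, u i * y i) := by
    rw [Finset.mul_sum, Finset.mul_sum, ← Finset.sum_add_distrib]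
    refine Finset.sum_congr rfl (fun i _ => ?_)
    simp only [Pi.add_apply, Pi.smul_apply, smul_eq_mul]
    ring
  rw [h1]
  exact sq_conv _ _ a b ha hb hab

lemma quart_conv (c : I → ℂ) (x y : I → ℝ) (a b : ℝ) (ha : 0 ≤ a) (hb : 0 ≤ b)
    (hab : a + b = 1) :
    ‖∑ i, (((a • x + b • y) i : ℝ) : ℂ) * c i‖ ^ 4
      ≤ a * ‖∑ i, (x i : ℂ) * c i‖ ^ 4 + b * ‖∑ i, (y i : ℂ) * c i‖ ^ 4 := by
  have h1 : ∑ i, (((a • x + b • y) i : ℝ) : ℂ) * c i
      = (a : ℂ) * (∑ i, (x i : ℂ) * c i) + (b : ℂ) * (∑ i, (y i : ℂ) * c i) := by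
    rw [Finset.mul_sum, Finset.mul_sum, ← Finset.sum_add_distrib]
    refine Finset.sum_congr rfl (fun i _ => ?_)
    simp only [Pi.add_apply, Pi.smul_apply, smul_eq_mul]
    push_cast
    ring
  rw [h1]
  set P := ∑ i, (x i : ℂ) * c i
  set R := ∑ i, (y i : ℂ) * c i
  have h2 : ‖(a : ℂ) * P + (b : ℂ) * R‖ ≤ a * ‖P‖ + b * ‖R‖ := by
    refine (norm_add_le _ _).trans (le_of_eq ?_)
    rw [norm_mul, norm_mul, Complex.norm_real, Complex.norm_real, Real.norm_of_nonneg ha,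
      Real.norm_of_nonneg hb]
  have h3 : ‖(a : ℂ) * P + (b : ℂ) * R‖ ^ 4 ≤ (a * ‖P‖ + b * ‖R‖) ^ 4 :=
    pow_le_pow_left₀ (norm_nonneg _) h2 4
  refine h3.trans ?_
  have h4 := sq_conv ‖P‖ ‖R‖ a b ha hb hab
  have h5 := sq_conv (‖P‖ ^ 2) (‖R‖ ^ 2) a b ha hb hab
  calc (a * ‖P‖ + b * ‖R‖) ^ 4 = ((a * ‖P‖ + b * ‖R‖) ^ 2) ^ 2 := by ring
    _ ≤ (a * ‖P‖ ^ 2 + b * ‖R‖ ^ 2) ^ 2 := pow_le_pow_left₀ (sq_nonneg _) h4 2
    _ ≤ a * (‖P‖ ^ 2) ^ 2 + b * (‖R‖ ^ 2) ^ 2 := h5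
    _ = a * ‖P‖ ^ 4 + b * ‖R‖ ^ 4 := by ring

end Conv

section Core

variable {I : Type*} [Fintype I] [DecidableEq I]

lemma sg_inj : Function.Injective (sg : Finset I → I → ℝ) := by
  intro s t h
  ext y
  have h1 := congrFun h y
  unfold sg at h1
  by_cases hs : y ∈ s <;> by_cases ht : y ∈ t
  · simp [hs, ht]
  · rw [if_pos hs, if_neg ht] at h1
    norm_num at h1
  · rw [if_neg hs, if_pos ht] at h1
    norm_num at h1
  · simp [hs, ht]

lemma sg_abs (s : Finset I) (y : I) : |sg s y| = 1 := by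
  unfold sg
  split_ifs <;> simp

lemma sg_pair (s t : Finset I) :
    ∑ y, (sg s y - sg t y) * sg s y = 2 * (#(symmDiff t s) : ℝ) := by
  have h1 : ∀ y, (sg s y - sg t y) * sg s y = if y ∈ symmDiff t s then 2 else 0 := by
    intro y
    unfold sg
    by_cases hs : y ∈ s <;> by_cases ht : y ∈ t <;> simp [hs, ht, Finset.mem_symmDiff] <;> norm_num
  rw [Finset.sum_congr rfl (fun y _ => h1 y), Finset.sum_ite_mem, Finset.univ_inter,
    Finset.sum_const, nsmul_eq_mul]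
  ring

/-- two elements at large distance -/
lemma far (n : ℕ) (hn : 16 ≤ n) (hnI : n < Fintype.card I) (E : ℕ) (hE : 16 * E ≤ n)
    (X' : Finset (Finset I)) (hX' : 2 ^ Fintype.card I ≤ 2 * (17 ^ E * #X')) :
    ∃ s ∈ X', ∃ t ∈ X', Fintype.card I < 8 * #(symmDiff t s) := by
  by_contra hcon
  push Not at hcon
  have hne : X'.Nonempty := by
    rw [Finset.nonempty_iff_ne_empty]
    rintro rfl
    simp at hX'
  obtain ⟨s0, hs0⟩ := hne
  have h1 : #X' ≤ bsum (Fintype.card I) (Fintype.card I / 8) := by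
    have h2 : #X' ≤ #((univ : Finset I).powerset.filter (fun D => #D ≤ Fintype.card I / 8)) := by
      refine Finset.card_le_card_of_injOn (fun t => symmDiff t s0) ?_ ?_
      · intro t ht
        have h3 := hcon s0 hs0 t ht
        rw [Finset.mem_coe, Finset.mem_filter]
        refine ⟨Finset.mem_powerset.2 (Finset.subset_univ _), ?_⟩
        show #(symmDiff t s0) ≤ Fintype.card I / 8
        omega
      · intro t _ t' _ h
        exact symmDiff_left_injective s0 h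
    have h3 := MT.card_small (Fintype.card I / 8) (univ : Finset I)
    rw [Finset.card_univ] at h3
    exact h2.trans h3
  have h2 := ham_num (Fintype.card I) E (by omega) (by omega)
  have h3 : 2 * (17 ^ E * #X') ≤ 2 * (17 ^ E * bsum (Fintype.card I) (Fintype.card I / 8)) :=
    Nat.mul_le_mul_left _ (Nat.mul_le_mul_left _ h1)
  omega

theorem core {J A : Type*} [Fintype J] [Fintype A] (f : J → (I → ℝ) → ℝ)
    (hcont : ∀ j, Continuous (f j)) (h0 : ∀ j, f j 0 = 0) (heven : ∀ j h, f j (-h) = f j h)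
    (hconv : ∀ j x y, ∀ a b : ℝ, 0 ≤ a → 0 ≤ b → a + b = 1 →
      f j (a • x + b • y) ≤ a * f j x + b * f j y)
    (c : J → ℝ) (hc : ∀ j, 0 < c j) (v : A → I → ℝ) (n : ℕ) (hn : 16 ≤ n)
    (hA : 16 * Fintype.card A ≤ n) (hnI : n < Fintype.card I)
    (X : Finset (Finset I)) (hX : 2 ^ Fintype.card I ≤ 2 * #X)
    (hXQ : ∀ s ∈ X, ∀ j, f j (sg s) ≤ c j) :
    ∃ s : Finset I, ∃ h : I → ℝ, (∀ y, |h y| ≤ 1) ∧ (∀ a, ∑ y, v a y * h y = 0) ∧
      (∀ j, f j h ≤ c j) ∧ (n : ℝ) / 17 ≤ ∑ y, h y * sg s y := by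
  classical
  let Q : Set (I → ℝ) := {h | (∀ y, |h y| ≤ 1) ∧ ∀ j, f j h ≤ c j}
  have hQ : ∀ h, h ∈ Q ↔ (∀ y, |h y| ≤ 1) ∧ ∀ j, f j h ≤ c j := fun h => Iff.rfl
  have hQconv : Convex ℝ Q := by
    intro x hx y hy a b ha hb hab
    rw [hQ] at hx hy ⊢
    refine ⟨fun i => ?_, fun j => ?_⟩
    · simp only [Pi.add_apply, Pi.smul_apply, smul_eq_mul]
      have h1 := abs_add_le (a * x i) (b * y i)
      rw [abs_mul, abs_mul, abs_of_nonneg ha, abs_of_nonneg hb] at h1
      have h2 := mul_le_mul_of_nonneg_left (hx.1 i) ha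
      have h3 := mul_le_mul_of_nonneg_left (hy.1 i) hb
      linarith
    · have h1 := hconv j x y a b ha hb hab
      have h2 := mul_le_mul_of_nonneg_left (hx.2 j) ha
      have h3 := mul_le_mul_of_nonneg_left (hy.2 j) hb
      have h4 : a * c j + b * c j = c j := by rw [← add_mul, hab, one_mul]
      linarith
  have hQsymm : ∀ h ∈ Q, -h ∈ Q := by
    intro h hh
    rw [hQ] at hh ⊢
    refine ⟨fun y => ?_, fun j => ?_⟩
    · rw [Pi.neg_apply, abs_neg]
      exact hh.1 y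
    · rw [heven]
      exact hh.2 j
  have hQclosed : IsClosed Q := by
    have h1 : Q = (⋂ y, {h : I → ℝ | |h y| ≤ 1}) ∩ (⋂ j, {h : I → ℝ | f j h ≤ c j}) := by
      ext h
      rw [hQ]
      simp only [Set.mem_inter_iff, Set.mem_iInter, Set.mem_ofPred_eq]
    rw [h1]
    refine IsClosed.inter ?_ ?_
    · refine isClosed_iInter (fun y => ?_)
      exact isClosed_le (by fun_prop) continuous_const
    · refine isClosed_iInter (fun j => ?_)
      exact isClosed_le (hcont j) continuous_const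
  have hQint : Q ∈ nhds (0 : I → ℝ) := by
    have h1 : ∀ᶠ h in nhds (0 : I → ℝ), ∀ y, |h y| ≤ 1 := by
      refine Filter.eventually_all.2 (fun y => ?_)
      have h2 : Continuous (fun h : I → ℝ => |h y|) := by fun_prop
      have h3 := (h2.tendsto 0).eventually_lt_const (show |(0 : I → ℝ) y| < 1 by simp)
      exact h3.mono (fun h hh => hh.le)
    have h2 : ∀ᶠ h in nhds (0 : I → ℝ), ∀ j, f j h ≤ c j := by
      refine Filter.eventually_all.2 (fun j => ?_)
      have h3 := ((hcont j).tendsto 0).eventually_lt_const (show f j 0 < c j by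
        rw [h0]; exact hc j)
      exact h3.mono (fun h hh => hh.le)
    exact h1.and h2
  obtain ⟨X', hX'sub, hX'card, hX'⟩ := vol_pigeon Q hQconv hQsymm hQclosed (fun h hh => hh.1)
    hQint v (X.image sg) (by
      intro x hx
      obtain ⟨s, hs, rfl⟩ := Finset.mem_image.1 hx
      exact ⟨fun y => (sg_abs s y).le, hXQ s hs⟩)
  rw [Finset.card_image_of_injective _ sg_inj] at hX'card
  let X1 : Finset (Finset I) := X.filter (fun s => sg s ∈ X')
  have hX1 : X' = X1.image sg := by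
    ext x
    rw [Finset.mem_image]
    constructor
    · intro hx
      obtain ⟨s, hs, rfl⟩ := Finset.mem_image.1 (hX'sub hx)
      exact ⟨s, Finset.mem_filter.2 ⟨hs, hx⟩, rfl⟩
    · rintro ⟨s, hs, rfl⟩
      exact (Finset.mem_filter.1 hs).2
  have hX1c : #X' = #X1 := by rw [hX1, Finset.card_image_of_injective _ sg_inj]
  obtain ⟨s, hs, t, ht, hst⟩ := far n hn hnI (Fintype.card A) hA X1 (by
    rw [← hX1c]
    omega)
  obtain ⟨g, hg, hgv⟩ := hX' (sg s) (Finset.mem_filter.1 hs).2 (sg t) (Finset.mem_filter.1 ht).2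
  have hsQ : sg s ∈ Q := ⟨fun y => (sg_abs s y).le, hXQ s (Finset.mem_filter.1 hs).1⟩
  have htQ : sg t ∈ Q := ⟨fun y => (sg_abs t y).le, hXQ t (Finset.mem_filter.1 ht).1⟩
  have hmem : (16 / 17 : ℝ) • ((1 / 2 : ℝ) • sg s + (1 / 2 : ℝ) • (-sg t))
      + (1 / 17 : ℝ) • (-g) ∈ Q := by
    refine hQconv ?_ (hQsymm g hg) (by norm_num) (by norm_num) (by norm_num)
    exact hQconv hsQ (hQsymm _ htQ) (by norm_num) (by norm_num) (by norm_num)
  set h : I → ℝ := (16 / 17 : ℝ) • ((1 / 2 : ℝ) • sg s + (1 / 2 : ℝ) • (-sg t))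
      + (1 / 17 : ℝ) • (-g) with hdef
  have hval : ∀ y, h y = (8 / 17) * (sg s y - sg t y) - (1 / 17) * g y := by
    intro y
    rw [hdef]
    simp only [Pi.add_apply, Pi.smul_apply, smul_eq_mul, Pi.neg_apply]
    ring
  refine ⟨s, h, hmem.1, fun a => ?_, hmem.2, ?_⟩
  · have h1 : ∑ y, v a y * h y = (8 / 17) * ∑ y, v a y * (sg s y - sg t y)
        - (1 / 17) * ∑ y, v a y * g y := by
      rw [Finset.mul_sum, Finset.mul_sum, ← Finset.sum_sub_distrib]
      refine Finset.sum_congr rfl (fun y _ => ?_)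
      rw [hval]
      ring
    rw [h1, hgv a]
    ring
  · have h1 : ∑ y, h y * sg s y = (8 / 17) * ∑ y, (sg s y - sg t y) * sg s y
        - (1 / 17) * ∑ y, g y * sg s y := by
      rw [Finset.mul_sum, Finset.mul_sum, ← Finset.sum_sub_distrib]
      refine Finset.sum_congr rfl (fun y _ => ?_)
      rw [hval]
      ring
    have h2 : ∑ y, g y * sg s y ≤ Fintype.card I := by
      have h3 : ∑ y, g y * sg s y ≤ ∑ _y : I, (1 : ℝ) := by
        refine Finset.sum_le_sum (fun y _ => ?_)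
        refine (le_abs_self _).trans ?_
        rw [abs_mul, sg_abs, mul_one]
        exact hg.1 y
      simpa using h3
    rw [h1, sg_pair]
    have h4 : (Fintype.card I : ℝ) ≤ 8 * #(symmDiff t s) := by exact_mod_cast hst.le
    have h5 : (n : ℝ) ≤ Fintype.card I := by exact_mod_cast hnI.le
    linarith

end Core

section Forms

variable {I : Type*} [Fintype I]

lemma cs_norm (c : I → ℂ) (h : I → ℝ) :
    ‖∑ y, (h y : ℂ) * c y‖ ^ 2 ≤ (∑ y, h y ^ 2) * ∑ y, ‖c y‖ ^ 2 := by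
  have h1 : ‖∑ y, (h y : ℂ) * c y‖ ≤ ∑ y, |h y| * ‖c y‖ := by
    refine (norm_sum_le _ _).trans (le_of_eq ?_)
    refine Finset.sum_congr rfl (fun y _ => ?_)
    rw [norm_mul, Complex.norm_real, Real.norm_eq_abs]
  have h2 := pow_le_pow_left₀ (norm_nonneg _) h1 2
  have h3 := Finset.sum_mul_sq_le_sq_mul_sq univ (fun y => |h y|) (fun y => ‖c y‖)
  simp only [sq_abs] at h3
  exact h2.trans h3

lemma quad_zero {K : Type*} (S : Finset K) (W : K → ℝ) (hW : ∀ k, 0 ≤ W k) (φ : K → I → ℂ)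
    (h : I → ℝ) (h0 : ∑ k ∈ S, W k * ∑ y, ‖φ k y‖ ^ 2 ≤ 0) :
    ∑ k ∈ S, W k * ‖∑ y, (h y : ℂ) * φ k y‖ ^ 2 ≤ 0 := by
  have h1 : ∑ k ∈ S, W k * ‖∑ y, (h y : ℂ) * φ k y‖ ^ 2
      ≤ (∑ y, h y ^ 2) * ∑ k ∈ S, W k * ∑ y, ‖φ k y‖ ^ 2 := by
    rw [Finset.mul_sum]
    refine Finset.sum_le_sum (fun k _ => ?_)
    have h2 := mul_le_mul_of_nonneg_left (cs_norm (φ k) h) (hW k)
    refine h2.trans (le_of_eq ?_)
    ring
  exact h1.trans (mul_nonpos_of_nonneg_of_nonpos (Finset.sum_nonneg (fun y _ => sq_nonneg _)) h0)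

lemma quart_zero {K : Type*} (S : Finset K) (G : K → ℝ) (hG : ∀ k, 0 ≤ G k) (χ : K → I → ℂ)
    (h : I → ℝ) (h0 : ∑ k ∈ S, G k * (∑ y, ‖χ k y‖ ^ 2) ^ 2 ≤ 0) :
    ∑ k ∈ S, G k * ‖∑ y, (h y : ℂ) * χ k y‖ ^ 4 ≤ 0 := by
  have h1 : ∑ k ∈ S, G k * ‖∑ y, (h y : ℂ) * χ k y‖ ^ 4
      ≤ (∑ y, h y ^ 2) ^ 2 * ∑ k ∈ S, G k * (∑ y, ‖χ k y‖ ^ 2) ^ 2 := by
    rw [Finset.mul_sum]
    refine Finset.sum_le_sum (fun k _ => ?_)
    have h2 := pow_le_pow_left₀ (sq_nonneg _) (cs_norm (χ k) h) 2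
    have h3 := mul_le_mul_of_nonneg_left h2 (hG k)
    calc G k * ‖∑ y, (h y : ℂ) * χ k y‖ ^ 4 = G k * (‖∑ y, (h y : ℂ) * χ k y‖ ^ 2) ^ 2 := by ring
      _ ≤ G k * ((∑ y, h y ^ 2) * ∑ y, ‖χ k y‖ ^ 2) ^ 2 := h3
      _ = (∑ y, h y ^ 2) ^ 2 * (G k * (∑ y, ‖χ k y‖ ^ 2) ^ 2) := by ring
  exact h1.trans (mul_nonpos_of_nonneg_of_nonpos (by positivity) h0)

/-- a positive majorant -/
noncomputable def cc (x : ℝ) : ℝ := if 0 < x then x else 1

lemma cc_pos (x : ℝ) : 0 < cc x := by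
  unfold cc
  split_ifs with h
  · exact h
  · norm_num

lemma le_cc (x : ℝ) : x ≤ cc x := by
  unfold cc
  split_ifs with h
  · exact le_rfl
  · linarith

lemma cc_of_pos (x : ℝ) (h : 0 < x) : cc x = x := by
  unfold cc
  rw [if_pos h]

end Forms

/-- the family of forms -/
noncomputable def ff {I ι K : Type*} [Fintype I] (S : Finset K) (G : K → ℝ) (χ : K → I → ℂ)
    (lam : ι → I → ℝ) (b : ι → I → I → ℝ) (T : ι → Finset I) : Option ι → (I → ℝ) → ℝ
  | none => fun h => ∑ k ∈ S, G k * ‖∑ y, (h y : ℂ) * χ k y‖ ^ 4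
  | some j => fun h => ∑ i ∈ T j, lam j i * (∑ y, b j i y * h y) ^ 2

/-- the bounds of the forms -/
noncomputable def fc {ι : Type*} (τ : ι → ℝ) (B : ℝ) : Option ι → ℝ
  | none => cc (12 * B)
  | some j => cc (2 * τ j)

open Classical in
theorem quart_bad {I K : Type*} [Fintype I] [DecidableEq I] (S : Finset K)
    (G : K → ℝ) (hG : ∀ k, 0 ≤ G k) (χ : K → I → ℂ) :
    4 * #(univ.filter (fun s : Finset I => 12 * ∑ k ∈ S, G k * (∑ y, ‖χ k y‖ ^ 2) ^ 2
      < ∑ k ∈ S, G k * ‖∑ y, (sg s y : ℂ) * χ k y‖ ^ 4)) ≤ 2 ^ Fintype.card I := by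
  set B := ∑ k ∈ S, G k * (∑ y, ‖χ k y‖ ^ 2) ^ 2 with hB
  set F : Finset I → ℝ := fun s => ∑ k ∈ S, G k * ‖∑ y, (sg s y : ℂ) * χ k y‖ ^ 4 with hF
  have hB0 : 0 ≤ B := Finset.sum_nonneg (fun k _ => mul_nonneg (hG k) (sq_nonneg _))
  have hF0 : ∀ s, 0 ≤ F s :=
    fun s => Finset.sum_nonneg (fun k _ => mul_nonneg (hG k) (by positivity))
  rcases hB0.eq_or_lt with h0 | h0
  · have h1 : univ.filter (fun s : Finset I => 12 * B < F s) = ∅ := by
      rw [Finset.filter_eq_empty_iff]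
      intro s _ hs
      have h2 := quart_zero S G hG χ (sg s) (by rw [← hB, ← h0])
      rw [← h0, mul_zero] at hs
      exact absurd h2 (not_le.2 hs)
    show 4 * #(univ.filter (fun s : Finset I => 12 * B < F s)) ≤ _
    rw [h1]
    simp
  · have h1 : ∑ s, F s ≤ 2 ^ Fintype.card I * (3 * B) := by
      rw [hF, Finset.sum_comm]
      have h2 : ∀ k ∈ S, ∑ s : Finset I, G k * ‖∑ y, (sg s y : ℂ) * χ k y‖ ^ 4
          ≤ G k * (2 ^ Fintype.card I * (3 * (∑ y, ‖χ k y‖ ^ 2) ^ 2)) := by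
        intro k _
        rw [← Finset.mul_sum]
        exact mul_le_mul_of_nonneg_left (mom_quart (χ k)) (hG k)
      refine (Finset.sum_le_sum h2).trans (le_of_eq ?_)
      rw [hB, Finset.mul_sum, Finset.mul_sum]
      refine Finset.sum_congr rfl (fun k _ => ?_)
      ring
    have h2 : (#(univ.filter (fun s : Finset I => 12 * B < F s)) : ℝ) * (12 * B)
        ≤ ∑ s ∈ univ.filter (fun s : Finset I => 12 * B < F s), F s := by
      rw [← nsmul_eq_mul]
      exact Finset.card_nsmul_le_sum _ _ _ (fun s hs => (Finset.mem_filter.1 hs).2.le)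
    have h3 : ∑ s ∈ univ.filter (fun s : Finset I => 12 * B < F s), F s ≤ ∑ s, F s :=
      Finset.sum_le_sum_of_subset_of_nonneg (Finset.filter_subset _ _) (fun s _ _ => hF0 s)
    have h4 : (#(univ.filter (fun s : Finset I => 12 * B < F s)) : ℝ) * (12 * B)
        ≤ 2 ^ Fintype.card I * (3 * B) := h2.trans (h3.trans h1)
    have h5 : (4 : ℝ) * #(univ.filter (fun s : Finset I => 12 * B < F s))
        ≤ 2 ^ Fintype.card I := by
      have h6 : (3 * B) * ((4 : ℝ) * #(univ.filter (fun s : Finset I => 12 * B < F s)))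
          ≤ (3 * B) * 2 ^ Fintype.card I := by linarith
      exact le_of_mul_le_mul_left h6 (by positivity)
    exact_mod_cast h5

open Classical in
theorem exist_main {I ι K A : Type*} [Fintype I] [DecidableEq I] [Fintype ι] [Fintype A]
    (S : Finset K) (v : A → I → ℝ) (W : ι → K → ℝ) (hW : ∀ j k, 0 ≤ W j k) (φ : K → I → ℂ)
    (G : K → ℝ) (hG : ∀ k, 0 ≤ G k) (χ : K → I → ℂ) (n : ℕ) (hn : 16 ≤ n)
    (hn2 : 16 * (Fintype.card A + 8 * Fintype.card ι * Fintype.card ι) ≤ n)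
    (hnI : n < Fintype.card I) :
    ∃ s : Finset I, Wit S v W φ G χ n s := by
  have hP : ∀ _j : ι, 0 < 8 * Fintype.card ι := fun j => by
    have := Fintype.card_pos_iff.2 ⟨j⟩
    omega
  choose lam b top hlam htop hform hbad using
    fun j : ι => spec S (W j) (hW j) φ (8 * Fintype.card ι) (hP j)
  set τ : ι → ℝ := fun j => ∑ k ∈ S, W j k * ∑ y, ‖φ k y‖ ^ 2 with hτ
  set B := ∑ k ∈ S, G k * (∑ y, ‖χ k y‖ ^ 2) ^ 2 with hB
  let f : Option ι → (I → ℝ) → ℝ := ff S G χ lam b (fun j => (top j)ᶜ)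
  have hcard : Fintype.card (A ⊕ (Σ j : ι, {i // i ∈ top j}))
      ≤ Fintype.card A + 8 * Fintype.card ι * Fintype.card ι := by
    rw [Fintype.card_sum, Fintype.card_sigma]
    refine Nat.add_le_add_left ?_ _
    have h1 : ∑ j : ι, Fintype.card {i // i ∈ top j} ≤ ∑ _j : ι, 8 * Fintype.card ι := by
      refine Finset.sum_le_sum (fun j _ => ?_)
      rw [Fintype.card_coe]
      exact htop j
    refine h1.trans (le_of_eq ?_)
    rw [Finset.sum_const, smul_eq_mul, Finset.card_univ]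
    ring
  let X : Finset (Finset I) := univ.filter (fun s => (∀ j : ι, f (some j) (sg s) ≤ 2 * τ j)
    ∧ f none (sg s) ≤ 12 * B)
  have hX : 2 ^ Fintype.card I ≤ 2 * #X := by
    have h1 : Xᶜ ⊆ ((univ : Finset ι).biUnion
        (fun j => univ.filter (fun s : Finset I => 2 * τ j < f (some j) (sg s))))
        ∪ univ.filter (fun s : Finset I => 12 * B < f none (sg s)) := by
      intro s hs
      rw [Finset.mem_compl, Finset.mem_filter] at hs
      rw [Finset.mem_union, Finset.mem_biUnion, Finset.mem_filter]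
      by_contra hcon
      push Not at hcon
      apply hs
      refine ⟨Finset.mem_univ _, fun j => ?_, hcon.2 (Finset.mem_univ _)⟩
      have h2 := hcon.1 j (Finset.mem_univ _)
      rw [Finset.mem_filter] at h2
      by_contra h3
      exact h2 ⟨Finset.mem_univ _, not_le.1 h3⟩
    have h2 : 4 * #(univ.filter (fun s : Finset I => 12 * B < f none (sg s)))
        ≤ 2 ^ Fintype.card I := quart_bad S G hG χ
    have h3 : 4 * ∑ j : ι, #(univ.filter (fun s : Finset I => 2 * τ j < f (some j) (sg s)))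
        ≤ 2 ^ Fintype.card I := by
      rcases isEmpty_or_nonempty ι with he | he
      · simp
      · have h4 : ∀ j ∈ (univ : Finset ι), (8 * Fintype.card ι)
            * #(univ.filter (fun s : Finset I => 2 * τ j < f (some j) (sg s)))
            ≤ 2 * 2 ^ Fintype.card I := fun j _ => hbad j
        have h5 := Finset.sum_le_sum h4
        rw [← Finset.mul_sum, Finset.sum_const, smul_eq_mul, Finset.card_univ] at h5
        have h6 : 0 < Fintype.card ι := Fintype.card_pos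
        have h7 : (2 * Fintype.card ι) * (4 * ∑ j : ι,
            #(univ.filter (fun s : Finset I => 2 * τ j < f (some j) (sg s))))
            ≤ (2 * Fintype.card ι) * 2 ^ Fintype.card I := by
          calc (2 * Fintype.card ι) * (4 * ∑ j : ι,
            #(univ.filter (fun s : Finset I => 2 * τ j < f (some j) (sg s))))
              = (8 * Fintype.card ι) * ∑ j : ι,
            #(univ.filter (fun s : Finset I => 2 * τ j < f (some j) (sg s))) := by ring
            _ ≤ Fintype.card ι * (2 * 2 ^ Fintype.card I) := h5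
            _ = (2 * Fintype.card ι) * 2 ^ Fintype.card I := by ring
        exact Nat.le_of_mul_le_mul_left h7 (by omega)
    have h4 := (Finset.card_le_card h1).trans (Finset.card_union_le _ _)
    have h5 : #((univ : Finset ι).biUnion
        (fun j => univ.filter (fun s : Finset I => 2 * τ j < f (some j) (sg s))))
        ≤ ∑ j : ι, #(univ.filter (fun s : Finset I => 2 * τ j < f (some j) (sg s))) :=
      Finset.card_biUnion_le
    have h6 : #Xᶜ + #X = 2 ^ Fintype.card I := by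
      rw [Finset.card_compl_add_card, Fintype.card_finset]
    omega
  obtain ⟨s, h, hh1, hhv, hhf, hhs⟩ := core f (J := Option ι)
    (by
      rintro (_ | j)
      · show Continuous (fun h : I → ℝ => ∑ k ∈ S, G k * ‖∑ y, (h y : ℂ) * χ k y‖ ^ 4)
        fun_prop
      · show Continuous (fun h : I → ℝ => ∑ i ∈ (top j)ᶜ, lam j i * (∑ y, b j i y * h y) ^ 2)
        fun_prop)
    (by
      rintro (_ | j)
      · show ∑ k ∈ S, G k * ‖∑ y, (((0 : I → ℝ) y : ℝ) : ℂ) * χ k y‖ ^ 4 = 0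
        simp
      · show ∑ i ∈ (top j)ᶜ, lam j i * (∑ y, b j i y * (0 : I → ℝ) y) ^ 2 = 0
        simp)
    (by
      rintro (_ | j) h
      · show ∑ k ∈ S, G k * ‖∑ y, (((-h) y : ℝ) : ℂ) * χ k y‖ ^ 4
          = ∑ k ∈ S, G k * ‖∑ y, (h y : ℂ) * χ k y‖ ^ 4
        refine Finset.sum_congr rfl (fun k _ => ?_)
        have h1 : ∑ y, (((-h) y : ℝ) : ℂ) * χ k y = - ∑ y, (h y : ℂ) * χ k y := by
          rw [← Finset.sum_neg_distrib]
          refine Finset.sum_congr rfl (fun y _ => ?_)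
          rw [Pi.neg_apply]
          push_cast
          ring
        rw [h1, norm_neg]
      · show ∑ i ∈ (top j)ᶜ, lam j i * (∑ y, b j i y * (-h) y) ^ 2
          = ∑ i ∈ (top j)ᶜ, lam j i * (∑ y, b j i y * h y) ^ 2
        refine Finset.sum_congr rfl (fun i _ => ?_)
        have h1 : ∑ y, b j i y * (-h) y = - ∑ y, b j i y * h y := by
          rw [← Finset.sum_neg_distrib]
          refine Finset.sum_congr rfl (fun y _ => ?_)
          rw [Pi.neg_apply]
          ring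
        rw [h1, neg_sq])
    (by
      rintro (_ | j) x y a c ha hc hac
      · show ∑ k ∈ S, G k * ‖∑ i, (((a • x + c • y) i : ℝ) : ℂ) * χ k i‖ ^ 4
          ≤ a * (∑ k ∈ S, G k * ‖∑ i, (x i : ℂ) * χ k i‖ ^ 4)
            + c * (∑ k ∈ S, G k * ‖∑ i, (y i : ℂ) * χ k i‖ ^ 4)
        rw [Finset.mul_sum, Finset.mul_sum, ← Finset.sum_add_distrib]
        refine Finset.sum_le_sum (fun k _ => ?_)
        have h1 := mul_le_mul_of_nonneg_left (quart_conv (χ k) x y a c ha hc hac) (hG k)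
        refine h1.trans (le_of_eq ?_)
        ring
      · show ∑ i ∈ (top j)ᶜ, lam j i * (∑ z, b j i z * (a • x + c • y) z) ^ 2
          ≤ a * (∑ i ∈ (top j)ᶜ, lam j i * (∑ z, b j i z * x z) ^ 2)
            + c * (∑ i ∈ (top j)ᶜ, lam j i * (∑ z, b j i z * y z) ^ 2)
        rw [Finset.mul_sum, Finset.mul_sum, ← Finset.sum_add_distrib]
        refine Finset.sum_le_sum (fun i _ => ?_)
        have h1 := mul_le_mul_of_nonneg_left (quad_conv (b j i) x y a c ha hc hac) (hlam j i)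
        refine h1.trans (le_of_eq ?_)
        ring)
    (fc τ B)
    (by
      rintro (_ | j)
      · exact cc_pos _
      · exact cc_pos _)
    (Sum.elim v (fun p : (Σ j : ι, {i // i ∈ top j}) => b p.1 p.2.1)) n hn
    (le_trans (Nat.mul_le_mul_left 16 hcard) hn2) hnI X hX
    (by
      intro s hs
      obtain ⟨h1, h2⟩ := (Finset.mem_filter.1 hs).2
      rintro (_ | j)
      · exact h2.trans (le_cc _)
      · exact (h1 j).trans (le_cc _))
  refine ⟨s, h, hh1, fun a => hhv (Sum.inl a), fun j => ?_, ?_, hhs⟩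
  · show _ ≤ 2 * τ j
    have hτ0 : 0 ≤ τ j := Finset.sum_nonneg (fun k _ => mul_nonneg (hW j k) (by positivity))
    rcases hτ0.eq_or_lt with h0 | h0
    · have h1 := quad_zero S (W j) (hW j) φ h (show τ j ≤ 0 by rw [← h0])
      linarith
    · rw [hform j h]
      have h1 : ∑ i, lam j i * (∑ y, b j i y * h y) ^ 2
          = ∑ i ∈ (top j)ᶜ, lam j i * (∑ y, b j i y * h y) ^ 2 := by
        rw [← Finset.sum_add_sum_compl (top j)]
        have h2 : ∑ i ∈ top j, lam j i * (∑ y, b j i y * h y) ^ 2 = 0 := by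
          refine Finset.sum_eq_zero (fun i hi => ?_)
          have h3 : ∑ y, b j i y * h y = 0 := hhv (Sum.inr ⟨j, ⟨i, hi⟩⟩)
          rw [h3]
          ring
        rw [h2, zero_add]
      rw [h1]
      have h2 : ∑ i ∈ (top j)ᶜ, lam j i * (∑ y, b j i y * h y) ^ 2 ≤ cc (2 * τ j) :=
        hhf (some j)
      rwa [cc_of_pos _ (by linarith)] at h2
  · show _ ≤ 12 * B
    have hB0 : 0 ≤ B := Finset.sum_nonneg (fun k _ => mul_nonneg (hG k) (sq_nonneg _))
    rcases hB0.eq_or_lt with h0 | h0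
    · have h1 := quart_zero S G hG χ h (show B ≤ 0 by rw [← h0])
      linarith
    · have h2 : ∑ k ∈ S, G k * ‖∑ y, (h y : ℂ) * χ k y‖ ^ 4 ≤ cc (12 * B) := hhf none
      rwa [cc_of_pos _ (by linarith)] at h2

open Classical in
theorem wit_card {Y ι K A : Type*} [Fintype Y] [DecidableEq Y] [Fintype ι] [Fintype A]
    (S : Finset K) (v : A → Y → ℝ) (W : ι → K → ℝ) (hW : ∀ j k, 0 ≤ W j k) (φ : K → Y → ℂ)
    (G : K → ℝ) (hG : ∀ k, 0 ≤ G k) (χ : K → Y → ℂ) (n : ℕ) (hn : 16 ≤ n)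
    (hn2 : 16 * (Fintype.card A + 8 * Fintype.card ι * Fintype.card ι) ≤ n) :
    #(univ.filter (fun s : Finset Y => ¬ Wit S v W φ G χ n s)) ≤ bsum (Fintype.card Y) n := by
  set 𝒜 := univ.filter (fun s : Finset Y => ¬ Wit S v W φ G χ n s) with h𝒜
  by_contra hcon
  push Not at hcon
  have hex : ∃ T : Finset Y, 𝒜.Shatters T ∧ n < #T := by
    by_contra hno
    push Not at hno
    have h1 : #𝒜 ≤ bsum (Fintype.card Y) n := by
      refine (Finset.card_le_card_shatterer 𝒜).trans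
        ((Finset.card_shatterer_le_sum_vcDim).trans ?_)
      refine MT.bsum_mono _ ?_
      unfold Finset.vcDim
      refine Finset.sup_le ?_
      intro T hT
      exact hno T (Finset.mem_shatterer.1 hT)
    omega
  obtain ⟨T, hT, hnT⟩ := hex
  -- restriction to `T`
  obtain ⟨x, h, h1, h2, h3, h4, h5⟩ := exist_main (I := T) S (fun a y => v a y) W hW
    (fun k y => φ k y) G hG (fun k y => χ k y) n hn hn2 (by rw [Fintype.card_coe]; exact hnT)
  have hxT : x.map (Function.Embedding.subtype _) ⊆ T := by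
    intro y hy
    obtain ⟨z, -, rfl⟩ := Finset.mem_map.1 hy
    exact z.2
  obtain ⟨s, hs, hsT⟩ := hT hxT
  have hmem : ∀ y : T, (y : Y) ∈ s ↔ y ∈ x := by
    intro y
    have h6 : ((y : Y) ∈ T ∩ s) ↔ (y : Y) ∈ x.map (Function.Embedding.subtype _) := by rw [hsT]
    rw [Finset.mem_inter, Finset.mem_map] at h6
    constructor
    · intro hy
      obtain ⟨z, hz, hzy⟩ := h6.1 ⟨y.2, hy⟩
      have : z = y := Subtype.ext hzy
      rwa [this] at hz
    · intro hy
      exact (h6.2 ⟨y, hy, rfl⟩).2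
  have hbad : ¬ Wit S v W φ G χ n s := (Finset.mem_filter.1 hs).2
  apply hbad
  let g : Y → ℝ := fun y => if hy : y ∈ T then h ⟨y, hy⟩ else 0
  have hg : ∀ y : T, g y = h y := by
    intro y
    show (if hy : (y : Y) ∈ T then h ⟨y, hy⟩ else 0) = h y
    rw [dif_pos y.2]
  have hg0 : ∀ y : Y, y ∉ T → g y = 0 := by
    intro y hy
    show (if hy : y ∈ T then h ⟨y, hy⟩ else 0) = 0
    rw [dif_neg hy]
  have hsumR : ∀ F : Y → ℝ, (∀ y, y ∉ T → F y = 0) → ∑ y, F y = ∑ y : T, F y := by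
    intro F hF
    rw [Finset.sum_coe_sort T F]
    exact (Finset.sum_subset (Finset.subset_univ T) (fun y _ hy => hF y hy)).symm
  have hsumC : ∀ F : Y → ℂ, (∀ y, y ∉ T → F y = 0) → ∑ y, F y = ∑ y : T, F y := by
    intro F hF
    rw [Finset.sum_coe_sort T F]
    exact (Finset.sum_subset (Finset.subset_univ T) (fun y _ hy => hF y hy)).symm
  have hsumle : ∀ F : Y → ℝ, (∀ y, 0 ≤ F y) → ∑ y : T, F y ≤ ∑ y, F y := by
    intro F hF
    rw [Finset.sum_coe_sort T F]
    exact Finset.sum_le_sum_of_subset_of_nonneg (Finset.subset_univ T) (fun y _ _ => hF y)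
  refine ⟨g, ?_, ?_, ?_, ?_, ?_⟩
  · intro y
    by_cases hy : y ∈ T
    · have := hg ⟨y, hy⟩
      simp only at this
      rw [this]
      exact h1 _
    · rw [hg0 y hy]
      simp
  · intro a
    rw [hsumR (fun y => v a y * g y) (fun y hy => by rw [hg0 y hy, mul_zero])]
    rw [← h2 a]
    refine Finset.sum_congr rfl (fun y _ => ?_)
    rw [hg]
  · intro j
    have e1 : ∑ k ∈ S, W j k * ‖∑ y, (g y : ℂ) * φ k y‖ ^ 2
        = ∑ k ∈ S, W j k * ‖∑ y : T, (h y : ℂ) * φ k y‖ ^ 2 := by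
      refine Finset.sum_congr rfl (fun k _ => ?_)
      rw [hsumC (fun y => (g y : ℂ) * φ k y) (fun y hy => by rw [hg0 y hy]; simp)]
      congr 3
      refine Finset.sum_congr rfl (fun y _ => ?_)
      rw [hg]
    rw [e1]
    refine (h3 j).trans ?_
    refine mul_le_mul_of_nonneg_left ?_ (by norm_num)
    refine Finset.sum_le_sum (fun k _ => mul_le_mul_of_nonneg_left ?_ (hW j k))
    exact hsumle (fun y => ‖φ k y‖ ^ 2) (fun y => by positivity)
  · have e1 : ∑ k ∈ S, G k * ‖∑ y, (g y : ℂ) * χ k y‖ ^ 4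
        = ∑ k ∈ S, G k * ‖∑ y : T, (h y : ℂ) * χ k y‖ ^ 4 := by
      refine Finset.sum_congr rfl (fun k _ => ?_)
      rw [hsumC (fun y => (g y : ℂ) * χ k y) (fun y hy => by rw [hg0 y hy]; simp)]
      congr 3
      refine Finset.sum_congr rfl (fun y _ => ?_)
      rw [hg]
    rw [e1]
    refine h4.trans ?_
    refine mul_le_mul_of_nonneg_left ?_ (by norm_num)
    refine Finset.sum_le_sum (fun k _ => mul_le_mul_of_nonneg_left ?_ (hG k))
    refine pow_le_pow_left₀ (by positivity) ?_ 2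
    exact hsumle (fun y => ‖χ k y‖ ^ 2) (fun y => by positivity)
  · rw [hsumR (fun y => g y * sg s y) (fun y hy => by rw [hg0 y hy, zero_mul])]
    refine h5.trans (le_of_eq ?_)
    refine Finset.sum_congr rfl (fun y _ => ?_)
    rw [hg]
    congr 1
    unfold sg
    by_cases hy : y ∈ x
    · rw [if_pos hy, if_pos ((hmem y).2 hy)]
    · rw [if_neg hy, if_neg (fun h => hy ((hmem y).1 h))]

end Pool.Agent.H75.MX
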