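import Pool.Agent.H75.MX.Proc

set_option autoImplicit false
set_option linter.unusedSectionVars false

/-! The parameters are admissible from some point on. -/

open Finset Filter Topology

namespace Pool.Agent.H75.MX

lemma poly_exp (A k : ℕ) : ∃ q0 : ℕ, ∀ q ≥ q0, A * (q + 1) ^ k ≤ 8 ^ q := by
  have h1 := tendsto_pow_const_div_const_pow_of_one_lt k (show (1 : ℝ) < 8 by norm_num)
  have hA : (0 : ℝ) < 1 / (8 * (A + 1)) := by positivity
  have h2 := (h1.eventually (gt_mem_nhds hA)).exists_forall_of_atTop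
  obtain ⟨n0, hn0⟩ := h2
  refine ⟨n0, fun q hq => ?_⟩
  have h3 := hn0 (q + 1) (by omega)
  have hA' : (0 : ℝ) ≤ A := Nat.cast_nonneg A
  rw [div_lt_div_iff₀ (by positivity) (by positivity)] at h3
  have h4 : (A : ℝ) * ((q : ℝ) + 1) ^ k ≤ 8 ^ q := by
    have h5 : (0 : ℝ) ≤ ((q : ℝ) + 1) ^ k := by positivity
    rw [pow_succ] at h3
    push_cast at h3
    nlinarith
  exact_mod_cast h4

lemma card_Cen1 (q R : ℕ) : #(Cen1 q R) ≤ (R + 1) * (3 * 8 ^ q) := by
  unfold Cen1
  refine Finset.card_image_le.trans ?_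
  rw [Finset.card_product, card_range, Int.card_Icc]
  refine Nat.mul_le_mul_left _ ?_
  have h1 : ((8 : ℤ) ^ q + 1 - -(8 : ℤ) ^ q).toNat = 2 * 8 ^ q + 1 := by
    have : ((8 : ℤ) ^ q + 1 - -(8 : ℤ) ^ q) = ((2 * 8 ^ q + 1 : ℕ) : ℤ) := by
      push_cast
      ring
    rw [this, Int.toNat_natCast]
  rw [h1]
  have : 1 ≤ 8 ^ q := Nat.one_le_pow _ _ (by norm_num)
  omega

lemma card_Trk (d q R : ℕ) : Fintype.card (Trk d q R) ≤ (3 * (R + 1) ^ 2 * 8 ^ q) ^ d := by
  rw [Fintype.card_prod, Fintype.card_fun, Fintype.card_fin, Fintype.card_fin,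
    Fintype.card_coe]
  unfold Cen
  rw [Fintype.card_piFinset, Finset.prod_const, Finset.card_univ, Fintype.card_fin, ← mul_pow]
  refine Nat.pow_le_pow_left ?_ d
  refine (Nat.mul_le_mul_left _ (card_Cen1 q R)).trans (le_of_eq ?_)
  ring

/-- admissible parameters -/
lemma params_ok (d : ℕ) (hd : 1 ≤ d) : ∃ q0 : ℕ, 1 ≤ q0 ∧ ∀ q ≥ q0,
    5 * LL d (4 * d * q) ≤ 8 ^ q ∧
    32 * (2 + Fintype.card (Trk d q (4 * d * q + q))
      + 8 * Fintype.card (Trk d q (4 * d * q + q)) * Fintype.card (Trk d q (4 * d * q + q)))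
      ≤ 2 ^ d * 8 ^ (4 * d * q - 2) := by
  obtain ⟨q1, hq1⟩ := poly_exp (5 * (4 * d) ^ (d - 1)) (d - 1)
  obtain ⟨q2, hq2⟩ := poly_exp (22528 * 3 * (4 * d + 1) ^ 2) 2
  refine ⟨max 1 (max q1 q2), le_max_left _ _, fun q hq => ?_⟩
  have hqa : 1 ≤ q := (le_max_left _ _).trans hq
  have hqb : q1 ≤ q := (le_max_left _ _).trans ((le_max_right _ _).trans hq)
  have hqc : q2 ≤ q := (le_max_right _ _).trans ((le_max_right _ _).trans hq)
  refine ⟨?_, ?_⟩
  · refine le_trans ?_ (hq1 q hqb)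
    rw [mul_assoc 5, ← mul_pow]
    refine Nat.mul_le_mul_left 5 ((LL_le d _).trans (Nat.pow_le_pow_left ?_ _))
    have : 4 * d * (q + 1) = 4 * d * q + 4 * d := by ring
    omega
  · set P := Fintype.card (Trk d q (4 * d * q + q)) with hP
    set X := 3 * (4 * d * q + q + 1) ^ 2 with hX
    have hX1 : 1 ≤ X := by
      rw [hX]
      have : 1 ≤ (4 * d * q + q + 1) ^ 2 := Nat.one_le_pow _ _ (by omega)
      omega
    have hPX : P ≤ (X * 8 ^ q) ^ d := card_Trk d q (4 * d * q + q)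
    have hX8 : 22528 * X ≤ 8 ^ q := by
      refine le_trans ?_ (hq2 q hqc)
      have h1 : 4 * d * q + q + 1 ≤ (4 * d + 1) * (q + 1) := by
        have : (4 * d + 1) * (q + 1) = 4 * d * q + q + 4 * d + 1 := by ring
        omega
      have h2 := Nat.pow_le_pow_left h1 2
      rw [mul_pow] at h2
      rw [hX]
      calc 22528 * (3 * (4 * d * q + q + 1) ^ 2)
          ≤ 22528 * (3 * ((4 * d + 1) ^ 2 * (q + 1) ^ 2)) := by
            exact Nat.mul_le_mul_left _ (Nat.mul_le_mul_left _ h2)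
        _ = _ := by ring
    set T := (X * 8 ^ q) ^ d with hT
    have hT1 : 1 ≤ T := Nat.one_le_pow _ _ (Nat.mul_pos hX1 (by positivity))
    have h3 : 32 * (2 + P + 8 * P * P) ≤ 352 * T ^ 2 := by
      have h4 : P * P ≤ T * T := Nat.mul_le_mul hPX hPX
      have h5 : T ≤ T * T := Nat.le_mul_of_pos_left T hT1
      have h6 : 8 * P * P = 8 * (P * P) := by ring
      have h7 : T ^ 2 = T * T := pow_two T
      rw [h6, h7]
      omega
    refine h3.trans ?_
    have h8 : 64 * 8 ^ (4 * d * q - 2) = 8 ^ (4 * d * q) := by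
      have h9 : 4 * d * q = 4 * d * q - 2 + 2 := by
        have : 4 * 1 * 1 ≤ 4 * d * q := Nat.mul_le_mul (Nat.mul_le_mul_left 4 hd) hqa
        omega
      conv_rhs => rw [h9, pow_add]
      ring
    have h10 : 64 * (352 * T ^ 2) ≤ 64 * (2 ^ d * 8 ^ (4 * d * q - 2)) := by
      have h11 : 64 * (352 * T ^ 2) ≤ 8 ^ (4 * d * q) := by
        have h12 : T ^ 2 = X ^ (2 * d) * 8 ^ (2 * d * q) := by
          rw [hT, ← pow_mul, mul_pow, ← pow_mul]
          congr 2
          · ring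
          · ring
        have h13 : 22528 * X ^ (2 * d) ≤ 8 ^ (2 * d * q) := by
          have h14 := Nat.pow_le_pow_left hX8 (2 * d)
          rw [mul_pow] at h14
          have h15 : 22528 ≤ 22528 ^ (2 * d) := by
            have := Nat.pow_le_pow_right (show 0 < 22528 by norm_num) (show 1 ≤ 2 * d by omega)
            rwa [pow_one] at this
          refine (Nat.mul_le_mul_right _ h15).trans (h14.trans (le_of_eq ?_))
          rw [← pow_mul]
          congr 1
          ring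
        rw [h12]
        calc 64 * (352 * (X ^ (2 * d) * 8 ^ (2 * d * q)))
            = (22528 * X ^ (2 * d)) * 8 ^ (2 * d * q) := by ring
          _ ≤ 8 ^ (2 * d * q) * 8 ^ (2 * d * q) := Nat.mul_le_mul_right _ h13
          _ = 8 ^ (4 * d * q) := by
            rw [← pow_add]
            congr 1
            ring
      refine h11.trans ?_
      calc 8 ^ (4 * d * q) = 64 * (1 * 8 ^ (4 * d * q - 2)) := by rw [one_mul, h8]
        _ ≤ 64 * (2 ^ d * 8 ^ (4 * d * q - 2)) :=
          Nat.mul_le_mul_left _ (Nat.mul_le_mul_right _ (Nat.one_le_pow _ _ (by norm_num)))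
    exact Nat.le_of_mul_le_mul_left h10 (by norm_num)

end Pool.Agent.H75.MX
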