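import Pool.Agent.H75.MX.Sum1

set_option autoImplicit false
set_option linter.unusedSectionVars false

/-! The final sums. -/

open Finset

namespace Pool.Agent.H75.MX

lemma h12_inj_sum {d : ℕ} {R : ℕ} (F : Fr d → ℝ) (h0 : ∀ m, 0 ≤ F m)
    (hF : ∀ m, m ∉ KB d R → F m = 0) (S : Finset (Fr d)) (f : Fr d → Fr d)
    (hf : Function.Injective f) : ∑ l ∈ S, F (f l) ≤ ∑ m ∈ KB d R, F m := by
  classical
  rw [← Finset.sum_image (f := F) (g := f) (fun x _ y _ h => hf h)]
  calc ∑ m ∈ S.image f, F m ≤ ∑ m ∈ S.image f ∪ KB d R, F m :=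
        Finset.sum_le_sum_of_subset_of_nonneg Finset.subset_union_left fun m _ _ => h0 m
    _ = ∑ m ∈ KB d R, F m := by
        symm
        refine Finset.sum_subset Finset.subset_union_right fun m _ hm => hF m hm

lemma h12_KB_abs {d R : ℕ} {k : Fr d} (hk : k ∈ KB d R) (j : Fin d) : |k j| ≤ 8 ^ R := by
  unfold KB at hk
  rw [Fintype.mem_piFinset] at hk
  rw [abs_le]
  exact Finset.mem_Icc.1 (hk j)

lemma h12_card_SB {d : ℕ} (s : Fin d → ℕ) : ((SB s).card : ℝ) ≤ 10 ^ d * 8 ^ (∑ j, s j) := by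
  have h1 : (SB s).card ≤ ∏ j, (10 * 8 ^ s j) := by
    unfold SB
    refine (Finset.card_filter_le _ _).trans ?_
    rw [Fintype.card_piFinset]
    refine Finset.prod_le_prod' fun j _ => ?_
    rw [Int.card_Ioo]
    have h2 : (5 * (8:ℤ) ^ s j) - -(5 * (8:ℤ) ^ s j) - 1 ≤ ((10 * 8 ^ s j : ℕ) : ℤ) := by
      push_cast
      linarith
    exact Int.toNat_le.2 h2
  have h3 : ((∏ j : Fin d, (10 * 8 ^ s j) : ℕ) : ℝ) = 10 ^ d * 8 ^ (∑ j, s j) := by
    push_cast
    rw [Finset.prod_mul_distrib, Finset.prod_const, Finset.card_univ, Fintype.card_fin,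
      Finset.prod_pow_eq_pow_sum]
  rw [← h3]
  exact_mod_cast h1

/-- the approximating centre -/
lemma h12_centre {q R : ℕ} {x : ℤ} {V : ℕ} (hV : V ≤ R) (hx : kp x ≤ V + q) :
    (8:ℤ) ^ V * (x.tdiv (8 ^ V)) ∈ Cen1 q R ∧ |x - 8 ^ V * (x.tdiv (8 ^ V))| ≤ 8 ^ V := by
  have hp : (0:ℤ) < 8 ^ V := by positivity
  have e : x - 8 ^ V * (x.tdiv (8 ^ V)) = x.tmod (8 ^ V) := by
    have := Int.tmod_add_mul_tdiv x (8 ^ V)
    linarith
  constructor
  · unfold Cen1
    rw [Finset.mem_image]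
    refine ⟨(V, x.tdiv (8 ^ V)), ?_, rfl⟩
    rw [Finset.mem_product, Finset.mem_range, Finset.mem_Icc]
    refine ⟨by omega, ?_⟩
    have h1 := h12_abs_le_kp x
    have h2 : |x| ≤ 8 ^ V * 8 ^ q := by
      refine h1.trans ?_
      rw [← pow_add]
      exact pow_le_pow_right₀ (by norm_num) hx
    rw [← abs_le]
    have h3 : 8 ^ V * |x.tdiv (8 ^ V)| ≤ |x| := by
      have h4 : (x.tdiv (8 ^ V)).natAbs = x.natAbs / (8 ^ V : ℤ).natAbs :=
        Int.natAbs_tdiv x (8 ^ V)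
      have h5 : ((x.natAbs / (8 ^ V : ℤ).natAbs : ℕ)) * (8 ^ V : ℤ).natAbs ≤ x.natAbs :=
        Nat.div_mul_le_self _ _
      rw [← h4] at h5
      have h6 : (((x.tdiv (8 ^ V)).natAbs * (8 ^ V : ℤ).natAbs : ℕ) : ℤ) ≤ (x.natAbs : ℤ) := by
        exact_mod_cast h5
      push_cast at h6
      rw [abs_of_pos hp] at h6
      linarith
    exact le_of_mul_le_mul_left (h3.trans h2) hp
  · rw [e]
    have h1 : (x.tmod (8 ^ V)).natAbs < (8 ^ V : ℤ).natAbs := by
      rw [Int.natAbs_tmod]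
      exact Nat.mod_lt _ (Int.natAbs_pos.2 hp.ne')
    have h2 : ((x.tmod (8 ^ V)).natAbs : ℤ) < ((8 ^ V : ℤ).natAbs : ℤ) := by exact_mod_cast h1
    rw [Int.natCast_natAbs, Int.natCast_natAbs, abs_of_pos hp] at h2
    exact h2.le

section Main

variable {d : ℕ}

/-- the weighted sum over the scales above `V` -/
lemma h12_prod_sum (hd : 1 ≤ d) (M R : ℕ) (V : Fin d → ℕ) (hM : M ≤ ∑ j, V j) (k lam : Fr d)
    (h : ∀ j, |k j - lam j| ≤ 8 ^ V j) :
    ∑ W ∈ (Finset.Icc V (fun _ => R)).filter (fun W => M ≤ ∑ j, W j),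
      (8 : ℝ) ^ (∑ j, V j) / 8 ^ (∑ j, W j) * gg d ^ (∑ j, W j - M) * wt W lam ≤
    300 ^ d * gg d ^ (∑ j, V j - M) * ∏ j, (gg d / 8) ^ (kp (k j) - V j) := by
  have hg1 := h12_one_le_gg d hd
  have hg2 := h12_gg_le d hd
  have hg0 : 0 < gg d := by linarith
  have hom : ∀ v x, 0 ≤ om1 v x := fun v x => (om1_pos v x).le
  have hstep : ∀ W ∈ Finset.Icc V (fun _ => R),
      (8 : ℝ) ^ (∑ j, V j) / 8 ^ (∑ j, W j) * gg d ^ (∑ j, W j - M) * wt W lam =
      gg d ^ (∑ j, V j - M) * ∏ j, ((8:ℝ) ^ V j / 8 ^ W j * gg d ^ (W j - V j) *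
        om1 (W j) (lam j)) := by
    intro W hW
    have hVW : ∀ j, V j ≤ W j := (Finset.mem_Icc.1 hW).1
    have hsum : ∑ j, V j ≤ ∑ j, W j := Finset.sum_le_sum fun j _ => hVW j
    have e1 : ∑ j, W j - M = (∑ j, V j - M) + ∑ j, (W j - V j) := by
      rw [Finset.sum_tsub_distrib _ (fun j _ => hVW j)]
      omega
    rw [Finset.prod_mul_distrib, Finset.prod_mul_distrib, Finset.prod_div_distrib,
      Finset.prod_pow_eq_pow_sum, Finset.prod_pow_eq_pow_sum, Finset.prod_pow_eq_pow_sum, e1,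
      pow_add]
    unfold wt
    ring
  calc _ ≤ ∑ W ∈ Finset.Icc V (fun _ => R),
      (8 : ℝ) ^ (∑ j, V j) / 8 ^ (∑ j, W j) * gg d ^ (∑ j, W j - M) * wt W lam := by
        refine Finset.sum_le_sum_of_subset_of_nonneg (Finset.filter_subset _ _) fun W _ _ => ?_
        have := (wt_pos W lam).le
        positivity
    _ = ∑ W ∈ Finset.Icc V (fun _ => R), gg d ^ (∑ j, V j - M) *
        ∏ j, ((8:ℝ) ^ V j / 8 ^ W j * gg d ^ (W j - V j) * om1 (W j) (lam j)) :=
        Finset.sum_congr rfl hstep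
    _ = gg d ^ (∑ j, V j - M) * ∏ j, ∑ w ∈ Finset.Icc (V j) R,
        ((8:ℝ) ^ V j / 8 ^ w * gg d ^ (w - V j) * om1 w (lam j)) := by
        rw [← Finset.mul_sum, Finset.prod_univ_sum]
        rfl
    _ ≤ gg d ^ (∑ j, V j - M) * ∏ j, (300 * (gg d / 8) ^ (kp (k j) - V j)) := by
        refine mul_le_mul_of_nonneg_left ?_ (by positivity)
        refine Finset.prod_le_prod (fun j _ => Finset.sum_nonneg fun w _ => ?_) fun j _ =>
          h12_sigma (gg d) hg1 hg2 (V j) R (k j) (lam j) (h j)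
        have := hom w (lam j)
        positivity
    _ = _ := by
        rw [Finset.prod_mul_distrib, Finset.prod_const, Finset.card_univ, Fintype.card_fin]
        ring

/-- the convolution against the weighted energy -/
lemma h12_conv (R : ℕ) (s V : Fin d → ℕ) (hsV : s ≤ V) (k lam : Fr d)
    (h : ∀ j, |k j - lam j| ≤ 8 ^ V j) (D : Fr d → ℂ) (hD : ∀ k, k ∉ KB d R → D k = 0) :
    ∑ l ∈ SB s, ‖D (k - l)‖ ^ 2 ≤ 78 ^ d * En R V lam D := by
  have h1 : ∀ l ∈ SB s, ‖D (k - l)‖ ^ 2 ≤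
      78 ^ d * (wt V ((k - l) - lam) * ‖D (k - l)‖ ^ 2) := by
    intro l hl
    unfold SB at hl
    have hl1 := (Finset.mem_filter.1 hl).1
    rw [Fintype.mem_piFinset] at hl1
    have hl2 : ∀ j, |(-l) j| ≤ 5 * 8 ^ s j := by
      intro j
      rw [Pi.neg_apply, abs_neg, abs_le]
      have := Finset.mem_Ioo.1 (hl1 j)
      exact ⟨this.1.le, this.2.le⟩
    have a1 := wt_low s (-l) hl2
    have a2 := wt_mono hsV (-l)
    have a3 := wt_shift V (-l) (k - lam) h
    have e : -l + (k - lam) = (k - l) - lam := by abel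
    rw [e] at a3
    have a4 : (1:ℝ) ≤ 78 ^ d * wt V ((k - l) - lam) := by
      have a5 : (1 / 26 : ℝ) ^ d ≤ 3 ^ d * wt V ((k - l) - lam) := a1.trans (a2.trans a3)
      have a6 := mul_le_mul_of_nonneg_left a5 (by positivity : (0:ℝ) ≤ 26 ^ d)
      have e1 : (26:ℝ) ^ d * (1 / 26) ^ d = 1 := by
        rw [← mul_pow]; norm_num
      have e2 : (26:ℝ) ^ d * (3 ^ d * wt V ((k - l) - lam)) = 78 ^ d * wt V ((k - l) - lam) := by
        rw [← mul_assoc, ← mul_pow]; norm_num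
      rw [e1, e2] at a6
      exact a6
    have a7 : 0 ≤ ‖D (k - l)‖ ^ 2 := by positivity
    calc ‖D (k - l)‖ ^ 2 = 1 * ‖D (k - l)‖ ^ 2 := (one_mul _).symm
      _ ≤ (78 ^ d * wt V ((k - l) - lam)) * ‖D (k - l)‖ ^ 2 := mul_le_mul_of_nonneg_right a4 a7
      _ = _ := by ring
  refine (Finset.sum_le_sum h1).trans ?_
  rw [← Finset.mul_sum]
  refine mul_le_mul_of_nonneg_left ?_ (by positivity)
  unfold En
  refine h12_inj_sum (fun m => wt V (m - lam) * ‖D m‖ ^ 2) (fun m => ?_) (fun m hm => ?_) (SB s)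
    (fun l => k - l) (fun a b hab => ?_)
  · have := (wt_pos V (m - lam)).le
    positivity
  · show wt V (m - lam) * ‖D m‖ ^ 2 = 0
    rw [hD m hm]
    simp
  · exact sub_right_injective hab

/-- the hypothesis on the energies -/
def h12_Hyp (d q M R : ℕ) (β : ℝ) (D : Fr d → ℂ) : Prop :=
  ∀ V : Fin d → ℕ, (∀ j, V j ≤ R) → ∀ lam ∈ Cen d q R, En R V lam D
      ≤ β * ∑ W ∈ (Finset.Icc V (fun _ => R)).filter (fun W => M ≤ ∑ j, W j),
        (8 : ℝ) ^ (∑ j, V j) / 8 ^ (∑ j, W j) * gg d ^ (∑ j, W j - M) * wt W lam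

/-- the pointwise bound -/
lemma h12_point (hd : 1 ≤ d) (q M R : ℕ) (hMR : M ≤ R) (s : Fin d → ℕ) (hs : ∑ j, s j = M)
    (D : Fr d → ℂ) (hD : ∀ k, k ∉ KB d R → D k = 0) (β : ℝ) (hβ : 0 ≤ β)
    (H : h12_Hyp d q M R β D) (k : Fr d) (hk : k ∈ KB d R) (V : Fin d → ℕ)
    (hV : ∀ j, V j = max (s j) (kp (k j) - q)) :
    ∑ l ∈ SB s, ‖D (k - l)‖ ^ 2 ≤ 23400 ^ d * β * gg d ^ (∑ j, V j - M) *
      ∏ j, (gg d / 8) ^ (kp (k j) - V j) := by
  have hsV : s ≤ V := fun j => by rw [hV j]; exact le_max_left _ _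
  have hsM : ∀ j, s j ≤ M := fun j => by
    rw [← hs]
    exact Finset.single_le_sum (f := fun j => s j) (fun _ _ => Nat.zero_le _) (Finset.mem_univ j)
  have hkp : ∀ j, kp (k j) ≤ R := fun j => h12_kp_le (h12_KB_abs hk j)
  have hVR : ∀ j, V j ≤ R := by
    intro j
    rw [hV j]
    exact max_le ((hsM j).trans hMR) ((Nat.sub_le _ _).trans (hkp j))
  have hc : ∀ j, kp (k j) ≤ V j + q := by
    intro j
    have := le_max_right (s j) (kp (k j) - q)
    rw [← hV j] at this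
    omega
  set lam : Fr d := fun j => (8:ℤ) ^ V j * ((k j).tdiv (8 ^ V j)) with hlam
  have hl1 : lam ∈ Cen d q R := by
    unfold Cen
    rw [Fintype.mem_piFinset]
    intro j
    exact (h12_centre (hVR j) (hc j)).1
  have hl2 : ∀ j, |k j - lam j| ≤ 8 ^ V j := fun j => (h12_centre (hVR j) (hc j)).2
  have hMV : M ≤ ∑ j, V j := by
    rw [← hs]
    exact Finset.sum_le_sum fun j _ => hsV j
  have h1 := h12_conv R s V hsV k lam hl2 D hD
  have h2 := H V hVR lam hl1
  have h3 := h12_prod_sum hd M R V hMV k lam hl2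
  calc ∑ l ∈ SB s, ‖D (k - l)‖ ^ 2 ≤ 78 ^ d * En R V lam D := h1
    _ ≤ 78 ^ d * (β * (300 ^ d * gg d ^ (∑ j, V j - M) *
        ∏ j, (gg d / 8) ^ (kp (k j) - V j))) := by
        refine mul_le_mul_of_nonneg_left (h2.trans ?_) (by positivity)
        exact mul_le_mul_of_nonneg_left h3 hβ
    _ = _ := by
        have e : (23400:ℝ) ^ d = 78 ^ d * 300 ^ d := by
          rw [← mul_pow]; norm_num
        rw [e]; ring

/-- the total energy -/
lemma h12_total (hd : 1 ≤ d) (q M R : ℕ) (hMR : M ≤ d * R) (D : Fr d → ℂ) (β : ℝ)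
    (H : h12_Hyp d q M R β D) :
    ∑ m ∈ KB d R, ‖D m‖ ^ 2 ≤ 2 ^ d * (β * gg d ^ (d * R - M)) := by
  have h0 : (0 : Fr d) ∈ Cen d q R := by
    unfold Cen
    rw [Fintype.mem_piFinset]
    intro j
    unfold Cen1
    rw [Finset.mem_image]
    refine ⟨(0, 0), ?_, by simp⟩
    rw [Finset.mem_product, Finset.mem_range, Finset.mem_Icc]
    have : (0:ℤ) < 8 ^ q := by positivity
    exact ⟨Nat.succ_pos R, by simp only; linarith, by simp only; linarith⟩
  have h1 := H (fun _ => R) (fun _ => le_rfl) 0 h0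
  have e1 : (Finset.Icc (fun _ : Fin d => R) (fun _ => R)).filter (fun W => M ≤ ∑ j, W j) =
      {fun _ => R} := by
    rw [Finset.Icc_self, Finset.filter_singleton, if_pos]
    rw [Finset.sum_const, Finset.card_univ, Fintype.card_fin, smul_eq_mul]
    exact hMR
  rw [e1, Finset.sum_singleton] at h1
  have e2 : ∑ _j : Fin d, R = d * R := by
    rw [Finset.sum_const, Finset.card_univ, Fintype.card_fin, smul_eq_mul]
  rw [e2, div_self (by positivity), one_mul] at h1
  have hg1 := h12_one_le_gg d hd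
  have hw : wt (fun _ : Fin d => R) 0 ≤ 1 := wt_le_one _ _
  have h2 : En R (fun _ => R) 0 D ≤ β * gg d ^ (d * R - M) ∨ β < 0 := by
    rcases le_or_gt 0 β with hβ | hβ
    · left
      refine h1.trans (mul_le_mul_of_nonneg_left ?_ hβ)
      have : 0 ≤ gg d ^ (d * R - M) := by positivity
      nlinarith
    · exact Or.inr hβ
  have h3 : ∑ m ∈ KB d R, ‖D m‖ ^ 2 ≤ 2 ^ d * En R (fun _ => R) 0 D := by
    unfold En
    rw [Finset.mul_sum]
    refine Finset.sum_le_sum fun m hm => ?_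
    have hlow : (1:ℝ) ≤ 2 ^ d * wt (fun _ : Fin d => R) (m - 0) := by
      rw [sub_zero]
      unfold wt
      have e3 : (2:ℝ) ^ d * ∏ j, om1 R (m j) = ∏ j, (2 * om1 R (m j)) := by
        rw [Finset.prod_mul_distrib, Finset.prod_const, Finset.card_univ, Fintype.card_fin]
      rw [e3]
      have e4 : (1:ℝ) = ∏ _j : Fin d, (1:ℝ) := by rw [Finset.prod_const_one]
      rw [e4]
      refine Finset.prod_le_prod (fun _ _ => zero_le_one) fun j _ => ?_
      have hj := h12_KB_abs hm j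
      have hj' : |((m j : ℤ) : ℝ)| ≤ 8 ^ R := by exact_mod_cast hj
      unfold om1
      have h8 : (0:ℝ) < 8 ^ R := by positivity
      have h9 : (((m j : ℤ) : ℝ) / 8 ^ R) ^ 2 ≤ 1 := by
        rw [div_pow, div_le_one (by positivity), ← sq_abs]
        exact pow_le_pow_left₀ (abs_nonneg _) hj' 2
      rw [mul_one_div, le_div_iff₀ (by positivity)]
      linarith
    have a7 : 0 ≤ ‖D m‖ ^ 2 := by positivity
    calc ‖D m‖ ^ 2 = 1 * ‖D m‖ ^ 2 := (one_mul _).symm
      _ ≤ (2 ^ d * wt (fun _ : Fin d => R) (m - 0)) * ‖D m‖ ^ 2 :=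
          mul_le_mul_of_nonneg_right hlow a7
      _ = _ := by ring
  rcases h2 with h2 | h2
  · exact h3.trans (mul_le_mul_of_nonneg_left h2 (by positivity))
  · -- β < 0 : then the energy is at most a negative number, impossible unless everything is fine
    exfalso
    have h4 : 0 ≤ En R (fun _ => R) 0 D := by
      unfold En
      refine Finset.sum_nonneg fun m _ => ?_
      have := (wt_pos (fun _ : Fin d => R) (m - 0)).le
      positivity
    have h5 : 0 < gg d ^ (d * R - M) * wt (fun _ : Fin d => R) (0 : Fr d) := by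
      have := wt_pos (fun _ : Fin d => R) (0 : Fr d)
      have : 0 < gg d := by linarith
      positivity
    have h6 : β * (gg d ^ (d * R - M) * wt (fun _ : Fin d => R) (0 : Fr d)) < 0 :=
      mul_neg_of_neg_of_pos h2 h5
    linarith

lemma h12_Gw_nonneg (hd : 1 ≤ d) (s : Fin d → ℕ) (k : Fr d) : 0 ≤ Gw s k := by
  unfold Gw
  have := h12_one_le_gg d hd
  exact Finset.prod_nonneg fun j _ => by positivity

lemma h12_Gw_le (hd : 1 ≤ d) (R : ℕ) (s : Fin d → ℕ) (hs : ∀ j, s j ≤ R) (k : Fr d)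
    (hk : k ∈ KB d R) : Gw s k ≤ gg d ^ (d * R) := by
  unfold Gw
  have hg1 := h12_one_le_gg d hd
  rw [Finset.prod_pow_eq_pow_sum]
  refine pow_le_pow_right₀ hg1 ?_
  calc ∑ j, Nat.dist (kp (k j)) (s j) ≤ ∑ _j : Fin d, R := by
        refine Finset.sum_le_sum fun j _ => ?_
        have h1 := h12_kp_le (h12_KB_abs hk j)
        have h2 := hs j
        unfold Nat.dist
        omega
    _ = d * R := by rw [Finset.sum_const, Finset.card_univ, Fintype.card_fin, smul_eq_mul]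

/-- the quartic sum -/
theorem quart_sum (d : ℕ) (hd : 1 ≤ d) : ∃ C : ℝ, 0 < C ∧ ∀ q M R : ℕ, 1 ≤ q → M = 4 * d * q →
    R = M + q → ∀ s ∈ blk d M, ∀ D : Fr d → ℂ, (∀ k, k ∉ KB d R → D k = 0) → ∀ β : ℝ, 0 ≤ β →
    (∀ V : Fin d → ℕ, (∀ j, V j ≤ R) → ∀ lam ∈ Cen d q R, En R V lam D
      ≤ β * ∑ W ∈ (Finset.Icc V (fun _ => R)).filter (fun W => M ≤ ∑ j, W j),
        (8 : ℝ) ^ (∑ j, V j) / 8 ^ (∑ j, W j) * gg d ^ (∑ j, W j - M) * wt W lam) →
    ∑ k ∈ KB d R, Gw s k * (∑ l ∈ SB s, ‖D (k - l)‖ ^ 2) ^ 2 ≤ C * β ^ 2 * 8 ^ M := by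
  have hg1 := h12_one_le_gg d hd
  have hg2 := h12_gg_le d hd
  have hg0 : 0 < gg d := by linarith
  refine ⟨(23400 ^ d) ^ 2 * 5 ^ d + 23400 ^ d * 20 ^ d, by positivity, ?_⟩
  intro q M R hq hM hR s hs D hD β hβ H
  rw [mem_blk] at hs
  have hMR : M ≤ R := by omega
  have hMdR : M ≤ d * R := hMR.trans (Nat.le_mul_of_pos_left R hd)
  have hsM : ∀ j, s j ≤ M := fun j => by
    rw [← hs]
    exact Finset.single_le_sum (f := fun j => s j) (fun _ _ => Nat.zero_le _) (Finset.mem_univ j)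
  have hsR : ∀ j, s j ≤ R := fun j => (hsM j).trans hMR
  set E : Fr d → ℝ := fun k => ∑ l ∈ SB s, ‖D (k - l)‖ ^ 2 with hE
  have hE0 : ∀ k, 0 ≤ E k := fun k => Finset.sum_nonneg fun l _ => by positivity
  set Ef : ℝ := 23400 ^ d * β * gg d ^ (d * R) * (gg d / 8) ^ q with hEf
  have hEf0 : 0 ≤ Ef := by positivity
  -- pointwise
  have hpt : ∀ k ∈ KB d R, Gw s k * (E k) ^ 2 ≤
      (23400 ^ d) ^ 2 * β ^ 2 * ∏ j, (gg d ^ Nat.dist (kp (k j)) (s j) *
        (gg d / 8) ^ (2 * (kp (k j) - s j))) + gg d ^ (d * R) * Ef * E k := by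
    intro k hk
    have hG0 := h12_Gw_nonneg hd s k
    by_cases hnear : ∀ j, kp (k j) ≤ s j + q
    · have h1 := h12_point hd q M R hMR s hs D hD β hβ H k hk s (fun j => by
        have := hnear j
        rw [max_eq_left (by omega)])
      rw [hs, Nat.sub_self, pow_zero, mul_one] at h1
      have h2 : (E k) ^ 2 ≤ (23400 ^ d * β * ∏ j, (gg d / 8) ^ (kp (k j) - s j)) ^ 2 :=
        pow_le_pow_left₀ (hE0 k) h1 2
      have h3 := mul_le_mul_of_nonneg_left h2 hG0
      have e1 : Gw s k * (23400 ^ d * β * ∏ j, (gg d / 8) ^ (kp (k j) - s j)) ^ 2 =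
          (23400 ^ d) ^ 2 * β ^ 2 * ∏ j, (gg d ^ Nat.dist (kp (k j)) (s j) *
            (gg d / 8) ^ (2 * (kp (k j) - s j))) := by
        rw [Finset.prod_mul_distrib]
        have e2 : ∏ j, (gg d / 8) ^ (2 * (kp (k j) - s j)) =
            (∏ j, (gg d / 8) ^ (kp (k j) - s j)) ^ 2 := by
          rw [← Finset.prod_pow]
          refine Finset.prod_congr rfl fun j _ => ?_
          rw [← pow_mul, mul_comm]
        rw [e2]
        unfold Gw
        ring
      rw [e1] at h3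
      have h4 : 0 ≤ gg d ^ (d * R) * Ef * E k := by
        have := hE0 k
        positivity
      linarith
    · push Not at hnear
      obtain ⟨j0, hj0⟩ := hnear
      set V : Fin d → ℕ := fun j => max (s j) (kp (k j) - q) with hV
      have h1 := h12_point hd q M R hMR s hs D hD β hβ H k hk V (fun j => rfl)
      have hVR : ∀ j, V j ≤ R := by
        intro j
        have := h12_kp_le (h12_KB_abs hk j)
        exact max_le (hsR j) ((Nat.sub_le _ _).trans this)
      have hr0 : 0 ≤ gg d / 8 := by positivity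
      have hr1 : gg d / 8 ≤ 1 := by linarith
      have h2 : ∏ j, (gg d / 8) ^ (kp (k j) - V j) ≤ (gg d / 8) ^ q := by
        rw [Finset.prod_pow_eq_pow_sum]
        refine pow_le_pow_of_le_one hr0 hr1 ?_
        have e1 : kp (k j0) - V j0 = q := by
          have : V j0 = kp (k j0) - q := by
            show max (s j0) (kp (k j0) - q) = _
            rw [max_eq_right (by omega)]
          omega
        rw [← e1]
        exact Finset.single_le_sum (f := fun j => kp (k j) - V j) (fun _ _ => Nat.zero_le _)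
          (Finset.mem_univ j0)
      have h3 : gg d ^ (∑ j, V j - M) ≤ gg d ^ (d * R) := by
        refine pow_le_pow_right₀ hg1 ((Nat.sub_le _ _).trans ?_)
        calc ∑ j, V j ≤ ∑ _j : Fin d, R := Finset.sum_le_sum fun j _ => hVR j
          _ = d * R := by rw [Finset.sum_const, Finset.card_univ, Fintype.card_fin, smul_eq_mul]
      have h4 : E k ≤ Ef := by
        refine h1.trans ?_
        rw [hEf]
        have hp : 0 ≤ ∏ j, (gg d / 8) ^ (kp (k j) - V j) :=
          Finset.prod_nonneg fun j _ => pow_nonneg hr0 _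
        refine mul_le_mul (mul_le_mul_of_nonneg_left h3 (by positivity)) h2 hp (by positivity)
      have h5 := h12_Gw_le hd R s hsR k hk
      have h6 : Gw s k * (E k) ^ 2 ≤ gg d ^ (d * R) * Ef * E k := by
        have hk0 := hE0 k
        calc Gw s k * (E k) ^ 2 = (Gw s k * E k) * E k := by ring
          _ ≤ (gg d ^ (d * R) * Ef) * E k := by
              refine mul_le_mul_of_nonneg_right ?_ hk0
              exact mul_le_mul h5 h4 hk0 (by positivity)
      have h7 : 0 ≤ (23400 ^ d) ^ 2 * β ^ 2 * ∏ j, (gg d ^ Nat.dist (kp (k j)) (s j) *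
          (gg d / 8) ^ (2 * (kp (k j) - s j))) := by
        refine mul_nonneg (by positivity) (Finset.prod_nonneg fun j _ => by positivity)
      linarith
  -- the near sum
  have hnearsum : ∑ k ∈ KB d R, ∏ j, (gg d ^ Nat.dist (kp (k j)) (s j) *
        (gg d / 8) ^ (2 * (kp (k j) - s j))) ≤ 5 ^ d * 8 ^ M := by
    have e1 : ∑ k ∈ KB d R, ∏ j, (gg d ^ Nat.dist (kp (k j)) (s j) *
        (gg d / 8) ^ (2 * (kp (k j) - s j))) = ∏ j : Fin d, ∑ x ∈ Finset.Icc (-(8 : ℤ) ^ R) (8 ^ R),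
        (gg d ^ Nat.dist (kp x) (s j) * (gg d / 8) ^ (2 * (kp x - s j))) := by
      rw [Finset.prod_univ_sum]
      rfl
    rw [e1]
    calc _ ≤ ∏ j : Fin d, ((5:ℝ) * 8 ^ s j) := by
          refine Finset.prod_le_prod (fun j _ => Finset.sum_nonneg fun x _ => by positivity)
            fun j _ => h12_near1 (gg d) hg1 hg2 R (s j)
      _ = 5 ^ d * 8 ^ M := by
          rw [Finset.prod_mul_distrib, Finset.prod_const, Finset.card_univ, Fintype.card_fin,
            Finset.prod_pow_eq_pow_sum, hs]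
  -- the total energy
  have htot := h12_total hd q M R hMdR D β H
  have hEsum : ∑ k ∈ KB d R, E k ≤ (10 ^ d * 8 ^ M) * (2 ^ d * (β * gg d ^ (d * R - M))) := by
    have e1 : ∑ k ∈ KB d R, E k = ∑ l ∈ SB s, ∑ k ∈ KB d R, ‖D (k - l)‖ ^ 2 :=
      Finset.sum_comm
    rw [e1]
    have h1 : ∀ l ∈ SB s, ∑ k ∈ KB d R, ‖D (k - l)‖ ^ 2 ≤ ∑ m ∈ KB d R, ‖D m‖ ^ 2 := by
      intro l _
      refine h12_inj_sum (fun m => ‖D m‖ ^ 2) (fun m => by positivity) (fun m hm => ?_) (KB d R)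
        (fun k => k - l) (fun a b hab => ?_)
      · show ‖D m‖ ^ 2 = 0
        rw [hD m hm]
        simp
      · exact sub_left_injective hab
    refine (Finset.sum_le_sum h1).trans ?_
    rw [Finset.sum_const, nsmul_eq_mul]
    have h2 := h12_card_SB s
    rw [hs] at h2
    exact mul_le_mul h2 htot (Finset.sum_nonneg fun m _ => by positivity) (by positivity)
  -- the growth factor
  have hgrow : gg d ^ (3 * (d * R)) * (gg d / 8) ^ q ≤ 1 := by
    have h1 : gg d ^ (3 * (d * R)) * gg d ^ q ≤ 8 ^ q := by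
      rw [← pow_add]
      have e1 : 3 * (d * R) + q ≤ (15 * d ^ 2 + 1) * q := by
        have hR' : R = (4 * d + 1) * q := by rw [hR, hM]; ring
        rw [hR']
        have e2 : 3 * (d * ((4 * d + 1) * q)) + q = (12 * d ^ 2 + 3 * d + 1) * q := by ring
        rw [e2]
        refine Nat.mul_le_mul_right q ?_
        have : d ≤ d ^ 2 := by nlinarith
        omega
      calc gg d ^ (3 * (d * R) + q) ≤ gg d ^ ((15 * d ^ 2 + 1) * q) := pow_le_pow_right₀ hg1 e1
        _ = (gg d ^ (15 * d ^ 2 + 1)) ^ q := by rw [pow_mul]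
        _ ≤ 8 ^ q := pow_le_pow_left₀ (by positivity) (h12_gg_big d hd) q
    rw [div_pow, ← mul_div_assoc, div_le_one (by positivity)]
    exact h1
  calc ∑ k ∈ KB d R, Gw s k * (E k) ^ 2
      ≤ ∑ k ∈ KB d R, ((23400 ^ d) ^ 2 * β ^ 2 * ∏ j, (gg d ^ Nat.dist (kp (k j)) (s j) *
        (gg d / 8) ^ (2 * (kp (k j) - s j))) + gg d ^ (d * R) * Ef * E k) :=
        Finset.sum_le_sum hpt
    _ = (23400 ^ d) ^ 2 * β ^ 2 * ∑ k ∈ KB d R, ∏ j, (gg d ^ Nat.dist (kp (k j)) (s j) *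
        (gg d / 8) ^ (2 * (kp (k j) - s j))) + gg d ^ (d * R) * Ef * ∑ k ∈ KB d R, E k := by
        rw [Finset.sum_add_distrib, Finset.mul_sum, Finset.mul_sum]
    _ ≤ (23400 ^ d) ^ 2 * β ^ 2 * (5 ^ d * 8 ^ M) + gg d ^ (d * R) * Ef *
        ((10 ^ d * 8 ^ M) * (2 ^ d * (β * gg d ^ (d * R - M)))) := by
        refine add_le_add (mul_le_mul_of_nonneg_left hnearsum (by positivity))
          (mul_le_mul_of_nonneg_left hEsum (by positivity))
    _ ≤ (23400 ^ d) ^ 2 * β ^ 2 * (5 ^ d * 8 ^ M) + 23400 ^ d * 20 ^ d * β ^ 2 * 8 ^ M := by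
        refine add_le_add le_rfl ?_
        have h1 : gg d ^ (d * R - M) ≤ gg d ^ (d * R) := pow_le_pow_right₀ hg1 (Nat.sub_le _ _)
        calc gg d ^ (d * R) * Ef * ((10 ^ d * 8 ^ M) * (2 ^ d * (β * gg d ^ (d * R - M))))
            ≤ gg d ^ (d * R) * Ef * ((10 ^ d * 8 ^ M) * (2 ^ d * (β * gg d ^ (d * R)))) := by
              refine mul_le_mul_of_nonneg_left (mul_le_mul_of_nonneg_left
                (mul_le_mul_of_nonneg_left (mul_le_mul_of_nonneg_left h1 hβ) (by positivity))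
                (by positivity)) (by positivity)
          _ = 23400 ^ d * 20 ^ d * β ^ 2 * 8 ^ M *
              (gg d ^ (3 * (d * R)) * (gg d / 8) ^ q) := by
              have e1 : (20:ℝ) ^ d = 10 ^ d * 2 ^ d := by rw [← mul_pow]; norm_num
              have e2 : gg d ^ (3 * (d * R)) = (gg d ^ (d * R)) ^ 3 := by
                rw [← pow_mul]; congr 1; ring
              rw [hEf, e1, e2]
              ring
          _ ≤ 23400 ^ d * 20 ^ d * β ^ 2 * 8 ^ M * 1 :=
              mul_le_mul_of_nonneg_left hgrow (by positivity)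
          _ = _ := mul_one _
    _ = _ := by ring

end Main

end Pool.Agent.H75.MX
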