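import Pool.Agent.H75.MX.En
import Pool.Agent.H75.MX.Sum

set_option autoImplicit false
set_option linter.unusedSectionVars false

/-! The fourth power bound for the higher order part. -/

open Finset ComplexConjugate

namespace Pool.Agent.H75.MX

variable {d : ℕ} {q M R L : ℕ} {S : ℕ → Fin d → ℕ} {ρ : ℝ} {c f : ℕ → Fr d → ℂ}

lemma cv_split (s : Fin d → ℕ) (c g : Fr d → ℂ) (hc : ∀ k, k ∉ SB s → c k = 0) (k : Fr d) :
    cv s c g k = c k + cv s c (Dm g) k := by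
  unfold cv
  have h1 : ∀ l ∈ SB s, g (k - l) * c l = (if k = l then c k else 0) + Dm g (k - l) * c l := by
    intro l _
    unfold Dm
    by_cases h : k = l
    · rw [if_pos h, if_pos (by rw [h, sub_self]), h]
      ring
    · rw [if_neg h, if_neg (fun h' => h (sub_eq_zero.1 h'))]
      ring
  rw [Finset.sum_congr rfl h1, Finset.sum_add_distrib, Finset.sum_ite_eq]
  by_cases hk : k ∈ SB s
  · rw [if_pos hk]
  · rw [if_neg hk, hc k hk]

lemma rem_eq (h : CSeq d q M R L S ρ c f) (i : ℕ) (hi : i ≤ L) (k : Fr d) :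
    Dm (f i) k - (ρ : ℂ) * ∑ i' ∈ Finset.range i, c i' k
      = (ρ : ℂ) * ∑ i' ∈ Finset.range i, cv (S i') (c i') (Dm (f i')) k := by
  induction i with
  | zero =>
    rw [Finset.sum_range_zero, Finset.sum_range_zero, mul_zero, sub_zero]
    unfold Dm
    rw [h.f0, sub_self]
  | succ i ih =>
    have h1 := ih (by omega)
    rw [Dm_succ h i (by omega), Finset.sum_range_succ, Finset.sum_range_succ,
      cv_split (S i) (c i) (f i) (h.w2 i (by omega)) k]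
    linear_combination h1

/-- the auxiliary weight -/
noncomputable def th (s : Fin d → ℕ) (k : Fr d) : ℝ :=
  ∏ j, (1 / tt d) ^ Nat.dist (kp (k j)) (s j)

lemma tt_pos (d : ℕ) : 0 < tt d := by
  unfold tt
  positivity

lemma th_pos (s : Fin d → ℕ) (k : Fr d) : 0 < th s k := by
  unfold th
  refine Finset.prod_pos (fun j _ => ?_)
  have := tt_pos d
  positivity

lemma th_Gw (s : Fin d → ℕ) (k : Fr d) : (1 / th s k) ^ 3 = Gw s k := by
  unfold th Gw gg
  have h0 := tt_pos d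
  rw [one_div, ← Finset.prod_inv_distrib, ← Finset.prod_pow]
  refine Finset.prod_congr rfl (fun j _ => ?_)
  rw [one_div, ← pow_mul, ← inv_pow, inv_inv, ← pow_mul, mul_comm]

lemma th_sum (h : CSeq d q M R L S ρ c f) (C : ℝ)
    (hC : ∀ (M : ℕ) (k : Fr d),
      ∑ s ∈ blk d M, ∏ j, (1 / tt d) ^ Nat.dist (kp (k j)) (s j) ≤ C) (k : Fr d) :
    ∑ i ∈ Finset.range L, th (S i) k ≤ C := by
  have h1 : ∑ i ∈ Finset.range L, th (S i) k = ∑ s ∈ (Finset.range L).image S, th s k := by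
    rw [Finset.sum_image]
    intro a ha b hb hab
    exact h.hinj a (mem_range.1 ha) b (mem_range.1 hb) hab
  rw [h1]
  refine le_trans (Finset.sum_le_sum_of_subset_of_nonneg ?_ (fun s _ _ => (th_pos s k).le)) (hC M k)
  intro s hs
  rw [mem_image] at hs
  obtain ⟨i, hi, rfl⟩ := hs
  exact mem_blk.2 (h.hS i (mem_range.1 hi))

/-- the fourth power bound -/
theorem quart_final (d : ℕ) (hd : 2 ≤ d) : ∃ C γ : ℝ, 0 < C ∧ 0 < γ ∧
    ∀ (q M R L : ℕ) (S : ℕ → Fin d → ℕ) (ρ : ℝ) (c f : ℕ → Fr d → ℂ), 1 ≤ q →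
    CSeq d q M R L S ρ c f → 4 * 1000 ^ d * ρ ^ 2 * (((d * R : ℕ) : ℝ) + 1) ^ (d - 2) ≤ γ →
    ∑ k ∈ KB d R, ‖Dm (f L) k - (ρ : ℂ) * ∑ i ∈ Finset.range L, c i k‖ ^ 4
      ≤ C * L * ρ ^ 8 / 8 ^ M := by
  obtain ⟨γ, Γ, hγ0, hΓ0, hgrow⟩ := growth d hd
  obtain ⟨CG, hCG0, hCG⟩ := quart_sum d (by omega)
  obtain ⟨Ct, hCt0, hCt⟩ := theta_sum d (by omega)
  refine ⟨Ct ^ 3 * 12 * CG * (4 * 1000 ^ d * Γ) ^ 2 / 4 ^ d, γ, by positivity, hγ0, ?_⟩
  intro q M R L S ρ c f hq h hγ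
  have hth := th_sum h Ct hCt
  have h1 : ∀ k ∈ KB d R, ‖Dm (f L) k - (ρ : ℂ) * ∑ i ∈ Finset.range L, c i k‖ ^ 4
      ≤ ρ ^ 4 * (Ct ^ 3
        * ∑ i ∈ Finset.range L, Gw (S i) k * ‖cv (S i) (c i) (Dm (f i)) k‖ ^ 4) := by
    intro k _
    rw [rem_eq h L le_rfl k, norm_mul, mul_pow, Complex.norm_real, Real.norm_eq_abs,
      abs_of_nonneg h.hρ]
    refine mul_le_mul_of_nonneg_left ?_ (by have := h.hρ; positivity)
    have h2 : ‖∑ i ∈ Finset.range L, cv (S i) (c i) (Dm (f i)) k‖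
        ≤ ∑ i ∈ Finset.range L, ‖cv (S i) (c i) (Dm (f i)) k‖ := norm_sum_le _ _
    have h3 := pow_le_pow_left₀ (norm_nonneg _) h2 4
    have h4 := power_mean (Finset.range L) (fun i => ‖cv (S i) (c i) (Dm (f i)) k‖)
      (fun i => th (S i) k) (fun i _ => norm_nonneg _) (fun i _ => th_pos (S i) k)
    simp only [th_Gw] at h4
    refine h3.trans (h4.trans ?_)
    have hG0 : ∀ s : Fin d → ℕ, 0 ≤ Gw s k := by
      intro s
      rw [← th_Gw]
      have := th_pos s k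
      positivity
    refine mul_le_mul_of_nonneg_right ?_
      (Finset.sum_nonneg (fun i _ => mul_nonneg (hG0 _) (by positivity)))
    exact pow_le_pow_left₀ (Finset.sum_nonneg (fun i _ => (th_pos (S i) k).le)) (hth k) 3
  refine (Finset.sum_le_sum h1).trans ?_
  rw [← Finset.mul_sum, ← Finset.mul_sum, Finset.sum_comm]
  have hP : (0 : ℝ) < 8 ^ M := by positivity
  have h5 : ∀ i ∈ Finset.range L, ∑ k ∈ KB d R, Gw (S i) k * ‖cv (S i) (c i) (Dm (f i)) k‖ ^ 4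
      ≤ 12 / (2 ^ d * 8 ^ M) ^ 2 * (CG * (4 * 1000 ^ d * ρ ^ 2 * Γ) ^ 2 * 8 ^ M) := by
    intro i hi
    rw [mem_range] at hi
    refine (h.w8 i hi).trans (mul_le_mul_of_nonneg_left ?_ (by positivity))
    refine hCG q M R hq h.hM h.hR (S i) (mem_blk.2 (h.hS i hi)) (Dm (f i))
      (fun k hk => Dm_KB h i hi.le k hk) (4 * 1000 ^ d * ρ ^ 2 * Γ) (by positivity) ?_
    intro V hV lam hlam
    exact energy' hd γ Γ hΓ0 hgrow h hγ i hi.le V hV lam hlam
  have h6 := Finset.sum_le_sum h5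
  rw [Finset.sum_const, card_range, nsmul_eq_mul] at h6
  have h7 := mul_le_mul_of_nonneg_left (mul_le_mul_of_nonneg_left h6
    (show 0 ≤ Ct ^ 3 by positivity)) (show 0 ≤ ρ ^ 4 by have := h.hρ; positivity)
  refine h7.trans (le_of_eq ?_)
  have h8 : (4 : ℝ) ^ d = 2 ^ d * 2 ^ d := by
    rw [← mul_pow]
    norm_num
  rw [h8]
  field_simp

end Pool.Agent.H75.MX
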