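import Pool.Agent.H75.MX.Union
import Pool.Agent.H75.MX.Quart
import Pool.Agent.H75.MX.Par

set_option autoImplicit false
set_option linter.unusedSectionVars false

/-! The lower bound for one sign sequence. -/

open Finset ComplexConjugate MeasureTheory UnitAddTorus

namespace Pool.Agent.H75.MX

open Pool.Agent.H75.MT (ee sg ext bsum nbad)
open Pool.Agent.H75.UB (ex TT co tp)

noncomputable section

variable {d : ℕ}

/-- the higher order part on few frequencies -/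
lemma rem_few {q M R L : ℕ} {S : ℕ → Fin d → ℕ} {ρ : ℝ} {c : ℕ → Fr d → ℂ}
    (h : CSeq d q M R L S ρ c (fun i => co (st S ρ c i))) (CQ : ℝ) (hCQ : 0 ≤ CQ)
    (hQ : ∑ k ∈ KB d R, ‖Dm (co (st S ρ c L)) k - (ρ : ℂ) * ∑ i ∈ Finset.range L, c i k‖ ^ 4
      ≤ CQ * L * ρ ^ 8 / 8 ^ M) (F : Finset (Fr d)) (hF : #F ≤ L * (2 ^ d * 8 ^ M)) :
    ∑ k ∈ F, ‖rem S ρ c L k‖ ^ 2 ≤ Real.sqrt (2 ^ d * CQ) * (L * ρ ^ 4) := by
  classical
  have hρ := h.hρ
  have hout : ∀ k, k ∉ KB d R → rem S ρ c L k = 0 := by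
    intro k hk
    unfold rem
    have h1 := Dm_KB h L le_rfl k hk
    rw [h1]
    have h2 : ∑ i ∈ Finset.range L, c i k = 0 := by
      refine Finset.sum_eq_zero (fun i hi => ?_)
      rw [mem_range] at hi
      refine h.w2 i hi k ?_
      intro hkS
      apply hk
      rw [mem_KB]
      intro j
      have h3 := (mem_SB.1 hkS j).2
      have h4 := pow_le_M (h.hS i hi) j
      have h5 : (5 : ℤ) ≤ 8 ^ q := by
        have h6 := h.hL5
        have h7 : 5 ≤ 8 ^ q := by omega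
        exact_mod_cast h7
      rw [h.hR, pow_add, mul_comm]
      have h8 : (0 : ℤ) < 8 ^ M := by positivity
      nlinarith
    rw [h2, mul_zero, sub_zero]
  have h4 : ∑ k ∈ F, ‖rem S ρ c L k‖ ^ 4 ≤ CQ * L * ρ ^ 8 / 8 ^ M := by
    refine le_trans ?_ hQ
    have h5 : ∑ k ∈ F, ‖rem S ρ c L k‖ ^ 4
        = ∑ k ∈ F.filter (fun k => k ∈ KB d R), ‖rem S ρ c L k‖ ^ 4 := by
      symm
      refine Finset.sum_filter_of_ne (fun k _ hne => ?_)
      by_contra hcon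
      apply hne
      rw [hout k hcon]
      simp
    rw [h5]
    refine Finset.sum_le_sum_of_subset_of_nonneg ?_ (fun k _ _ => by positivity)
    intro k hk
    exact (mem_filter.1 hk).2
  have h6 : (∑ k ∈ F, ‖rem S ρ c L k‖ ^ 2) ^ 2 ≤ (Real.sqrt (2 ^ d * CQ) * (L * ρ ^ 4)) ^ 2 := by
    have h7 := sq_sum_le_card_mul_sum_sq (s := F) (f := fun k => ‖rem S ρ c L k‖ ^ 2)
    have h8 : ∑ k ∈ F, (‖rem S ρ c L k‖ ^ 2) ^ 2 = ∑ k ∈ F, ‖rem S ρ c L k‖ ^ 4 := by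
      refine Finset.sum_congr rfl (fun k _ => ?_)
      ring
    rw [h8] at h7
    refine h7.trans ?_
    have h9 : (#F : ℝ) ≤ L * (2 ^ d * 8 ^ M) := by exact_mod_cast hF
    have h10 : (0 : ℝ) ≤ ∑ k ∈ F, ‖rem S ρ c L k‖ ^ 4 :=
      Finset.sum_nonneg (fun _ _ => by positivity)
    refine (mul_le_mul h9 h4 h10 (by positivity)).trans (le_of_eq ?_)
    rw [mul_pow, Real.sq_sqrt (by positivity)]
    field_simp
  exact (pow_le_pow_iff_left₀ (Finset.sum_nonneg (fun _ _ => by positivity)) (by positivity)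
    two_ne_zero).1 h6

/-- the arithmetic of the final step -/
lemma final_num (ρ c1 g U l X2 C : ℝ) (hρ : 0 < ρ) (hc1 : 0 < c1) (hg : 3 / 4 * l ≤ g)
    (hl : 0 < l) (hU : 0 ≤ U) (hC : 0 ≤ C) (hX : X2 ≤ C ^ 2 * (l * ρ ^ 4))
    (h1 : 2 * C * (Real.sqrt l * ρ ^ 2) ≤ 1) (h2 : 12 * C * ρ ≤ c1)
    (hmain : ρ * c1 * g ≤ 2 * U + (Real.sqrt l + Real.sqrt (2 * l + 2 * U ^ 2)) * Real.sqrt X2) :
    c1 * ρ * l / 6 ≤ U := by
  set s := Real.sqrt l with hs
  have hs0 : 0 < s := Real.sqrt_pos.2 hl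
  have hsl : s * s = l := Real.mul_self_sqrt hl.le
  have hX' : Real.sqrt X2 ≤ C * (s * ρ ^ 2) := by
    rw [Real.sqrt_le_left (by positivity)]
    refine hX.trans (le_of_eq ?_)
    rw [← hsl]
    ring
  have hq : Real.sqrt (2 * l + 2 * U ^ 2) ≤ 2 * (s + U) := by
    rw [Real.sqrt_le_left (by positivity)]
    nlinarith [mul_nonneg hs0.le hU]
  have h3 : (s + Real.sqrt (2 * l + 2 * U ^ 2)) * Real.sqrt X2
      ≤ (s + 2 * (s + U)) * (C * (s * ρ ^ 2)) := by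
    refine mul_le_mul (by linarith) hX' (Real.sqrt_nonneg _) (by positivity)
  have h4 : (s + 2 * (s + U)) * (C * (s * ρ ^ 2))
      = 3 * C * ρ ^ 2 * l + U * (2 * C * (s * ρ ^ 2)) := by
    rw [← hsl]
    ring
  have h5 : U * (2 * C * (s * ρ ^ 2)) ≤ U := by
    have := mul_le_mul_of_nonneg_left h1 hU
    linarith
  have h6 : 3 * C * ρ ^ 2 * l ≤ 1 / 4 * (c1 * ρ * l) := by
    have h7 : 0 ≤ ρ * l := by positivity
    have := mul_le_mul_of_nonneg_right h2 h7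
    nlinarith
  have h7 : 3 / 4 * (c1 * ρ * l) ≤ ρ * c1 * g := by
    have h8 : 0 ≤ ρ * c1 := by positivity
    have := mul_le_mul_of_nonneg_left hg h8
    nlinarith
  nlinarith

lemma sqrt_pow_bound (d M L : ℕ) (hd : 3 ≤ d) (hM : 1 ≤ M) (hL : L ≤ (M + 1) ^ (d - 1)) (a : ℝ)
    (ha : 0 < a) : Real.sqrt L * (a / (M : ℝ) ^ (d - 2)) ≤ 2 ^ d * a := by
  have hM' : (1 : ℝ) ≤ M := by exact_mod_cast hM
  have h1 : Real.sqrt L ≤ 2 ^ d * (M : ℝ) ^ (d - 2) := by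
    rw [Real.sqrt_le_left (by positivity)]
    have h2 : (L : ℝ) ≤ ((M : ℝ) + 1) ^ (d - 1) := by exact_mod_cast hL
    have h3 : ((M : ℝ) + 1) ^ (d - 1) ≤ (2 * M) ^ (d - 1) :=
      pow_le_pow_left₀ (by positivity) (by linarith) _
    refine h2.trans (h3.trans ?_)
    rw [mul_pow, mul_pow, ← pow_mul, ← pow_mul]
    refine mul_le_mul (pow_le_pow_right₀ (by norm_num) (by omega))
      (pow_le_pow_right₀ hM' (by omega)) (by positivity) (by positivity)
  have h4 := mul_le_mul_of_nonneg_right h1 (show 0 ≤ a / (M : ℝ) ^ (d - 2) by positivity)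
  refine h4.trans (le_of_eq ?_)
  have : (M : ℝ) ^ (d - 2) ≠ 0 := by positivity
  field_simp

/-- the growth of the main term -/
lemma rho_L (d M q L : ℕ) (hd : 3 ≤ d) (hM : M = 4 * d * q) (hq : 1 ≤ q)
    (hL : (4 * q + 1) ^ (d - 1) ≤ L) (a : ℝ) (ha : 0 < a) :
    Real.sqrt a / (d : ℝ) ^ (d - 1) * Real.sqrt ((M : ℝ) ^ d)
      ≤ Real.sqrt (a / (M : ℝ) ^ (d - 2)) * L := by
  have hd0 : (0 : ℝ) < d := by
    have : 0 < d := by omega
    exact_mod_cast this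
  have hq0 : (0 : ℝ) < q := by exact_mod_cast hq
  have hMr : (M : ℝ) = 4 * d * q := by rw [hM]; push_cast; ring
  have hM0 : (0 : ℝ) < M := by rw [hMr]; positivity
  have h1 : ((M : ℝ) / d) ^ (d - 1) ≤ L := by
    have h2 : ((4 * (q : ℝ) + 1)) ^ (d - 1) ≤ L := by exact_mod_cast hL
    refine le_trans (pow_le_pow_left₀ (by positivity) ?_ _) h2
    rw [hMr, div_le_iff₀ hd0]
    nlinarith
  have h3 : Real.sqrt ((M : ℝ) ^ d) * Real.sqrt ((M : ℝ) ^ (d - 2)) = (M : ℝ) ^ (d - 1) := by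
    rw [← Real.sqrt_mul (by positivity), ← pow_add]
    have : d + (d - 2) = (d - 1) * 2 := by omega
    rw [this, pow_mul, Real.sqrt_sq (by positivity)]
  have h4 : 0 < Real.sqrt ((M : ℝ) ^ (d - 2)) := Real.sqrt_pos.2 (by positivity)
  rw [Real.sqrt_div ha.le, div_mul_eq_mul_div, div_mul_eq_mul_div, le_div_iff₀ h4,
    div_mul_eq_mul_div, mul_assoc, h3]
  rw [div_le_iff₀ (by positivity), mul_assoc]
  refine mul_le_mul_of_nonneg_left ?_ (Real.sqrt_nonneg _)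
  rwa [div_pow, div_le_iff₀ (by positivity)] at h1

/-- the lower bound for all approximants -/
theorem sup_lower (d : ℕ) (hd : 3 ≤ d) : ∃ (c : ℝ) (q0 : ℕ), 0 < c ∧ 1 ≤ q0 ∧
    ∀ (q : ℕ), q0 ≤ q → ∀ (M : ℕ), M = 4 * d * q → ∀ (Y : Type) [Fintype Y] [DecidableEq Y]
    (S : ℕ → Fin d → ℕ) (e : ∀ i, Y ≃ Gd (S i)),
    (∀ i, ∑ j, S i j = M) → (∀ i < LL d M, ∀ j < LL d M, S i = S j → i = j) →
    ∃ Bad : Finset (Fin (LL d M) → Finset Y), 4 * #Bad ≤ (2 ^ Fintype.card Y) ^ (LL d M) ∧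
      ∀ ε : Fin (LL d M) → Finset Y, ε ∉ Bad → ∀ Lam : Finset (Fr d),
      #Lam * (32768 * (d + 3)) ≤ LL d M * (2 ^ d * 8 ^ M) → ∀ (b : Fr d → ℂ) (U : ℝ),
      (∀ x, ‖(Tp S (LL d M) (aa S e (ext ε)) - tp Lam b) x‖ ≤ U) →
      c * Real.sqrt ((M : ℝ) ^ d) ≤ U := by
  classical
  obtain ⟨CQ, γ, hCQ0, hγ0, hquart⟩ := quart_final d (by omega)
  obtain ⟨q0, hq01, hq0⟩ := params_ok d (by omega)
  have hd0 : (0 : ℝ) < d := by
    have : 0 < d := by omega
    exact_mod_cast this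
  have hkc : 0 < kc d := by unfold kc; positivity
  set c1 : ℝ := kc d / 1088 with hc1
  have hc10 : 0 < c1 := by rw [hc1]; positivity
  set C : ℝ := Real.sqrt (Real.sqrt (2 ^ d * CQ)) with hC
  have hC0 : 0 < C := Real.sqrt_pos.2 (Real.sqrt_pos.2 (by positivity))
  -- choice of the small constant
  obtain ⟨a, ha0, ha1, ha2, ha3, ha4⟩ : ∃ a : ℝ, 0 < a ∧ a ≤ 1 ∧
      4 * 1000 ^ d * (3 * d) ^ (d - 2) * a ≤ γ ∧ 2 * C * (2 ^ d * a) ≤ 1 ∧
      (12 * C) ^ 2 * a ≤ c1 ^ 2 := by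
    have e1 : (0 : ℝ) < 4 * 1000 ^ d * (3 * d) ^ (d - 2) := by positivity
    have e2 : (0 : ℝ) < 2 * C * 2 ^ d := by positivity
    have e3 : (0 : ℝ) < (12 * C) ^ 2 := by positivity
    refine ⟨min (min 1 (γ / (4 * 1000 ^ d * (3 * d) ^ (d - 2))))
      (min (1 / (2 * C * 2 ^ d)) (c1 ^ 2 / (12 * C) ^ 2)), by positivity, ?_, ?_, ?_, ?_⟩
    · exact (min_le_left _ _).trans (min_le_left _ _)
    · have := (min_le_left (min 1 (γ / (4 * 1000 ^ d * (3 * (d : ℝ)) ^ (d - 2))))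
        (min (1 / (2 * C * 2 ^ d)) (c1 ^ 2 / (12 * C) ^ 2))).trans (min_le_right _ _)
      rw [le_div_iff₀ e1] at this
      linarith
    · have := (min_le_right (min 1 (γ / (4 * 1000 ^ d * (3 * (d : ℝ)) ^ (d - 2))))
        (min (1 / (2 * C * 2 ^ d)) (c1 ^ 2 / (12 * C) ^ 2))).trans (min_le_left _ _)
      rw [le_div_iff₀ e2] at this
      linarith
    · have := (min_le_right (min 1 (γ / (4 * 1000 ^ d * (3 * (d : ℝ)) ^ (d - 2))))
        (min (1 / (2 * C * 2 ^ d)) (c1 ^ 2 / (12 * C) ^ 2))).trans (min_le_right _ _)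
      rw [le_div_iff₀ e3] at this
      linarith
  refine ⟨c1 / 6 * (Real.sqrt a / (d : ℝ) ^ (d - 1)), q0, by positivity, hq01, ?_⟩
  intro q hq M hM Y _ _ S e hS hinj
  obtain ⟨hL5, hP⟩ := hq0 q hq
  have hq1 : 1 ≤ q := hq01.trans hq
  rw [← hM] at hL5 hP
  have hM12 : 12 ≤ M := by
    rw [hM]
    have : 4 * 3 * 1 ≤ 4 * d * q := Nat.mul_le_mul (Nat.mul_le_mul_left 4 hd) hq1
    omega
  have hM0 : (0 : ℝ) < M := by
    have : 0 < M := by omega
    exact_mod_cast this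
  have hM1 : (1 : ℝ) ≤ M := by
    have : 1 ≤ M := by omega
    exact_mod_cast this
  set L := LL d M with hLdef
  have hLlow : (4 * q + 1) ^ (d - 1) ≤ L := by
    rw [hLdef, hM]
    exact LL_ge d q (by omega)
  have hL1 : 1 ≤ L := le_trans (Nat.one_le_pow _ _ (by omega)) hLlow
  have hLup : L ≤ (M + 1) ^ (d - 1) := LL_le d M
  set ρ : ℝ := Real.sqrt (a / (M : ℝ) ^ (d - 2)) with hρ
  have hρ0 : 0 < ρ := Real.sqrt_pos.2 (by positivity)
  have hρ2 : ρ ^ 2 = a / (M : ℝ) ^ (d - 2) := Real.sq_sqrt (by positivity)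
  have hMp : (1 : ℝ) ≤ (M : ℝ) ^ (d - 2) := one_le_pow₀ hM1
  have hρ2a : ρ ^ 2 ≤ a := by
    rw [hρ2]
    exact div_le_self ha0.le hMp
  have hρ1 : ρ ≤ 1 := by
    have : ρ ^ 2 ≤ 1 ^ 2 := by
      rw [one_pow]
      linarith
    exact (pow_le_pow_iff_left₀ hρ0.le zero_le_one two_ne_zero).1 this
  set n2 : ℕ := 2 ^ d * 8 ^ (M - 4) with hn2def
  set w : ℕ := 2 ^ d * 8 ^ (M - 2) with hwdef
  have hn2pos : 1 ≤ n2 := Nat.mul_pos (by positivity) (by positivity)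
  have hw64 : w = 64 * n2 := by
    rw [hwdef, hn2def]
    have : 8 ^ (M - 2) = 8 ^ (M - 4) * 64 := by
      rw [show (64 : ℕ) = 8 ^ 2 by norm_num, ← pow_add]
      congr 1
      omega
    rw [this]
    ring
  have hN : 64 * w = 2 ^ d * 8 ^ M := by
    rw [hwdef]
    have : 8 ^ M = 8 ^ (M - 2) * 64 := by
      rw [show (64 : ℕ) = 8 ^ 2 by norm_num, ← pow_add]
      congr 1
      omega
    rw [this]
    ring
  have hR : M + q = M + q := rfl
  set B : ℕ := L * (2 ^ d * 8 ^ M) / (32768 * (d + 3)) with hBdef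
  have hBle : B * (32768 * (d + 3)) ≤ L * (2 ^ d * 8 ^ M) := Nat.div_mul_le_self _ _
  have hn2le : 16 * (2 * n2 + 2 + Fintype.card (Trk d q (M + q))
      + 8 * Fintype.card (Trk d q (M + q)) * Fintype.card (Trk d q (M + q))) ≤ w := by
    set P := Fintype.card (Trk d q (M + q)) with hPdef
    have hP' : 32 * (2 + P + 8 * P * P) ≤ w := hP
    omega
  have hw16 : 16 ≤ w := by omega
  refine ⟨BadU S e q (M + q) w ρ L n2 B, BadU_card (by omega) hS hw16 hn2le hN (by omega) rfl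
    hL1 hBle, ?_⟩
  intro ε hε Lam hLam b U hU
  have hLamB : #Lam ≤ B := by
    rw [hBdef, Nat.le_div_iff_mul_le (by positivity)]
    exact hLam
  obtain ⟨G, c, hseq, hG3, hGL, hc0, hv1, hv5, hv4, hv3⟩ := good_factors (R := M + q) (n := w)
    (B := B) (by omega) hM rfl hL5 hS hinj hρ0.le hn2pos (by omega) ε hε Lam hLamB (by
      refine le_trans ?_ hBle
      exact Nat.mul_le_mul_left _ (by omega))
  have hcard : (Fintype.card Y : ℝ) = 64 * (w : ℝ) := by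
    have h1 : Fintype.card Y = 64 * w := by
      rw [card_Y (S 0) (e 0), hS 0, hN]
    rw [h1]
    push_cast
    ring
  have hw0 : (0 : ℝ) < w := by
    have : 0 < w := by omega
    exact_mod_cast this
  have hv4' : ∀ i ∈ G, c1 ≤ (∑ k ∈ Rm (S i), aa S e (ext ε) i k * conj (c i k)).re := by
    intro i hi
    refine le_trans (le_of_eq ?_) (hv4 i hi)
    rw [hcard, hc1]
    field_simp
    norm_num
  have hγ : 4 * 1000 ^ d * ρ ^ 2 * (((d * (M + q) : ℕ) : ℝ) + 1) ^ (d - 2) ≤ γ := by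
    have h1 : (((d * (M + q) : ℕ) : ℝ) + 1) ≤ 3 * d * M := by
      have h2 : d * (M + q) + 1 ≤ 3 * d * M := by
        have h3 : q ≤ M := by
          rw [hM]
          exact Nat.le_mul_of_pos_left q (by omega)
        have h4 : 1 ≤ d * M := Nat.mul_pos (by omega) (by omega)
        have h5 : d * q ≤ d * M := Nat.mul_le_mul_left _ h3
        have h6 : d * (M + q) + 1 = d * M + d * q + 1 := by ring
        have h7 : 3 * d * M = d * M + d * M + d * M := by ring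
        omega
      exact_mod_cast h2
    have h3 := pow_le_pow_left₀ (by positivity) h1 (d - 2)
    have h4 : 4 * 1000 ^ d * ρ ^ 2 * (((d * (M + q) : ℕ) : ℝ) + 1) ^ (d - 2)
        ≤ 4 * 1000 ^ d * ρ ^ 2 * (3 * d * M) ^ (d - 2) :=
      mul_le_mul_of_nonneg_left h3 (by positivity)
    refine h4.trans (le_trans (le_of_eq ?_) ha2)
    rw [hρ2, mul_pow (3 * (d : ℝ)) (M : ℝ)]
    have : (M : ℝ) ^ (d - 2) ≠ 0 := by positivity
    field_simp
  have hQ := hquart q M (M + q) L S ρ c (fun i => co (st S ρ c i)) hq1 hseq hγ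
  have hX := rem_few hseq CQ hCQ0.le hQ
  have hlamN : #Lam ≤ L * (2 ^ d * 8 ^ M) :=
    le_trans (Nat.le_mul_of_pos_right _ (by positivity)) hLam
  have hU0 : 0 ≤ U := (norm_nonneg _).trans (hU 0)
  have hmain := main_pair (by omega) S L M (fun i _ => hS i) hinj ρ hρ0.le hρ1 c G hGL hc0 hv1
    hseq.w2 hv5 (aa S e (ext ε)) (fun i _ => hat_sq (S i) (e i) (ext ε i)) c1 hv4' Lam hv3 hlamN
    (Real.sqrt (2 ^ d * CQ) * (L * ρ ^ 4)) hX b U hU
  have hl0 : (0 : ℝ) < L := by exact_mod_cast hL1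
  have hG3' : 3 / 4 * (L : ℝ) ≤ #G := by
    have : (3 : ℝ) * L ≤ 4 * #G := by exact_mod_cast hG3
    linarith
  have hC2 : C ^ 2 = Real.sqrt (2 ^ d * CQ) := Real.sq_sqrt (Real.sqrt_nonneg _)
  have hfin := final_num ρ c1 #G U L (Real.sqrt (2 ^ d * CQ) * (L * ρ ^ 4)) C hρ0 hc10 hG3' hl0
    hU0 hC0.le (by rw [hC2]) ?_ ?_ hmain
  · refine le_trans ?_ hfin
    have h1 := rho_L d M q L hd hM hq1 hLlow a ha0
    have h2 := mul_le_mul_of_nonneg_left h1 (show 0 ≤ c1 / 6 by positivity)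
    refine le_trans (le_of_eq ?_) (h2.trans (le_of_eq ?_))
    · ring
    · rw [← hρ]
      ring
  · have h1 := sqrt_pow_bound d M L hd (by omega) hLup a ha0
    rw [← hρ2] at h1
    have h2 := mul_le_mul_of_nonneg_left h1 (show 0 ≤ 2 * C by positivity)
    exact h2.trans ha3
  · have h1 : (12 * C * ρ) ^ 2 ≤ c1 ^ 2 := by
      rw [mul_pow]
      exact (mul_le_mul_of_nonneg_left hρ2a (by positivity)).trans ha4
    exact (pow_le_pow_iff_left₀ (by positivity) hc10.le two_ne_zero).1 h1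

end

end Pool.Agent.H75.MX
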