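import Pool.Agent.H75.MX.Defs

set_option autoImplicit false
set_option linter.unusedSectionVars false

/-! Moments of sums with random signs. -/

open Finset

namespace Pool.Agent.H75.MX

open Pool.Agent.H75.MT (sg)

variable {Y : Type*} [Fintype Y] [DecidableEq Y]

/-- the signed sum over a subset -/
def linT (T : Finset Y) (u : Y → ℝ) (s : Finset Y) : ℝ := ∑ y ∈ T, sg s y * u y

lemma linT_out (T : Finset Y) (u : Y → ℝ) (s : Finset Y) (y0 : Y) (h0 : y0 ∉ T) (hs : s ⊆ T) :
    linT (insert y0 T) u s = linT T u s - u y0 := by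
  have hy : y0 ∉ s := fun h => h0 (hs h)
  unfold linT
  rw [Finset.sum_insert h0]
  have : sg s y0 = -1 := by unfold sg; rw [if_neg hy]
  rw [this]; ring

lemma linT_in (T : Finset Y) (u : Y → ℝ) (s : Finset Y) (y0 : Y) (h0 : y0 ∉ T) :
    linT (insert y0 T) u (insert y0 s) = linT T u s + u y0 := by
  unfold linT
  rw [Finset.sum_insert h0]
  have : sg (insert y0 s) y0 = 1 := by unfold sg; rw [if_pos (Finset.mem_insert_self _ _)]
  rw [this]
  have h2 : ∑ y ∈ T, sg (insert y0 s) y * u y = ∑ y ∈ T, sg s y * u y := by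
    refine Finset.sum_congr rfl fun y hy => ?_
    have hne : y ≠ y0 := fun h => h0 (h ▸ hy)
    have : sg (insert y0 s) y = sg s y := by
      unfold sg
      simp only [Finset.mem_insert, hne, false_or]
    rw [this]
  rw [h2]; ring

lemma momT_mul (u v : Y → ℝ) (T : Finset Y) :
    ∑ s ∈ T.powerset, linT T u s * linT T v s = 2 ^ #T * ∑ y ∈ T, u y * v y := by
  induction T using Finset.induction_on with
  | empty => simp [linT]
  | insert y0 T h0 ih =>
    rw [Finset.sum_powerset_insert h0]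
    have h1 : ∑ s ∈ T.powerset, linT (insert y0 T) u s * linT (insert y0 T) v s
        = ∑ s ∈ T.powerset, (linT T u s - u y0) * (linT T v s - v y0) := by
      refine Finset.sum_congr rfl fun s hs => ?_
      rw [linT_out T u s y0 h0 (Finset.mem_powerset.1 hs),
        linT_out T v s y0 h0 (Finset.mem_powerset.1 hs)]
    have h2 : ∑ s ∈ T.powerset, linT (insert y0 T) u (insert y0 s)
          * linT (insert y0 T) v (insert y0 s)
        = ∑ s ∈ T.powerset, (linT T u s + u y0) * (linT T v s + v y0) := by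
      refine Finset.sum_congr rfl fun s hs => ?_
      rw [linT_in T u s y0 h0, linT_in T v s y0 h0]
    rw [h1, h2, ← Finset.sum_add_distrib]
    have h3 : ∑ s ∈ T.powerset, ((linT T u s - u y0) * (linT T v s - v y0)
          + (linT T u s + u y0) * (linT T v s + v y0))
        = ∑ s ∈ T.powerset, (2 * (linT T u s * linT T v s) + 2 * (u y0 * v y0)) :=
      Finset.sum_congr rfl fun s _ => by ring
    rw [h3, Finset.sum_add_distrib, ← Finset.mul_sum, ih, Finset.sum_const,
      Finset.card_powerset, Finset.card_insert_of_notMem h0, Finset.sum_insert h0]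
    simp only [nsmul_eq_mul]
    push_cast
    ring

lemma momT_pair (u v : Y → ℝ) (T : Finset Y) :
    ∑ s ∈ T.powerset, linT T u s ^ 2 * linT T v s ^ 2
      ≤ 2 ^ #T * ((∑ y ∈ T, u y ^ 2) * (∑ y ∈ T, v y ^ 2) + 2 * (∑ y ∈ T, u y * v y) ^ 2) := by
  induction T using Finset.induction_on with
  | empty => simp [linT]
  | insert y0 T h0 ih =>
    rw [Finset.sum_powerset_insert h0]
    have h1 : ∑ s ∈ T.powerset, linT (insert y0 T) u s ^ 2 * linT (insert y0 T) v s ^ 2
        = ∑ s ∈ T.powerset, (linT T u s - u y0) ^ 2 * (linT T v s - v y0) ^ 2 := by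
      refine Finset.sum_congr rfl fun s hs => ?_
      rw [linT_out T u s y0 h0 (Finset.mem_powerset.1 hs),
        linT_out T v s y0 h0 (Finset.mem_powerset.1 hs)]
    have h2 : ∑ s ∈ T.powerset, linT (insert y0 T) u (insert y0 s) ^ 2
          * linT (insert y0 T) v (insert y0 s) ^ 2
        = ∑ s ∈ T.powerset, (linT T u s + u y0) ^ 2 * (linT T v s + v y0) ^ 2 := by
      refine Finset.sum_congr rfl fun s hs => ?_
      rw [linT_in T u s y0 h0, linT_in T v s y0 h0]
    rw [h1, h2, ← Finset.sum_add_distrib]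
    have h3 : ∑ s ∈ T.powerset, ((linT T u s - u y0) ^ 2 * (linT T v s - v y0) ^ 2
          + (linT T u s + u y0) ^ 2 * (linT T v s + v y0) ^ 2)
        = ∑ s ∈ T.powerset, (2 * (linT T u s ^ 2 * linT T v s ^ 2)
          + 2 * v y0 ^ 2 * (linT T u s * linT T u s) + 2 * u y0 ^ 2 * (linT T v s * linT T v s)
          + 8 * (u y0 * v y0) * (linT T u s * linT T v s) + 2 * (u y0 ^ 2 * v y0 ^ 2)) :=
      Finset.sum_congr rfl fun s _ => by ring
    rw [h3, Finset.sum_add_distrib, Finset.sum_add_distrib, Finset.sum_add_distrib,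
      Finset.sum_add_distrib, ← Finset.mul_sum, ← Finset.mul_sum, ← Finset.mul_sum,
      ← Finset.mul_sum, momT_mul, momT_mul, momT_mul, Finset.sum_const,
      Finset.card_powerset, Finset.card_insert_of_notMem h0, Finset.sum_insert h0,
      Finset.sum_insert h0, Finset.sum_insert h0]
    have e1 : ∑ y ∈ T, u y * u y = ∑ y ∈ T, u y ^ 2 :=
      Finset.sum_congr rfl fun y _ => by ring
    have e2 : ∑ y ∈ T, v y * v y = ∑ y ∈ T, v y ^ 2 :=
      Finset.sum_congr rfl fun y _ => by ring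
    rw [e1, e2]
    simp only [nsmul_eq_mul]
    push_cast
    have hp : (0 : ℝ) < 2 ^ #T := by positivity
    have hq : 0 ≤ (2 : ℝ) ^ #T * (u y0 ^ 2 * v y0 ^ 2) := by positivity
    have hpow : (2 : ℝ) ^ (#T + 1) = 2 * 2 ^ #T := by ring
    rw [hpow]
    generalize (2 : ℝ) ^ #T = P at *
    generalize ∑ y ∈ T, u y ^ 2 = U at *
    generalize ∑ y ∈ T, v y ^ 2 = V at *
    generalize ∑ y ∈ T, u y * v y = W at *
    nlinarith [ih, hq]

lemma mom_two (u : Y → ℝ) :
    ∑ s : Finset Y, (∑ y, sg s y * u y) ^ 2 = 2 ^ Fintype.card Y * ∑ y, u y ^ 2 := by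
  have h := momT_mul u u (univ : Finset Y)
  rw [Finset.powerset_univ] at h
  have e1 : ∑ s : Finset Y, (∑ y, sg s y * u y) ^ 2
      = ∑ s : Finset Y, linT univ u s * linT univ u s :=
    Finset.sum_congr rfl fun s _ => by unfold linT; ring
  have e2 : ∑ y, u y ^ 2 = ∑ y, u y * u y := Finset.sum_congr rfl fun y _ => by ring
  rw [e1, e2, h, Finset.card_univ]

lemma mom_pair (u v : Y → ℝ) :
    ∑ s : Finset Y, (∑ y, sg s y * u y) ^ 2 * (∑ y, sg s y * v y) ^ 2
      ≤ 2 ^ Fintype.card Y * ((∑ y, u y ^ 2) * (∑ y, v y ^ 2) + 2 * (∑ y, u y * v y) ^ 2) := by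
  have h := momT_pair u v (univ : Finset Y)
  rw [Finset.powerset_univ, Finset.card_univ] at h
  exact h

lemma mom_quart (c : Y → ℂ) :
    ∑ s : Finset Y, ‖∑ y, (sg s y : ℂ) * c y‖ ^ 4
      ≤ 2 ^ Fintype.card Y * (3 * (∑ y, ‖c y‖ ^ 2) ^ 2) := by
  set u : Y → ℝ := fun y => (c y).re with hu
  set v : Y → ℝ := fun y => (c y).im with hv
  have hn : ∀ z : ℂ, ‖z‖ ^ 2 = z.re ^ 2 + z.im ^ 2 := by
    intro z
    rw [← Complex.normSq_eq_norm_sq, Complex.normSq_apply]; ring
  have h1 : ∀ s : Finset Y, ‖∑ y, (sg s y : ℂ) * c y‖ ^ 4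
      = (∑ y, sg s y * u y) ^ 2 * (∑ y, sg s y * u y) ^ 2
        + (∑ y, sg s y * v y) ^ 2 * (∑ y, sg s y * v y) ^ 2
        + 2 * ((∑ y, sg s y * u y) ^ 2 * (∑ y, sg s y * v y) ^ 2) := by
    intro s
    have hre : (∑ y, (sg s y : ℂ) * c y).re = ∑ y, sg s y * u y := by
      rw [Complex.re_sum]
      exact Finset.sum_congr rfl fun y _ => by simp [hu]
    have him : (∑ y, (sg s y : ℂ) * c y).im = ∑ y, sg s y * v y := by
      rw [Complex.im_sum]
      exact Finset.sum_congr rfl fun y _ => by simp [hv]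
    have : ‖∑ y, (sg s y : ℂ) * c y‖ ^ 4 = (‖∑ y, (sg s y : ℂ) * c y‖ ^ 2) ^ 2 := by ring
    rw [this, hn, hre, him]
    ring
  have h2 : ∑ y, ‖c y‖ ^ 2 = ∑ y, u y ^ 2 + ∑ y, v y ^ 2 := by
    rw [← Finset.sum_add_distrib]
    exact Finset.sum_congr rfl fun y _ => hn _
  rw [Finset.sum_congr rfl fun s _ => h1 s, Finset.sum_add_distrib, Finset.sum_add_distrib,
    ← Finset.mul_sum, h2]
  have hA := mom_pair u u
  have hB := mom_pair v v
  have hC := mom_pair u v
  have e1 : ∑ y, u y * u y = ∑ y, u y ^ 2 := Finset.sum_congr rfl fun y _ => by ring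
  have e2 : ∑ y, v y * v y = ∑ y, v y ^ 2 := Finset.sum_congr rfl fun y _ => by ring
  rw [e1] at hA
  rw [e2] at hB
  have hcs : (∑ y, u y * v y) ^ 2 ≤ (∑ y, u y ^ 2) * ∑ y, v y ^ 2 :=
    Finset.sum_mul_sq_le_sq_mul_sq univ u v
  have hp : (0 : ℝ) < 2 ^ Fintype.card Y := by positivity
  have hcs' : (2 : ℝ) ^ Fintype.card Y * (∑ y, u y * v y) ^ 2
      ≤ 2 ^ Fintype.card Y * ((∑ y, u y ^ 2) * ∑ y, v y ^ 2) :=
    mul_le_mul_of_nonneg_left hcs hp.le
  nlinarith [hA, hB, hC, hcs']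

end Pool.Agent.H75.MX
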