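import Pool.Agent.H75.MX.PairA
import Pool.Agent.H75.MX.Grid

set_option autoImplicit false
set_option linter.unusedSectionVars false

/-! The product on the torus and the final pairing. -/

open Finset ComplexConjugate MeasureTheory UnitAddTorus

namespace Pool.Agent.H75.MX

open Pool.Agent.H75.MT (ee sg ext)
open Pool.Agent.H75.UB (ex TT co tp cint rint co_def co_add co_smul co_zero co_sum integral_mF
  mF_mul co_mF tp_apply co_tp mF_coe exists_real pair_mF pair_tp)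

noncomputable section

local instance : MeasureSpace UnitAddCircle := ⟨AddCircle.haarAddCircle⟩

local instance : Measure.IsAddHaarMeasure (volume : Measure UnitAddCircle) :=
  inferInstanceAs (Measure.IsAddHaarMeasure AddCircle.haarAddCircle)

local instance : IsProbabilityMeasure (volume : Measure UnitAddCircle) :=
  inferInstanceAs (IsProbabilityMeasure AddCircle.haarAddCircle)

variable {d : ℕ}

lemma co_st_zero (S : ℕ → Fin d → ℕ) (ρ : ℝ) (c : ℕ → Fr d → ℂ) (k : Fr d) :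
    co (st S ρ c 0) k = if k = 0 then 1 else 0 := co_one k

lemma co_st_succ (S : ℕ → Fin d → ℕ) (ρ : ℝ) (c : ℕ → Fr d → ℂ) (i : ℕ) (k : Fr d) :
    co (st S ρ c (i + 1)) k
      = co (st S ρ c i) k + (ρ : ℂ) * cv (S i) (c i) (co (st S ρ c i)) k := by
  have h1 : st S ρ c (i + 1) = st S ρ c i + (ρ : ℂ) • (st S ρ c i * tp (SB (S i)) (c i)) := by
    show st S ρ c i * (1 + (ρ : ℂ) • tp (SB (S i)) (c i)) = _
    rw [mul_add, mul_one, mul_smul_comm]
  rw [h1, co_add, co_smul, co_mul_tp]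
  rfl

lemma rp_apply (F : Finset (Fr d)) (a : Fr d → ℂ) (x : TT d) :
    rp F a x = ((∑ k ∈ F, (a k * mFourier k x).re : ℝ) : ℂ) := by
  unfold rp
  rw [ContinuousMap.coe_sum, Finset.sum_apply, Complex.ofReal_sum]
  refine Finset.sum_congr rfl (fun k _ => ?_)
  rw [ContinuousMap.add_apply, ContinuousMap.smul_apply, ContinuousMap.smul_apply, smul_eq_mul,
    smul_eq_mul, mFourier_neg]
  have h1 := Complex.add_conj (a k * mFourier k x)
  rw [map_mul] at h1
  have h2 : (((a k * mFourier k x).re : ℝ) : ℂ)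
      = (1 / 2) * (a k * mFourier k x + conj (a k) * conj (mFourier k x)) := by
    rw [h1]
    push_cast
    ring
  rw [h2]
  ring

lemma Tp_real (S : ℕ → Fin d → ℕ) (L : ℕ) (a : ℕ → Fr d → ℂ) (x : TT d) :
    (Tp S L a x).im = 0 := by
  unfold Tp
  rw [ContinuousMap.coe_sum, Finset.sum_apply, Complex.im_sum]
  refine Finset.sum_eq_zero (fun i _ => ?_)
  rw [rp_apply, Complex.ofReal_im]

/-- Fourier coefficients of the extremal polynomial -/
lemma co_Tp (S : ℕ → Fin d → ℕ) (L : ℕ) (a : ℕ → Fr d → ℂ) (l : Fr d) :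
    co (Tp S L a) l = ∑ i ∈ Finset.range L, (1 / 2 * (if l ∈ Rm (S i) then a i l else 0)
      + 1 / 2 * (if -l ∈ Rm (S i) then conj (a i (-l)) else 0)) := by
  unfold Tp
  rw [co_sum]
  exact Finset.sum_congr rfl (fun i _ => co_rp _ _ _)

lemma Rm_SB {s : Fin d → ℕ} {k : Fr d} (h : k ∈ Rm s) : k ∈ SB s := Bp_sub s (Rm_sub s h)

/-- the energy of the extremal polynomial -/
lemma sum_co_Tp (S : ℕ → Fin d → ℕ) (L : ℕ)
    (hinj : ∀ i < L, ∀ j < L, S i = S j → i = j) (a : ℕ → Fr d → ℂ)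
    (ha : ∀ i < L, ∑ k ∈ Rm (S i), ‖a i k‖ ^ 2 ≤ 1) (Lam : Finset (Fr d)) :
    ∑ k ∈ Lam, ‖co (Tp S L a) k‖ ^ 2 ≤ L := by
  have h0 : ∀ i k, co (rp (Rm (S i)) (a i)) k ≠ 0 → k ∈ SB (S i) := by
    intro i k hne
    rw [co_rp] at hne
    by_contra hk
    apply hne
    rw [if_neg (fun h => hk (Rm_SB h)), if_neg]
    · ring
    · intro h
      have := neg_mem_SB (Rm_SB h)
      rw [neg_neg] at this
      exact hk this
  have h1 : ∀ k ∈ Lam, ‖co (Tp S L a) k‖ ^ 2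
      ≤ ∑ i ∈ Finset.range L, ‖co (rp (Rm (S i)) (a i)) k‖ ^ 2 := by
    intro k _
    unfold Tp
    rw [co_sum]
    by_cases hex : ∃ i ∈ Finset.range L, co (rp (Rm (S i)) (a i)) k ≠ 0
    · obtain ⟨i, hi, hne⟩ := hex
      rw [Finset.sum_eq_single i]
      · exact Finset.single_le_sum
          (f := fun i => ‖co (rp (Rm (S i)) (a i)) k‖ ^ 2) (fun _ _ => by positivity) hi
      · intro j hj hji
        by_contra hne'
        have h2 := h0 i k hne
        have h3 := h0 j k hne'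
        have h4 : S j ≠ S i := fun h => hji (hinj j (mem_range.1 hj) i (mem_range.1 hi) h)
        exact Finset.disjoint_left.1 (SB_disjoint h4) h3 h2
      · intro h
        exact absurd hi h
    · push Not at hex
      rw [Finset.sum_eq_zero hex, norm_zero]
      have : (0 : ℝ) ≤ ∑ i ∈ Finset.range L, ‖co (rp (Rm (S i)) (a i)) k‖ ^ 2 :=
        Finset.sum_nonneg (fun _ _ => by positivity)
      simpa using this
  refine (Finset.sum_le_sum h1).trans ?_
  rw [Finset.sum_comm]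
  have h8 : ∑ i ∈ Finset.range L, ∑ k ∈ Lam, ‖co (rp (Rm (S i)) (a i)) k‖ ^ 2
      ≤ ∑ i ∈ Finset.range L, (1 : ℝ) :=
    Finset.sum_le_sum (fun i hi =>
      (sum_co_rp (Rm (S i)) Lam (a i)).trans (ha i (mem_range.1 hi)))
  rwa [Finset.sum_const, card_range, nsmul_eq_mul, mul_one] at h8

section Riesz

variable {S : ℕ → Fin d → ℕ} {L : ℕ} {ρ : ℝ} {c : ℕ → Fr d → ℂ}

lemma tp_bound (v1 : ∀ i < L, ∀ x : Fin d → ℝ, (∑ k ∈ SB (S i), ex k x * c i k).im = 0 ∧
      |(∑ k ∈ SB (S i), ex k x * c i k).re| ≤ 1) (i : ℕ) (hi : i < L) (x : TT d) :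
    (tp (SB (S i)) (c i) x).im = 0 ∧ |(tp (SB (S i)) (c i) x).re| ≤ 1 := by
  obtain ⟨y, rfl⟩ := exists_real x
  rw [tp_apply]
  have h1 : ∑ k ∈ SB (S i), c i k * mFourier k (fun j => (y j : UnitAddCircle))
      = ∑ k ∈ SB (S i), ex k y * c i k := by
    refine Finset.sum_congr rfl (fun k _ => ?_)
    rw [mF_coe, mul_comm]
  rw [h1]
  exact v1 i hi y

lemma st_real (hρ : 0 ≤ ρ) (hρ1 : ρ ≤ 1)
    (v1 : ∀ i < L, ∀ x : Fin d → ℝ, (∑ k ∈ SB (S i), ex k x * c i k).im = 0 ∧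
      |(∑ k ∈ SB (S i), ex k x * c i k).re| ≤ 1) (b : ℕ) (hb : b ≤ L) (x : TT d) :
    (st S ρ c b x).im = 0 ∧ 0 ≤ (st S ρ c b x).re := by
  induction b with
  | zero =>
    show ((1 : C(TT d, ℂ)) x).im = 0 ∧ 0 ≤ ((1 : C(TT d, ℂ)) x).re
    simp
  | succ b ih =>
    have ih := ih (by omega)
    show ((st S ρ c b * (1 + (ρ : ℂ) • tp (SB (S b)) (c b))) x).im = 0
      ∧ 0 ≤ ((st S ρ c b * (1 + (ρ : ℂ) • tp (SB (S b)) (c b))) x).re
    obtain ⟨t1, t2⟩ := tp_bound v1 b (by omega) x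
    rw [ContinuousMap.mul_apply, ContinuousMap.add_apply, ContinuousMap.one_apply,
      ContinuousMap.smul_apply, smul_eq_mul,
      Complex.mul_im, Complex.mul_re, Complex.add_im, Complex.add_re, Complex.one_im,
      Complex.one_re, Complex.re_ofReal_mul, Complex.im_ofReal_mul, t1, ih.1]
    refine ⟨by ring, ?_⟩
    have h2 := (abs_le.1 t2).1
    have h3 : 0 ≤ 1 + ρ * (tp (SB (S b)) (c b) x).re := by nlinarith
    have h4 : 0 ≤ (st S ρ c b x).re * (1 + ρ * (tp (SB (S b)) (c b) x).re) :=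
      mul_nonneg ih.2 h3
    linarith

lemma co_st_at_zero (v5 : ∀ i < L, cv (S i) (c i) (co (st S ρ c i)) 0 = 0) (b : ℕ)
    (hb : b ≤ L) : co (st S ρ c b) 0 = 1 := by
  induction b with
  | zero => rw [co_st_zero, if_pos rfl]
  | succ b ih => rw [co_st_succ, v5 b (by omega), ih (by omega), mul_zero, add_zero]

lemma int_norm (hρ : 0 ≤ ρ) (hρ1 : ρ ≤ 1)
    (v1 : ∀ i < L, ∀ x : Fin d → ℝ, (∑ k ∈ SB (S i), ex k x * c i k).im = 0 ∧
      |(∑ k ∈ SB (S i), ex k x * c i k).re| ≤ 1)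
    (v5 : ∀ i < L, cv (S i) (c i) (co (st S ρ c i)) 0 = 0) :
    ∫ x, ‖(st S ρ c L - 1) x‖ ≤ 2 := by
  have h1 : ∫ x, ‖(st S ρ c L - 1) x‖ ≤ ∫ x : TT d, ((st S ρ c L x).re + 1) := by
    refine integral_mono (rint _ (by fun_prop)) (rint _ (by fun_prop)) (fun x => ?_)
    obtain ⟨t1, t2⟩ := st_real hρ hρ1 v1 L le_rfl x
    have h2 : ‖st S ρ c L x‖ = (st S ρ c L x).re := by
      have : st S ρ c L x = (((st S ρ c L x).re : ℝ) : ℂ) := by
        apply Complex.ext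
        · simp
        · simpa using t1
      rw [this, Complex.norm_real, Real.norm_eq_abs, Complex.ofReal_re, abs_of_nonneg t2]
    simp only [ContinuousMap.sub_apply, ContinuousMap.one_apply]
    refine (norm_sub_le _ _).trans ?_
    rw [h2, norm_one]
  refine h1.trans ?_
  have h3 : ∫ x : TT d, ((st S ρ c L x).re + 1) = (∫ x : TT d, (st S ρ c L x)).re + 1 := by
    rw [integral_add (rint _ (by fun_prop)) (integrable_const _)]
    congr 1
    · exact integral_re (cint (st S ρ c L))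
    · simp
  have h4 : ∫ x : TT d, (st S ρ c L x) = 1 := by
    have h5 := co_st_at_zero v5 L le_rfl
    rw [co_def, neg_zero, mFourier_zero, one_mul] at h5
    exact h5
  rw [h3, h4]
  norm_num

end Riesz

open Classical in
/-- the final pairing -/
theorem main_pair (hd : 1 ≤ d) (S : ℕ → Fin d → ℕ) (L M : ℕ) (hS : ∀ i < L, ∑ j, S i j = M)
    (hinj : ∀ i < L, ∀ j < L, S i = S j → i = j) (ρ : ℝ) (hρ : 0 ≤ ρ) (hρ1 : ρ ≤ 1)
    (c : ℕ → Fr d → ℂ) (G : Finset ℕ) (hG : ∀ i ∈ G, i < L)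
    (hc0 : ∀ i, i ∉ G → ∀ k, c i k = 0)
    (v1 : ∀ i < L, ∀ x : Fin d → ℝ, (∑ k ∈ SB (S i), ex k x * c i k).im = 0 ∧
      |(∑ k ∈ SB (S i), ex k x * c i k).re| ≤ 1)
    (v2 : ∀ i < L, ∀ k, k ∉ SB (S i) → c i k = 0)
    (v5 : ∀ i < L, cv (S i) (c i) (co (st S ρ c i)) 0 = 0)
    (a : ℕ → Fr d → ℂ) (ha : ∀ i < L, ∑ k ∈ Rm (S i), ‖a i k‖ ^ 2 ≤ 1) (c1 : ℝ)
    (hv4 : ∀ i ∈ G, c1 ≤ (∑ k ∈ Rm (S i), a i k * conj (c i k)).re)
    (Lam : Finset (Fr d)) (hv3 : ∀ i < L, ∀ k ∈ Lam, c i k = 0)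
    (hLam : #Lam ≤ L * (2 ^ d * 8 ^ M)) (X2 : ℝ)
    (hX : ∀ F : Finset (Fr d), #F ≤ L * (2 ^ d * 8 ^ M) → ∑ k ∈ F, ‖rem S ρ c L k‖ ^ 2 ≤ X2)
    (b : Fr d → ℂ) (U : ℝ) (hU : ∀ x, ‖(Tp S L a - tp Lam b) x‖ ≤ U) :
    ρ * c1 * #G ≤ 2 * U + (Real.sqrt L + Real.sqrt (2 * L + 2 * U ^ 2)) * Real.sqrt X2 := by
  set G0 : C(TT d, ℂ) := st S ρ c L - 1 with hG0
  have hG0r : ∀ x, (G0 x).im = 0 := by
    intro x
    rw [hG0, ContinuousMap.sub_apply, ContinuousMap.one_apply, Complex.sub_im, Complex.one_im,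
      (st_real hρ hρ1 v1 L le_rfl x).1, sub_zero]
  have hcoG0 : ∀ k, co G0 k = rem S ρ c L k + (ρ : ℂ) * ∑ i ∈ Finset.range L, c i k := by
    intro k
    rw [hG0, co_sub, co_one]
    unfold rem Dm
    ring
  -- coefficients on the exceptional set
  have hLamc : ∀ k ∈ Lam, co G0 k = rem S ρ c L k := by
    intro k hk
    rw [hcoG0, Finset.sum_eq_zero (fun i hi => hv3 i (mem_range.1 hi) k hk), mul_zero, add_zero]
  -- coefficients on the main parts
  have hRmc : ∀ i < L, ∀ k ∈ Rm (S i), co G0 k = rem S ρ c L k + (ρ : ℂ) * c i k := by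
    intro i hi k hk
    rw [hcoG0, Finset.sum_eq_single i]
    · intro j hj hji
      apply v2 j (mem_range.1 hj)
      intro hk'
      have h4 : S j ≠ S i := fun h => hji (hinj j (mem_range.1 hj) i hi h)
      exact Finset.disjoint_left.1 (SB_disjoint h4) hk' (Rm_SB hk)
    · intro h
      exact absurd (mem_range.2 hi) h
  have hb : ∑ k ∈ Lam, ‖b k‖ ^ 2 ≤ 2 * L + 2 * U ^ 2 := by
    have h1 : ∀ k ∈ Lam, ‖b k‖ ^ 2 ≤ 2 * ‖co (Tp S L a) k‖ ^ 2
        + 2 * ‖co (Tp S L a - tp Lam b) k‖ ^ 2 := by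
      intro k hk
      have h2 : b k = co (Tp S L a) k - co (Tp S L a - tp Lam b) k := by
        rw [co_sub, co_tp, if_pos hk]
        ring
      rw [h2]
      have h3 := pow_le_pow_left₀ (norm_nonneg _)
        (norm_sub_le (co (Tp S L a) k) (co (Tp S L a - tp Lam b) k)) 2
      nlinarith [sq_nonneg (‖co (Tp S L a) k‖ - ‖co (Tp S L a - tp Lam b) k‖)]
    refine (Finset.sum_le_sum h1).trans ?_
    rw [Finset.sum_add_distrib, ← Finset.mul_sum, ← Finset.mul_sum]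
    have h4 := bessel_T (Tp S L a - tp Lam b) Lam U hU
    have h5 := sum_co_Tp S L hinj a ha Lam
    linarith
  -- the union of the main parts
  have hdisj : ∀ i ∈ Finset.range L, ∀ j ∈ Finset.range L, i ≠ j →
      Disjoint (Rm (S i)) (Rm (S j)) := by
    intro i hi j hj hij
    have h4 : S i ≠ S j := fun h => hij (hinj i (mem_range.1 hi) j (mem_range.1 hj) h)
    exact Finset.disjoint_of_subset_left (fun k hk => Rm_SB hk)
      (Finset.disjoint_of_subset_right (fun k hk => Rm_SB hk) (SB_disjoint h4))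
  have hrem : ∑ i ∈ Finset.range L, ∑ k ∈ Rm (S i), ‖rem S ρ c L k‖ ^ 2 ≤ X2 := by
    rw [← Finset.sum_biUnion (fun i hi j hj hij => hdisj i hi j hj hij)]
    apply hX
    refine Finset.card_biUnion_le.trans ?_
    have h1 : ∀ i ∈ Finset.range L, #(Rm (S i)) = 2 ^ d * 8 ^ M := by
      intro i hi
      rw [card_Rm, hS i (mem_range.1 hi)]
    rw [Finset.sum_congr rfl h1, Finset.sum_const, card_range, smul_eq_mul]
  -- the pairing
  have hI := pair_le (Tp S L a - tp Lam b) G0 U hU 2 (int_norm hρ hρ1 v1 v5)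
  have hsplit : ∫ x, (Tp S L a - tp Lam b) x * conj (G0 x)
      = ∑ i ∈ Finset.range L, ((((∑ k ∈ Rm (S i), a i k * conj (co G0 k)).re : ℝ)) : ℂ)
        - ∑ k ∈ Lam, b k * conj (co G0 k) := by
    have h1 : (Tp S L a - tp Lam b) = Tp S L a + (-1 : ℂ) • tp Lam b := by
      ext x
      rw [ContinuousMap.sub_apply, ContinuousMap.add_apply, ContinuousMap.smul_apply, smul_eq_mul]
      ring
    rw [h1, pair_add, pair_smul, pair_tp]
    unfold Tp
    rw [pair_sum]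
    have h2 : ∀ i ∈ Finset.range L, ∫ x, (rp (Rm (S i)) (a i)) x * conj (G0 x)
        = ((((∑ k ∈ Rm (S i), a i k * conj (co G0 k)).re : ℝ)) : ℂ) :=
      fun i _ => pair_rp G0 hG0r _ _
    rw [Finset.sum_congr rfl h2]
    ring
  have hre : (∫ x, (Tp S L a - tp Lam b) x * conj (G0 x)).re
      = ∑ i ∈ Finset.range L, (∑ k ∈ Rm (S i), a i k * conj (co G0 k)).re
        - (∑ k ∈ Lam, b k * conj (co G0 k)).re := by
    rw [hsplit, Complex.sub_re, Complex.re_sum]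
    simp only [Complex.ofReal_re]
  -- the main term
  have hmain : ∑ i ∈ Finset.range L, (∑ k ∈ Rm (S i), a i k * conj (co G0 k)).re
      = ∑ i ∈ Finset.range L, (∑ k ∈ Rm (S i), a i k * conj (rem S ρ c L k)).re
        + ρ * ∑ i ∈ Finset.range L, (∑ k ∈ Rm (S i), a i k * conj (c i k)).re := by
    rw [Finset.mul_sum, ← Finset.sum_add_distrib]
    refine Finset.sum_congr rfl (fun i hi => ?_)
    have h1 : ∑ k ∈ Rm (S i), a i k * conj (co G0 k)
        = ∑ k ∈ Rm (S i), a i k * conj (rem S ρ c L k)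
          + (ρ : ℂ) * ∑ k ∈ Rm (S i), a i k * conj (c i k) := by
      rw [Finset.mul_sum, ← Finset.sum_add_distrib]
      refine Finset.sum_congr rfl (fun k hk => ?_)
      rw [hRmc i (mem_range.1 hi) k hk, map_add, map_mul, Complex.conj_ofReal]
      ring
    rw [h1, Complex.add_re, Complex.re_ofReal_mul]
  have hmain2 : c1 * #G ≤ ∑ i ∈ Finset.range L, (∑ k ∈ Rm (S i), a i k * conj (c i k)).re := by
    have h2 : ∑ i ∈ Finset.range L, (∑ k ∈ Rm (S i), a i k * conj (c i k)).re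
        = ∑ i ∈ G, (∑ k ∈ Rm (S i), a i k * conj (c i k)).re := by
      symm
      refine Finset.sum_subset ?_ ?_
      · intro i hi
        exact mem_range.2 (hG i hi)
      · intro i _ hi
        have : ∑ k ∈ Rm (S i), a i k * conj (c i k) = 0 := by
          refine Finset.sum_eq_zero (fun k _ => ?_)
          rw [hc0 i hi, map_zero, mul_zero]
        rw [this, Complex.zero_re]
    rw [h2]
    have h3 := Finset.sum_le_sum hv4
    rw [Finset.sum_const, nsmul_eq_mul] at h3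
    linarith
  -- the errors
  have herr1 : ‖∑ i ∈ Finset.range L, ∑ k ∈ Rm (S i), a i k * conj (rem S ρ c L k)‖
      ≤ Real.sqrt L * Real.sqrt X2 := by
    rw [Finset.sum_sigma']
    refine (norm_sum_le _ _).trans ?_
    have h1 : ∀ p ∈ (Finset.range L).sigma (fun i => Rm (S i)),
        ‖a p.1 p.2 * conj (rem S ρ c L p.2)‖ = ‖a p.1 p.2‖ * ‖rem S ρ c L p.2‖ := by
      intro p _
      rw [norm_mul, RCLike.norm_conj]
    rw [Finset.sum_congr rfl h1]
    refine (Real.sum_mul_le_sqrt_mul_sqrt _ _ _).trans ?_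
    refine mul_le_mul (Real.sqrt_le_sqrt ?_) (Real.sqrt_le_sqrt ?_) (Real.sqrt_nonneg _)
      (Real.sqrt_nonneg _)
    · rw [← Finset.sum_sigma' (Finset.range L) (fun i => Rm (S i))
        (fun i k => ‖a i k‖ ^ 2)]
      have h2 : ∑ i ∈ Finset.range L, ∑ k ∈ Rm (S i), ‖a i k‖ ^ 2
          ≤ ∑ i ∈ Finset.range L, (1 : ℝ) :=
        Finset.sum_le_sum (fun i hi => ha i (mem_range.1 hi))
      rwa [Finset.sum_const, card_range, nsmul_eq_mul, mul_one] at h2
    · rw [← Finset.sum_sigma' (Finset.range L) (fun i => Rm (S i))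
        (fun i k => ‖rem S ρ c L k‖ ^ 2)]
      exact hrem
  have herr2 : ‖∑ k ∈ Lam, b k * conj (co G0 k)‖
      ≤ Real.sqrt (2 * L + 2 * U ^ 2) * Real.sqrt X2 := by
    refine (norm_sum_le _ _).trans ?_
    have h1 : ∑ k ∈ Lam, ‖b k * conj (co G0 k)‖ = ∑ k ∈ Lam, ‖b k‖ * ‖rem S ρ c L k‖ := by
      refine Finset.sum_congr rfl (fun k hk => ?_)
      rw [norm_mul, RCLike.norm_conj, hLamc k hk]
    rw [h1]
    refine (Real.sum_mul_le_sqrt_mul_sqrt _ _ _).trans ?_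
    exact mul_le_mul (Real.sqrt_le_sqrt hb) (Real.sqrt_le_sqrt (hX Lam hLam))
      (Real.sqrt_nonneg _) (Real.sqrt_nonneg _)
  have h1 := (Complex.re_le_norm (∫ x, (Tp S L a - tp Lam b) x * conj (G0 x))).trans hI
  have h2 := (Complex.re_le_norm (∑ k ∈ Lam, b k * conj (co G0 k))).trans herr2
  have h3 : -(Real.sqrt L * Real.sqrt X2)
      ≤ ∑ i ∈ Finset.range L, (∑ k ∈ Rm (S i), a i k * conj (rem S ρ c L k)).re := by
    rw [← Complex.re_sum]
    have := (Complex.abs_re_le_norm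
      (∑ i ∈ Finset.range L, ∑ k ∈ Rm (S i), a i k * conj (rem S ρ c L k))).trans herr1
    linarith [(abs_le.1 this).1]
  have h4 : ρ * (c1 * #G)
      ≤ ρ * ∑ i ∈ Finset.range L, (∑ k ∈ Rm (S i), a i k * conj (c i k)).re :=
    mul_le_mul_of_nonneg_left hmain2 hρ
  rw [hre, hmain] at h1
  have h5 : (Real.sqrt L + Real.sqrt (2 * L + 2 * U ^ 2)) * Real.sqrt X2
      = Real.sqrt L * Real.sqrt X2 + Real.sqrt (2 * L + 2 * U ^ 2) * Real.sqrt X2 := by ring
  rw [h5]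
  linarith

end

end Pool.Agent.H75.MX
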