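import Pool.Agent.H75.MX.Poly

set_option autoImplicit false
set_option linter.unusedSectionVars false

/-! Fourier coefficients on the torus: supplements in general dimension. -/

open Finset ComplexConjugate MeasureTheory UnitAddTorus

namespace Pool.Agent.H75.MX

open Pool.Agent.H75.MT (ee sg ext)
open Pool.Agent.H75.UB (ex TT co tp cint rint co_def co_add co_smul co_zero co_sum integral_mF
  mF_mul co_mF tp_apply co_tp mF_coe exists_real pair_mF pair_tp)

noncomputable section

local instance : MeasureSpace UnitAddCircle := ⟨AddCircle.haarAddCircle⟩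

local instance : Measure.IsAddHaarMeasure (volume : Measure UnitAddCircle) :=
  inferInstanceAs (Measure.IsAddHaarMeasure AddCircle.haarAddCircle)

local instance : IsProbabilityMeasure (volume : Measure UnitAddCircle) :=
  inferInstanceAs (IsProbabilityMeasure AddCircle.haarAddCircle)

variable {d : ℕ}

lemma co_sub (P Q : C(TT d, ℂ)) (k : Fr d) : co (P - Q) k = co P k - co Q k := by
  rw [co_def, co_def, co_def, ← integral_sub (cint _) (cint _)]
  congr 1
  ext x
  simp [mul_sub]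

lemma co_one (l : Fr d) : co (1 : C(TT d, ℂ)) l = if l = 0 then 1 else 0 := by
  rw [← mFourier_zero, co_mF]
  by_cases h : l = 0
  · rw [if_pos h, if_pos h.symm]
  · rw [if_neg h, if_neg (fun h' => h h'.symm)]

lemma co_mul_mF (P : C(TT d, ℂ)) (k l : Fr d) : co (P * mFourier k) l = co P (l - k) := by
  rw [co_def, co_def]
  congr 1
  ext x
  have h : (mFourier (-l) * (P * mFourier k) : C(TT d, ℂ)) = mFourier (-(l - k)) * P := by
    rw [mul_comm P, ← mul_assoc, mF_mul]
    congr 2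
    abel
  rw [h]

lemma co_mul_tp (P : C(TT d, ℂ)) (S : Finset (Fr d)) (c : Fr d → ℂ)
    (l : Fr d) : co (P * tp S c) l = ∑ k ∈ S, co P (l - k) * c k := by
  unfold tp
  rw [Finset.mul_sum, co_sum]
  refine Finset.sum_congr rfl (fun k _ => ?_)
  rw [mul_smul_comm, co_smul, co_mul_mF, mul_comm]

/-- Bessel's inequality against the uniform norm -/
lemma bessel_T (P : C(TT d, ℂ)) (S : Finset (Fr d)) (U : ℝ) (hU : ∀ x, ‖P x‖ ≤ U) :
    ∑ k ∈ S, ‖co P k‖ ^ 2 ≤ U ^ 2 := by
  have h1 := hasSum_sq_mFourierCoeff (ContinuousMap.toLp 2 (volume : Measure (TT d)) ℂ P)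
  have h2 := sum_le_hasSum S (fun k _ => sq_nonneg _) h1
  simp only [mFourierCoeff_toLp] at h2
  refine h2.trans ?_
  have h3 : ∫ t, ‖(ContinuousMap.toLp 2 (volume : Measure (TT d)) ℂ P) t‖ ^ 2
      = ∫ t, ‖P t‖ ^ 2 := by
    refine integral_congr_ae ?_
    filter_upwards [ContinuousMap.coeFn_toLp (p := 2) (𝕜 := ℂ) (volume : Measure (TT d)) P]
      with t ht
    rw [ht]
  rw [h3]
  have h4 : ∫ t : TT d, ‖P t‖ ^ 2 ≤ ∫ _t : TT d, U ^ 2 := by
    refine integral_mono (rint _ (by fun_prop)) (integrable_const _) (fun t => ?_)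
    exact pow_le_pow_left₀ (norm_nonneg _) (hU t) 2
  refine h4.trans (le_of_eq ?_)
  simp

/-- pairing with a function of small integral norm -/
lemma pair_le (u G : C(TT d, ℂ)) (U : ℝ) (hU : ∀ x, ‖u x‖ ≤ U) (V : ℝ)
    (hV : ∫ x, ‖G x‖ ≤ V) : ‖∫ x, u x * conj (G x)‖ ≤ U * V := by
  refine (norm_integral_le_integral_norm _).trans ?_
  have hU0 : 0 ≤ U := (norm_nonneg (u 0)).trans (hU 0)
  have h1 : ∫ x, ‖u x * conj (G x)‖ ≤ ∫ x, U * ‖G x‖ := by
    refine integral_mono (rint _ (by fun_prop)) (rint _ (by fun_prop)) (fun x => ?_)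
    simp only [norm_mul, RCLike.norm_conj]
    exact mul_le_mul_of_nonneg_right (hU x) (norm_nonneg _)
  refine h1.trans ?_
  rw [integral_const_mul]
  exact mul_le_mul_of_nonneg_left hV hU0

lemma co_neg_of_real (G : C(TT d, ℂ)) (hG : ∀ x, (G x).im = 0) (k : Fr d) :
    co G (-k) = conj (co G k) := by
  rw [co_def, co_def, ← integral_conj]
  congr 1
  ext x
  rw [ContinuousMap.mul_apply, ContinuousMap.mul_apply, map_mul, mFourier_neg,
    Complex.conj_eq_iff_im.2 (hG x)]

lemma pair_add (P Q G : C(TT d, ℂ)) :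
    ∫ x, (P + Q) x * conj (G x) = (∫ x, P x * conj (G x)) + ∫ x, Q x * conj (G x) := by
  have hP : Integrable (fun x : TT d => P x * conj (G x)) := by
    have hc : Continuous (fun x : TT d => P x * conj (G x)) := by
      have := P.continuous
      have := G.continuous
      fun_prop
    exact hc.integrable_of_hasCompactSupport (HasCompactSupport.of_compactSpace _)
  have hQ : Integrable (fun x : TT d => Q x * conj (G x)) := by
    have hc : Continuous (fun x : TT d => Q x * conj (G x)) := by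
      have := Q.continuous
      have := G.continuous
      fun_prop
    exact hc.integrable_of_hasCompactSupport (HasCompactSupport.of_compactSpace _)
  rw [← integral_add hP hQ]
  congr 1
  ext x
  rw [ContinuousMap.add_apply]
  ring

lemma pair_smul (a : ℂ) (P G : C(TT d, ℂ)) :
    ∫ x, (a • P) x * conj (G x) = a * ∫ x, P x * conj (G x) := by
  rw [← integral_const_mul]
  congr 1
  ext x
  rw [ContinuousMap.smul_apply, smul_eq_mul]
  ring

lemma pair_sum {ι : Type*} (s : Finset ι) (f : ι → C(TT d, ℂ)) (G : C(TT d, ℂ)) :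
    ∫ x, (∑ i ∈ s, f i) x * conj (G x) = ∑ i ∈ s, ∫ x, (f i) x * conj (G x) := by
  classical
  induction s using Finset.induction_on with
  | empty => simp
  | insert a s ha ih => rw [Finset.sum_insert ha, Finset.sum_insert ha, pair_add, ih]

lemma pair_rp (G : C(TT d, ℂ)) (hG : ∀ x, (G x).im = 0) (S : Finset (Fr d))
    (a : Fr d → ℂ) :
    ∫ x, (rp S a) x * conj (G x) = (((∑ k ∈ S, a k * conj (co G k)).re : ℝ) : ℂ) := by
  unfold rp
  rw [pair_sum, Complex.re_sum, Complex.ofReal_sum]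
  refine Finset.sum_congr rfl (fun k _ => ?_)
  rw [pair_add, pair_smul, pair_smul, pair_mF, pair_mF, co_neg_of_real G hG, Complex.conj_conj]
  have h1 := Complex.add_conj (a k * conj (co G k))
  rw [map_mul, Complex.conj_conj] at h1
  have h2 : (((a k * conj (co G k)).re : ℝ) : ℂ)
      = (1 / 2) * (a k * conj (co G k) + conj (a k) * co G k) := by
    rw [h1]
    push_cast
    ring
  rw [h2]
  ring

lemma co_rp (S : Finset (Fr d)) (a : Fr d → ℂ) (l : Fr d) :
    co (rp S a) l = 1 / 2 * (if l ∈ S then a l else 0)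
      + 1 / 2 * (if -l ∈ S then conj (a (-l)) else 0) := by
  unfold rp
  rw [co_sum]
  have h1 : ∀ k, co ((1 / 2 * a k) • mFourier k + (1 / 2 * conj (a k)) • mFourier (-k)) l
      = 1 / 2 * (if l = k then a k else 0) + 1 / 2 * (if -l = k then conj (a k) else 0) := by
    intro k
    rw [co_add, co_smul, co_smul, co_mF, co_mF]
    have h2 : (-k = l) ↔ (-l = k) := by
      constructor
      · intro h; rw [← h, neg_neg]
      · intro h; rw [← h, neg_neg]
    simp only [h2, eq_comm (a := k) (b := l)]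
    split_ifs <;> ring
  rw [Finset.sum_congr rfl (fun k _ => h1 k), Finset.sum_add_distrib, ← Finset.mul_sum,
    ← Finset.mul_sum, Finset.sum_ite_eq, Finset.sum_ite_eq]

lemma sum_co_rp (S L : Finset (Fr d)) (a : Fr d → ℂ) :
    ∑ k ∈ L, ‖co (rp S a) k‖ ^ 2 ≤ ∑ k ∈ S, ‖a k‖ ^ 2 := by
  have h1 : ∀ k, ‖co (rp S a) k‖ ^ 2 ≤ 1 / 2 * (if k ∈ S then ‖a k‖ ^ 2 else 0)
      + 1 / 2 * (if -k ∈ S then ‖a (-k)‖ ^ 2 else 0) := by
    intro k
    rw [co_rp]
    set x : ℂ := if k ∈ S then a k else 0 with hx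
    set y : ℂ := if -k ∈ S then conj (a (-k)) else 0 with hy
    have e1 : (if k ∈ S then ‖a k‖ ^ 2 else 0) = ‖x‖ ^ 2 := by
      rw [hx]; split_ifs <;> simp
    have e2 : (if -k ∈ S then ‖a (-k)‖ ^ 2 else 0) = ‖y‖ ^ 2 := by
      rw [hy]
      split_ifs
      · rw [RCLike.norm_conj]
      · simp
    rw [e1, e2]
    have h2 : ‖1 / 2 * x + 1 / 2 * y‖ ≤ 1 / 2 * ‖x‖ + 1 / 2 * ‖y‖ := by
      refine (norm_add_le _ _).trans (le_of_eq ?_)
      rw [norm_mul, norm_mul]
      simp
    have h3 := pow_le_pow_left₀ (norm_nonneg _) h2 2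
    nlinarith [sq_nonneg (‖x‖ - ‖y‖)]
  refine (Finset.sum_le_sum (fun k _ => h1 k)).trans ?_
  rw [Finset.sum_add_distrib, ← Finset.mul_sum, ← Finset.mul_sum]
  have h4 : ∑ k ∈ L, (if k ∈ S then ‖a k‖ ^ 2 else 0) ≤ ∑ k ∈ S, ‖a k‖ ^ 2 := by
    rw [← Finset.sum_filter]
    refine Finset.sum_le_sum_of_subset_of_nonneg ?_ (fun _ _ _ => by positivity)
    intro k hk
    exact (mem_filter.1 hk).2
  have h5 : ∑ k ∈ L, (if -k ∈ S then ‖a (-k)‖ ^ 2 else 0) ≤ ∑ k ∈ S, ‖a k‖ ^ 2 := by
    rw [← Finset.sum_filter]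
    have h6 : ∑ k ∈ L.filter (fun k => -k ∈ S), ‖a (-k)‖ ^ 2
        = ∑ k ∈ (L.filter (fun k => -k ∈ S)).image (fun k => -k), ‖a k‖ ^ 2 := by
      rw [Finset.sum_image (fun a _ b _ hab => neg_injective hab)]
    rw [h6]
    refine Finset.sum_le_sum_of_subset_of_nonneg ?_ (fun _ _ _ => by positivity)
    intro k hk
    rw [mem_image] at hk
    obtain ⟨k', hk', rfl⟩ := hk
    exact (mem_filter.1 hk').2
  linarith

end

end Pool.Agent.H75.MX
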