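import Pool.Agent.H75.MX.Defs

set_option autoImplicit false
set_option linter.unusedSectionVars false

/-! Polynomials on the torus: definitions. -/

open Finset ComplexConjugate MeasureTheory UnitAddTorus

namespace Pool.Agent.H75.MX

open Pool.Agent.H75.MT (ee sg ext)
open Pool.Agent.H75.UB (ex TT co tp)

noncomputable section

variable {d : ℕ}

/-- the partial products -/
def st (S : ℕ → Fin d → ℕ) (ρ : ℝ) (c : ℕ → Fr d → ℂ) : ℕ → C(TT d, ℂ)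
  | 0 => 1
  | i + 1 => st S ρ c i * (1 + (ρ : ℂ) • tp (SB (S i)) (c i))

/-- the higher order part of the coefficients -/
def rem (S : ℕ → Fin d → ℕ) (ρ : ℝ) (c : ℕ → Fr d → ℂ) (L : ℕ) (k : Fr d) : ℂ :=
  Dm (co (st S ρ c L)) k - (ρ : ℂ) * ∑ i ∈ Finset.range L, c i k

/-- a real trigonometric polynomial -/
def rp (F : Finset (Fr d)) (a : Fr d → ℂ) : C(TT d, ℂ) :=
  ∑ k ∈ F, ((1 / 2 * a k) • mFourier k + (1 / 2 * conj (a k)) • mFourier (-k))

/-- the extremal polynomial -/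
def Tp (S : ℕ → Fin d → ℕ) (L : ℕ) (a : ℕ → Fr d → ℂ) : C(TT d, ℂ) :=
  ∑ i ∈ Finset.range L, rp (Rm (S i)) (a i)

/-- the coefficients of the extremal polynomial -/
def aa {Y : Type*} [Fintype Y] [DecidableEq Y] (S : ℕ → Fin d → ℕ) (e : ∀ i, Y ≃ Gd (S i))
    (ε : ℕ → Finset Y) (i : ℕ) (k : Fr d) : ℂ := hat (S i) (e i) (sg (ε i)) k

/-- the multiplier -/
def mu (r : ℝ) (M : ℕ) (k : Fr d) : ℂ :=
  ((((∏ j, (k j : ℝ)) / 8 ^ M) ^ r : ℝ) : ℂ)
    * Complex.exp ((Real.pi * r * d / 2 : ℝ) * Complex.I)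

/-- the coefficients of the preimage -/
def pa {Y : Type*} [Fintype Y] [DecidableEq Y] (S : ℕ → Fin d → ℕ) (e : ∀ i, Y ≃ Gd (S i))
    (r : ℝ) (M : ℕ) (ε : ℕ → Finset Y) (i : ℕ) (k : Fr d) : ℂ := mu r M k * aa S e ε i k

/-- the normalisation -/
def DD (d : ℕ) (r : ℝ) (m L : ℕ) : ℝ := 8 * m.factorial * (Real.sqrt L * (4 ^ d) ^ r)

end

end Pool.Agent.H75.MX
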