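import Pool.Agent.H75.MX.Step
import Pool.Agent.H75.MX.Pair
import Pool.Agent.H75.MX.En

set_option autoImplicit false
set_option linter.unusedSectionVars false

/-! The random construction: choice of the factors and counting. -/

open Finset ComplexConjugate MeasureTheory UnitAddTorus

namespace Pool.Agent.H75.MX

open Pool.Agent.H75.MT (ee sg ext bsum nbad count_many)
open Pool.Agent.H75.UB (ex TT co tp)

noncomputable section

variable {d : ℕ}

/-- the index set of the energies -/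
abbrev Trk (d q R : ℕ) := (Fin d → Fin (R + 1)) × {x : Fr d // x ∈ Cen d q R}

/-- the weights -/
def wk (d q R : ℕ) (z : Trk d q R) (k : Fr d) : ℝ := wt (fun j => (z.1 j : ℕ)) (k - z.2)

/-- parameters: the frequencies to be avoided in the active blocks -/
abbrev PP (d : ℕ) := ℕ → Option (Finset (Fr d))

section Process

variable {Y : Type*} [Fintype Y] [DecidableEq Y] (S : ℕ → Fin d → ℕ) (e : ∀ i, Y ≃ Gd (S i))
  (q R n : ℕ) (ρ : ℝ)

/-- validity of a factor -/
def VK (i : ℕ) (f : Fr d → ℂ) (lam : Finset (Fr d)) (t : Finset Y) (c : Fr d → ℂ) : Prop :=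
  Valid (S i) (e i) R (wk d q R) (Gw (S i)) (kc d * n / (17 * (Fintype.card Y : ℝ))) f lam t c

/-- a good step -/
def goodK (p : PP d) (i : ℕ) (P : C(TT d, ℂ)) (t : Finset Y) : Prop :=
  ∃ c, ∃ lam, p i = some lam ∧ VK S e q R n i (co P) lam t c

open Classical in
/-- choice of a factor -/
def pick (p : PP d) (i : ℕ) (P : C(TT d, ℂ)) (t : Finset Y) : Fr d → ℂ :=
  if h : goodK S e q R n p i P t then h.choose else 0

/-- the partial products as a process -/
def sst (p : PP d) (ε : ℕ → Finset Y) : ℕ → C(TT d, ℂ)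
  | 0 => 1
  | i + 1 => sst p ε i * (1 + (ρ : ℂ) • tp (SB (S i)) (pick S e q R n p i (sst p ε i) (ε i)))

/-- the chosen coefficients -/
def ccf (p : PP d) (ε : ℕ → Finset Y) (i : ℕ) : Fr d → ℂ :=
  pick S e q R n p i (sst S e q R n ρ p ε i) (ε i)

lemma sst_eq (p : PP d) (ε : ℕ → Finset Y) (i : ℕ) :
    sst S e q R n ρ p ε i = st S ρ (ccf S e q R n ρ p ε) i := by
  induction i with
  | zero => rfl
  | succ i ih =>
    show sst S e q R n ρ p ε i * (1 + (ρ : ℂ) • tp (SB (S i)) (ccf S e q R n ρ p ε i))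
      = st S ρ (ccf S e q R n ρ p ε) i * _
    rw [ih]

lemma sst_congr (p : PP d) (ε ε' : ℕ → Finset Y) (i : ℕ)
    (h : ∀ i' < i, ε i' = ε' i') : sst S e q R n ρ p ε i = sst S e q R n ρ p ε' i := by
  induction i with
  | zero => rfl
  | succ i ih =>
    have h1 := ih (fun i' hi' => h i' (by omega))
    show sst S e q R n ρ p ε i
        * (1 + (ρ : ℂ) • tp (SB (S i)) (pick S e q R n p i (sst S e q R n ρ p ε i) (ε i)))
      = sst S e q R n ρ p ε' i
        * (1 + (ρ : ℂ) • tp (SB (S i)) (pick S e q R n p i (sst S e q R n ρ p ε' i) (ε' i)))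
    rw [h1, h i (by omega)]

/-- a bad step -/
def badK (n2 : ℕ) (p : PP d) (i : ℕ) (P : C(TT d, ℂ)) (t : Finset Y) : Prop :=
  ∃ lam, p i = some lam ∧ lam.card ≤ n2 ∧ ¬ ∃ c, VK S e q R n i (co P) lam t c

open Classical in
/-- the good steps -/
def GK (L : ℕ) (p : PP d) (ε : ℕ → Finset Y) : Finset ℕ :=
  (Finset.range L).filter (fun i => goodK S e q R n p i (sst S e q R n ρ p ε i) (ε i))

variable {S e q R n ρ}

lemma GK_spec {L : ℕ} {p : PP d} {ε : ℕ → Finset Y} {i : ℕ}
    (hi : i ∈ GK S e q R n ρ L p ε) :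
    ∃ lam, p i = some lam ∧ VK S e q R n i (co (st S ρ (ccf S e q R n ρ p ε) i)) lam (ε i)
      (ccf S e q R n ρ p ε i) := by
  classical
  unfold GK at hi
  rw [mem_filter] at hi
  have h := hi.2.choose_spec
  have h2 : ccf S e q R n ρ p ε i = hi.2.choose := by
    unfold ccf pick
    rw [dif_pos hi.2]
  rw [← sst_eq, h2]
  exact h

lemma ccf_zero {L : ℕ} {p : PP d} {ε : ℕ → Finset Y} (hp : ∀ i, p i ≠ none → i < L) {i : ℕ}
    (hi : i ∉ GK S e q R n ρ L p ε) (k : Fr d) : ccf S e q R n ρ p ε i k = 0 := by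
  classical
  unfold ccf pick
  rw [dif_neg]
  · rfl
  · rintro ⟨c, lam, hlam, hV⟩
    apply hi
    unfold GK
    rw [mem_filter]
    exact ⟨mem_range.2 (hp i (by rw [hlam]; simp)), c, lam, hlam, hV⟩

lemma cv_zero' (s : Fin d → ℕ) (c g : Fr d → ℂ) (hc : ∀ k, c k = 0) (k : Fr d) :
    cv s c g k = 0 := by
  unfold cv
  exact Finset.sum_eq_zero (fun l _ => by rw [hc, mul_zero])

/-- the coefficient sequences of the process satisfy all conditions -/
theorem cseq_of_process {M L : ℕ} (hM : M = 4 * d * q) (hR : R = M + q) (hL5 : 5 * L ≤ 8 ^ q)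
    (hS : ∀ i, ∑ j, S i j = M) (hinj : ∀ i < L, ∀ j < L, S i = S j → i = j) (hρ : 0 ≤ ρ)
    (p : PP d) (hp : ∀ i, p i ≠ none → i < L) (ε : ℕ → Finset Y) :
    CSeq d q M R L S ρ (ccf S e q R n ρ p ε) (fun i => co (st S ρ (ccf S e q R n ρ p ε) i)) := by
  have hcard : ∀ i : ℕ, (Fintype.card Y : ℝ) = 2 ^ d * 8 ^ M := by
    intro i
    rw [card_Y (S i) (e i), hS i]
    push_cast
    rfl
  refine ⟨hM, hR, hL5, fun i _ => hS i, hinj, hρ, ?_, ?_, ?_, ?_, ?_, ?_⟩
  · exact fun k => co_st_zero S ρ _ k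
  · exact fun i _ k => co_st_succ S ρ _ i k
  · intro i _ k hk
    by_cases hi : i ∈ GK S e q R n ρ L p ε
    · obtain ⟨lam, -, hV⟩ := GK_spec hi
      exact hV.v2 k hk
    · exact ccf_zero hp hi k
  · intro i _ V hV lam hlam
    by_cases hi : i ∈ GK S e q R n ρ L p ε
    · obtain ⟨lam', -, hVal⟩ := GK_spec hi
      exact hVal.v6 (fun j => ⟨V j, Nat.lt_succ_of_le (hV j)⟩, ⟨lam, hlam⟩)
    · have h1 : ∀ k, cv (S i) (ccf S e q R n ρ p ε i) (co (st S ρ (ccf S e q R n ρ p ε) i)) k = 0 :=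
        cv_zero' _ _ _ (ccf_zero hp hi)
      simp only [h1, mul_zero, Finset.sum_const_zero, Complex.zero_re]
  · intro i _ V hV lam hlam
    by_cases hi : i ∈ GK S e q R n ρ L p ε
    · obtain ⟨lam', -, hVal⟩ := GK_spec hi
      have h1 := hVal.v7 (fun j => ⟨V j, Nat.lt_succ_of_le (hV j)⟩, ⟨lam, hlam⟩)
      rw [hcard i] at h1
      exact h1
    · have h1 : ∀ k, cv (S i) (ccf S e q R n ρ p ε i) (co (st S ρ (ccf S e q R n ρ p ε) i)) k = 0 :=
        cv_zero' _ _ _ (ccf_zero hp hi)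
      simp only [h1, norm_zero, ne_eq, OfNat.ofNat_ne_zero, not_false_eq_true, zero_pow, mul_zero,
        Finset.sum_const_zero]
      refine mul_nonneg (by positivity) (Finset.sum_nonneg (fun k _ => ?_))
      exact mul_nonneg (wt_pos _ _).le (Finset.sum_nonneg (fun _ _ => by positivity))
  · intro i _
    by_cases hi : i ∈ GK S e q R n ρ L p ε
    · obtain ⟨lam', -, hVal⟩ := GK_spec hi
      have h1 := hVal.v8
      rw [hcard i] at h1
      exact h1
    · have h1 : ∀ k, cv (S i) (ccf S e q R n ρ p ε i)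
          (Dm (co (st S ρ (ccf S e q R n ρ p ε) i))) k = 0 :=
        cv_zero' _ _ _ (ccf_zero hp hi)
      simp only [h1, norm_zero, ne_eq, OfNat.ofNat_ne_zero, not_false_eq_true, zero_pow, mul_zero,
        Finset.sum_const_zero]
      refine mul_nonneg (by positivity) (Finset.sum_nonneg (fun k _ => ?_))
      refine mul_nonneg ?_ (by positivity)
      unfold Gw gg tt
      exact Finset.prod_nonneg (fun j _ => by positivity)

open Classical in
lemma card_GK {L n2 : ℕ} (p : PP d) (hpl : ∀ i lam, p i = some lam → lam.card ≤ n2)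
    (ε : ℕ → Finset Y) :
    #((Finset.range L).filter (fun i => p i ≠ none)) ≤ #(GK S e q R n ρ L p ε)
      + nbad (sst S e q R n ρ p) (badK S e q R n n2 p) L ε := by
  unfold GK nbad
  refine le_trans (Finset.card_le_card ?_) (Finset.card_union_le _ _)
  intro b hb
  rw [mem_filter, mem_range] at hb
  rw [mem_union, mem_filter, mem_filter, mem_range]
  obtain ⟨lam, hlam⟩ := Option.ne_none_iff_exists'.1 hb.2
  by_cases hg : goodK S e q R n p b (sst S e q R n ρ p ε b) (ε b)
  · exact Or.inl ⟨hb.1, hg⟩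
  · refine Or.inr ⟨hb.1, lam, hlam, hpl b lam hlam, fun ⟨c, hc⟩ => hg ?_⟩
    exact ⟨c, lam, hlam, hc⟩

open Classical in
lemma badK_card (hd : 1 ≤ d) {n2 : ℕ} (hn : 16 ≤ n)
    (hn2 : 16 * (2 * n2 + 2 + Fintype.card (Trk d q R)
      + 8 * Fintype.card (Trk d q R) * Fintype.card (Trk d q R)) ≤ n)
    (p : PP d) (i : ℕ) (P : C(TT d, ℂ)) :
    #(univ.filter (fun t : Finset Y => badK S e q R n n2 p i P t)) ≤ bsum (Fintype.card Y) n := by
  by_cases h : ∃ lam, p i = some lam ∧ lam.card ≤ n2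
  · obtain ⟨lam, hlam, hc⟩ := h
    have h1 := step_card (S i) (e i) hd R (wk d q R) (fun z k => (wt_pos _ _).le) (Gw (S i))
      (fun k => by
        unfold Gw gg tt
        exact Finset.prod_nonneg (fun j _ => by positivity)) (co P) lam n hn (by omega)
    refine le_trans (Finset.card_le_card ?_) h1
    intro s hs
    rw [mem_filter] at hs ⊢
    obtain ⟨-, lam', hlam', -, hno⟩ := hs
    rw [hlam, Option.some_inj] at hlam'
    subst hlam'
    exact ⟨mem_univ _, hno⟩
  · have : univ.filter (fun t : Finset Y => badK S e q R n n2 p i P t) = ∅ := by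
      refine Finset.filter_false_of_mem ?_
      intro s _ hs
      obtain ⟨lam, hlam, hc, -⟩ := hs
      exact h ⟨lam, hlam, hc⟩
    rw [this, Finset.card_empty]
    exact Nat.zero_le _

open Classical in
/-- few sign sequences have many bad steps -/
lemma many_bad (hd : 1 ≤ d) {n2 w : ℕ} (hn : 16 ≤ n)
    (hn2 : 16 * (2 * n2 + 2 + Fintype.card (Trk d q R)
      + 8 * Fintype.card (Trk d q R) * Fintype.card (Trk d q R)) ≤ n)
    (hY : Fintype.card Y = 64 * w) (hb : bsum (Fintype.card Y) n ≤ 2 ^ (8 * w))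
    (p : PP d) (L q' : ℕ) :
    #(univ.filter (fun ε : Fin L → Finset Y =>
        q' ≤ nbad (sst S e q R n ρ p) (badK S e q R n n2 p) L (ext ε))) * 2 ^ (56 * w * q')
      ≤ 2 ^ (64 * w * L) * 2 ^ L := by
  have h1 := count_many (Y := Y) (sst S e q R n ρ p)
    (fun ε ε' b h => sst_congr S e q R n ρ p ε ε' b h)
    (badK S e q R n n2 p) (2 ^ (8 * w)) (2 ^ (56 * w))
    (fun b x => (badK_card hd hn hn2 p b x).trans hb)
    (by
      rw [← pow_add, hY]
      refine Nat.pow_le_pow_right (by norm_num) (by omega))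
    (fun _ => True)
    (fun b x s _ => trivial)
    L q' (Nat.one_le_pow _ _ (by norm_num))
  rw [hY, ← pow_mul, ← pow_mul] at h1
  refine (le_trans (le_of_eq ?_) h1).trans (Nat.mul_le_mul_left _ (Nat.pow_le_pow_right
    (show 0 < 2 by norm_num) ?_))
  · congr!
  · have h3 := @Finset.card_filter_le ℕ (Finset.range L) (fun _ => True)
      (fun _ => Classical.propDecidable True)
    rw [card_range] at h3
    exact h3

end Process

end

end Pool.Agent.H75.MX
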