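import Pool.Agent.H75.MX.Grid
import Pool.Agent.H75.MX.Exist

set_option autoImplicit false
set_option linter.unusedSectionVars false

/-! Existence of the factor for most sign vectors. -/

open Finset ComplexConjugate

namespace Pool.Agent.H75.MX

open Pool.Agent.H75.MT (ee kap sg bsum)
open Pool.Agent.H75.UB (ex)

variable {d : ℕ} {Y : Type*} [Fintype Y] [DecidableEq Y] (s : Fin d → ℕ) (e : Y ≃ Gd s)

namespace StepA

include e in
lemma N_pos : (0 : ℝ) < (Fintype.card Y : ℝ) := by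
  rw [card_Y s e]
  positivity

lemma conj_hat (h : Y → ℝ) (k : Fr d) : conj (hat s e h k)
    = ((1 / (Fintype.card Y : ℝ) : ℝ) : ℂ) * ∑ y, (h y : ℂ) * chi s e k y := by
  unfold hat
  rw [map_mul, Complex.conj_ofReal, map_sum]
  simp only [map_mul, Complex.conj_ofReal, Complex.conj_conj]

lemma sum_cf (hd : 1 ≤ d) (h : Y → ℝ) (F : Fr d → ℂ) :
    ∑ k ∈ SB s, F k * cf s e h k
      = ∑ k ∈ Bp s, (F k * CC s e h k + F (-k) * conj (CC s e h k)) := by
  have hdisj : Disjoint (Bp s) ((Bp s).image (fun k => -k)) := by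
    rw [Finset.disjoint_left]
    intro k hk hk'
    rw [mem_image] at hk'
    obtain ⟨k', hk', rfl⟩ := hk'
    exact Bp_neg hd hk' hk
  have hsub : (Bp s) ∪ ((Bp s).image (fun k => -k)) ⊆ SB s := by
    refine Finset.union_subset (Bp_sub s) ?_
    intro k hk
    rw [mem_image] at hk
    obtain ⟨k', hk', rfl⟩ := hk
    exact neg_mem_SB (Bp_sub s hk')
  rw [← Finset.sum_subset hsub]
  · rw [Finset.sum_union hdisj, Finset.sum_image (fun a _ b _ hab => neg_injective hab),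
      ← Finset.sum_add_distrib]
    refine Finset.sum_congr rfl (fun k hk => ?_)
    congr 1
    · unfold cf
      rw [if_pos hk]
    · unfold cf
      rw [if_neg (Bp_neg hd hk), neg_neg, if_pos hk]
  · intro k _ hk
    rw [mem_union, not_or, mem_image] at hk
    unfold cf
    rw [if_neg hk.1, if_neg, mul_zero]
    intro hk'
    exact hk.2 ⟨-k, hk', neg_neg k⟩

lemma sum_pm (hd : 1 ≤ d) (g : Fr d → ℝ) (hg : ∀ k, 0 ≤ g k) :
    ∑ k ∈ Bp s, (g k + g (-k)) ≤ ∑ k ∈ SB s, g k := by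
  have hdisj : Disjoint (Bp s) ((Bp s).image (fun k => -k)) := by
    rw [Finset.disjoint_left]
    intro k hk hk'
    rw [mem_image] at hk'
    obtain ⟨k', hk', rfl⟩ := hk'
    exact Bp_neg hd hk' hk
  have hsub : (Bp s) ∪ ((Bp s).image (fun k => -k)) ⊆ SB s := by
    refine Finset.union_subset (Bp_sub s) ?_
    intro k hk
    rw [mem_image] at hk
    obtain ⟨k', hk', rfl⟩ := hk
    exact neg_mem_SB (Bp_sub s hk')
  refine le_trans (le_of_eq ?_) (Finset.sum_le_sum_of_subset_of_nonneg hsub (fun k _ _ => hg k))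
  rw [Finset.sum_union hdisj, Finset.sum_image (fun a _ b _ hab => neg_injective hab),
    ← Finset.sum_add_distrib]

lemma kc_pos : 0 < kc d := by unfold kc; positivity

lemma kc_mul : kc d * (5 / 2) ^ d = 1 / 2 := by
  unfold kc
  rw [mul_assoc, ← mul_pow]
  norm_num

lemma kc_sq : kc d ^ 2 * (2 * 2 ^ d) ≤ 1 := by
  unfold kc
  have h1 : (1 / 2 * (2 / 5 : ℝ) ^ d) ^ 2 * (2 * 2 ^ d) = 1 / 2 * (8 / 25) ^ d := by
    rw [mul_pow, ← pow_mul, mul_comm d 2, pow_mul]
    have h2 : ((8 : ℝ) / 25) ^ d = ((2 / 5 : ℝ) ^ 2) ^ d * 2 ^ d := by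
      rw [← mul_pow]
      norm_num
    rw [h2]
    ring
  rw [h1]
  have h3 : ((8 : ℝ) / 25) ^ d ≤ 1 := pow_le_one₀ (by norm_num) (by norm_num)
  linarith

lemma ex_neg (k : Fr d) (x : Fin d → ℝ) : ex (-k) x = conj (ex k x) := by
  unfold ex
  rw [Pool.Agent.H75.MT.ee_conj]
  congr 1
  rw [← Finset.sum_neg_distrib]
  refine Finset.sum_congr rfl (fun i _ => ?_)
  rw [Pi.neg_apply]
  push_cast
  ring

end StepA

open StepA

lemma hat_sq (t : Finset Y) : ∑ k ∈ Rm s, ‖hat s e (sg t) k‖ ^ 2 ≤ 1 := by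
  have hN := N_pos s e
  have hN' : ((Fintype.card Y : ℝ) : ℂ) ≠ 0 := by exact_mod_cast hN.ne'
  have h1 : (((∑ k ∈ Rm s, ‖hat s e (sg t) k‖ ^ 2 : ℝ)) : ℂ) = 1 := by
    push_cast
    have e1 : ∀ k, (‖hat s e (sg t) k‖ : ℂ) ^ 2 = ((1 / (Fintype.card Y : ℝ) : ℝ) : ℂ) ^ 2 *
        ∑ y, ∑ y', ((sg t y : ℂ) * (sg t y' : ℂ)) * (chi s e k y' * conj (chi s e k y)) := by
      intro k
      rw [← Complex.mul_conj', conj_hat]
      unfold hat
      have e4 : ∑ y, ∑ y', ((sg t y : ℂ) * (sg t y' : ℂ)) * (chi s e k y' * conj (chi s e k y))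
          = (∑ y, (sg t y : ℂ) * conj (chi s e k y)) * ∑ y', (sg t y' : ℂ) * chi s e k y' := by
        rw [Finset.sum_mul_sum]
        refine Finset.sum_congr rfl (fun y _ => Finset.sum_congr rfl (fun y' _ => ?_))
        ring
      rw [e4]
      ring
    rw [Finset.sum_congr rfl (fun k _ => e1 k), ← Finset.mul_sum, Finset.sum_comm]
    have e5 : ∀ y, ∑ k ∈ Rm s, ∑ y', ((sg t y : ℂ) * (sg t y' : ℂ))
        * (chi s e k y' * conj (chi s e k y)) = ((Fintype.card Y : ℝ) : ℂ) := by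
      intro y
      rw [Finset.sum_comm]
      have e6 : ∀ y', ∑ k ∈ Rm s, ((sg t y : ℂ) * (sg t y' : ℂ))
          * (chi s e k y' * conj (chi s e k y))
          = if y' = y then (sg t y : ℂ) * (sg t y : ℂ) * ((Fintype.card Y : ℝ) : ℂ) else 0 := by
        intro y'
        rw [← Finset.mul_sum, chi_dual s e y' y]
        split_ifs with h7
        · rw [h7]
          push_cast
          rfl
        · rw [mul_zero]
      rw [Finset.sum_congr rfl (fun y' _ => e6 y')]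
      simp only [Finset.sum_ite_eq', Finset.mem_univ, if_true]
      have h8 : (sg t y : ℂ) * (sg t y : ℂ) = 1 := by
        unfold sg
        split_ifs
        · norm_num
        · norm_num
      rw [h8, one_mul]
    rw [Finset.sum_congr rfl (fun y _ => e5 y), Finset.sum_const, Finset.card_univ, nsmul_eq_mul]
    push_cast at hN' ⊢
    field_simp
  have h2 : ∑ k ∈ Rm s, ‖hat s e (sg t) k‖ ^ 2 = 1 := by exact_mod_cast h1
  exact h2.le

lemma pair_om (hd : 1 ≤ d) (f : Fr d → ℂ) (h : Y → ℝ) (k : Fr d) :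
    cv s (cf s e h) f k = ∑ y, (h y : ℂ) * om s e f k y := by
  unfold cv
  rw [sum_cf s e hd h (fun l => f (k - l))]
  have h1 : ∀ l, f (k - l) * CC s e h l + f (k - -l) * conj (CC s e h l)
      = ∑ y, (h y : ℂ) * (((kc d / (Fintype.card Y : ℝ) : ℝ) : ℂ) * ((KK s l : ℂ)
        * (f (k - l) * conj (chi s e l y) + f (k + l) * chi s e l y))) := by
    intro l
    unfold CC
    rw [map_mul, Complex.conj_ofReal, conj_hat]
    unfold hat
    rw [sub_neg_eq_add]
    have e2 : ∑ y, (h y : ℂ) * (((kc d / (Fintype.card Y : ℝ) : ℝ) : ℂ) * ((KK s l : ℂ)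
        * (f (k - l) * conj (chi s e l y) + f (k + l) * chi s e l y)))
        = ((kc d / (Fintype.card Y : ℝ) : ℝ) : ℂ) * (KK s l : ℂ) * f (k - l)
            * ∑ y, (h y : ℂ) * conj (chi s e l y)
          + ((kc d / (Fintype.card Y : ℝ) : ℝ) : ℂ) * (KK s l : ℂ) * f (k + l)
            * ∑ y, (h y : ℂ) * chi s e l y := by
      rw [Finset.mul_sum, Finset.mul_sum, ← Finset.sum_add_distrib]
      refine Finset.sum_congr rfl (fun y _ => ?_)
      ring
    rw [e2]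
    push_cast
    ring
  rw [Finset.sum_congr rfl (fun l _ => h1 l), Finset.sum_comm]
  refine Finset.sum_congr rfl (fun y _ => ?_)
  unfold om
  rw [Finset.mul_sum, Finset.mul_sum]

lemma om_sq (hd : 1 ≤ d) (f : Fr d → ℂ) (k : Fr d) :
    ∑ y, ‖om s e f k y‖ ^ 2 ≤ 1 / (Fintype.card Y : ℝ) * ∑ l ∈ SB s, ‖f (k - l)‖ ^ 2 := by
  have hN := N_pos s e
  set N : ℝ := (Fintype.card Y : ℝ) with hNdef
  set P : Y → ℂ := fun y => ∑ l ∈ Bp s, conj ((KK s l : ℂ) * f (k - l)) * chi s e l y with hP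
  set Q : Y → ℂ := fun y => ∑ l ∈ Bp s, ((KK s l : ℂ) * f (k + l)) * chi s e l y with hQ
  have hom : ∀ y, ‖om s e f k y‖ ^ 2 ≤ (kc d / N) ^ 2 * (2 * (‖P y‖ ^ 2 + ‖Q y‖ ^ 2)) := by
    intro y
    have h1 : om s e f k y = ((kc d / N : ℝ) : ℂ) * (conj (P y) + Q y) := by
      unfold om
      rw [← hNdef, hP, hQ]
      simp only [map_sum, map_mul, Complex.conj_conj]
      rw [← Finset.sum_add_distrib]
      congr 1
      refine Finset.sum_congr rfl (fun l _ => ?_)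
      ring
    rw [h1, norm_mul, mul_pow, Complex.norm_real, Real.norm_eq_abs, sq_abs]
    refine mul_le_mul_of_nonneg_left ?_ (sq_nonneg _)
    have h3 : ‖conj (P y) + Q y‖ ≤ ‖P y‖ + ‖Q y‖ := by
      refine (norm_add_le _ _).trans (le_of_eq ?_)
      rw [RCLike.norm_conj]
    have h4 : ‖conj (P y) + Q y‖ ^ 2 ≤ (‖P y‖ + ‖Q y‖) ^ 2 :=
      pow_le_pow_left₀ (norm_nonneg _) h3 2
    nlinarith [sq_nonneg (‖P y‖ - ‖Q y‖)]
  have hK : ∀ l z, ‖(KK s l : ℂ) * z‖ ^ 2 ≤ ‖z‖ ^ 2 := by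
    intro l z
    refine pow_le_pow_left₀ (norm_nonneg _) ?_ 2
    rw [norm_mul, Complex.norm_real, Real.norm_eq_abs, abs_of_nonneg (KK_nonneg s l)]
    exact mul_le_of_le_one_left (norm_nonneg _) (KK_le_one s l)
  have bP : ∑ y, ‖P y‖ ^ 2 ≤ N * 2 ^ d * ∑ l ∈ Bp s, ‖f (k - l)‖ ^ 2 := by
    refine (bessel_grid s e (fun l => conj ((KK s l : ℂ) * f (k - l)))).trans ?_
    refine mul_le_mul_of_nonneg_left ?_ (by positivity)
    refine Finset.sum_le_sum (fun l _ => ?_)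
    rw [RCLike.norm_conj]
    exact hK l _
  have bQ : ∑ y, ‖Q y‖ ^ 2 ≤ N * 2 ^ d * ∑ l ∈ Bp s, ‖f (k + l)‖ ^ 2 := by
    refine (bessel_grid s e (fun l => ((KK s l : ℂ) * f (k + l)))).trans ?_
    refine mul_le_mul_of_nonneg_left ?_ (by positivity)
    refine Finset.sum_le_sum (fun l _ => ?_)
    exact hK l _
  have hs := sum_pm s hd (fun l => ‖f (k - l)‖ ^ 2) (fun l => by positivity)
  simp only [sub_neg_eq_add] at hs
  rw [Finset.sum_add_distrib] at hs
  have h1 : ∑ y, ‖om s e f k y‖ ^ 2 ≤ (kc d / N) ^ 2 * (2 * (∑ y, ‖P y‖ ^ 2 + ∑ y, ‖Q y‖ ^ 2)) := by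
    refine (Finset.sum_le_sum (fun y _ => hom y)).trans (le_of_eq ?_)
    rw [← Finset.mul_sum, ← Finset.mul_sum, Finset.sum_add_distrib]
  have h2 : ∑ y, ‖P y‖ ^ 2 + ∑ y, ‖Q y‖ ^ 2 ≤ N * 2 ^ d * ∑ l ∈ SB s, ‖f (k - l)‖ ^ 2 := by
    have h3 := mul_le_mul_of_nonneg_left hs (show (0 : ℝ) ≤ N * 2 ^ d by positivity)
    rw [mul_add] at h3
    linarith
  have hE : 0 ≤ ∑ l ∈ SB s, ‖f (k - l)‖ ^ 2 := Finset.sum_nonneg (fun l _ => by positivity)
  calc ∑ y, ‖om s e f k y‖ ^ 2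
      ≤ (kc d / N) ^ 2 * (2 * (N * 2 ^ d * ∑ l ∈ SB s, ‖f (k - l)‖ ^ 2)) :=
        h1.trans (mul_le_mul_of_nonneg_left (mul_le_mul_of_nonneg_left h2 (by norm_num))
          (sq_nonneg _))
    _ = (kc d ^ 2 * (2 * 2 ^ d)) * (1 / N * ∑ l ∈ SB s, ‖f (k - l)‖ ^ 2) := by
        field_simp
    _ ≤ 1 * (1 / N * ∑ l ∈ SB s, ‖f (k - l)‖ ^ 2) :=
        mul_le_mul_of_nonneg_right kc_sq (by positivity)
    _ = _ := one_mul _

lemma cf_v1 (hd : 1 ≤ d) (h : Y → ℝ) (hh : ∀ y, |h y| ≤ 1) (x : Fin d → ℝ) :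
    (∑ k ∈ SB s, ex k x * cf s e h k).im = 0 ∧
      |(∑ k ∈ SB s, ex k x * cf s e h k).re| ≤ 1 := by
  rw [sum_cf s e hd h (fun k => ex k x)]
  have hN := N_pos s e
  have h1 : ∀ k, ex k x * CC s e h k + ex (-k) x * conj (CC s e h k)
      = ((2 * (ex k x * CC s e h k).re : ℝ) : ℂ) := by
    intro k
    rw [ex_neg, ← map_mul, Complex.add_conj]
  rw [Finset.sum_congr rfl (fun k _ => h1 k), ← Complex.ofReal_sum]
  refine ⟨Complex.ofReal_im _, ?_⟩
  rw [Complex.ofReal_re, ← Finset.mul_sum, ← Complex.re_sum]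
  have h2 : ∑ k ∈ Bp s, ex k x * CC s e h k
      = ((kc d / (Fintype.card Y : ℝ) : ℝ) : ℂ) * ∑ y, (h y : ℂ) *
        ∑ k ∈ Bp s, (KK s k : ℂ) * (ex k x * conj (chi s e k y)) := by
    have e1 : ∀ k, ex k x * CC s e h k = ((kc d / (Fintype.card Y : ℝ) : ℝ) : ℂ)
        * ∑ y, (h y : ℂ) * ((KK s k : ℂ) * (ex k x * conj (chi s e k y))) := by
      intro k
      unfold CC hat
      have e2 : ∑ y, (h y : ℂ) * ((KK s k : ℂ) * (ex k x * conj (chi s e k y)))
          = (KK s k : ℂ) * ex k x * ∑ y, (h y : ℂ) * conj (chi s e k y) := by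
        rw [Finset.mul_sum]
        refine Finset.sum_congr rfl (fun y _ => ?_)
        ring
      rw [e2]
      push_cast
      ring
    rw [Finset.sum_congr rfl (fun k _ => e1 k), ← Finset.mul_sum, Finset.sum_comm]
    congr 1
    refine Finset.sum_congr rfl (fun y _ => ?_)
    rw [Finset.mul_sum]
  have h3 : ‖∑ k ∈ Bp s, ex k x * CC s e h k‖ ≤ 1 / 2 := by
    rw [h2, norm_mul, Complex.norm_real, Real.norm_eq_abs,
      abs_of_pos (div_pos kc_pos hN)]
    have h4 := kernel_grid s e x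
    have h5 : ‖∑ y, (h y : ℂ) * ∑ k ∈ Bp s, (KK s k : ℂ) * (ex k x * conj (chi s e k y))‖
        ≤ (5 / 2) ^ d * (Fintype.card Y : ℝ) := by
      refine (norm_sum_le _ _).trans (le_trans (Finset.sum_le_sum (fun y _ => ?_)) h4)
      rw [norm_mul, Complex.norm_real, Real.norm_eq_abs]
      exact mul_le_of_le_one_left (norm_nonneg _) (hh y)
    refine (mul_le_mul_of_nonneg_left h5 (div_pos kc_pos hN).le).trans (le_of_eq ?_)
    rw [← kc_mul (d := d)]
    field_simp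
  have h5 := (Complex.abs_re_le_norm _).trans h3
  rw [abs_mul, abs_two]
  linarith

lemma cf_v4 (hd : 1 ≤ d) (h t : Y → ℝ) :
    (∑ k ∈ Rm s, hat s e t k * conj (cf s e h k)).re
      = kc d * (∑ y, h y * t y) / (Fintype.card Y : ℝ) := by
  have hN := N_pos s e
  have hN' : ((Fintype.card Y : ℝ) : ℂ) ≠ 0 := by exact_mod_cast hN.ne'
  have h1 : ∑ k ∈ Rm s, hat s e t k * conj (cf s e h k)
      = ((kc d * (∑ y, h y * t y) / (Fintype.card Y : ℝ) : ℝ) : ℂ) := by
    have e1 : ∀ k ∈ Rm s, hat s e t k * conj (cf s e h k)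
        = (kc d : ℂ) * (((1 / (Fintype.card Y : ℝ) : ℝ) : ℂ) ^ 2 * ∑ y, ∑ y',
          ((t y : ℂ) * (h y' : ℂ)) * (chi s e k y' * conj (chi s e k y))) := by
      intro k hk
      unfold cf
      rw [if_pos (Rm_sub s hk)]
      unfold CC
      rw [KK_eq_one s hk, mul_one, map_mul, conj_hat, Complex.conj_ofReal]
      unfold hat
      have e4 : ∑ y, ∑ y', ((t y : ℂ) * (h y' : ℂ)) * (chi s e k y' * conj (chi s e k y))
          = (∑ y, (t y : ℂ) * conj (chi s e k y)) * ∑ y', (h y' : ℂ) * chi s e k y' := by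
        rw [Finset.sum_mul_sum]
        refine Finset.sum_congr rfl (fun y _ => Finset.sum_congr rfl (fun y' _ => ?_))
        ring
      rw [e4]
      ring
    rw [Finset.sum_congr rfl e1, ← Finset.mul_sum, ← Finset.mul_sum, Finset.sum_comm]
    have e5 : ∀ y, ∑ k ∈ Rm s, ∑ y', ((t y : ℂ) * (h y' : ℂ))
        * (chi s e k y' * conj (chi s e k y)) =
          (t y : ℂ) * (h y : ℂ) * ((Fintype.card Y : ℝ) : ℂ) := by
      intro y
      rw [Finset.sum_comm]
      have e6 : ∀ y', ∑ k ∈ Rm s, ((t y : ℂ) * (h y' : ℂ))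
          * (chi s e k y' * conj (chi s e k y))
          = if y' = y then (t y : ℂ) * (h y : ℂ) * ((Fintype.card Y : ℝ) : ℂ) else 0 := by
        intro y'
        rw [← Finset.mul_sum, chi_dual s e y' y]
        split_ifs with h7
        · rw [h7]
          push_cast
          rfl
        · rw [mul_zero]
      rw [Finset.sum_congr rfl (fun y' _ => e6 y')]
      simp only [Finset.sum_ite_eq', Finset.mem_univ, if_true]
    rw [Finset.sum_congr rfl (fun y _ => e5 y), ← Finset.sum_mul]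
    push_cast
    rw [Finset.sum_congr rfl (fun y _ => mul_comm (t y : ℂ) (h y : ℂ))]
    push_cast at hN'
    field_simp
  rw [h1, Complex.ofReal_re]

namespace StepA

variable {R : ℕ} {ι : Type*} [Fintype ι] (w : ι → Fr d → ℝ) (f : Fr d → ℂ) (lam : Finset (Fr d))

/-- the functionals -/
noncomputable def fn (R : ℕ) : (lam × Bool) ⊕ (Bool ⊕ ι) → Y → ℝ :=
  Sum.elim (fun z y => if z.2 then (chi s e z.1 y).re else (chi s e z.1 y).im)
    (Sum.elim (fun b y => if b then (om s e f 0 y).re else (om s e f 0 y).im)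
      (fun j y => (∑ k ∈ KB d R, (w j k : ℂ) * (conj (Dm f k) * om s e f k y)).re))

lemma sum_eq_zero_of (h : Y → ℝ) (g : Y → ℂ) (h1 : ∑ y, (g y).re * h y = 0)
    (h2 : ∑ y, (g y).im * h y = 0) : ∑ y, (h y : ℂ) * g y = 0 := by
  apply Complex.ext
  · rw [Complex.re_sum, Complex.zero_re, ← h1]
    refine Finset.sum_congr rfl (fun y _ => ?_)
    rw [Complex.re_ofReal_mul, mul_comm]
  · rw [Complex.im_sum, Complex.zero_im, ← h2]
    refine Finset.sum_congr rfl (fun y _ => ?_)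
    rw [Complex.im_ofReal_mul, mul_comm]

lemma valid_of_wit (hd : 1 ≤ d) (R : ℕ) (hw : ∀ j k, 0 ≤ w j k) (G : Fr d → ℝ)
    (hG : ∀ k, 0 ≤ G k) (n : ℕ) (t : Finset Y)
    (hW : Wit (KB d R) (fn s e w f lam R) w (om s e f) G (om s e (Dm f)) n t) :
    ∃ c, Valid s e R w G (kc d * n / (17 * (Fintype.card Y : ℝ))) f lam t c := by
  obtain ⟨h, hh1, hh2, hh3, hh4, hh5⟩ := hW
  have hN := N_pos s e
  refine ⟨cf s e h, ?_, ?_, ?_, ?_, ?_, ?_, ?_, ?_⟩
  · exact fun x => cf_v1 s e hd h hh1 x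
  · intro k hk
    unfold cf
    rw [if_neg (fun h' => hk (Bp_sub s h')), if_neg]
    intro h'
    apply hk
    have := neg_mem_SB (Bp_sub s h')
    rwa [neg_neg] at this
  · intro k hk
    have h1 : ∑ y, (h y : ℂ) * chi s e k y = 0 :=
      sum_eq_zero_of h _ (hh2 (Sum.inl ((⟨k, hk⟩ : lam), true)))
        (hh2 (Sum.inl ((⟨k, hk⟩ : lam), false)))
    have h4 : ∑ y, (h y : ℂ) * conj (chi s e k y) = 0 := by
      have h5 := congrArg conj h1
      rw [map_sum, map_zero] at h5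
      rw [← h5]
      refine Finset.sum_congr rfl (fun y _ => ?_)
      rw [map_mul, Complex.conj_ofReal]
    unfold cf
    split_ifs
    · unfold CC hat
      rw [h4, mul_zero, mul_zero]
    · unfold CC hat
      simp only [chi_neg, Complex.conj_conj]
      rw [h1, mul_zero, mul_zero, map_zero]
    · rfl
  · rw [cf_v4 s e hd h (sg t)]
    have h1 : kc d * n / (17 * (Fintype.card Y : ℝ)) = kc d * (n / 17) / (Fintype.card Y : ℝ) := by
      field_simp
    rw [h1]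
    exact div_le_div_of_nonneg_right (mul_le_mul_of_nonneg_left hh5 kc_pos.le) hN.le
  · rw [pair_om s e hd]
    exact sum_eq_zero_of h _ (hh2 (Sum.inr (Sum.inl true))) (hh2 (Sum.inr (Sum.inl false)))
  · intro j
    have h1 := hh2 (Sum.inr (Sum.inr j))
    have h2 : ∑ k ∈ KB d R, (w j k : ℂ) * (conj (Dm f k) * cv s (cf s e h) f k)
        = ∑ y, (h y : ℂ) * ∑ k ∈ KB d R, (w j k : ℂ) * (conj (Dm f k) * om s e f k y) := by
      have e1 : ∀ k, (w j k : ℂ) * (conj (Dm f k) * cv s (cf s e h) f k)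
          = ∑ y, (h y : ℂ) * ((w j k : ℂ) * (conj (Dm f k) * om s e f k y)) := by
        intro k
        rw [pair_om s e hd, Finset.mul_sum, Finset.mul_sum]
        refine Finset.sum_congr rfl (fun y _ => ?_)
        ring
      rw [Finset.sum_congr rfl (fun k _ => e1 k), Finset.sum_comm]
      refine Finset.sum_congr rfl (fun y _ => ?_)
      rw [Finset.mul_sum]
    rw [h2, Complex.re_sum, ← h1]
    refine Finset.sum_congr rfl (fun y _ => ?_)
    rw [Complex.re_ofReal_mul, mul_comm]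
    rfl
  · intro j
    have h1 : ∑ k ∈ KB d R, w j k * ‖cv s (cf s e h) f k‖ ^ 2
        = ∑ k ∈ KB d R, w j k * ‖∑ y, (h y : ℂ) * om s e f k y‖ ^ 2 :=
      Finset.sum_congr rfl (fun k _ => by rw [pair_om s e hd])
    rw [h1]
    refine (hh3 j).trans ?_
    have h2 : ∑ k ∈ KB d R, w j k * ∑ y, ‖om s e f k y‖ ^ 2
        ≤ ∑ k ∈ KB d R, w j k * (1 / (Fintype.card Y : ℝ) * ∑ l ∈ SB s, ‖f (k - l)‖ ^ 2) :=
      Finset.sum_le_sum (fun k _ => mul_le_mul_of_nonneg_left (om_sq s e hd f k) (hw j k))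
    refine (mul_le_mul_of_nonneg_left h2 (by norm_num)).trans (le_of_eq ?_)
    rw [Finset.mul_sum, Finset.mul_sum]
    refine Finset.sum_congr rfl (fun k _ => ?_)
    ring
  · have h1 : ∑ k ∈ KB d R, G k * ‖cv s (cf s e h) (Dm f) k‖ ^ 4
        = ∑ k ∈ KB d R, G k * ‖∑ y, (h y : ℂ) * om s e (Dm f) k y‖ ^ 4 :=
      Finset.sum_congr rfl (fun k _ => by rw [pair_om s e hd])
    rw [h1]
    refine hh4.trans ?_
    have h2 : ∑ k ∈ KB d R, G k * (∑ y, ‖om s e (Dm f) k y‖ ^ 2) ^ 2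
        ≤ ∑ k ∈ KB d R, G k * (1 / (Fintype.card Y : ℝ) * ∑ l ∈ SB s, ‖Dm f (k - l)‖ ^ 2) ^ 2 :=
      Finset.sum_le_sum (fun k _ => mul_le_mul_of_nonneg_left (pow_le_pow_left₀
        (Finset.sum_nonneg (fun y _ => by positivity)) (om_sq s e hd (Dm f) k) 2) (hG k))
    refine (mul_le_mul_of_nonneg_left h2 (by norm_num)).trans (le_of_eq ?_)
    rw [Finset.mul_sum, Finset.mul_sum]
    refine Finset.sum_congr rfl (fun k _ => ?_)
    field_simp

end StepA

open Classical in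
theorem step_card (hd : 1 ≤ d) (R : ℕ) {ι : Type*} [Fintype ι] (w : ι → Fr d → ℝ)
    (hw : ∀ j k, 0 ≤ w j k) (G : Fr d → ℝ) (hG : ∀ k, 0 ≤ G k) (f : Fr d → ℂ)
    (lam : Finset (Fr d)) (n : ℕ) (hn : 16 ≤ n)
    (hn2 : 16 * (2 * lam.card + 2 + Fintype.card ι + 8 * Fintype.card ι * Fintype.card ι) ≤ n) :
    #(univ.filter (fun t : Finset Y => ¬ ∃ c, Valid s e R w G
      (kc d * n / (17 * (Fintype.card Y : ℝ))) f lam t c)) ≤ bsum (Fintype.card Y) n := by
  have h1 := wit_card (KB d R) (fn s e w f lam R) w hw (om s e f) G hG (om s e (Dm f)) n hn (by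
    rw [Fintype.card_sum, Fintype.card_sum, Fintype.card_prod, Fintype.card_coe, Fintype.card_bool]
    refine le_trans (le_of_eq ?_) hn2
    ring)
  refine le_trans (Finset.card_le_card ?_) h1
  intro t ht
  rw [mem_filter] at ht ⊢
  exact ⟨ht.1, fun hW => ht.2 (valid_of_wit s e w f lam hd R hw G hG n t hW)⟩

end Pool.Agent.H75.MX
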