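import Pool.Agent.H75.MX.Wt
import Pool.Agent.H75.MX.Cnt

set_option autoImplicit false
set_option linter.unusedSectionVars false

/-! The final sums: one dimensional estimates. -/

open Finset

namespace Pool.Agent.H75.MX

/-- power mean inequality -/
lemma power_mean {ι : Type*} (S : Finset ι) (x θ : ι → ℝ) (hx : ∀ i ∈ S, 0 ≤ x i)
    (hθ : ∀ i ∈ S, 0 < θ i) :
    (∑ i ∈ S, x i) ^ 4 ≤ (∑ i ∈ S, θ i) ^ 3 * ∑ i ∈ S, (1 / θ i) ^ 3 * x i ^ 4 := by
  have h1 : (∑ i ∈ S, x i) ^ 2 ≤ (∑ i ∈ S, θ i) * ∑ i ∈ S, x i ^ 2 / θ i := by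
    refine Finset.sum_sq_le_sum_mul_sum_of_sq_le_mul S (fun i hi => (hθ i hi).le)
      (fun i hi => div_nonneg (sq_nonneg _) (hθ i hi).le) (fun i hi => le_of_eq ?_)
    have := (hθ i hi).ne'
    field_simp
  have h2 : (∑ i ∈ S, x i ^ 2 / θ i) ^ 2 ≤ (∑ i ∈ S, θ i) * ∑ i ∈ S, (1 / θ i) ^ 3 * x i ^ 4 := by
    refine Finset.sum_sq_le_sum_mul_sum_of_sq_le_mul S (fun i hi => (hθ i hi).le)
      (fun i hi => ?_) (fun i hi => le_of_eq ?_)
    · have := hθ i hi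
      positivity
    · have := (hθ i hi).ne'
      field_simp
  have hθ0 : 0 ≤ ∑ i ∈ S, θ i := Finset.sum_nonneg fun i hi => (hθ i hi).le
  have hs0 : 0 ≤ ∑ i ∈ S, x i ^ 2 / θ i :=
    Finset.sum_nonneg fun i hi => div_nonneg (sq_nonneg _) (hθ i hi).le
  calc (∑ i ∈ S, x i) ^ 4 = ((∑ i ∈ S, x i) ^ 2) ^ 2 := by ring
    _ ≤ ((∑ i ∈ S, θ i) * ∑ i ∈ S, x i ^ 2 / θ i) ^ 2 :=
        pow_le_pow_left₀ (sq_nonneg _) h1 2
    _ = (∑ i ∈ S, θ i) ^ 2 * (∑ i ∈ S, x i ^ 2 / θ i) ^ 2 := by ring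
    _ ≤ (∑ i ∈ S, θ i) ^ 2 * ((∑ i ∈ S, θ i) * ∑ i ∈ S, (1 / θ i) ^ 3 * x i ^ 4) :=
        mul_le_mul_of_nonneg_left h2 (sq_nonneg _)
    _ = _ := by ring

/-! ### The ratios -/

lemma h12_one_lt_tt (d : ℕ) (hd : 1 ≤ d) : 1 < tt d := by
  unfold tt
  have : (0:ℝ) < d := by exact_mod_cast hd
  have : (0:ℝ) < 1 / (60 * d ^ 2) := by positivity
  linarith

lemma h12_one_le_gg (d : ℕ) (hd : 1 ≤ d) : 1 ≤ gg d := one_le_pow₀ (h12_one_lt_tt d hd).le

lemma h12_tt_le (d : ℕ) (hd : 1 ≤ d) : tt d ≤ 61 / 60 := by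
  unfold tt
  have h1 : (1:ℝ) ≤ d := by exact_mod_cast hd
  have h2 : (60:ℝ) ≤ 60 * d ^ 2 := by nlinarith
  have h3 : 1 / (60 * (d:ℝ) ^ 2) ≤ 1 / 60 := one_div_le_one_div_of_le (by norm_num) h2
  linarith

lemma h12_gg_le (d : ℕ) (hd : 1 ≤ d) : gg d ≤ 106 / 100 := by
  unfold gg
  calc tt d ^ 3 ≤ (61 / 60) ^ 3 :=
        pow_le_pow_left₀ (zero_le_one.trans (h12_one_lt_tt d hd).le) (h12_tt_le d hd) 3
    _ ≤ 106 / 100 := by norm_num

lemma h12_gg3_le (d : ℕ) (hd : 1 ≤ d) : gg d ^ 3 ≤ 12 / 10 := by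
  calc gg d ^ 3 ≤ (106 / 100) ^ 3 :=
        pow_le_pow_left₀ (zero_le_one.trans (h12_one_le_gg d hd)) (h12_gg_le d hd) 3
    _ ≤ 12 / 10 := by norm_num

lemma h12_gg_big (d : ℕ) (hd : 1 ≤ d) : gg d ^ (15 * d ^ 2 + 1) ≤ 8 := by
  have h1 : (1:ℝ) ≤ d := by exact_mod_cast hd
  have h2 : tt d ≤ Real.exp (1 / (60 * d ^ 2)) := by
    unfold tt
    have := Real.add_one_le_exp (1 / (60 * (d:ℝ) ^ 2))
    linarith
  have h0 : 0 ≤ tt d := zero_le_one.trans (h12_one_lt_tt d hd).le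
  unfold gg
  rw [← pow_mul]
  calc tt d ^ (3 * (15 * d ^ 2 + 1)) ≤ Real.exp (1 / (60 * d ^ 2)) ^ (3 * (15 * d ^ 2 + 1)) :=
        pow_le_pow_left₀ h0 h2 _
    _ = Real.exp (((3 * (15 * d ^ 2 + 1) : ℕ) : ℝ) * (1 / (60 * d ^ 2))) := by
        rw [Real.exp_nat_mul]
    _ ≤ Real.exp 1 := by
        apply Real.exp_le_exp.2
        rw [mul_one_div, div_le_one (by positivity)]
        push_cast
        nlinarith
    _ ≤ 8 := by
        have := Real.exp_one_lt_d9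
        linarith

/-! ### The scale -/

lemma h12_abs_le_kp (x : ℤ) : |x| ≤ 8 ^ kp x := by
  have h := Nat.le_pow_clog (b := 8) (by norm_num) x.natAbs
  have h2 : ((x.natAbs : ℕ) : ℤ) ≤ ((8 ^ Nat.clog 8 x.natAbs : ℕ) : ℤ) := by exact_mod_cast h
  rw [Int.natCast_natAbs] at h2
  push_cast at h2
  exact h2

lemma h12_kp_lt {x : ℤ} {a : ℕ} (h : a < kp x) : 8 ^ a < |x| := by
  have h1 := (Nat.lt_clog_iff_pow_lt (b := 8) (by norm_num)).1 h
  have h2 : ((8 ^ a : ℕ) : ℤ) < ((x.natAbs : ℕ) : ℤ) := by exact_mod_cast h1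
  rw [Int.natCast_natAbs] at h2
  push_cast at h2
  exact h2

lemma h12_kp_le {x : ℤ} {a : ℕ} (h : |x| ≤ 8 ^ a) : kp x ≤ a := by
  by_contra h1
  exact absurd (h12_kp_lt (not_le.1 h1)) (not_lt.2 h)

lemma h12_om1_kp (w : ℕ) (x : ℤ) : om1 w x ≤ 64 * (1 / 64) ^ (kp x - w) := by
  by_cases h : kp x ≤ w
  · rw [Nat.sub_eq_zero_of_le h, pow_zero]
    linarith [om1_le_one w x]
  · push Not at h
    obtain ⟨a, ha⟩ : ∃ a, kp x = a + 1 := ⟨kp x - 1, by omega⟩
    have hlt : 8 ^ a < |x| := h12_kp_lt (by omega)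
    have hx0 : x ≠ 0 := by
      rintro rfl
      rw [abs_zero] at hlt
      have : (0:ℤ) < 8 ^ a := by positivity
      omega
    have h1 := om1_decay w x hx0
    have h2 : ((8:ℝ) ^ a) ^ 2 ≤ (x:ℝ) ^ 2 := by
      have h3 : ((8:ℝ) ^ a) ≤ |(x:ℝ)| := by exact_mod_cast hlt.le
      rw [← sq_abs (x:ℝ)]
      exact pow_le_pow_left₀ (by positivity) h3 2
    have e1 : kp x - w = (a - w) + 1 := by omega
    have h4 : (8:ℝ) ^ (2 * w) / (x:ℝ) ^ 2 ≤ (8:ℝ) ^ (2 * w) / ((8:ℝ) ^ a) ^ 2 :=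
      div_le_div_of_nonneg_left (by positivity) (by positivity) h2
    refine h1.trans (h4.trans (le_of_eq ?_))
    rw [e1]
    obtain ⟨b, hb⟩ : ∃ b, a = w + b := ⟨a - w, by omega⟩
    subst hb
    have e2 : (64:ℝ) ^ (b + 1) = 8 ^ (2 * b) * 64 := by
      rw [pow_succ, pow_mul]; norm_num
    have e3 : ((8:ℝ) ^ (w + b)) ^ 2 = 8 ^ (2 * w) * 8 ^ (2 * b) := by
      rw [← pow_mul, ← pow_add]; congr 1; ring
    rw [Nat.add_sub_cancel_left, one_div_pow, e2, e3]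
    field_simp

/-- geometric sums -/
lemma h12_geom (r : ℝ) (h0 : 0 ≤ r) (h1 : r < 1) (S : Finset ℕ) (f : ℕ → ℕ)
    (hf : Set.InjOn f S) : ∑ i ∈ S, r ^ f i ≤ 1 / (1 - r) := by
  classical
  rw [← Finset.sum_image (f := fun i => r ^ i) (g := f) hf]
  have h2 := (summable_geometric_of_lt_one h0 h1).sum_le_tsum (S.image f)
    (fun i _ => pow_nonneg h0 i)
  rw [tsum_geometric_of_lt_one h0 h1] at h2
  rw [one_div]
  exact h2

/-- the one dimensional sum over the scales above `V` -/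
lemma h12_sigma (g : ℝ) (hg1 : 1 ≤ g) (hg2 : g ≤ 106 / 100) (V R : ℕ) (x lam : ℤ)
    (h : |x - lam| ≤ 8 ^ V) :
    ∑ w ∈ Finset.Icc V R, (8:ℝ) ^ V / 8 ^ w * g ^ (w - V) * om1 w lam ≤
      300 * (g / 8) ^ (kp x - V) := by
  classical
  set a := kp x - V with ha
  have hr0 : 0 < g / 8 := by positivity
  have hr1 : g / 8 ≤ 1325 / 10000 := by linarith
  have hterm : ∀ w ∈ Finset.Icc V R, (8:ℝ) ^ V / 8 ^ w * g ^ (w - V) * om1 w lam ≤
      192 * (g / 8) ^ a * ((if w ≤ V + a then (1 / 8 : ℝ) ^ (V + a - w) else 0) +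
        (if w ≤ V + a then 0 else (g / 8) ^ (w - V - a))) := by
    intro w hw
    obtain ⟨hw1, hw2⟩ := Finset.mem_Icc.1 hw
    obtain ⟨i, rfl⟩ : ∃ i, w = V + i := ⟨w - V, by omega⟩
    have e1 : (8:ℝ) ^ V / 8 ^ (V + i) * g ^ (V + i - V) = (g / 8) ^ i := by
      rw [Nat.add_sub_cancel_left, pow_add, div_pow]
      field_simp
    have h2 : om1 (V + i) lam ≤ 3 * om1 (V + i) x := by
      have h3 := om1_shift (V + i) lam (x - lam) (h.trans (pow_le_pow_right₀ (by norm_num)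
        (Nat.le_add_right V i)))
      rwa [add_sub_cancel] at h3
    have h4 := h12_om1_kp (V + i) x
    have h5 : kp x - (V + i) = a - i := by omega
    rw [h5] at h4
    rw [e1]
    have h6 : (g / 8) ^ i * om1 (V + i) lam ≤ (g / 8) ^ i * (192 * (1 / 64) ^ (a - i)) := by
      refine mul_le_mul_of_nonneg_left ?_ (by positivity)
      linarith
    refine h6.trans ?_
    by_cases hi : i ≤ a
    · rw [if_pos (by omega), if_pos (by omega), add_zero]
      obtain ⟨b, hb⟩ : ∃ b, a = i + b := ⟨a - i, by omega⟩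
      have e2 : V + a - (V + i) = b := by omega
      have e3 : a - i = b := by omega
      rw [e2, e3, hb, pow_add]
      have h7 : (1 / 64 : ℝ) ^ b ≤ (g / 8) ^ b * (1 / 8) ^ b := by
        rw [← mul_pow]
        refine pow_le_pow_left₀ (by norm_num) ?_ b
        linarith
      have h8 : 0 ≤ (g / 8) ^ i := by positivity
      nlinarith [mul_le_mul_of_nonneg_left h7 h8]
    · rw [if_neg (by omega), if_neg (by omega), zero_add]
      push Not at hi
      have e3 : a - i = 0 := by omega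
      rw [e3, pow_zero, mul_one]
      obtain ⟨b, hb⟩ : ∃ b, i = a + b := ⟨i - a, by omega⟩
      have e2 : V + i - V - a = b := by omega
      rw [e2, hb, pow_add]
      linarith
  refine (Finset.sum_le_sum hterm).trans ?_
  rw [← Finset.mul_sum, Finset.sum_add_distrib, ← Finset.sum_filter]
  have e4 : ∑ w ∈ Finset.Icc V R, (if w ≤ V + a then (0:ℝ) else (g / 8) ^ (w - V - a)) =
      ∑ w ∈ (Finset.Icc V R).filter (fun w => ¬ w ≤ V + a), (g / 8) ^ (w - V - a) := by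
    rw [Finset.sum_filter]
    refine Finset.sum_congr rfl fun w _ => ?_
    by_cases hw : w ≤ V + a
    · rw [if_pos hw, if_neg (not_not.2 hw)]
    · rw [if_neg hw, if_pos hw]
  rw [e4]
  have s1 := h12_geom (1 / 8) (by norm_num) (by norm_num)
    ((Finset.Icc V R).filter (fun w => w ≤ V + a)) (fun w => V + a - w) (by
      intro x hx y hy hxy
      simp only [Finset.coe_filter, Finset.mem_Icc, Set.mem_ofPred_eq] at hx hy hxy
      omega)
  have s2 := h12_geom (g / 8) hr0.le (by linarith)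
    ((Finset.Icc V R).filter (fun w => ¬ w ≤ V + a)) (fun w => w - V - a - 1) (by
      intro x hx y hy hxy
      simp only [Finset.coe_filter, Finset.mem_Icc, Set.mem_ofPred_eq] at hx hy hxy
      omega)
  have s3 : ∑ w ∈ (Finset.Icc V R).filter (fun w => ¬ w ≤ V + a), (g / 8) ^ (w - V - a) =
      (g / 8) * ∑ w ∈ (Finset.Icc V R).filter (fun w => ¬ w ≤ V + a),
        (g / 8) ^ (w - V - a - 1) := by
    rw [Finset.mul_sum]
    refine Finset.sum_congr rfl fun w hw => ?_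
    have hw2 := (Finset.mem_filter.1 hw).2
    rw [← pow_succ']
    congr 1
    omega
  rw [s3]
  have s4 : (g / 8) * ∑ w ∈ (Finset.Icc V R).filter (fun w => ¬ w ≤ V + a),
        (g / 8) ^ (w - V - a - 1) ≤ (g / 8) * (1 / (1 - g / 8)) :=
    mul_le_mul_of_nonneg_left s2 hr0.le
  have s5 : (g / 8) * (1 / (1 - g / 8)) ≤ 2 / 10 := by
    rw [mul_one_div, div_le_iff₀ (by linarith)]
    linarith
  have s6 : (1:ℝ) / (1 - 1 / 8) ≤ 115 / 100 := by norm_num
  have hp : 0 ≤ (g / 8) ^ a := by positivity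
  have s7 : ∑ w ∈ (Finset.Icc V R).filter (fun w => w ≤ V + a), (1 / 8 : ℝ) ^ (V + a - w) +
      (g / 8) * ∑ w ∈ (Finset.Icc V R).filter (fun w => ¬ w ≤ V + a),
        (g / 8) ^ (w - V - a - 1) ≤ 135 / 100 := by linarith
  calc _ ≤ 192 * (g / 8) ^ a * (135 / 100) := mul_le_mul_of_nonneg_left s7 (by positivity)
    _ ≤ _ := by nlinarith

/-- two sided geometric sum -/
lemma h12_two (r : ℝ) (h0 : 0 ≤ r) (h1 : r < 1) (κ : ℕ) (S : Finset ℕ) :
    ∑ v ∈ S, r ^ Nat.dist κ v ≤ 2 / (1 - r) := by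
  classical
  rw [← Finset.sum_filter_add_sum_filter_not S (fun v => v ≤ κ)]
  have s1 := h12_geom r h0 h1 (S.filter (fun v => v ≤ κ)) (fun v => Nat.dist κ v) (by
    intro x hx y hy hxy
    simp only [Finset.coe_filter, Set.mem_ofPred_eq] at hx hy hxy
    unfold Nat.dist at hxy
    omega)
  have s2 := h12_geom r h0 h1 (S.filter (fun v => ¬ v ≤ κ)) (fun v => Nat.dist κ v) (by
    intro x hx y hy hxy
    simp only [Finset.coe_filter, Set.mem_ofPred_eq] at hx hy hxy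
    unfold Nat.dist at hxy
    omega)
  have e : 2 / (1 - r) = 1 / (1 - r) + 1 / (1 - r) := by ring
  rw [e]
  exact add_le_add s1 s2

/-- the sum of the auxiliary weights over the blocks -/
theorem theta_sum (d : ℕ) (hd : 1 ≤ d) : ∃ C : ℝ, 0 < C ∧ ∀ (M : ℕ) (k : Fr d),
    ∑ s ∈ blk d M, ∏ j, (1 / tt d) ^ Nat.dist (kp (k j)) (s j) ≤ C := by
  have h1 := h12_one_lt_tt d hd
  have hr0 : 0 < 1 / tt d := by positivity
  have hr1 : 1 / tt d < 1 := by
    rw [div_lt_one (by linarith)]; exact h1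
  have hpos : 0 < 2 / (1 - 1 / tt d) := div_pos (by norm_num) (by linarith)
  refine ⟨(2 / (1 - 1 / tt d)) ^ d, by positivity, fun M k => ?_⟩
  have hsub : blk d M ⊆ Fintype.piFinset (fun _ : Fin d => Finset.range (M + 1)) := by
    intro s hs
    rw [mem_blk] at hs
    rw [Fintype.mem_piFinset]
    intro j
    rw [Finset.mem_range, Nat.lt_succ_iff, ← hs]
    exact Finset.single_le_sum (f := fun j => s j) (fun _ _ => Nat.zero_le _) (Finset.mem_univ j)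
  calc ∑ s ∈ blk d M, ∏ j, (1 / tt d) ^ Nat.dist (kp (k j)) (s j)
      ≤ ∑ s ∈ Fintype.piFinset (fun _ : Fin d => Finset.range (M + 1)),
        ∏ j, (1 / tt d) ^ Nat.dist (kp (k j)) (s j) := by
        refine Finset.sum_le_sum_of_subset_of_nonneg hsub fun s _ _ => ?_
        exact Finset.prod_nonneg fun j _ => pow_nonneg hr0.le _
    _ = ∏ j, ∑ v ∈ Finset.range (M + 1), (1 / tt d) ^ Nat.dist (kp (k j)) v := by
        rw [Finset.prod_univ_sum]
    _ ≤ ∏ _j : Fin d, 2 / (1 - 1 / tt d) := by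
        refine Finset.prod_le_prod (fun j _ => Finset.sum_nonneg fun v _ => pow_nonneg hr0.le _)
          fun j _ => h12_two _ hr0.le hr1 _ _
    _ = _ := by rw [Finset.prod_const, Finset.card_univ, Fintype.card_fin]

lemma h12_kp_count (R κ : ℕ) : (((Finset.Icc (-(8 : ℤ) ^ R) (8 ^ R)).filter
    (fun x => kp x = κ)).card : ℝ) ≤ 3 * 8 ^ κ := by
  have hsub : (Finset.Icc (-(8 : ℤ) ^ R) (8 ^ R)).filter (fun x => kp x = κ) ⊆
      Finset.Icc (-(8 : ℤ) ^ κ) (8 ^ κ) := by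
    intro x hx
    have h := (Finset.mem_filter.1 hx).2
    have h1 := h12_abs_le_kp x
    rw [h, abs_le] at h1
    rw [Finset.mem_Icc]
    exact h1
  have h2 := Finset.card_le_card hsub
  have h3 : (Finset.Icc (-(8 : ℤ) ^ κ) (8 ^ κ)).card = 2 * 8 ^ κ + 1 := by
    rw [Int.card_Icc]
    have : (8:ℤ) ^ κ + 1 - -(8:ℤ) ^ κ = ((2 * 8 ^ κ + 1 : ℕ) : ℤ) := by push_cast; ring
    rw [this, Int.toNat_natCast]
  rw [h3] at h2
  have h4 : (1:ℝ) ≤ 8 ^ κ := one_le_pow₀ (by norm_num)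
  have h5 : (((Finset.Icc (-(8 : ℤ) ^ R) (8 ^ R)).filter (fun x => kp x = κ)).card : ℝ) ≤
      2 * 8 ^ κ + 1 := by exact_mod_cast h2
  linarith

/-- the one dimensional near sum -/
lemma h12_near1 (g : ℝ) (hg1 : 1 ≤ g) (hg2 : g ≤ 106 / 100) (R s : ℕ) :
    ∑ x ∈ Finset.Icc (-(8 : ℤ) ^ R) (8 ^ R),
      g ^ Nat.dist (kp x) s * (g / 8) ^ (2 * (kp x - s)) ≤ 5 * 8 ^ s := by
  classical
  have hr0 : 0 < g / 8 := by positivity
  have hg3 : g ^ 3 ≤ 12 / 10 := by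
    calc g ^ 3 ≤ (106 / 100) ^ 3 := pow_le_pow_left₀ (by linarith) hg2 3
      _ ≤ 12 / 10 := by norm_num
  have hg30 : 0 < g ^ 3 / 8 := by positivity
  have hmap : ∀ x ∈ Finset.Icc (-(8 : ℤ) ^ R) (8 ^ R), kp x ∈ Finset.range (R + 1) := by
    intro x hx
    rw [Finset.mem_range, Nat.lt_succ_iff]
    apply h12_kp_le
    rw [abs_le]
    exact Finset.mem_Icc.1 hx
  rw [← Finset.sum_fiberwise_of_maps_to hmap]
  have h1 : ∀ κ ∈ Finset.range (R + 1),
      ∑ x ∈ (Finset.Icc (-(8 : ℤ) ^ R) (8 ^ R)).filter (fun x => kp x = κ),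
        g ^ Nat.dist (kp x) s * (g / 8) ^ (2 * (kp x - s)) ≤
      3 * 8 ^ s * ((if κ ≤ s then (g / 8) ^ (s - κ) else 0) +
        (if κ ≤ s then 0 else (g ^ 3 / 8) ^ (κ - s))) := by
    intro κ _
    have e1 : ∑ x ∈ (Finset.Icc (-(8 : ℤ) ^ R) (8 ^ R)).filter (fun x => kp x = κ),
        g ^ Nat.dist (kp x) s * (g / 8) ^ (2 * (kp x - s)) =
        (((Finset.Icc (-(8 : ℤ) ^ R) (8 ^ R)).filter (fun x => kp x = κ)).card : ℝ) *
          (g ^ Nat.dist κ s * (g / 8) ^ (2 * (κ - s))) := by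
      rw [← nsmul_eq_mul]
      refine Finset.sum_eq_card_nsmul fun x hx => ?_
      rw [(Finset.mem_filter.1 hx).2]
    rw [e1]
    have h2 := mul_le_mul_of_nonneg_right (h12_kp_count R κ)
      (by positivity : 0 ≤ g ^ Nat.dist κ s * (g / 8) ^ (2 * (κ - s)))
    refine h2.trans (le_of_eq ?_)
    by_cases hκ : κ ≤ s
    · rw [if_pos hκ, if_pos hκ, add_zero]
      obtain ⟨b, hb⟩ : ∃ b, s = κ + b := ⟨s - κ, by omega⟩
      have e2 : Nat.dist κ s = b := by unfold Nat.dist; omega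
      have e3 : κ - s = 0 := by omega
      have e4 : s - κ = b := by omega
      rw [e2, e3, e4, hb, mul_zero, pow_zero, mul_one, pow_add, div_pow]
      field_simp
    · rw [if_neg hκ, if_neg hκ, zero_add]
      obtain ⟨b, hb⟩ : ∃ b, κ = s + b := ⟨κ - s, by omega⟩
      have e2 : Nat.dist κ s = b := by unfold Nat.dist; omega
      have e3 : κ - s = b := by omega
      rw [e2, e3, hb]
      have e5 : (8:ℝ) ^ (s + b) * (g ^ b * (g / 8) ^ (2 * b)) = 8 ^ s * (g ^ 3 / 8) ^ b := by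
        rw [pow_add, pow_mul, mul_assoc, ← mul_pow, ← mul_pow]
        congr 2
        field_simp
      rw [mul_assoc, mul_assoc, e5]
  refine (Finset.sum_le_sum h1).trans ?_
  rw [← Finset.mul_sum, Finset.sum_add_distrib, ← Finset.sum_filter]
  have e4 : ∑ κ ∈ Finset.range (R + 1), (if κ ≤ s then (0:ℝ) else (g ^ 3 / 8) ^ (κ - s)) =
      ∑ κ ∈ (Finset.range (R + 1)).filter (fun κ => ¬ κ ≤ s), (g ^ 3 / 8) ^ (κ - s) := by
    rw [Finset.sum_filter]
    refine Finset.sum_congr rfl fun w _ => ?_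
    by_cases hw : w ≤ s
    · rw [if_pos hw, if_neg (not_not.2 hw)]
    · rw [if_neg hw, if_pos hw]
  rw [e4]
  have s1 := h12_geom (g / 8) hr0.le (by linarith)
    ((Finset.range (R + 1)).filter (fun κ => κ ≤ s)) (fun κ => s - κ) (by
      intro x hx y hy hxy
      simp only [Finset.coe_filter, Set.mem_ofPred_eq] at hx hy hxy
      omega)
  have s2 := h12_geom (g ^ 3 / 8) hg30.le (by linarith)
    ((Finset.range (R + 1)).filter (fun κ => ¬ κ ≤ s)) (fun κ => κ - s - 1) (by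
      intro x hx y hy hxy
      simp only [Finset.coe_filter, Set.mem_ofPred_eq] at hx hy hxy
      omega)
  have s3 : ∑ κ ∈ (Finset.range (R + 1)).filter (fun κ => ¬ κ ≤ s), (g ^ 3 / 8) ^ (κ - s) =
      (g ^ 3 / 8) * ∑ κ ∈ (Finset.range (R + 1)).filter (fun κ => ¬ κ ≤ s),
        (g ^ 3 / 8) ^ (κ - s - 1) := by
    rw [Finset.mul_sum]
    refine Finset.sum_congr rfl fun w hw => ?_
    have hw2 := (Finset.mem_filter.1 hw).2
    rw [← pow_succ']
    congr 1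
    omega
  rw [s3]
  have s4 : (g ^ 3 / 8) * ∑ κ ∈ (Finset.range (R + 1)).filter (fun κ => ¬ κ ≤ s),
        (g ^ 3 / 8) ^ (κ - s - 1) ≤ (g ^ 3 / 8) * (1 / (1 - g ^ 3 / 8)) :=
    mul_le_mul_of_nonneg_left s2 hg30.le
  have s5 : (g ^ 3 / 8) * (1 / (1 - g ^ 3 / 8)) ≤ 2 / 10 := by
    rw [mul_one_div, div_le_iff₀ (by linarith)]
    linarith
  have s6 : (1:ℝ) / (1 - g / 8) ≤ 12 / 10 := by
    rw [div_le_iff₀ (by linarith)]
    linarith
  have hp : (0:ℝ) < 8 ^ s := by positivity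
  have hp3 : (0:ℝ) ≤ 3 * 8 ^ s := by positivity
  refine (mul_le_mul_of_nonneg_left (add_le_add (s1.trans s6) (s4.trans s5)) hp3).trans ?_
  linarith

end Pool.Agent.H75.MX
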