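import Pool.Agent.H75.MX.Proc

set_option autoImplicit false
set_option linter.unusedSectionVars false

/-! The union over the sets of frequencies. -/

open Finset ComplexConjugate MeasureTheory UnitAddTorus

namespace Pool.Agent.H75.MX

open Pool.Agent.H75.MT (ee sg ext bsum nbad count_many bsum_le exp_bound)
open Pool.Agent.H75.UB (ex TT co tp)

noncomputable section

variable {d : ℕ}

lemma card_small' {α : Type*} (r : ℕ) (X : Finset α) :
    #(X.powerset.filter (fun D => #D ≤ r)) ≤ bsum #X r := by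
  classical
  have h1 : X.powerset.filter (fun D => #D ≤ r)
      ⊆ (Finset.Iic r).biUnion (fun k => X.powersetCard k) := by
    intro D hD
    simp only [mem_filter, mem_powerset] at hD
    simp only [mem_biUnion, mem_Iic, mem_powersetCard]
    exact ⟨#D, hD.2, hD.1, rfl⟩
  refine (Finset.card_le_card h1).trans (Finset.card_biUnion_le.trans ?_)
  unfold bsum
  refine Finset.sum_le_sum (fun k _ => ?_)
  rw [Finset.card_powersetCard]

lemma bsum_mono_left {N N' : ℕ} (h : N ≤ N') (r : ℕ) : bsum N r ≤ bsum N' r := by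
  unfold bsum
  exact Finset.sum_le_sum (fun k _ => Nat.choose_le_choose k h)

lemma exp_two : Real.exp ((2 : ℕ) : ℝ) ≤ 2 ^ 3 := by
  have h1 : Real.exp ((2 : ℕ) : ℝ) = Real.exp 1 ^ 2 := by
    rw [← Real.exp_nat_mul]
    norm_num
  rw [h1]
  have h2 := Real.exp_one_lt_d9
  have h3 := Real.exp_pos 1
  nlinarith

/-- the number of bad sign vectors in one step -/
lemma bsum_step (w : ℕ) : bsum (64 * w) w ≤ 2 ^ (8 * w) := by
  have h1 := bsum_le (64 * w) w (1 / 64) (by norm_num) (by norm_num)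
  have h2 : (((64 * w : ℕ) : ℝ) * (1 / 64)) = ((w : ℕ) : ℝ) := by
    push_cast
    ring
  rw [h2] at h1
  have h3 : (1 / (1 / 64) : ℝ) ^ w = 2 ^ (6 * w) := by
    rw [one_div_one_div, show (64 : ℝ) = 2 ^ 6 by norm_num, ← pow_mul]
  rw [h3] at h1
  have h4 : Real.exp (w : ℝ) ≤ 2 ^ (2 * w) := by
    have h5 : Real.exp (w : ℝ) = Real.exp 1 ^ w := by
      rw [← Real.exp_nat_mul, mul_one]
    rw [h5, pow_mul]
    refine pow_le_pow_left₀ (Real.exp_pos _).le ?_ w
    have := Real.exp_one_lt_d9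
    linarith
  have h6 : (bsum (64 * w) w : ℝ) ≤ ((2 ^ (8 * w) : ℕ) : ℝ) := by
    refine h1.trans ?_
    have h7 := mul_le_mul_of_nonneg_right h4 (show (0 : ℝ) ≤ 2 ^ (6 * w) by positivity)
    refine h7.trans (le_of_eq ?_)
    rw [← pow_add]
    push_cast
    congr 1
    ring
  exact_mod_cast h6

/-- the number of sets of frequencies -/
lemma bsum_union (d M L w B : ℕ) (hw : 64 * w = 2 ^ d * 8 ^ M)
    (hB : B * (32768 * (d + 3)) ≤ L * (2 ^ d * 8 ^ M)) :
    bsum (L * (10 ^ d * 8 ^ M)) B ≤ 2 ^ (2 * w * L) := by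
  have h1 := bsum_le (L * (10 ^ d * 8 ^ M)) B (1 / (64 * 5 ^ d)) (by positivity) (by
    rw [div_le_one (by positivity)]
    have : (1 : ℝ) ≤ 5 ^ d := one_le_pow₀ (by norm_num)
    linarith)
  have hw' : (64 : ℝ) * w = 2 ^ d * 8 ^ M := by exact_mod_cast hw
  have h2 : (((L * (10 ^ d * 8 ^ M) : ℕ) : ℝ) * (1 / (64 * 5 ^ d))) = ((w * L : ℕ) : ℝ) := by
    have h10 : (10 : ℝ) ^ d = 2 ^ d * 5 ^ d := by
      rw [← mul_pow]
      norm_num
    push_cast
    rw [h10]
    have h5 : (5 : ℝ) ^ d ≠ 0 := by positivity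
    field_simp
    linear_combination (-(L : ℝ)) * hw'
  rw [h2, one_div_one_div] at h1
  have h3 : (64 * 5 ^ d : ℝ) ≤ 2 ^ (3 * (d + 3)) := by
    have h4 : (5 : ℝ) ^ d ≤ 8 ^ d := pow_le_pow_left₀ (by norm_num) (by norm_num) d
    have h5 : (2 : ℝ) ^ (3 * (d + 3)) = 8 ^ d * 512 := by
      rw [pow_mul, pow_add]
      norm_num
    rw [h5]
    have : (0 : ℝ) < 8 ^ d := by positivity
    linarith
  have h6 : (64 * 5 ^ d : ℝ) ^ B ≤ 2 ^ (3 * (d + 3) * B) := by
    rw [pow_mul]
    exact pow_le_pow_left₀ (by positivity) h3 B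
  have hsq : ((bsum (L * (10 ^ d * 8 ^ M)) B : ℕ) : ℝ) ^ 2 ≤ ((2 : ℝ) ^ (2 * w * L)) ^ 2 := by
    have h7 := pow_le_pow_left₀ (Nat.cast_nonneg _) (h1.trans
      (mul_le_mul_of_nonneg_left h6 (Real.exp_pos _).le)) 2
    refine h7.trans ?_
    rw [mul_pow, ← Real.exp_nat_mul]
    have h8 := exp_bound 2 3 (w * L) exp_two
    have h9 : ((2 : ℕ) : ℝ) * ((w * L : ℕ) : ℝ) = ((2 * (w * L) : ℕ) : ℝ) := by
      push_cast
      ring
    rw [h9]
    refine (mul_le_mul_of_nonneg_right h8 (by positivity)).trans ?_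
    rw [← pow_mul, ← pow_add, ← pow_mul]
    refine pow_le_pow_right₀ (by norm_num) ?_
    rw [← hw] at hB
    nlinarith
  have h10 := (sq_le_sq₀ (Nat.cast_nonneg _) (by positivity)).1 hsq
  exact_mod_cast h10

section Fam

variable {Y : Type*} [Fintype Y] [DecidableEq Y] (S : ℕ → Fin d → ℕ) (e : ∀ i, Y ≃ Gd (S i))
  (q R n : ℕ) (ρ : ℝ) (L n2 B : ℕ)

open Classical in
/-- all spectra -/
def bigS : Finset (Fr d) := (Finset.range L).biUnion (fun i => SB (S i))

open Classical in
/-- parameters from a set of frequencies -/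
def pL (Lam : Finset (Fr d)) : PP d :=
  fun i => if i < L ∧ #(Lam.filter (fun k => k ∈ SB (S i))) ≤ n2
    then some (Lam.filter (fun k => k ∈ SB (S i))) else none

open Classical in
/-- the exceptional sign sequences -/
def BadU : Finset (Fin L → Finset Y) :=
  ((bigS S L).powerset.filter (fun D => #D ≤ B)).biUnion (fun Lam =>
    univ.filter (fun ε : Fin L → Finset Y => L / 8 + 1
      ≤ nbad (sst S e q R n ρ (pL S L n2 Lam)) (badK S e q R n n2 (pL S L n2 Lam)) L (ext ε)))

variable {S e q R n ρ L n2 B}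

lemma pL_some {Lam : Finset (Fr d)} {i : ℕ} {lam : Finset (Fr d)}
    (h : pL S L n2 Lam i = some lam) :
    i < L ∧ lam = Lam.filter (fun k => k ∈ SB (S i)) ∧ lam.card ≤ n2 := by
  classical
  unfold pL at h
  split_ifs at h with h1
  rw [Option.some_inj] at h
  refine ⟨h1.1, ?_, ?_⟩
  · rw [← h]
  · rw [← h]
    convert h1.2

lemma pL_lt {Lam : Finset (Fr d)} {i : ℕ} (h : pL S L n2 Lam i ≠ none) : i < L := by
  obtain ⟨lam, hlam⟩ := Option.ne_none_iff_exists'.1 h
  exact (pL_some hlam).1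

open Classical in
lemma pL_inter (Lam : Finset (Fr d)) :
    pL S L n2 (Lam.filter (fun k => k ∈ bigS S L)) = pL S L n2 Lam := by
  funext i
  unfold pL
  by_cases hi : i < L
  · have h1 : (Lam.filter (fun k => k ∈ bigS S L)).filter (fun k => k ∈ SB (S i))
        = Lam.filter (fun k => k ∈ SB (S i)) := by
      ext k
      simp only [mem_filter]
      constructor
      · rintro ⟨⟨h2, -⟩, h3⟩
        exact ⟨h2, h3⟩
      · rintro ⟨h2, h3⟩
        refine ⟨⟨h2, ?_⟩, h3⟩
        unfold bigS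
        rw [mem_biUnion]
        exact ⟨i, mem_range.2 hi, h3⟩
    rw [h1]
  · rw [if_neg (fun h => hi h.1), if_neg (fun h => hi h.1)]

open Classical in
lemma BadU_card (hd : 1 ≤ d) {M w : ℕ} (hS : ∀ i, ∑ j, S i j = M) (hn : 16 ≤ n)
    (hn2 : 16 * (2 * n2 + 2 + Fintype.card (Trk d q R)
      + 8 * Fintype.card (Trk d q R) * Fintype.card (Trk d q R)) ≤ n)
    (hw : 64 * w = 2 ^ d * 8 ^ M) (hw1 : 1 ≤ w) (hnw : n = w) (hL : 1 ≤ L)
    (hB : B * (32768 * (d + 3)) ≤ L * (2 ^ d * 8 ^ M)) :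
    4 * #(BadU S e q R n ρ L n2 B) ≤ (2 ^ Fintype.card Y) ^ L := by
  have hY : Fintype.card Y = 64 * w := by
    rw [card_Y (S 0) (e 0), hS 0, hw]
  have hb : bsum (Fintype.card Y) n ≤ 2 ^ (8 * w) := by
    rw [hY, hnw]
    exact bsum_step w
  have hbig : #(bigS S L) ≤ L * (10 ^ d * 8 ^ M) := by
    unfold bigS
    refine Finset.card_biUnion_le.trans ?_
    refine (Finset.sum_le_sum (g := fun _ => 10 ^ d * 8 ^ M) (fun i _ => ?_)).trans ?_
    · have := card_SB (S i)
      rwa [hS i] at this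
    · rw [Finset.sum_const, card_range, smul_eq_mul]
  have hfam : #((bigS S L).powerset.filter (fun D => #D ≤ B)) ≤ 2 ^ (2 * w * L) :=
    (card_small' B (bigS S L)).trans ((bsum_mono_left hbig B).trans
      (bsum_union d M L w B hw hB))
  have hone : ∀ Lam ∈ (bigS S L).powerset.filter (fun D => #D ≤ B),
      #(univ.filter (fun ε : Fin L → Finset Y => L / 8 + 1
      ≤ nbad (sst S e q R n ρ (pL S L n2 Lam)) (badK S e q R n n2 (pL S L n2 Lam)) L (ext ε)))
        * 2 ^ (7 * w * L + 7 * w) ≤ 2 ^ (64 * w * L) * 2 ^ L := by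
    intro Lam _
    have h1 := many_bad (S := S) (e := e) (q := q) (R := R) (n := n) (ρ := ρ) hd hn hn2 hY hb
      (pL S L n2 Lam) L (L / 8 + 1)
    refine le_trans (Nat.mul_le_mul_left _ (Nat.pow_le_pow_right (by norm_num) ?_)) h1
    have h2 : L + 1 ≤ 8 * (L / 8 + 1) := by omega
    have h3 : 7 * w * (L + 1) ≤ 7 * w * (8 * (L / 8 + 1)) := Nat.mul_le_mul_left _ h2
    calc 7 * w * L + 7 * w = 7 * w * (L + 1) := by ring
      _ ≤ 7 * w * (8 * (L / 8 + 1)) := h3
      _ = 56 * w * (L / 8 + 1) := by ring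
  have hsum : #(BadU S e q R n ρ L n2 B) * 2 ^ (7 * w * L + 7 * w)
      ≤ 2 ^ (2 * w * L) * (2 ^ (64 * w * L) * 2 ^ L) := by
    unfold BadU
    have h4 := Finset.card_biUnion_le (s := (bigS S L).powerset.filter (fun D => #D ≤ B))
      (t := fun Lam => univ.filter (fun ε : Fin L → Finset Y => L / 8 + 1
      ≤ nbad (sst S e q R n ρ (pL S L n2 Lam)) (badK S e q R n n2 (pL S L n2 Lam)) L (ext ε)))
    refine (Nat.mul_le_mul_right _ h4).trans ?_
    rw [Finset.sum_mul]
    refine (Finset.sum_le_sum hone).trans ?_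
    rw [Finset.sum_const, smul_eq_mul]
    exact Nat.mul_le_mul_right _ hfam
  have hwL : w ≤ w * L := Nat.le_mul_of_pos_right w hL
  have hLw : L ≤ w * L := Nat.le_mul_of_pos_left L hw1
  have hpos : 0 < 2 ^ (7 * w * L + 7 * w) := by positivity
  refine Nat.le_of_mul_le_mul_right ?_ hpos
  rw [hY, ← pow_mul]
  calc 4 * #(BadU S e q R n ρ L n2 B) * 2 ^ (7 * w * L + 7 * w)
      = 4 * (#(BadU S e q R n ρ L n2 B) * 2 ^ (7 * w * L + 7 * w)) := by ring
    _ ≤ 4 * (2 ^ (2 * w * L) * (2 ^ (64 * w * L) * 2 ^ L)) := Nat.mul_le_mul_left _ hsum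
    _ = 2 ^ (2 + (2 * w * L + (64 * w * L + L))) := by
        rw [pow_add, pow_add, pow_add]
        norm_num
    _ ≤ 2 ^ (64 * w * L + (7 * w * L + 7 * w)) := by
        refine Nat.pow_le_pow_right (by norm_num) ?_
        nlinarith
    _ = 2 ^ (64 * w * L) * 2 ^ (7 * w * L + 7 * w) := by rw [pow_add]

open Classical in
/-- outcome of the random construction -/
theorem good_factors (hd : 1 ≤ d) {M : ℕ} (hM : M = 4 * d * q) (hR : R = M + q)
    (hL5 : 5 * L ≤ 8 ^ q) (hS : ∀ i, ∑ j, S i j = M)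
    (hinj : ∀ i < L, ∀ j < L, S i = S j → i = j) (hρ : 0 ≤ ρ) (hn2 : 1 ≤ n2)
    (hB : n2 * 4096 = 2 ^ d * 8 ^ M)
    (ε : Fin L → Finset Y) (hε : ε ∉ BadU S e q R n ρ L n2 B) (Lam : Finset (Fr d))
    (hLam : #Lam ≤ B) (hLB : B * 32768 ≤ L * (2 ^ d * 8 ^ M)) :
    ∃ (G : Finset ℕ) (c : ℕ → Fr d → ℂ), CSeq d q M R L S ρ c (fun i => co (st S ρ c i)) ∧
      3 * L ≤ 4 * #G ∧ (∀ i ∈ G, i < L) ∧ (∀ i, i ∉ G → ∀ k, c i k = 0) ∧
      (∀ i < L, ∀ x : Fin d → ℝ, (∑ k ∈ SB (S i), ex k x * c i k).im = 0 ∧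
        |(∑ k ∈ SB (S i), ex k x * c i k).re| ≤ 1) ∧
      (∀ i < L, cv (S i) (c i) (co (st S ρ c i)) 0 = 0) ∧
      (∀ i ∈ G, kc d * n / (17 * (Fintype.card Y : ℝ))
        ≤ (∑ k ∈ Rm (S i), aa S e (ext ε) i k * conj (c i k)).re) ∧
      (∀ i < L, ∀ k ∈ Lam, c i k = 0) := by
  set p : PP d := pL S L n2 Lam with hp
  have hplt : ∀ i, p i ≠ none → i < L := fun i hi => pL_lt hi
  refine ⟨GK S e q R n ρ L p (ext ε), ccf S e q R n ρ p (ext ε),
    cseq_of_process hM hR hL5 hS hinj hρ p hplt (ext ε), ?_, ?_, ?_, ?_, ?_, ?_, ?_⟩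
  · have h1 := card_GK (S := S) (e := e) (q := q) (R := R) (n := n) (ρ := ρ) (L := L) p
      (fun i lam hlam => (pL_some hlam).2.2) (ext ε)
    have h2 : nbad (sst S e q R n ρ p) (badK S e q R n n2 p) L (ext ε) ≤ L / 8 := by
      by_contra hcon
      push Not at hcon
      apply hε
      unfold BadU
      rw [mem_biUnion]
      refine ⟨Lam.filter (fun k => k ∈ bigS S L), ?_, ?_⟩
      · rw [mem_filter, mem_powerset]
        refine ⟨?_, (Finset.card_filter_le _ _).trans hLam⟩
        intro k hk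
        exact (mem_filter.1 hk).2
      · rw [mem_filter, pL_inter]
        exact ⟨mem_univ _, hcon⟩
    have h3 : L ≤ #((Finset.range L).filter (fun i => p i ≠ none))
        + #((Finset.range L).filter (fun i => n2 < #(Lam.filter (fun k => k ∈ SB (S i))))) := by
      refine le_trans (le_of_eq (card_range L).symm)
        (le_trans (Finset.card_le_card ?_) (Finset.card_union_le _ _))
      intro i hi
      rw [mem_range] at hi
      rw [mem_union, mem_filter, mem_filter, mem_range]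
      by_cases h4 : #(Lam.filter (fun k => k ∈ SB (S i))) ≤ n2
      · left
        refine ⟨hi, ?_⟩
        rw [hp]
        unfold pL
        rw [if_pos ⟨hi, h4⟩]
        simp
      · right
        exact ⟨hi, by omega⟩
    have h5 : 8 * #((Finset.range L).filter
        (fun i => n2 < #(Lam.filter (fun k => k ∈ SB (S i))))) ≤ L := by
      set I := (Finset.range L).filter (fun i => n2 < #(Lam.filter (fun k => k ∈ SB (S i))))
        with hI
      have h6 : #I * n2 ≤ #Lam := by
        have h7 : ∑ i ∈ I, #(Lam.filter (fun k => k ∈ SB (S i))) ≤ #Lam := by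
          rw [← Finset.card_biUnion]
          · refine Finset.card_le_card ?_
            intro k hk
            rw [mem_biUnion] at hk
            obtain ⟨i, -, hk⟩ := hk
            exact (mem_filter.1 hk).1
          · intro i hi j hj hij
            refine Finset.disjoint_left.2 ?_
            intro k hk hk'
            rw [mem_filter] at hk hk'
            have hi' := mem_range.1 (mem_filter.1 hi).1
            have hj' := mem_range.1 (mem_filter.1 hj).1
            have hne : S i ≠ S j := fun h => hij (hinj i hi' j hj' h)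
            exact (Finset.disjoint_left.1 (SB_disjoint hne)) hk.2 hk'.2
        refine le_trans ?_ h7
        rw [← smul_eq_mul, ← Finset.sum_const]
        refine Finset.sum_le_sum (fun i hi => ?_)
        exact (mem_filter.1 hi).2.le
      have h8 : #I * n2 * 32768 ≤ L * (n2 * 4096) := by
        rw [hB]
        exact (Nat.mul_le_mul_right _ (h6.trans hLam)).trans hLB
      have h9 : 8 * #I * (n2 * 4096) ≤ L * (n2 * 4096) := by
        calc 8 * #I * (n2 * 4096) = #I * n2 * 32768 := by ring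
          _ ≤ _ := h8
      exact Nat.le_of_mul_le_mul_right h9 (by omega)
    have h10 : #((Finset.range L).filter (fun i => p i ≠ none))
        ≤ #(GK S e q R n ρ L p (ext ε)) + L / 8 := by
      refine le_trans ?_ (h1.trans (Nat.add_le_add_left h2 _))
      exact le_of_eq (by congr)
    omega
  · intro i hi
    unfold GK at hi
    exact mem_range.1 (mem_filter.1 hi).1
  · intro i hi k
    exact ccf_zero hplt hi k
  · intro i _ x
    by_cases hi : i ∈ GK S e q R n ρ L p (ext ε)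
    · obtain ⟨lam, -, hV⟩ := GK_spec hi
      exact hV.v1 x
    · have h1 : ∑ k ∈ SB (S i), ex k x * ccf S e q R n ρ p (ext ε) i k = 0 :=
        Finset.sum_eq_zero (fun k _ => by rw [ccf_zero hplt hi, mul_zero])
      rw [h1]
      simp
  · intro i _
    by_cases hi : i ∈ GK S e q R n ρ L p (ext ε)
    · obtain ⟨lam, -, hV⟩ := GK_spec hi
      exact hV.v5
    · exact cv_zero' _ _ _ (ccf_zero hplt hi) 0
  · intro i hi
    obtain ⟨lam, -, hV⟩ := GK_spec hi
    exact hV.v4
  · intro i hiL k hk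
    by_cases hi : i ∈ GK S e q R n ρ L p (ext ε)
    · obtain ⟨lam, hlam, hV⟩ := GK_spec hi
      by_cases hkS : k ∈ SB (S i)
      · refine hV.v3 k ?_
        rw [(pL_some hlam).2.1, mem_filter]
        exact ⟨hk, hkS⟩
      · exact hV.v2 k hkS
    · exact ccf_zero hplt hi k

end Fam

end

end Pool.Agent.H75.MX
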