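import Pool.Agent.H75.MX.Defs

set_option autoImplicit false
set_option linter.unusedSectionVars false

/-! A volume pigeonhole for linear images of a convex body. -/

open Finset Pointwise

namespace Pool.Agent.H75.MX

open MeasureTheory

theorem vol_pigeon_aux {W : Type*} [NormedAddCommGroup W] [NormedSpace ℝ W]
    [FiniteDimensional ℝ W] (K : Set W) (hconv : Convex ℝ K)
    (hcomp : IsCompact K) (hint : K ∈ nhds (0 : W))
    {P : Type*} (X : Finset P) (p : P → W) (hX : ∀ x ∈ X, p x ∈ K) :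
    ∃ z : W, ∃ X' ⊆ X, #X ≤ 17 ^ Module.finrank ℝ W * #X' ∧
      ∀ x ∈ X', ∃ k ∈ K, z = p x + (1 / 16 : ℝ) • k := by
  classical
  let _ : MeasurableSpace W := borel W
  have _ : BorelSpace W := ⟨rfl⟩
  have _ : ProperSpace W := FiniteDimensional.proper_real W
  set μ : Measure W := Measure.addHaar with hμ
  set D := Module.finrank ℝ W with hD
  rcases X.eq_empty_or_nonempty with hXe | hXne
  · subst hXe
    exact ⟨0, ∅, by simp, by simp, by simp⟩
  have hpos : 0 < μ K := Measure.measure_pos_of_mem_nhds μ hint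
  have hfin : μ K ≠ ⊤ := hcomp.measure_lt_top.ne
  have hKm : MeasurableSet K := hcomp.isClosed.measurableSet
  have hKs : MeasurableSet ((1 / 16 : ℝ) • K) := (hcomp.smul (1 / 16 : ℝ)).isClosed.measurableSet
  have hKt : MeasurableSet ((17 / 16 : ℝ) • K) := (hcomp.smul (17 / 16 : ℝ)).isClosed.measurableSet
  set S : P → Set W := fun x => (fun z => -p x + z) ⁻¹' ((1 / 16 : ℝ) • K) with hS
  have hSmeas : ∀ x, MeasurableSet (S x) := fun x => (measurable_const_add (-p x)) hKs
  have hSm : ∀ x, μ (S x) = ENNReal.ofReal ((1 / 16 : ℝ) ^ D) * μ K := by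
    intro x
    rw [hS]
    simp only
    rw [measure_preimage_add, Measure.addHaar_smul, abs_of_nonneg (by positivity)]
  have hsub : ∀ x ∈ X, S x ⊆ (17 / 16 : ℝ) • K := by
    intro x hx z hz
    obtain ⟨k, hk, hkz⟩ := hz
    simp only at hkz
    have hz' : z = p x + (1 / 16 : ℝ) • k := by rw [hkz]; abel
    have hmem : (16 / 17 : ℝ) • p x + (1 / 17 : ℝ) • k ∈ K :=
      hconv (hX x hx) hk (by norm_num) (by norm_num) (by norm_num)
    refine ⟨_, hmem, ?_⟩
    simp only
    rw [hz', smul_add, smul_smul, smul_smul]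
    norm_num
  set T : Set W := (17 / 16 : ℝ) • K with hT
  have hTm : μ T = ENNReal.ofReal ((17 / 16 : ℝ) ^ D) * μ K := by
    rw [hT, Measure.addHaar_smul, abs_of_nonneg (by positivity)]
  by_contra hcon
  push Not at hcon
  -- counting
  have hcount : ∀ z : W, 17 ^ D * #(X.filter (fun x => z ∈ S x)) < #X := by
    intro z
    by_contra hge
    push Not at hge
    obtain ⟨x, hx, hx'⟩ := hcon z (X.filter (fun x => z ∈ S x)) (filter_subset _ _) hge
    rw [mem_filter] at hx
    obtain ⟨k, hk, hkz⟩ := hx.2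
    simp only at hkz
    exact hx' k hk (by rw [hkz]; abel)
  have hcardpos : 0 < #X := hXne.card_pos
  have hle : ∀ z : W, (17 : ENNReal) ^ D * ∑ x ∈ X, (S x).indicator 1 z
      ≤ T.indicator (fun _ => ((#X - 1 : ℕ) : ENNReal)) z := by
    intro z
    by_cases hz : z ∈ T
    · rw [Set.indicator_of_mem hz]
      have h1 : ∑ x ∈ X, (S x).indicator (1 : W → ENNReal) z
          = ((#(X.filter (fun x => z ∈ S x)) : ℕ) : ENNReal) := by
        rw [card_filter]
        push_cast
        refine sum_congr rfl fun x _ => ?_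
        by_cases h : z ∈ S x
        · simp [h]
        · simp [h]
      rw [h1]
      have h2 := hcount z
      have h3 : 17 ^ D * #(X.filter (fun x => z ∈ S x)) ≤ #X - 1 := by omega
      calc (17 : ENNReal) ^ D * ((#(X.filter (fun x => z ∈ S x)) : ℕ) : ENNReal)
          = ((17 ^ D * #(X.filter (fun x => z ∈ S x)) : ℕ) : ENNReal) := by push_cast; ring
        _ ≤ _ := by exact_mod_cast h3
    · rw [Set.indicator_of_notMem hz]
      have h1 : ∑ x ∈ X, (S x).indicator (1 : W → ENNReal) z = 0 := by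
        refine sum_eq_zero fun x hx => ?_
        rw [Set.indicator_of_notMem]
        exact fun h => hz (hsub x hx h)
      rw [h1, mul_zero]
  have hint1 : ∫⁻ z, (17 : ENNReal) ^ D * ∑ x ∈ X, (S x).indicator 1 z ∂μ
      = (17 : ENNReal) ^ D * (#X * (ENNReal.ofReal ((1 / 16 : ℝ) ^ D) * μ K)) := by
    rw [lintegral_const_mul]
    · rw [lintegral_finsetSum]
      · congr 1
        rw [sum_congr rfl (fun x _ => lintegral_indicator_one (hSmeas x)),
          sum_congr rfl (fun x _ => hSm x), sum_const, nsmul_eq_mul]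
      · intro x _
        exact measurable_one.indicator (hSmeas x)
    · exact Finset.measurable_fun_sum _ fun x _ => measurable_one.indicator (hSmeas x)
  have hint2 : ∫⁻ z, T.indicator (fun _ => ((#X - 1 : ℕ) : ENNReal)) z ∂μ
      = ((#X - 1 : ℕ) : ENNReal) * (ENNReal.ofReal ((17 / 16 : ℝ) ^ D) * μ K) := by
    rw [lintegral_indicator_const hKt, hTm]
  have hfinal := lintegral_mono (μ := μ) hle
  rw [hint1, hint2] at hfinal
  have hr : ((17 : ℝ) ^ D * (#X * ((1 / 16 : ℝ) ^ D * (μ K).toReal)))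
      ≤ ((#X - 1 : ℕ) : ℝ) * ((17 / 16 : ℝ) ^ D * (μ K).toReal) := by
    have h1 := ENNReal.toReal_mono (by
      refine ENNReal.mul_ne_top (ENNReal.natCast_ne_top _) (ENNReal.mul_ne_top ENNReal.ofReal_ne_top hfin)) hfinal
    rw [ENNReal.toReal_mul, ENNReal.toReal_mul, ENNReal.toReal_mul, ENNReal.toReal_mul,
      ENNReal.toReal_mul, ENNReal.toReal_pow, ENNReal.toReal_ofReal (by positivity),
      ENNReal.toReal_ofReal (by positivity), ENNReal.toReal_natCast,
      ENNReal.toReal_natCast] at h1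
    simpa using h1
  have hμpos : 0 < (μ K).toReal := ENNReal.toReal_pos hpos.ne' hfin
  rw [Nat.cast_sub hcardpos] at hr
  have h17 : (17 : ℝ) ^ D * (1 / 16) ^ D = (17 / 16) ^ D := by rw [← mul_pow]; norm_num
  have hc : 0 < (17 / 16 : ℝ) ^ D * (μ K).toReal := by positivity
  push_cast at hr
  have h18 : (17 : ℝ) ^ D * (#X * ((1 / 16) ^ D * (μ K).toReal))
      = #X * ((17 / 16) ^ D * (μ K).toReal) := by rw [← h17]; ring
  rw [h18] at hr
  linarith

theorem vol_pigeon {I : Type*} [Fintype I] (Q : Set (I → ℝ)) (hconv : Convex ℝ Q)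
    (hsymm : ∀ h ∈ Q, -h ∈ Q) (hclosed : IsClosed Q) (hbdd : ∀ h ∈ Q, ∀ y, |h y| ≤ 1)
    (hint : Q ∈ nhds (0 : I → ℝ)) {A : Type*} [Fintype A] (v : A → I → ℝ)
    (X : Finset (I → ℝ)) (hX : ∀ x ∈ X, x ∈ Q) :
    ∃ X' ⊆ X, #X ≤ 17 ^ Fintype.card A * #X' ∧ ∀ x ∈ X', ∀ x' ∈ X', ∃ h ∈ Q,
      ∀ a, ∑ y, v a y * (x y - x' y) = (1 / 8) * ∑ y, v a y * h y := by
  classical
  let π : (I → ℝ) →ₗ[ℝ] (A → ℝ) := LinearMap.pi (fun a =>
    { toFun := fun h => ∑ y, v a y * h y
      map_add' := by intro h h'; simp [mul_add, sum_add_distrib]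
      map_smul' := by
        intro c h
        simp only [Pi.smul_apply, smul_eq_mul, RingHom.id_apply, mul_sum]
        exact sum_congr rfl fun y _ => by ring })
  have hπ : ∀ h a, π h a = ∑ y, v a y * h y := fun h a => rfl
  let ρ : (I → ℝ) →ₗ[ℝ] LinearMap.range π := π.rangeRestrict
  have hρ : ∀ h, ((ρ h : LinearMap.range π) : A → ℝ) = π h := fun h => rfl
  have hsurj : Function.Surjective ρ := LinearMap.surjective_rangeRestrict π
  have hopen : IsOpenMap ρ := LinearMap.isOpenMap_of_finiteDimensional ρ hsurj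
  have hcont : Continuous ρ := LinearMap.continuous_of_finiteDimensional ρ
  have hQc : IsCompact Q := by
    refine Metric.isCompact_of_isClosed_isBounded hclosed ?_
    refine (Metric.isBounded_closedBall (x := (0 : I → ℝ)) (r := 1)).subset ?_
    intro h hh
    rw [mem_closedBall_zero_iff, pi_norm_le_iff_of_nonneg (by norm_num)]
    intro y
    rw [Real.norm_eq_abs]
    exact hbdd h hh y
  have hK1 : Convex ℝ (ρ '' Q) := hconv.linear_image ρ
  have hK2 : IsCompact (ρ '' Q) := hQc.image hcont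
  have hK3 : ρ '' Q ∈ nhds (0 : LinearMap.range π) := by
    have := hopen.image_mem_nhds hint
    rwa [map_zero] at this
  obtain ⟨z, X', hX'X, hcard, hz⟩ := vol_pigeon_aux (ρ '' Q) hK1 hK2 hK3 X ρ
    (fun x hx => ⟨x, hX x hx, rfl⟩)
  refine ⟨X', hX'X, ?_, ?_⟩
  · refine hcard.trans (Nat.mul_le_mul_right _ (Nat.pow_le_pow_right (by norm_num) ?_))
    calc Module.finrank ℝ (LinearMap.range π) ≤ Module.finrank ℝ (A → ℝ) := Submodule.finrank_le _
      _ = Fintype.card A := by simp
  · intro x hx x' hx'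
    obtain ⟨_, ⟨k, hk, rfl⟩, hkz⟩ := hz x hx
    obtain ⟨_, ⟨k', hk', rfl⟩, hkz'⟩ := hz x' hx'
    refine ⟨(1 / 2 : ℝ) • k' + (1 / 2 : ℝ) • (-k),
      hconv hk' (hsymm k hk) (by norm_num) (by norm_num) (by norm_num), fun a => ?_⟩
    have h1 : ρ x + (1 / 16 : ℝ) • ρ k = ρ x' + (1 / 16 : ℝ) • ρ k' := by rw [← hkz, ← hkz']
    have h2 : π x a + (1 / 16 : ℝ) * π k a = π x' a + (1 / 16 : ℝ) * π k' a := by
      have := congrArg (fun w : LinearMap.range π => (w : A → ℝ) a) h1
      simpa [hρ] using this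
    simp only [hπ] at h2
    have e1 : ∑ y, v a y * (x y - x' y) = ∑ y, v a y * x y - ∑ y, v a y * x' y := by
      rw [← sum_sub_distrib]
      exact sum_congr rfl fun y _ => by ring
    have e2 : ∑ y, v a y * ((1 / 2 : ℝ) • k' + (1 / 2 : ℝ) • (-k)) y
        = (1 / 2) * (∑ y, v a y * k' y) - (1 / 2) * ∑ y, v a y * k y := by
      rw [mul_sum, mul_sum, ← sum_sub_distrib]
      exact sum_congr rfl fun y _ => by
        simp only [Pi.add_apply, Pi.smul_apply, Pi.neg_apply, smul_eq_mul]; ring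
    rw [e1, e2]
    linarith

end Pool.Agent.H75.MX
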