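import Pool.Agent.H75.MX.Defs

set_option autoImplicit false
set_option linter.unusedSectionVars false

/-! The weights. -/

open Finset

namespace Pool.Agent.H75.MX

variable {d : ℕ}

lemma om1_pos (v : ℕ) (x : ℤ) : 0 < om1 v x := by
  unfold om1
  positivity

lemma om1_le_one (v : ℕ) (x : ℤ) : om1 v x ≤ 1 := by
  unfold om1
  rw [div_le_one (by positivity)]
  have := sq_nonneg ((x : ℝ) / 8 ^ v)
  linarith

lemma om1_neg (v : ℕ) (x : ℤ) : om1 v (-x) = om1 v x := by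
  unfold om1
  push_cast
  rw [neg_div, neg_sq]

lemma om1_mono {v w : ℕ} (h : v ≤ w) (x : ℤ) : om1 v x ≤ om1 w x := by
  unfold om1
  have h1 : (8 : ℝ) ^ v ≤ 8 ^ w := pow_le_pow_right₀ (by norm_num) h
  have h2 : ((x : ℝ) / 8 ^ w) ^ 2 ≤ ((x : ℝ) / 8 ^ v) ^ 2 := by
    rw [div_pow, div_pow]
    gcongr
  apply one_div_le_one_div_of_le (by positivity)
  linarith

/-- comparison of the weights at two points -/
private lemma om1_cmp {v : ℕ} {x y : ℤ} {C : ℝ} (hC : 0 ≤ C)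
    (h : 1 + ((y : ℝ) / 8 ^ v) ^ 2 ≤ C * (1 + ((x : ℝ) / 8 ^ v) ^ 2)) :
    om1 v x ≤ C * om1 v y := by
  unfold om1
  rw [mul_one_div, div_le_div_iff₀ (by positivity) (by positivity), one_mul]
  exact h

lemma om1_shift (v : ℕ) (x t : ℤ) (ht : |t| ≤ 8 ^ v) : om1 v x ≤ 3 * om1 v (x + t) := by
  apply om1_cmp (by norm_num)
  have hN : (0 : ℝ) < 8 ^ v := by positivity
  have h1 : |(t : ℝ) / 8 ^ v| ≤ 1 := by
    rw [abs_div, abs_of_pos hN, div_le_one hN]
    exact_mod_cast ht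
  have h2 : ((t : ℝ) / 8 ^ v) ^ 2 ≤ 1 := by
    rw [← sq_abs]
    nlinarith [abs_nonneg ((t : ℝ) / 8 ^ v)]
  have h3 : ((x + t : ℤ) : ℝ) / 8 ^ v = (x : ℝ) / 8 ^ v + (t : ℝ) / 8 ^ v := by
    push_cast
    ring
  rw [h3]
  nlinarith [sq_nonneg ((x : ℝ) / 8 ^ v - (t : ℝ) / 8 ^ v), sq_nonneg ((x : ℝ) / 8 ^ v)]

/-- lower bound near zero -/
lemma om1_low (v : ℕ) (x : ℤ) (hx : |x| ≤ 5 * 8 ^ v) : 1 / 26 ≤ om1 v x := by
  unfold om1
  have hN : (0 : ℝ) < 8 ^ v := by positivity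
  have h1 : |(x : ℝ) / 8 ^ v| ≤ 5 := by
    rw [abs_div, abs_of_pos hN, div_le_iff₀ hN]
    exact_mod_cast hx
  have h2 : ((x : ℝ) / 8 ^ v) ^ 2 ≤ 25 := by
    rw [← sq_abs]
    nlinarith [abs_nonneg ((x : ℝ) / 8 ^ v)]
  apply one_div_le_one_div_of_le (by positivity)
  linarith

/-- decay -/
lemma om1_decay (v : ℕ) (x : ℤ) (hx : x ≠ 0) : om1 v x ≤ 8 ^ (2 * v) / (x : ℝ) ^ 2 := by
  unfold om1
  have hx' : (0 : ℝ) < (x : ℝ) ^ 2 := by
    have : (x : ℝ) ≠ 0 := by exact_mod_cast hx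
    positivity
  have hN : (0 : ℝ) < 8 ^ v := by positivity
  rw [div_le_div_iff₀ (by positivity) hx', one_mul, div_pow, mul_comm 2 v, pow_mul]
  have : ((8 : ℝ) ^ v) ^ 2 * (1 + (x : ℝ) ^ 2 / (8 ^ v) ^ 2) = ((8 : ℝ) ^ v) ^ 2 + (x : ℝ) ^ 2 := by
    field_simp
  rw [this]
  nlinarith [sq_nonneg ((8 : ℝ) ^ v)]

lemma wt_pos (V : Fin d → ℕ) (k : Fr d) : 0 < wt V k :=
  Finset.prod_pos fun _ _ => om1_pos _ _

lemma wt_le_one (V : Fin d → ℕ) (k : Fr d) : wt V k ≤ 1 :=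
  Finset.prod_le_one (fun _ _ => (om1_pos _ _).le) fun _ _ => om1_le_one _ _

lemma wt_neg (V : Fin d → ℕ) (k : Fr d) : wt V (-k) = wt V k := by
  unfold wt
  exact Finset.prod_congr rfl fun j _ => by rw [Pi.neg_apply, om1_neg]

lemma wt_mono {V W : Fin d → ℕ} (h : V ≤ W) (k : Fr d) : wt V k ≤ wt W k :=
  Finset.prod_le_prod (fun _ _ => (om1_pos _ _).le) fun j _ => om1_mono (h j) _

lemma wt_shift (V : Fin d → ℕ) (k t : Fr d) (ht : ∀ j, |t j| ≤ 8 ^ V j) :
    wt V k ≤ 3 ^ d * wt V (k + t) := by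
  unfold wt
  have h1 : (3 : ℝ) ^ d = ∏ _j : Fin d, 3 := by simp
  rw [h1, ← Finset.prod_mul_distrib]
  exact Finset.prod_le_prod (fun _ _ => (om1_pos _ _).le) fun j _ => om1_shift _ _ _ (ht j)

lemma wt_low (V : Fin d → ℕ) (k : Fr d) (hk : ∀ j, |k j| ≤ 5 * 8 ^ V j) :
    (1 / 26) ^ d ≤ wt V k := by
  unfold wt
  have h1 : (1 / 26 : ℝ) ^ d = ∏ _j : Fin d, (1 / 26) := by simp
  rw [h1]
  exact Finset.prod_le_prod (fun _ _ => by norm_num) fun j _ => om1_low _ _ (hk j)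

/-- the sum of the weight over the nonnegative integers -/
private lemma sum_nat {v B : ℕ} (h : 8 ^ v ≤ B) :
    ∑ n ∈ Finset.range (B + 1), om1 v (n : ℤ) ≤ 3 * 8 ^ v := by
  have hN : (1 : ℝ) ≤ 8 ^ v := one_le_pow₀ (by norm_num)
  have e : Finset.range (B + 1) ⊆ Finset.range (8 ^ v + 1) ∪ Finset.Ioc (8 ^ v) B := by
    intro n hn
    simp only [Finset.mem_union, Finset.mem_range, Finset.mem_Ioc] at hn ⊢
    omega
  have h0 : ∀ n : ℕ, 0 ≤ om1 v (n : ℤ) := fun n => (om1_pos _ _).le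
  have hdis : Disjoint (Finset.range (8 ^ v + 1)) (Finset.Ioc (8 ^ v) B) := by
    rw [Finset.disjoint_left]
    intro n hn hn'
    simp only [Finset.mem_range, Finset.mem_Ioc] at hn hn'
    omega
  calc ∑ n ∈ Finset.range (B + 1), om1 v (n : ℤ)
      ≤ ∑ n ∈ Finset.range (8 ^ v + 1) ∪ Finset.Ioc (8 ^ v) B, om1 v (n : ℤ) :=
        Finset.sum_le_sum_of_subset_of_nonneg e fun n _ _ => h0 n
    _ = ∑ n ∈ Finset.range (8 ^ v + 1), om1 v (n : ℤ)
        + ∑ n ∈ Finset.Ioc (8 ^ v) B, om1 v (n : ℤ) := Finset.sum_union hdis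
    _ ≤ ∑ _n ∈ Finset.range (8 ^ v + 1), (1 : ℝ)
        + ∑ n ∈ Finset.Ioc (8 ^ v) B, 8 ^ (2 * v) * (((n : ℕ) : ℝ) ^ 2)⁻¹ := by
        apply add_le_add
        · exact Finset.sum_le_sum fun n _ => om1_le_one _ _
        · refine Finset.sum_le_sum fun n hn => ?_
          have hn0 : (n : ℤ) ≠ 0 := by
            have h1 : 8 ^ v < n := (Finset.mem_Ioc.1 hn).1
            have h2 : 0 < n := lt_of_le_of_lt (Nat.zero_le _) h1
            exact_mod_cast h2.ne'
          have := om1_decay v (n : ℤ) hn0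
          rw [div_eq_mul_inv] at this
          exact_mod_cast this
    _ ≤ (8 ^ v + 1) + 8 ^ (2 * v) * (8 ^ v)⁻¹ := by
        apply add_le_add
        · simp
        · rw [← Finset.mul_sum]
          apply mul_le_mul_of_nonneg_left _ (by positivity)
          have h1 := sum_Ioc_inv_sq_le_sub (α := ℝ) (k := 8 ^ v) (n := B) (by positivity) h
          have h2 : (0 : ℝ) ≤ (B : ℝ)⁻¹ := by positivity
          push_cast at h1
          linarith
    _ = 2 * 8 ^ v + 1 := by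
        rw [mul_comm 2 v, pow_mul]
        field_simp
        ring
    _ ≤ 3 * 8 ^ v := by linarith

/-- the sum of the weight over a symmetric interval -/
private lemma sum_int {v B : ℕ} (h : 8 ^ v ≤ B) :
    ∑ m ∈ Finset.Icc (-(B : ℤ)) B, om1 v m ≤ 6 * 8 ^ v := by
  have e : Finset.Icc (-(B : ℤ)) B ⊆
      (Finset.range (B + 1)).image (fun n : ℕ => (n : ℤ)) ∪
        (Finset.range (B + 1)).image (fun n : ℕ => -(n : ℤ)) := by
    intro m hm
    simp only [Finset.mem_union, Finset.mem_image, Finset.mem_range, Finset.mem_Icc] at hm ⊢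
    rcases le_total 0 m with h0 | h0
    · left
      exact ⟨m.toNat, by omega, by omega⟩
    · right
      exact ⟨(-m).toNat, by omega, by omega⟩
  have h0 : ∀ m : ℤ, 0 ≤ om1 v m := fun m => (om1_pos _ _).le
  calc ∑ m ∈ Finset.Icc (-(B : ℤ)) B, om1 v m
      ≤ ∑ m ∈ (Finset.range (B + 1)).image (fun n : ℕ => (n : ℤ)) ∪
        (Finset.range (B + 1)).image (fun n : ℕ => -(n : ℤ)), om1 v m :=
        Finset.sum_le_sum_of_subset_of_nonneg e fun n _ _ => h0 n
    _ ≤ ∑ m ∈ (Finset.range (B + 1)).image (fun n : ℕ => (n : ℤ)), om1 v m +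
        ∑ m ∈ (Finset.range (B + 1)).image (fun n : ℕ => -(n : ℤ)), om1 v m := by
        rw [← Finset.sum_union_inter]
        have : 0 ≤ ∑ m ∈ (Finset.range (B + 1)).image (fun n : ℕ => (n : ℤ)) ∩
          (Finset.range (B + 1)).image (fun n : ℕ => -(n : ℤ)), om1 v m :=
          Finset.sum_nonneg fun m _ => h0 m
        linarith
    _ = 2 * ∑ n ∈ Finset.range (B + 1), om1 v (n : ℤ) := by
        rw [Finset.sum_image, Finset.sum_image]
        · simp only [om1_neg]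
          ring
        · intro a _ b _ hab
          simpa using hab
        · intro a _ b _ hab
          simpa using hab
    _ ≤ 6 * 8 ^ v := by
        have := sum_nat h
        linarith

lemma ker1 (s v : ℕ) (x : ℤ) :
    ∑ l ∈ Finset.Ioo (-(5 * (8 : ℤ) ^ s)) (5 * 8 ^ s), om1 v (x + l)
      ≤ 2000 * 8 ^ min s v * om1 (max s v) x := by
  have hcard : ((Finset.Ioo (-(5 * (8 : ℤ) ^ s)) (5 * 8 ^ s)).card : ℝ) ≤ 10 * 8 ^ s := by
    rw [Int.card_Ioo]
    have h8 : (0 : ℤ) < 8 ^ s := by positivity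
    have : ((5 * 8 ^ s - -(5 * (8 : ℤ) ^ s) - 1).toNat : ℤ) ≤ 10 * 8 ^ s := by
      rw [Int.toNat_of_nonneg (by linarith)]
      linarith
    exact_mod_cast this
  rcases le_or_gt s v with hsv | hsv
  · rw [min_eq_left hsv, max_eq_right hsv]
    have hterm : ∀ l ∈ Finset.Ioo (-(5 * (8 : ℤ) ^ s)) (5 * 8 ^ s),
        om1 v (x + l) ≤ 51 * om1 v x := by
      intro l hl
      rw [Finset.mem_Ioo] at hl
      apply om1_cmp (by norm_num)
      have hN : (0 : ℝ) < 8 ^ v := by positivity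
      have h8 : (8 : ℤ) ^ s ≤ 8 ^ v := pow_le_pow_right₀ (by norm_num) hsv
      have h0 : |l| ≤ 5 * 8 ^ v := by
        rw [abs_le]
        constructor <;> linarith
      have h1 : |(l : ℝ) / 8 ^ v| ≤ 5 := by
        rw [abs_div, abs_of_pos hN, div_le_iff₀ hN]
        exact_mod_cast h0
      have h2 : ((l : ℝ) / 8 ^ v) ^ 2 ≤ 25 := by
        rw [← sq_abs]
        nlinarith [abs_nonneg ((l : ℝ) / 8 ^ v)]
      have h3 : (x : ℝ) / 8 ^ v = ((x + l : ℤ) : ℝ) / 8 ^ v - (l : ℝ) / 8 ^ v := by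
        push_cast
        ring
      rw [h3]
      nlinarith [sq_nonneg (((x + l : ℤ) : ℝ) / 8 ^ v + (l : ℝ) / 8 ^ v),
        sq_nonneg (((x + l : ℤ) : ℝ) / 8 ^ v)]
    have h4 := Finset.sum_le_card_nsmul _ _ _ hterm
    rw [nsmul_eq_mul] at h4
    refine h4.trans ?_
    have h5 := om1_pos v x
    have h6 : (0 : ℝ) < 8 ^ s := by positivity
    calc ((Finset.Ioo (-(5 * (8 : ℤ) ^ s)) (5 * 8 ^ s)).card : ℝ) * (51 * om1 v x)
        ≤ 10 * 8 ^ s * (51 * om1 v x) := by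
          apply mul_le_mul_of_nonneg_right hcard
          positivity
      _ ≤ 2000 * 8 ^ s * om1 v x := by nlinarith [mul_pos h6 h5]
  · rw [min_eq_right hsv.le, max_eq_left hsv.le]
    have hNs : (0 : ℝ) < 8 ^ s := by positivity
    have hNv : (0 : ℝ) < 8 ^ v := by positivity
    have hvs : (8 : ℝ) ^ v ≤ 8 ^ s := pow_le_pow_right₀ (by norm_num) hsv.le
    rcases le_or_gt |x| (10 * 8 ^ s) with hx | hx
    · -- full sum
      have h1 : ∑ l ∈ Finset.Ioo (-(5 * (8 : ℤ) ^ s)) (5 * 8 ^ s), om1 v (x + l)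
          ≤ 6 * 8 ^ v := by
        have hB : 8 ^ v ≤ 8 ^ v + 15 * 8 ^ s := Nat.le_add_right _ _
        refine le_trans ?_ (sum_int hB)
        rw [← Finset.sum_image (f := fun m => om1 v m) (g := fun l => x + l)
          (fun a _ b _ hab => by simpa using hab)]
        refine Finset.sum_le_sum_of_subset_of_nonneg ?_ fun m _ _ => (om1_pos _ _).le
        intro m hm
        obtain ⟨l, hl, rfl⟩ := Finset.mem_image.1 hm
        rw [Finset.mem_Ioo] at hl
        rw [Finset.mem_Icc]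
        have h8 : (0 : ℤ) < 8 ^ v := by positivity
        rw [abs_le] at hx
        push_cast
        constructor <;> linarith [hx.1, hx.2, hl.1, hl.2]
      have h2 : 1 / 101 ≤ om1 s x := by
        unfold om1
        have h3 : |(x : ℝ) / 8 ^ s| ≤ 10 := by
          rw [abs_div, abs_of_pos hNs, div_le_iff₀ hNs]
          exact_mod_cast hx
        have h4 : ((x : ℝ) / 8 ^ s) ^ 2 ≤ 100 := by
          rw [← sq_abs]
          nlinarith [abs_nonneg ((x : ℝ) / 8 ^ s)]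
        apply one_div_le_one_div_of_le (by positivity)
        linarith
      nlinarith [mul_le_mul_of_nonneg_left h2 hNv.le]
    · -- far away
      have hx0 : x ≠ 0 := by
        rintro rfl
        rw [abs_zero] at hx
        have : (0 : ℤ) < 8 ^ s := by positivity
        linarith
      have hxR : (10 : ℝ) * 8 ^ s < |(x : ℝ)| := by exact_mod_cast hx
      have hx2 : (0 : ℝ) < (x : ℝ) ^ 2 := by
        have : (x : ℝ) ≠ 0 := by exact_mod_cast hx0
        positivity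
      have hterm : ∀ l ∈ Finset.Ioo (-(5 * (8 : ℤ) ^ s)) (5 * 8 ^ s),
          om1 v (x + l) ≤ 4 * 8 ^ (2 * v) / (x : ℝ) ^ 2 := by
        intro l hl
        rw [Finset.mem_Ioo] at hl
        have hl1 : |(l : ℝ)| ≤ 5 * 8 ^ s := by
          have : |l| ≤ 5 * 8 ^ s := by
            rw [abs_le]
            constructor <;> linarith
          exact_mod_cast this
        have hl2 : |(x : ℝ)| / 2 ≤ |((x + l : ℤ) : ℝ)| := by
          have h3 := abs_sub_abs_le_abs_sub (x : ℝ) (-(l : ℝ))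
          rw [abs_neg, sub_neg_eq_add] at h3
          push_cast
          linarith
        have h4 : (x : ℝ) ^ 2 / 4 ≤ ((x + l : ℤ) : ℝ) ^ 2 := by
          rw [← sq_abs (x : ℝ), ← sq_abs ((x + l : ℤ) : ℝ)]
          nlinarith [abs_nonneg (x : ℝ), abs_nonneg ((x + l : ℤ) : ℝ)]
        have h5 : x + l ≠ 0 := by
          intro h6
          rw [h6] at h4
          simp at h4
          nlinarith
        refine (om1_decay v (x + l) h5).trans ?_
        rw [div_le_div_iff₀ (by linarith) hx2]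
        have h6 : (0 : ℝ) ≤ 8 ^ (2 * v) := by positivity
        nlinarith [mul_le_mul_of_nonneg_left h4 h6]
      have h4 := Finset.sum_le_card_nsmul _ _ _ hterm
      rw [nsmul_eq_mul] at h4
      refine h4.trans ?_
      have h5 : (8 : ℝ) ^ (2 * s) / (2 * (x : ℝ) ^ 2) ≤ om1 s x := by
        unfold om1
        rw [div_le_div_iff₀ (by positivity) (by positivity), one_mul, div_pow, mul_comm 2 s,
          pow_mul]
        have h6 : ((8 : ℝ) ^ s) ^ 2 * (1 + (x : ℝ) ^ 2 / (8 ^ s) ^ 2)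
            = ((8 : ℝ) ^ s) ^ 2 + (x : ℝ) ^ 2 := by
          field_simp
        rw [h6]
        have h7 : ((8 : ℝ) ^ s) ^ 2 ≤ (x : ℝ) ^ 2 := by
          rw [← sq_abs (x : ℝ)]
          nlinarith
        linarith
      calc ((Finset.Ioo (-(5 * (8 : ℤ) ^ s)) (5 * 8 ^ s)).card : ℝ)
            * (4 * 8 ^ (2 * v) / (x : ℝ) ^ 2)
          ≤ 10 * 8 ^ s * (4 * 8 ^ (2 * v) / (x : ℝ) ^ 2) := by
            apply mul_le_mul_of_nonneg_right hcard
            positivity
        _ ≤ 2000 * 8 ^ v * (8 ^ (2 * s) / (2 * (x : ℝ) ^ 2)) := by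
            rw [mul_div_assoc', mul_div_assoc', div_le_div_iff₀ hx2 (by positivity)]
            have h6 : (8 : ℝ) ^ s * 8 ^ (2 * v) ≤ 8 ^ v * 8 ^ (2 * s) := by
              rw [mul_comm 2 v, mul_comm 2 s, pow_mul, pow_mul]
              nlinarith [mul_pos hNs hNv]
            nlinarith [mul_le_mul_of_nonneg_right h6 hx2.le,
              mul_pos (mul_pos hNv (by positivity : (0 : ℝ) < 8 ^ (2 * s))) hx2]
        _ ≤ 2000 * 8 ^ v * om1 s x := by
            apply mul_le_mul_of_nonneg_left h5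
            positivity

/-- the kernel inequality -/
theorem kerD (s V : Fin d → ℕ) (k : Fr d) :
    ∑ l ∈ SB s, wt V (k + l) ≤ 2000 ^ d * 8 ^ (∑ j, min (s j) (V j)) * wt (V ⊔ s) k := by
  have h1 : ∑ l ∈ SB s, wt V (k + l) ≤
      ∑ l ∈ Fintype.piFinset (fun j => Finset.Ioo (-(5 * (8 : ℤ) ^ s j)) (5 * 8 ^ s j)),
        ∏ j, om1 (V j) (k j + l j) :=
    Finset.sum_le_sum_of_subset_of_nonneg (Finset.filter_subset _ _)
      fun l _ _ => (wt_pos V (k + l)).le
  refine h1.trans ?_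
  rw [← Finset.prod_univ_sum (fun j => Finset.Ioo (-(5 * (8 : ℤ) ^ s j)) (5 * 8 ^ s j))
    (fun j l => om1 (V j) (k j + l))]
  have h2 : (2000 : ℝ) ^ d = ∏ _j : Fin d, 2000 := by simp
  rw [h2, ← Finset.prod_pow_eq_pow_sum, ← Finset.prod_mul_distrib, wt, ← Finset.prod_mul_distrib]
  refine Finset.prod_le_prod (fun j _ => Finset.sum_nonneg fun l _ => (om1_pos _ _).le)
    fun j _ => ?_
  have h3 := ker1 (s j) (V j) (k j)
  have h4 : (V ⊔ s) j = max (s j) (V j) := by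
    rw [Pi.sup_apply]
    exact max_comm _ _
  rw [h4]
  exact h3

end Pool.Agent.H75.MX
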